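import Pool.Agent.Lib.MP_ecd12e_nt.GM.Defs

/-! Parseval and Bessel. -/

namespace Pool.Agent.Lib.MP_ecd12e_nt.GM

open Finset Real MeasureTheory
open Pool.Agent.Lib.MP_ecd12e_nt.Bar
open scoped ContDiff ComplexConjugate

/-- Orthogonality of the characters over a period. -/
theorem int_ei (k : ℤ) (x0 : ℝ) :
    ∫ θ in x0..x0 + 2 * π, ei (k * θ) = if k = 0 then ((2 * π : ℝ) : ℂ) else 0 := by
  split_ifs with hk
  · subst hk
    simp [ei]
  · have hk' : (Complex.I * (k : ℝ) : ℂ) ≠ 0 :=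
      mul_ne_zero Complex.I_ne_zero (by exact_mod_cast hk)
    have hd : ∀ θ ∈ Set.uIcc x0 (x0 + 2 * π),
        HasDerivAt (fun y : ℝ => ei (k * y) / (Complex.I * (k : ℝ))) (ei (k * θ)) θ := by
      intro θ _
      have h1 := (hasDerivAt_ei ((hasDerivAt_id θ).const_mul (k : ℝ))).div_const
        (Complex.I * (k : ℝ))
      rw [mul_one, mul_div_cancel_left₀ _ hk'] at h1
      exact h1
    rw [intervalIntegral.integral_eq_sub_of_hasDerivAt hd
      (Continuous.intervalIntegrable (by fun_prop) _ _)]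
    have e : (k : ℝ) * (x0 + 2 * π) = k * x0 + 2 * π * k := by ring
    rw [e, ei_add, ei_two_pi_int, mul_one, sub_self]

theorem Pars_inner (S : Finset ℤ) (ρ : ℤ → ℂ) {h : ℝ → ℂ} (hc : Continuous h) (a b : ℝ) :
    ∫ θ in a..b, h θ * conj (tp S ρ θ) =
      ∑ k ∈ S, conj (ρ k) * ∫ θ in a..b, h θ * ei (-(k * θ)) := by
  have e : ∀ θ, h θ * conj (tp S ρ θ) = ∑ k ∈ S, conj (ρ k) * (h θ * ei (-(k * θ))) := by
    intro θ
    rw [tp, map_sum, mul_sum]
    refine sum_congr rfl fun k _ => ?_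
    rw [map_mul, conj_ei]
    ring
  simp only [e]
  rw [intervalIntegral.integral_finsetSum fun k _ =>
    Continuous.intervalIntegrable (by fun_prop) _ _]
  exact sum_congr rfl fun k _ => intervalIntegral.integral_const_mul _ _

theorem Pars_coef (S : Finset ℤ) (ρ : ℤ → ℂ) (x0 : ℝ) {k : ℤ} (hk : k ∈ S) :
    ∫ θ in x0..x0 + 2 * π, tp S ρ θ * ei (-(k * θ)) = ρ k * ((2 * π : ℝ) : ℂ) := by
  have e : ∀ θ : ℝ, tp S ρ θ * ei (-(k * θ)) = ∑ t ∈ S, ρ t * ei ((t - k : ℤ) * θ) := by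
    intro θ
    rw [tp, sum_mul]
    refine sum_congr rfl fun t _ => ?_
    rw [mul_assoc, ← ei_add]
    congr 2
    push_cast
    ring
  simp only [e]
  rw [intervalIntegral.integral_finsetSum fun k _ =>
    Continuous.intervalIntegrable (by fun_prop) _ _, sum_eq_single k]
  · rw [intervalIntegral.integral_const_mul, int_ei, if_pos (sub_self k)]
  · intro t _ ht
    rw [intervalIntegral.integral_const_mul, int_ei, if_neg (sub_ne_zero.2 ht), mul_zero]
  · exact fun h => absurd hk h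

/-- Expand `‖tp‖ ^ 2 = tp * conj tp` and use `int_ei`. -/
theorem parseval (S : Finset ℤ) (ρ : ℤ → ℂ) (x0 : ℝ) :
    ∫ θ in x0..x0 + 2 * π, ‖tp S ρ θ‖ ^ 2 = 2 * π * sq2 S ρ := by
  apply Complex.ofReal_injective
  rw [← intervalIntegral.integral_ofReal]
  have e : ∀ θ, ((‖tp S ρ θ‖ ^ 2 : ℝ) : ℂ) = tp S ρ θ * conj (tp S ρ θ) := fun θ => by
    rw [Complex.mul_conj']
    push_cast
    rfl
  simp only [e]
  rw [Pars_inner S ρ (continuous_tp S ρ), sq2, mul_sum, Complex.ofReal_sum]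
  refine sum_congr rfl fun k hk => ?_
  rw [Pars_coef S ρ x0 hk, ← mul_assoc, Complex.conj_mul']
  push_cast
  ring

theorem int_tp_le (S : Finset ℤ) (ρ : ℤ → ℂ) {x0 x1 : ℝ} (h : x0 ≤ x1) (h' : x1 ≤ x0 + 2 * π) :
    ∫ θ in x0..x1, ‖tp S ρ θ‖ ^ 2 ≤ 2 * π * sq2 S ρ := by
  rw [← parseval S ρ x0]
  exact intervalIntegral.integral_mono_interval le_rfl h h'
    (Filter.Eventually.of_forall fun θ => sq_nonneg _)
    (Continuous.intervalIntegrable (by fun_prop) _ _)

theorem Pars_nice {x : ℝ → ℝ} (h : Nice x) : ∫ θ, x θ = ∫ θ in (-2 : ℝ)..2, x θ := by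
  refine (intervalIntegral.integral_eq_integral_of_support_subset fun θ hθ => ?_).symm
  have h1 : |θ| < 2 := by
    by_contra hc
    exact hθ (h.supp θ (not_lt.1 hc))
  exact ⟨(abs_lt.1 h1).1, (abs_lt.1 h1).2.le⟩

theorem int_ab_sq (S : Finset ℤ) (ρ : ℤ → ℂ) : ∫ θ, ab S ρ θ ^ 2 ≤ 2 * π * sq2 S ρ := by
  have h := (nice_ab S ρ).pow two_ne_zero
  rw [Pars_nice h]
  refine le_trans ?_ (int_tp_le S ρ (x0 := -2) (x1 := 2) (by norm_num)
    (by linarith [pi_gt_three]))
  refine intervalIntegral.integral_mono_on (by norm_num) (h.cont.intervalIntegrable _ _)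
    (Continuous.intervalIntegrable (by fun_prop) _ _) fun θ _ => ?_
  exact pow_le_pow_left₀ ((nice_ab S ρ).nonneg θ)
    (mul_le_of_le_one_left (norm_nonneg _) (chi_le_one θ)) 2

/-- Cauchy-Schwarz on `[-2, 2]` (or `x ≤ s + x ^ 2 / (4 s)`). -/
theorem Nice.int_le {x : ℝ → ℝ} (h : Nice x) {A : ℝ} (hA : ∫ θ, x θ ^ 2 ≤ A) :
    ∫ θ, x θ ≤ 2 * √A := by
  have h2 := h.pow two_ne_zero
  have hA0 : 0 ≤ A := (integral_nonneg h2.nonneg).trans hA
  have hc := h.cont
  have key : ∀ s : ℝ, 0 < s → ∫ θ, x θ ≤ s + A / s := by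
    intro s hs
    rw [Pars_nice h2] at hA
    calc ∫ θ, x θ = ∫ θ in (-2 : ℝ)..2, x θ := Pars_nice h
      _ ≤ ∫ θ in (-2 : ℝ)..2, (s / 4 + x θ ^ 2 / s) := by
        refine intervalIntegral.integral_mono_on (by norm_num) (hc.intervalIntegrable _ _)
          (Continuous.intervalIntegrable (by fun_prop) _ _) fun θ _ => ?_
        have e : s / 4 + x θ ^ 2 / s - x θ = (x θ - s / 2) ^ 2 / s := by
          field_simp
          ring
        have : 0 ≤ (x θ - s / 2) ^ 2 / s := by positivity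
        linarith
      _ = s + (∫ θ in (-2 : ℝ)..2, x θ ^ 2) / s := by
        rw [intervalIntegral.integral_add (Continuous.intervalIntegrable (by fun_prop) _ _)
          (Continuous.intervalIntegrable (by fun_prop) _ _), intervalIntegral.integral_const,
          intervalIntegral.integral_div, smul_eq_mul]
        ring
      _ ≤ s + A / s := by gcongr
  rcases hA0.eq_or_lt with h0 | h0
  · rw [← h0, sqrt_zero, mul_zero]
    refine le_of_forall_pos_le_add fun s hs => ?_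
    have := key s hs
    rw [← h0, zero_div] at this
    linarith
  · have h1 := key (√A) (sqrt_pos.2 h0)
    rw [div_sqrt] at h1
    linarith

/-- Duality: with `c k` the coefficients and `P = tp K c`, the sum `s` equals `∫ h * conj P`, and
`‖h‖ ‖P‖ ≤ (2 π ‖h‖ ^ 2 + ‖P‖ ^ 2 / (2 π)) / 2`. -/
theorem bessel {h : ℝ → ℂ} (hc : Continuous h) (K : Finset ℤ) :
    ∑ k ∈ K, ‖∫ θ in (0:ℝ)..2 * π, h θ * ei (-(k * θ))‖ ^ 2
      ≤ 2 * π * ∫ θ in (0:ℝ)..2 * π, ‖h θ‖ ^ 2 := by
  set c : ℤ → ℂ := fun k => ∫ θ in (0:ℝ)..2 * π, h θ * ei (-(k * θ)) with hcdef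
  have hπ : 0 < 2 * π := two_pi_pos
  have h1 : ((sq2 K c : ℝ) : ℂ) = ∫ θ in (0:ℝ)..2 * π, h θ * conj (tp K c θ) := by
    rw [Pars_inner K c hc, sq2, Complex.ofReal_sum]
    refine sum_congr rfl fun k _ => ?_
    change _ = conj (c k) * c k
    rw [Complex.conj_mul']
    push_cast
    rfl
  have h2 := parseval K c 0
  rw [zero_add] at h2
  have h3 : sq2 K c ≤ ∫ θ in (0:ℝ)..2 * π, (π * ‖h θ‖ ^ 2 + ‖tp K c θ‖ ^ 2 / (4 * π)) := by
    calc sq2 K c = ‖((sq2 K c : ℝ) : ℂ)‖ := by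
          rw [Complex.norm_real, Real.norm_of_nonneg (sq2_nonneg _ _)]
      _ ≤ ∫ θ in (0:ℝ)..2 * π, ‖h θ * conj (tp K c θ)‖ := by
          rw [h1]
          exact intervalIntegral.norm_integral_le_integral_norm hπ.le
      _ ≤ _ := by
          refine intervalIntegral.integral_mono_on hπ.le
            (Continuous.intervalIntegrable (by fun_prop) _ _)
            (Continuous.intervalIntegrable (by fun_prop) _ _) fun θ _ => ?_
          rw [norm_mul, Complex.norm_conj]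
          have e : π * ‖h θ‖ ^ 2 + ‖tp K c θ‖ ^ 2 / (4 * π) - ‖h θ‖ * ‖tp K c θ‖ =
              (2 * π * ‖h θ‖ - ‖tp K c θ‖) ^ 2 / (4 * π) := by
            field_simp
            ring
          have : 0 ≤ (2 * π * ‖h θ‖ - ‖tp K c θ‖) ^ 2 / (4 * π) := by positivity
          linarith
  rw [intervalIntegral.integral_add (Continuous.intervalIntegrable (by fun_prop) _ _)
    (Continuous.intervalIntegrable (by fun_prop) _ _), intervalIntegral.integral_const_mul,
    intervalIntegral.integral_div, h2] at h3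
  have e : 2 * π * sq2 K c / (4 * π) = sq2 K c / 2 := by
    field_simp
    ring
  rw [e] at h3
  change sq2 K c ≤ _
  linarith

/-- Reindex `t' = t + α`; terms outside `S` vanish. -/
theorem tp_mul_conj {H : ℕ} {ρ : ℤ → ℂ} (hρ : ∀ t, t ∉ box H → ρ t = 0) {H' : ℕ}
    (hH : 2 * H ≤ H') (x x' θ : ℝ) :
    tp (box H) ρ (θ + x) * conj (tp (box H) ρ (θ + x'))
      = tp (box H') (cor (box H) ρ x x') θ := by
  have e : tp (box H') (cor (box H) ρ x x') θ = ∑ t ∈ box H, ∑ α ∈ box H',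
      ρ (t + α) * ei (((t + α : ℤ) : ℝ) * (θ + x)) * conj (ρ t * ei (t * (θ + x'))) := by
    rw [tp, sum_comm]
    refine sum_congr rfl fun α _ => ?_
    rw [cor, sum_mul]
    refine sum_congr rfl fun t _ => ?_
    have e1 : ei (((t : ℝ) + α) * x - t * x') * ei (α * θ) =
        ei (((t + α : ℤ) : ℝ) * (θ + x)) * ei (-(t * (θ + x'))) := by
      rw [← ei_add, ← ei_add]
      congr 1
      push_cast
      ring
    rw [map_mul, conj_ei, mul_assoc, e1]
    ring
  rw [e]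
  conv_lhs => rw [tp, tp, map_sum, mul_sum]
  refine sum_congr rfl fun t ht => ?_
  rw [← sum_mul]
  congr 1
  rw [← sum_image (s := box H') (g := fun α => t + α)
    (f := fun u : ℤ => ρ u * ei ((u : ℝ) * (θ + x))) fun a _ b _ h => add_left_cancel h]
  refine sum_subset (fun u hu => ?_) fun u _ hu => by rw [hρ u hu, zero_mul]
  refine mem_image.2 ⟨u - t, ?_, by ring⟩
  simp only [box, mem_Icc] at hu ht ⊢
  omega

/-- `tp_mul_conj` and `parseval`. -/
theorem sq2_cor {H : ℕ} {ρ : ℤ → ℂ} (hρ : ∀ t, t ∉ box H → ρ t = 0) {H' : ℕ} (hH : 2 * H ≤ H')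
    {s : ℝ} (hs : ∀ θ, ‖tp (box H) ρ θ‖ ≤ s) (x x' : ℝ) :
    sq2 (box H') (cor (box H) ρ x x') ≤ s ^ 2 * sq2 (box H) ρ := by
  have hπ : 0 < 2 * π := two_pi_pos
  refine le_of_mul_le_mul_left ?_ hπ
  rw [← parseval _ _ 0, mul_left_comm, ← parseval _ _ x, ← intervalIntegral.integral_const_mul]
  have h1 := intervalIntegral.integral_comp_add_right
    (fun θ => s ^ 2 * ‖tp (box H) ρ θ‖ ^ 2) (a := 0) (b := 0 + 2 * π) x
  rw [zero_add x, zero_add, add_comm (2 * π) x] at h1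
  rw [← h1, zero_add]
  refine intervalIntegral.integral_mono_on hπ.le
    (Continuous.intervalIntegrable (by fun_prop) _ _)
    (Continuous.intervalIntegrable (by fun_prop) _ _) fun θ _ => ?_
  rw [← tp_mul_conj hρ hH, norm_mul, Complex.norm_conj, mul_pow, mul_comm]
  exact mul_le_mul_of_nonneg_right (pow_le_pow_left₀ (norm_nonneg _) (hs _) 2) (sq_nonneg _)

end Pool.Agent.Lib.MP_ecd12e_nt.GM
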