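import Pool.Agent.Lib.MP_ecd12e_nt.GM.Defs

/-! Van der Corput lemmas for integrals. -/

namespace Pool.Agent.Lib.MP_ecd12e_nt.GM

open Finset Real MeasureTheory
open Pool.Agent.Lib.MP_ecd12e_nt.Bar
open scoped ContDiff ComplexConjugate

theorem Vdc_inv {x0 x1 A B η : ℝ} (hx : x0 ≤ x1) (hη : 0 < η)
    (hψ : ∀ x ∈ Set.Icc x0 x1, η ≤ |A * exp x + B|) :
    ∫ x in x0..x1, |A| * exp x / (A * exp x + B) ^ 2 ≤ 1 / η := by
  have hne : ∀ x ∈ Set.Icc x0 x1, A * exp x + B ≠ 0 := fun x hx h => by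
    have := hψ x hx
    rw [h, abs_zero] at this
    linarith
  have hc : ContinuousOn (fun x => A * exp x / (A * exp x + B) ^ 2) (Set.Icc x0 x1) :=
    ContinuousOn.div (by fun_prop) (by fun_prop) fun x hx => pow_ne_zero 2 (hne x hx)
  have hI : ∫ x in x0..x1, A * exp x / (A * exp x + B) ^ 2 =
      -(A * exp x1 + B)⁻¹ - -(A * exp x0 + B)⁻¹ := by
    refine intervalIntegral.integral_eq_sub_of_hasDerivAt (f := fun x => -(A * exp x + B)⁻¹)
      (fun x hx' => ?_) (hc.intervalIntegrable_of_Icc hx)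
    rw [Set.uIcc_of_le hx] at hx'
    have h1 : HasDerivAt (fun x => A * exp x + B) (A * exp x) x :=
      ((hasDerivAt_exp x).const_mul A).add_const B
    refine ((h1.inv (hne x hx')).neg).congr_deriv ?_
    ring
  have h0 := hψ x0 ⟨le_rfl, hx⟩
  have h1 := hψ x1 ⟨hx, le_rfl⟩
  have hcψ : ContinuousOn (fun x => A * exp x + B) (Set.Icc x0 x1) := by fun_prop
  have hb : |-(A * exp x1 + B)⁻¹ - -(A * exp x0 + B)⁻¹| ≤ 1 / η := by
    rw [one_div]
    rcases le_abs'.1 h0 with g0 | g0 <;> rcases le_abs'.1 h1 with g1 | g1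
    · have a0 : (-(A * exp x0 + B))⁻¹ ≤ η⁻¹ := inv_anti₀ hη (by linarith)
      have a1 : (-(A * exp x1 + B))⁻¹ ≤ η⁻¹ := inv_anti₀ hη (by linarith)
      have b0 : 0 < (-(A * exp x0 + B))⁻¹ := inv_pos.2 (by linarith)
      have b1 : 0 < (-(A * exp x1 + B))⁻¹ := inv_pos.2 (by linarith)
      rw [inv_neg] at a0 a1 b0 b1
      rw [abs_le]
      constructor <;> linarith
    · obtain ⟨x, hx1, hx2⟩ := intermediate_value_Icc hx hcψ
        (show (0 : ℝ) ∈ Set.Icc _ _ from ⟨by linarith, by linarith⟩)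
      exact absurd hx2 (hne x hx1)
    · obtain ⟨x, hx1, hx2⟩ := intermediate_value_Icc' hx hcψ
        (show (0 : ℝ) ∈ Set.Icc _ _ from ⟨by linarith, by linarith⟩)
      exact absurd hx2 (hne x hx1)
    · have a0 : (A * exp x0 + B)⁻¹ ≤ η⁻¹ := inv_anti₀ hη g0
      have a1 : (A * exp x1 + B)⁻¹ ≤ η⁻¹ := inv_anti₀ hη g1
      have b0 : 0 < (A * exp x0 + B)⁻¹ := inv_pos.2 (by linarith)
      have b1 : 0 < (A * exp x1 + B)⁻¹ := inv_pos.2 (by linarith)
      rw [abs_le]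
      constructor <;> linarith
  rw [← hI] at hb
  rcases le_total 0 A with hA | hA
  · rw [abs_of_nonneg hA]
    exact (le_abs_self _).trans hb
  · rw [abs_of_nonpos hA]
    have : ∫ x in x0..x1, -A * exp x / (A * exp x + B) ^ 2 =
        -∫ x in x0..x1, A * exp x / (A * exp x + B) ^ 2 := by
      rw [← intervalIntegral.integral_neg]
      congr 1
      funext x
      ring
    rw [this]
    exact (neg_le_abs _).trans hb

theorem Vdc_cont {x0 x1 : ℝ} {f f' : ℝ → ℝ} (h : ∀ x ∈ Set.Icc x0 x1, HasDerivAt f (f' x) x) :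
    ContinuousOn f (Set.Icc x0 x1) := fun x hx => (h x hx).continuousAt.continuousWithinAt

/-- First derivative test. With `ψ = A exp x + B`, of constant sign on the interval,
`b k ei φ = (b / (i ψ)) (ei φ)'`; integrate by parts; `∫ |ψ'| / ψ² = |1 / ψ x0 - 1 / ψ x1| ≤ 1 / η`. -/
theorem vdc1 {x0 x1 A B η β0 β1 : ℝ} {φ k b b' : ℝ → ℝ} (hx : x0 ≤ x1) (hη : 0 < η)
    (hφ : ∀ x ∈ Set.Icc x0 x1, HasDerivAt φ ((A * exp x + B) * k x) x)
    (hk : ContinuousOn k (Set.Icc x0 x1)) (hb : ∀ x ∈ Set.Icc x0 x1, HasDerivAt b (b' x) x)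
    (hb' : ContinuousOn b' (Set.Icc x0 x1)) (h0 : ∀ x ∈ Set.Icc x0 x1, |b x| ≤ β0)
    (h1 : ∀ x ∈ Set.Icc x0 x1, |b' x| ≤ β1) (hψ : ∀ x ∈ Set.Icc x0 x1, η ≤ |A * exp x + B|) :
    ‖∫ x in x0..x1, ((b x * k x : ℝ) : ℂ) * ei (φ x)‖ ≤ (3 * β0 + β1 * (x1 - x0)) / η := by
  have hne : ∀ x ∈ Set.Icc x0 x1, A * exp x + B ≠ 0 := fun x hx h => by
    have := hψ x hx
    rw [h, abs_zero] at this
    linarith
  have cφ := Vdc_cont hφ
  have cb := Vdc_cont hb
  have ce : ContinuousOn (fun x => ei (φ x)) (Set.Icc x0 x1) := continuous_ei.comp_continuousOn cφ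
  have hβ0 : 0 ≤ β0 := (abs_nonneg _).trans (h0 x0 ⟨le_rfl, hx⟩)
  obtain ⟨g', hg'⟩ : ∃ g' : ℝ → ℝ, g' = fun x =>
      b' x / (A * exp x + B) - b x * (A * exp x / (A * exp x + B) ^ 2) := ⟨_, rfl⟩
  have cq : ContinuousOn (fun x => A * exp x / (A * exp x + B) ^ 2) (Set.Icc x0 x1) :=
    ContinuousOn.div (by fun_prop) (by fun_prop) fun x hx => pow_ne_zero 2 (hne x hx)
  have cq' : ContinuousOn (fun x => |A| * exp x / (A * exp x + B) ^ 2) (Set.Icc x0 x1) :=
    ContinuousOn.div (by fun_prop) (by fun_prop) fun x hx => pow_ne_zero 2 (hne x hx)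
  have cg' : ContinuousOn g' (Set.Icc x0 x1) := by
    rw [hg']
    exact (hb'.div (by fun_prop) hne).sub (cb.mul cq)
  have c1 : ContinuousOn (fun x => (g' x : ℂ) * ei (φ x)) (Set.Icc x0 x1) :=
    (Complex.continuous_ofReal.comp_continuousOn cg').mul ce
  have c2 : ContinuousOn (fun x => ((b x * k x : ℝ) : ℂ) * ei (φ x)) (Set.Icc x0 x1) :=
    (Complex.continuous_ofReal.comp_continuousOn (cb.mul hk)).mul ce
  have i1 := c1.intervalIntegrable_of_Icc (μ := volume) hx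
  have i2 := c2.intervalIntegrable_of_Icc (μ := volume) hx
  have hI : ∫ x in x0..x1, ((g' x : ℂ) * ei (φ x) + Complex.I * (((b x * k x : ℝ) : ℂ) * ei (φ x))) =
      ((b x1 / (A * exp x1 + B) : ℝ) : ℂ) * ei (φ x1) -
        ((b x0 / (A * exp x0 + B) : ℝ) : ℂ) * ei (φ x0) := by
    refine intervalIntegral.integral_eq_sub_of_hasDerivAt
      (f := fun x => ((b x / (A * exp x + B) : ℝ) : ℂ) * ei (φ x)) (fun x hx' => ?_)
      (i1.add (i2.const_mul _))
    rw [Set.uIcc_of_le hx] at hx'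
    have d1 : HasDerivAt (fun x => A * exp x + B) (A * exp x) x :=
      ((hasDerivAt_exp x).const_mul A).add_const B
    have d2 : HasDerivAt (fun x => b x / (A * exp x + B)) (g' x) x := by
      refine ((hb x hx').div d1 (hne x hx')).congr_deriv ?_
      rw [hg']
      have := hne x hx'
      field_simp
    refine (d2.ofReal_comp.mul (hasDerivAt_ei (hφ x hx'))).congr_deriv ?_
    have h3 : b x * k x = b x / (A * exp x + B) * ((A * exp x + B) * k x) := by
      have := hne x hx'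
      field_simp
    rw [h3, Complex.ofReal_mul (b x / (A * exp x + B))]
    ring
  rw [intervalIntegral.integral_add i1 (i2.const_mul _), intervalIntegral.integral_const_mul] at hI
  have hF : ∀ x ∈ Set.Icc x0 x1, ‖((b x / (A * exp x + B) : ℝ) : ℂ) * ei (φ x)‖ ≤ β0 / η := by
    intro x hx'
    rw [norm_mul, norm_ei, mul_one, Complex.norm_real, Real.norm_eq_abs, abs_div]
    exact div_le_div₀ hβ0 (h0 x hx') hη (hψ x hx')
  have hG : ‖∫ x in x0..x1, (g' x : ℂ) * ei (φ x)‖ ≤ β1 / η * (x1 - x0) + β0 * (1 / η) := by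
    have i3 : IntervalIntegrable (fun x => |A| * exp x / (A * exp x + B) ^ 2) volume x0 x1 :=
      cq'.intervalIntegrable_of_Icc hx
    have h3 := intervalIntegral.norm_integral_le_of_norm_le (μ := volume)
      (f := fun x => (g' x : ℂ) * ei (φ x))
      (g := fun x => β1 / η + β0 * (|A| * exp x / (A * exp x + B) ^ 2)) hx
      (Filter.Eventually.of_forall fun x hx' => by
        have hx'' : x ∈ Set.Icc x0 x1 := Set.Ioc_subset_Icc_self hx'
        rw [norm_mul, norm_ei, mul_one, Complex.norm_real, Real.norm_eq_abs, hg']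
        refine (abs_sub _ _).trans (add_le_add ?_ ?_)
        · rw [abs_div]
          exact div_le_div₀ ((abs_nonneg _).trans (h1 x hx'')) (h1 x hx'') hη (hψ x hx'')
        · rw [abs_mul, abs_div, abs_mul, abs_of_pos (exp_pos x), abs_of_nonneg (sq_nonneg (A * exp x + B))]
          exact mul_le_mul_of_nonneg_right (h0 x hx'') (by positivity))
      (intervalIntegrable_const.add (i3.const_mul _))
    refine h3.trans ?_
    rw [intervalIntegral.integral_add intervalIntegrable_const (i3.const_mul _),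
      intervalIntegral.integral_const, intervalIntegral.integral_const_mul, smul_eq_mul, mul_comm]
    exact add_le_add le_rfl (mul_le_mul_of_nonneg_left (Vdc_inv hx hη hψ) hβ0)
  have h4 : ‖∫ x in x0..x1, ((b x * k x : ℝ) : ℂ) * ei (φ x)‖ =
      ‖((b x1 / (A * exp x1 + B) : ℝ) : ℂ) * ei (φ x1) -
        ((b x0 / (A * exp x0 + B) : ℝ) : ℂ) * ei (φ x0) - ∫ x in x0..x1, (g' x : ℂ) * ei (φ x)‖ := by
    rw [← hI, add_sub_cancel_left, norm_mul, Complex.norm_I, one_mul]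
  rw [h4]
  have h5 := hF x0 ⟨le_rfl, hx⟩
  have h6 := hF x1 ⟨hx, le_rfl⟩
  calc _ ≤ (β0 / η + β0 / η) + (β1 / η * (x1 - x0) + β0 * (1 / η)) :=
        (norm_sub_le _ _).trans (add_le_add ((norm_sub_le _ _).trans (add_le_add h6 h5)) hG)
    _ = _ := by ring

theorem Vdc_split {x0 x1 c : ℝ} {ψ : ℝ → ℝ} (hx : x0 ≤ x1)
    (hc : Continuous ψ) : ∃ y ∈ Set.Icc x0 x1, (y = x0 ∨ ψ y ≤ c) ∧ (y = x1 ∨ c ≤ ψ y) := by
  rcases le_total c (ψ x0) with h0 | h0
  · exact ⟨x0, ⟨le_rfl, hx⟩, Or.inl rfl, Or.inr h0⟩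
  · rcases le_total (ψ x1) c with h1 | h1
    · exact ⟨x1, ⟨hx, le_rfl⟩, Or.inr h1, Or.inl rfl⟩
    · obtain ⟨y, hy, hy'⟩ := intermediate_value_Icc hx hc.continuousOn
        (show c ∈ Set.Icc _ _ from ⟨h0, h1⟩)
      exact ⟨y, hy, Or.inr hy'.le, Or.inr hy'.ge⟩

theorem Vdc_pos {x0 x1 A B η β0 β1 κ0 : ℝ} {φ k b b' : ℝ → ℝ} (hx : x0 ≤ x1) (hη : 0 < η)
    (hA : 0 < A) (hφ : ∀ x ∈ Set.Icc x0 x1, HasDerivAt φ ((A * exp x + B) * k x) x)
    (hk : ContinuousOn k (Set.Icc x0 x1)) (hb : ∀ x ∈ Set.Icc x0 x1, HasDerivAt b (b' x) x)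
    (hb' : ContinuousOn b' (Set.Icc x0 x1)) (h0 : ∀ x ∈ Set.Icc x0 x1, |b x| ≤ β0)
    (h1 : ∀ x ∈ Set.Icc x0 x1, |b' x| ≤ β1) (h2 : ∀ x ∈ Set.Icc x0 x1, |b x * k x| ≤ κ0) :
    ‖∫ x in x0..x1, ((b x * k x : ℝ) : ℂ) * ei (φ x)‖
      ≤ (6 * β0 + β1 * (x1 - x0)) / η + κ0 * (2 * η / (A * exp x0)) := by
  have hm : Monotone fun x => A * exp x + B := fun x y hxy =>
    add_le_add_left (mul_le_mul_of_nonneg_left (exp_le_exp.2 hxy) hA.le) B
  have hc : Continuous fun x => A * exp x + B := by fun_prop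
  have hβ0 : 0 ≤ β0 := (abs_nonneg _).trans (h0 x0 ⟨le_rfl, hx⟩)
  have hβ1 : 0 ≤ β1 := (abs_nonneg _).trans (h1 x0 ⟨le_rfl, hx⟩)
  have hκ : 0 ≤ κ0 := (abs_nonneg _).trans (h2 x0 ⟨le_rfl, hx⟩)
  have c2 : ContinuousOn (fun x => ((b x * k x : ℝ) : ℂ) * ei (φ x)) (Set.Icc x0 x1) :=
    (Complex.continuous_ofReal.comp_continuousOn ((Vdc_cont hb).mul hk)).mul
      (continuous_ei.comp_continuousOn (Vdc_cont hφ))
  have hint : ∀ u v, x0 ≤ u → u ≤ v → v ≤ x1 →
      IntervalIntegrable (fun x => ((b x * k x : ℝ) : ℂ) * ei (φ x)) volume u v :=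
    fun u v hu huv hv => (c2.mono (Set.Icc_subset_Icc hu hv)).intervalIntegrable_of_Icc huv
  have hside : ∀ u v, x0 ≤ u → u ≤ v → v ≤ x1 →
      (u = v ∨ ∀ x ∈ Set.Icc u v, η ≤ |A * exp x + B|) →
      ‖∫ x in u..v, ((b x * k x : ℝ) : ℂ) * ei (φ x)‖ ≤ (3 * β0 + β1 * (v - u)) / η := by
    intro u v hu huv hv h
    rcases h with rfl | h
    · rw [intervalIntegral.integral_same, norm_zero, sub_self, mul_zero, add_zero]
      positivity
    · have hs := Set.Icc_subset_Icc hu hv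
      exact vdc1 huv hη (fun x hx => hφ x (hs hx)) (hk.mono hs) (fun x hx => hb x (hs hx))
        (hb'.mono hs) (fun x hx => h0 x (hs hx)) (fun x hx => h1 x (hs hx)) h
  obtain ⟨y0, ⟨a0, a1⟩, a2, a3⟩ := Vdc_split (c := -η) hx hc
  obtain ⟨y1, ⟨b0, b1⟩, b2, b3⟩ := Vdc_split (c := η) a1 hc
  have s1 := hside x0 y0 le_rfl a0 a1 (a2.imp Eq.symm fun h x hx =>
    le_abs'.2 (Or.inl ((hm hx.2).trans h)))
  have s3 := hside y1 x1 (a0.trans b0) b1 le_rfl (b3.imp id fun h x hx =>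
    le_abs'.2 (Or.inr (h.trans (hm hx.1))))
  have hlen : y1 - y0 ≤ 2 * η / (A * exp x0) := by
    have hp : 0 < A * exp x0 := by positivity
    by_cases hy : y1 = y0
    · rw [hy, sub_self]
      positivity
    · have e1 : A * exp y1 + B ≤ η := b2.resolve_left hy
      have e2 : -η ≤ A * exp y0 + B := a3.resolve_left fun h => hy (le_antisymm (h ▸ b1) b0)
      rw [le_div_iff₀ hp]
      have e3 : exp y1 = exp y0 * exp (y1 - y0) := by
        rw [← exp_add]
        congr 1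
        ring
      have e4 := add_one_le_exp (y1 - y0)
      have e5 : exp x0 ≤ exp y0 := exp_le_exp.2 a0
      have e6 : (y1 - y0) * exp x0 ≤ exp y1 - exp y0 := by
        calc (y1 - y0) * exp x0 ≤ (y1 - y0) * exp y0 :=
              mul_le_mul_of_nonneg_left e5 (by linarith)
          _ ≤ _ := by
              rw [e3]
              nlinarith [exp_pos y0]
      nlinarith
  have s2 : ‖∫ x in y0..y1, ((b x * k x : ℝ) : ℂ) * ei (φ x)‖ ≤ κ0 * (2 * η / (A * exp x0)) := by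
    refine (intervalIntegral.norm_integral_le_of_norm_le_const (C := κ0) fun x hx' => ?_).trans ?_
    · rw [Set.uIoc_of_le b0] at hx'
      rw [norm_mul, norm_ei, mul_one, Complex.norm_real, Real.norm_eq_abs]
      exact h2 x ⟨a0.trans hx'.1.le, hx'.2.trans b1⟩
    · rw [abs_of_nonneg (sub_nonneg.2 b0)]
      exact mul_le_mul_of_nonneg_left hlen hκ
  rw [← intervalIntegral.integral_add_adjacent_intervals (hint x0 y0 le_rfl a0 a1)
      (hint y0 x1 a0 a1 le_rfl),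
    ← intervalIntegral.integral_add_adjacent_intervals (hint y0 y1 a0 b0 b1)
      (hint y1 x1 (a0.trans b0) b1 le_rfl)]
  refine (norm_add_le _ _).trans ((add_le_add s1 ((norm_add_le _ _).trans
    (add_le_add s2 s3))).trans ?_)
  have e7 : (3 * β0 + β1 * (y0 - x0)) / η + (3 * β0 + β1 * (x1 - y1)) / η ≤
      (6 * β0 + β1 * (x1 - x0)) / η := by
    rw [← add_div]
    refine div_le_div_of_nonneg_right ?_ hη.le
    nlinarith [mul_nonneg hβ1 (sub_nonneg.2 b0)]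
  linarith

/-- `ψ` is monotone; split the interval into at most three pieces; the middle one, where
`|ψ| ≤ η`, has length at most `2 η / (|A| exp x0)`. -/
theorem vdc2 {x0 x1 A B η β0 β1 κ0 : ℝ} {φ k b b' : ℝ → ℝ} (hx : x0 ≤ x1) (hη : 0 < η)
    (hA : A ≠ 0) (hφ : ∀ x ∈ Set.Icc x0 x1, HasDerivAt φ ((A * exp x + B) * k x) x)
    (hk : ContinuousOn k (Set.Icc x0 x1)) (hb : ∀ x ∈ Set.Icc x0 x1, HasDerivAt b (b' x) x)
    (hb' : ContinuousOn b' (Set.Icc x0 x1)) (h0 : ∀ x ∈ Set.Icc x0 x1, |b x| ≤ β0)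
    (h1 : ∀ x ∈ Set.Icc x0 x1, |b' x| ≤ β1) (h2 : ∀ x ∈ Set.Icc x0 x1, |b x * k x| ≤ κ0) :
    ‖∫ x in x0..x1, ((b x * k x : ℝ) : ℂ) * ei (φ x)‖
      ≤ (6 * β0 + β1 * (x1 - x0)) / η + κ0 * (2 * η / (|A| * exp x0)) := by
  rcases lt_or_gt_of_ne hA with hA | hA
  · have h := Vdc_pos (A := -A) (B := -B) (φ := φ) (k := fun x => -k x) (b := fun x => -b x)
      (b' := fun x => -b' x) (β0 := β0) (β1 := β1) (κ0 := κ0) hx hη (neg_pos.2 hA)
      (fun x hx => (hφ x hx).congr_deriv (by ring)) hk.neg (fun x hx => (hb x hx).neg) hb'.neg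
      (fun x hx => by simpa using h0 x hx) (fun x hx => by simpa using h1 x hx)
      (fun x hx => by simpa only [neg_mul_neg] using h2 x hx)
    rw [abs_of_neg hA]
    simpa only [neg_mul_neg] using h
  · rw [abs_of_pos hA]
    exact Vdc_pos hx hη hA hφ hk hb hb' h0 h1 h2

end Pool.Agent.Lib.MP_ecd12e_nt.GM
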