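import Pool.Agent.Lib.MP_ecd12e_nt.GM.Pars

/-! Bessel inequality in the variable `exp a`. -/

namespace Pool.Agent.Lib.MP_ecd12e_nt.GM

open Finset Real MeasureTheory
open Pool.Agent.Lib.MP_ecd12e_nt.Bar
open scoped ContDiff ComplexConjugate

/-- Substitution `p = exp a`; `exp 2 ≤ 8` and `exp (-2) ≥ 1 / 8`. -/
theorem int_exp_le {G : ℝ → ℝ} (hG : Continuous G) (h0 : ∀ p, 0 ≤ G p) :
    ∫ a in (-2:ℝ)..2, G (exp a) ≤ 8 * ∫ p in (0:ℝ)..8, G p := by
  have h8 : exp 2 ≤ 8 := by
    have h1 := exp_one_lt_d9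
    have h2 : exp 2 = exp 1 * exp 1 := by rw [← exp_add]; norm_num
    nlinarith [exp_pos 1]
  have h1 : ∫ a in (-2:ℝ)..2, (G ∘ exp) a * exp a = ∫ p in exp (-2)..exp 2, G p :=
    intervalIntegral.integral_comp_mul_deriv (fun x _ => hasDerivAt_exp x)
      continuous_exp.continuousOn hG
  have h2 : ∫ p in exp (-2)..exp 2, G p ≤ ∫ p in (0:ℝ)..8, G p :=
    intervalIntegral.integral_mono_interval (exp_pos _).le (exp_le_exp.2 (by norm_num)) h8
      (Filter.Eventually.of_forall h0) (hG.intervalIntegrable _ _)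
  refine le_trans ?_ (mul_le_mul_of_nonneg_left (h1.le.trans h2) (by norm_num))
  rw [← intervalIntegral.integral_const_mul]
  refine intervalIntegral.integral_mono_on (by norm_num)
    (Continuous.intervalIntegrable (by fun_prop) _ _)
    (Continuous.intervalIntegrable (by fun_prop) _ _) fun a ha => ?_
  have h3 : exp (-2) * exp 2 = 1 := by rw [← exp_add]; norm_num
  have h4 : exp (-2) ≤ exp a := exp_le_exp.2 ha.1
  have h5 : 1 ≤ 8 * exp a := by nlinarith [exp_pos (-2)]
  rw [Function.comp_apply]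
  nlinarith [mul_le_mul_of_nonneg_left h5 (h0 (exp a))]

/-- Orthogonality on `[0, 8]`. -/
theorem int_ei_eight (k : ℤ) :
    ∫ p in (0:ℝ)..8, ei (2 * π * k * p) = if k = 0 then 8 else 0 := by
  split_ifs with hk
  · simp [hk, ei_zero]
  · have hc : (2 * π * k * Complex.I : ℂ) ≠ 0 := by
      simp [hk, Real.pi_ne_zero]
    have e : ∀ p : ℝ, ei (2 * π * k * p) = Complex.exp (2 * π * k * Complex.I * p) := fun p => by
      unfold ei
      congr 1
      push_cast
      ring
    have h8 : ei (2 * π * k * 8) = 1 := by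
      rw [← ei_two_pi_int (k * 8)]
      congr 1
      push_cast
      ring
    rw [intervalIntegral.integral_congr fun p _ => e p, integral_exp_mul_complex hc, ← e, ← e, h8,
      mul_zero, ei_zero, sub_self, zero_div]

theorem Bes_pars (K : Finset ℤ) (ρ : ℤ → ℂ) :
    ∫ p in (0:ℝ)..8, ‖∑ k ∈ K, ρ k * ei (2 * π * k * p)‖ ^ 2 = 8 * ∑ k ∈ K, ‖ρ k‖ ^ 2 := by
  have e : ∀ p : ℝ, ((‖∑ k ∈ K, ρ k * ei (2 * π * k * p)‖ ^ 2 : ℝ) : ℂ) =
      ∑ k ∈ K, ∑ l ∈ K, ρ k * conj (ρ l) * ei (2 * π * ((k - l : ℤ) : ℝ) * p) := fun p => by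
    rw [Complex.ofReal_pow, ← Complex.mul_conj', map_sum, Finset.sum_mul_sum]
    refine Finset.sum_congr rfl fun k _ => Finset.sum_congr rfl fun l _ => ?_
    rw [map_mul, conj_ei, mul_mul_mul_comm, ← ei_add]
    congr 2
    push_cast
    ring
  apply Complex.ofReal_injective
  rw [← intervalIntegral.integral_ofReal, intervalIntegral.integral_congr fun p _ => e p,
    intervalIntegral.integral_finsetSum fun k _ =>
      Continuous.intervalIntegrable (by fun_prop) _ _]
  push_cast
  rw [Finset.mul_sum]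
  refine Finset.sum_congr rfl fun k hk => ?_
  rw [intervalIntegral.integral_finsetSum fun l _ =>
    Continuous.intervalIntegrable (by fun_prop) _ _, Finset.sum_eq_single k]
  · rw [intervalIntegral.integral_const_mul, Complex.mul_conj']
    simp [ei_zero, mul_comm]
  · intro l _ hl
    have := int_ei_eight (k - l)
    rw [if_neg (sub_ne_zero.2 hl.symm)] at this
    push_cast at this
    rw [intervalIntegral.integral_const_mul, this, mul_zero]
  · exact fun h => absurd hk h

/-- Duality as in `bessel`, with `P p = ∑ c k * ei (-(2 π k p))`, `∫_0^8 ‖P‖ ^ 2 = 8 ∑ ‖c‖ ^ 2`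
and `int_exp_le`. -/
theorem bessel_exp {x : ℝ → ℝ} (hx : Nice x) (K : Finset ℤ) :
    ∑ k ∈ K, ‖hh x k‖ ^ 2 ≤ 64 * ∫ a, x a ^ 2 := by
  have hc := hx.cont
  set P : ℝ → ℂ := fun p => ∑ k ∈ K, conj (hh x k) * ei (2 * π * k * p) with hP
  have hPc : Continuous P := by rw [hP]; fun_prop
  have hint : ∀ k : ℤ, Integrable fun a => (x a : ℂ) * ei (2 * π * k * exp a) := fun k =>
    Continuous.integrable_of_hasCompactSupport (by fun_prop)
      ((hx.compact.comp_left (g := fun t : ℝ => (t : ℂ)) Complex.ofReal_zero).mul_right)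
  have h1 : ((∑ k ∈ K, ‖hh x k‖ ^ 2 : ℝ) : ℂ) = ∫ a, (x a : ℂ) * P (exp a) := by
    have e : ∀ a, (x a : ℂ) * P (exp a) =
        ∑ k ∈ K, conj (hh x k) * ((x a : ℂ) * ei (2 * π * k * exp a)) := fun a => by
      simp only [hP, Finset.mul_sum]
      exact Finset.sum_congr rfl fun k _ => by ring
    simp only [e]
    rw [integral_finsetSum _ fun k _ => (hint k).const_mul _]
    push_cast
    refine Finset.sum_congr rfl fun k _ => ?_
    rw [integral_const_mul, ← Complex.conj_mul']
    rfl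
  have hsupp : ∀ {f : ℝ → ℝ}, (∀ a, 2 ≤ |a| → f a = 0) → ∫ a in (-2:ℝ)..2, f a = ∫ a, f a := by
    intro f hf
    refine intervalIntegral.integral_eq_integral_of_support_subset fun a ha => ?_
    have := abs_lt.1 (not_le.1 fun h => ha (hf a h))
    exact ⟨this.1, this.2.le⟩
  have h2 : ∑ k ∈ K, ‖hh x k‖ ^ 2 ≤ ∫ a in (-2:ℝ)..2, x a * ‖P (exp a)‖ := by
    rw [hsupp fun a ha => by rw [hx.supp a ha, zero_mul]]
    have h3 := norm_integral_le_integral_norm (μ := volume) fun a => (x a : ℂ) * P (exp a)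
    rw [← h1, Complex.norm_real, Real.norm_eq_abs] at h3
    refine (le_abs_self _).trans (h3.trans (le_of_eq ?_))
    refine integral_congr_ae (Filter.Eventually.of_forall fun a => ?_)
    simp only [norm_mul, Complex.norm_real, Real.norm_eq_abs, abs_of_nonneg (hx.nonneg a)]
  have h3 : ∫ a in (-2:ℝ)..2, x a * ‖P (exp a)‖ ≤
      ∫ a in (-2:ℝ)..2, (32 * x a ^ 2 + 1 / 128 * ‖P (exp a)‖ ^ 2) :=
    intervalIntegral.integral_mono_on (by norm_num)
      (Continuous.intervalIntegrable (by fun_prop) _ _)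
      (Continuous.intervalIntegrable (by fun_prop) _ _) fun a _ => by
        nlinarith [sq_nonneg (64 * x a - ‖P (exp a)‖)]
  rw [intervalIntegral.integral_add (Continuous.intervalIntegrable (by fun_prop) _ _)
    (Continuous.intervalIntegrable (by fun_prop) _ _), intervalIntegral.integral_const_mul,
    intervalIntegral.integral_const_mul,
    hsupp (f := fun a => x a ^ 2) fun a ha => by rw [hx.supp a ha]; norm_num] at h3
  have h4 := int_exp_le (G := fun p => ‖P p‖ ^ 2) (by fun_prop) fun p => by positivity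
  have h5 := Bes_pars K fun k => conj (hh x k)
  simp only [RCLike.norm_conj] at h5
  simp only [hP] at h4 h3 h2
  rw [h5] at h4
  linarith

end Pool.Agent.Lib.MP_ecd12e_nt.GM
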