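import Pool.Agent.Lib.MP_ecd12e_nt.GM.Maj
import Pool.Agent.Lib.MP_ecd12e_nt.GM.Bes

/-! The bilinear form over lines. -/

namespace Pool.Agent.Lib.MP_ecd12e_nt.GM

open Finset Real MeasureTheory
open Pool.Agent.Lib.MP_ecd12e_nt.Bar
open scoped ContDiff ComplexConjugate

lemma Bil_card (M : ℕ) : ((MM M).card : ℝ) ≤ 2 * M := by
  have h : (MM M).card ≤ 2 * M := by
    refine card_erase_le.trans ?_
    rw [Int.card_Ioo]
    omega
  exact_mod_cast h

lemma Bil_fiber {N M : ℕ} {L : ℝ} (h : Lg N L) (hM : M ≤ N) {k : ℤ}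
    (hk : k ∈ ((box N).erase 0 ×ˢ MM M).image fun p : ℤ × ℤ => p.1 * p.2) :
    ((((box N).erase 0 ×ˢ MM M).filter fun p : ℤ × ℤ => p.1 * p.2 = k).card : ℝ) ≤ 2 * L := by
  obtain ⟨⟨l, m⟩, hp, rfl⟩ := mem_image.1 hk
  simp only [mem_product, box, MM, mem_erase, mem_Icc, mem_Ioo] at hp
  have hk0 : (l * m).natAbs ≠ 0 := Int.natAbs_ne_zero.2 (mul_ne_zero hp.1.1 hp.2.1)
  have hle : (l * m).natAbs ≤ N ^ 6 := by
    rw [Int.natAbs_mul]
    calc l.natAbs * m.natAbs ≤ N * N := Nat.mul_le_mul (by omega) (by omega)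
      _ = N ^ 2 := (sq N).symm
      _ ≤ N ^ 6 := Nat.pow_le_pow_right h.hN (by norm_num)
  have h1 := h.hdiv _ hle
  have h2 : (((box N).erase 0 ×ˢ MM M).filter fun p : ℤ × ℤ => p.1 * p.2 = l * m).card ≤
      ((l * m).natAbs.divisors ×ˢ (univ : Finset Bool)).card := by
    refine card_le_card_of_injOn (fun p => (p.1.natAbs, decide (0 < p.1))) ?_ ?_
    · intro p hp'
      have e := (mem_filter.1 hp').2
      refine mem_coe.2 (mem_product.2 ⟨Nat.mem_divisors.2 ⟨?_, hk0⟩, mem_univ _⟩)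
      rw [← e, Int.natAbs_mul]
      exact dvd_mul_right _ _
    · intro p hp' p' hp'' e
      have e1 := (mem_filter.1 hp').2
      have e2 := (mem_filter.1 hp'').2
      have n1 : p.1 ≠ 0 := (mem_erase.1 (mem_product.1 (mem_filter.1 hp').1).1).1
      simp only [Prod.mk.injEq, decide_eq_decide] at e
      have e3 : p.1 = p'.1 := by omega
      refine Prod.ext e3 (mul_left_cancel₀ n1 ?_)
      rw [e1, e3, e2]
  rw [card_product, card_univ, Fintype.card_bool] at h2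
  have h3 : ((((box N).erase 0 ×ˢ MM M).filter
      fun p : ℤ × ℤ => p.1 * p.2 = l * m).card : ℝ) ≤ (l * m).natAbs.divisors.card * 2 := by
    exact_mod_cast h2
  linarith

lemma Bil_int {x : ℝ → ℝ} (hx : Nice x) (k : ℤ) :
    Integrable fun a => (x a : ℂ) * ei (2 * π * k * exp a) := by
  refine Continuous.integrable_of_hasCompactSupport ?_ ?_
  · have := hx.cont
    fun_prop
  · exact (hx.compact.comp_left (g := fun t : ℝ => (t : ℂ)) Complex.ofReal_zero).mul_right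

lemma Bil_norm_hh {x : ℝ → ℝ} (hx : Nice x) (k : ℤ) : ‖hh x k‖ ≤ ∫ a, x a := by
  refine (norm_integral_le_integral_norm _).trans (le_of_eq ?_)
  congr 1
  funext a
  rw [norm_mul, norm_ei, mul_one, Complex.norm_real, Real.norm_of_nonneg (hx.nonneg a)]

lemma Bil_norm_sum {x : ℝ → ℝ} (hx : Nice x) (M : ℕ) (l : ℤ) :
    ‖∑ m ∈ MM M, hh x (l * m)‖ ≤ 2 * M * ∫ a, x a := by
  refine (_root_.norm_sum_le _ _).trans ((sum_le_sum fun m _ => Bil_norm_hh hx (l * m)).trans ?_)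
  rw [sum_const, nsmul_eq_mul]
  exact mul_le_mul_of_nonneg_right (Bil_card M) (integral_nonneg hx.nonneg)

/-- the sum over one family of frequencies -/
noncomputable def Bil_F (M : ℕ) (x : ℝ → ℝ) (l : ℤ) (a : ℝ) : ℂ :=
  ∑ m ∈ MM M, (x a : ℂ) * ei (2 * π * (l * m : ℤ) * exp a)

lemma Bil_F_int {x : ℝ → ℝ} (hx : Nice x) (M : ℕ) (l : ℤ) : Integrable (Bil_F M x l) :=
  integrable_finsetSum _ fun m _ => Bil_int hx (l * m)

lemma Bil_F_integral {x : ℝ → ℝ} (hx : Nice x) (M : ℕ) (l : ℤ) :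
    ∫ a, Bil_F M x l a = ∑ m ∈ MM M, hh x (l * m) :=
  integral_finsetSum _ fun m _ => Bil_int hx (l * m)

/-- Cauchy-Schwarz in `m`; an integer `k ≠ 0` with `|k| ≤ N ^ 2` has at most `2 L` factorisations
`k = l m`; then `bessel_exp`. -/
theorem div_bound {N M : ℕ} {L : ℝ} (h : Lg N L) (hM : M ≤ N) {x : ℝ → ℝ} (hx : Nice x) :
    ∑ l ∈ (box N).erase 0, ‖∑ m ∈ MM M, hh x (l * m)‖ ^ 2 ≤ 256 * L * M * ∫ a, x a ^ 2 := by
  have hL := h.one_le
  have h1 : ∀ l : ℤ, ‖∑ m ∈ MM M, hh x (l * m)‖ ^ 2 ≤ 2 * M * ∑ m ∈ MM M, ‖hh x (l * m)‖ ^ 2 := by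
    intro l
    calc ‖∑ m ∈ MM M, hh x (l * m)‖ ^ 2 ≤ (∑ m ∈ MM M, ‖hh x (l * m)‖) ^ 2 :=
          pow_le_pow_left₀ (norm_nonneg _) (_root_.norm_sum_le _ _) 2
      _ ≤ (MM M).card * ∑ m ∈ MM M, ‖hh x (l * m)‖ ^ 2 := sq_sum_le_card_mul_sum_sq
      _ ≤ _ := mul_le_mul_of_nonneg_right (Bil_card M) (sum_nonneg fun _ _ => by positivity)
  refine (sum_le_sum fun l _ => h1 l).trans ?_
  rw [← mul_sum, ← sum_product' ((box N).erase 0) (MM M) fun l m => ‖hh x (l * m)‖ ^ 2,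
    sum_comp (fun k : ℤ => ‖hh x k‖ ^ 2) fun p : ℤ × ℤ => p.1 * p.2]
  have h2 := bessel_exp hx (((box N).erase 0 ×ˢ MM M).image fun p : ℤ × ℤ => p.1 * p.2)
  have h3 : ∑ k ∈ ((box N).erase 0 ×ˢ MM M).image fun p : ℤ × ℤ => p.1 * p.2,
      (((box N).erase 0 ×ˢ MM M).filter fun p : ℤ × ℤ => p.1 * p.2 = k).card • ‖hh x k‖ ^ 2 ≤
      ∑ k ∈ ((box N).erase 0 ×ˢ MM M).image fun p : ℤ × ℤ => p.1 * p.2,
        2 * L * ‖hh x k‖ ^ 2 := by
    refine sum_le_sum fun k hk => ?_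
    rw [nsmul_eq_mul]
    exact mul_le_mul_of_nonneg_right (Bil_fiber h hM hk) (by positivity)
  rw [← mul_sum] at h3
  have h4 := mul_le_mul_of_nonneg_left h2 (show 0 ≤ 2 * L by positivity)
  have h5 := mul_le_mul_of_nonneg_left (h3.trans h4) (show (0 : ℝ) ≤ 2 * M by positivity)
  refine h5.trans (le_of_eq ?_)
  ring

/-- Apply `majorant` with `y = m1 exp z.1 + m3 exp z.2`. The integral of the majorant is
`∑ l, q l * (∑ m1, hh x (l m1)) * (∑ m3, hh y (l m3))` (`integral_prod_mul`). The term `l = 0` is at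
most `4 M² ∫ x ∫ y`; for the others Cauchy-Schwarz and `div_bound`. -/
theorem bil : ∃ C : ℝ, 0 < C ∧ ∀ (N M : ℕ) (L : ℝ), Lg N L → M ≤ N → ∀ x y : ℝ → ℝ, Nice x →
    Nice y → ∀ K : Finset ℤ,
      ∫ z : ℝ × ℝ, x z.1 * y z.2 * Xi N (MM M) K (MM M) z
        ≤ C / N * (M ^ 2 * ((∫ a, x a) * ∫ a, y a)
          + L * M * (√(∫ a, x a ^ 2) * √(∫ a, y a ^ 2))) := by
  obtain ⟨C, hC, H⟩ := majorant
  refine ⟨256 * C, by positivity, fun N M L h hM x y hx hy K => ?_⟩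
  obtain ⟨q, hq, H⟩ := H N h.hN
  have hL := h.one_le
  have hCN : 0 ≤ C / N := by positivity
  have hint : ∀ l ∈ box N, Integrable fun z : ℝ × ℝ => q l * (Bil_F M x l z.1 * Bil_F M y l z.2) :=
    fun l _ => ((Bil_F_int hx M l).mul_prod (Bil_F_int hy M l)).const_mul (q l)
  have hsum : Integrable fun z : ℝ × ℝ =>
      ∑ l ∈ box N, q l * (Bil_F M x l z.1 * Bil_F M y l z.2) := integrable_finsetSum _ hint
  have hpt : ∀ z : ℝ × ℝ, x z.1 * y z.2 * Xi N (MM M) K (MM M) z ≤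
      C / N * (∑ l ∈ box N, q l * (Bil_F M x l z.1 * Bil_F M y l z.2)).re := by
    intro z
    have h1 : Xi N (MM M) K (MM M) z ≤ ∑ m1 ∈ MM M, ∑ m3 ∈ MM M, C / N *
        (∑ l ∈ box N, q l * ei (2 * π * l * (m1 * exp z.1 + m3 * exp z.2))).re := by
      refine sum_le_sum fun m1 _ => ?_
      rw [sum_comm]
      refine sum_le_sum fun m3 _ => le_trans (le_of_eq ?_) (H _ K)
      refine sum_congr rfl fun k _ => ?_
      congr 2
      ring
    refine (mul_le_mul_of_nonneg_left h1 (mul_nonneg (hx.nonneg _) (hy.nonneg _))).trans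
      (le_of_eq ?_)
    have h2 : ∑ l ∈ box N, q l * (Bil_F M x l z.1 * Bil_F M y l z.2) =
        ((x z.1 * y z.2 : ℝ) : ℂ) * ∑ m1 ∈ MM M, ∑ m3 ∈ MM M,
          ∑ l ∈ box N, q l * ei (2 * π * l * (m1 * exp z.1 + m3 * exp z.2)) := by
      have e0 : ∀ l : ℤ, q l * (Bil_F M x l z.1 * Bil_F M y l z.2) = ∑ m1 ∈ MM M, ∑ m3 ∈ MM M,
          q l * ((x z.1 : ℂ) * ei (2 * π * (l * m1 : ℤ) * exp z.1) *
            ((y z.2 : ℂ) * ei (2 * π * (l * m3 : ℤ) * exp z.2))) := by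
        intro l
        rw [Bil_F, Bil_F, sum_mul_sum, mul_sum]
        exact sum_congr rfl fun m1 _ => mul_sum _ _ _
      simp only [e0, mul_sum]
      rw [sum_comm]
      refine sum_congr rfl fun m1 _ => ?_
      rw [sum_comm]
      refine sum_congr rfl fun m3 _ => sum_congr rfl fun l _ => ?_
      have e : 2 * π * l * (m1 * exp z.1 + m3 * exp z.2) =
          2 * π * (l * m1 : ℤ) * exp z.1 + 2 * π * (l * m3 : ℤ) * exp z.2 := by
        push_cast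
        ring
      rw [e, ei_add]
      push_cast
      ring
    rw [h2, Complex.re_ofReal_mul, Complex.re_sum]
    simp only [Complex.re_sum (MM M), ← mul_sum]
    ring
  have h0 : ∀ z : ℝ × ℝ, 0 ≤ x z.1 * y z.2 * Xi N (MM M) K (MM M) z := fun z =>
    mul_nonneg (mul_nonneg (hx.nonneg _) (hy.nonneg _)) (sum_nonneg fun _ _ =>
      sum_nonneg fun _ _ => sum_nonneg fun _ _ => (ps_pos _).le)
  refine (integral_mono_of_nonneg (ae_of_all _ h0) (hsum.re.const_mul (C / N))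
    (ae_of_all _ hpt)).trans ?_
  rw [integral_const_mul, integral_re hsum, integral_finsetSum _ hint]
  have h3 : ∀ l ∈ box N, ∫ z : ℝ × ℝ, q l * (Bil_F M x l z.1 * Bil_F M y l z.2) =
      q l * ((∑ m ∈ MM M, hh x (l * m)) * ∑ m ∈ MM M, hh y (l * m)) := by
    intro l _
    rw [integral_const_mul, Measure.volume_eq_prod, integral_prod_mul, Bil_F_integral hx,
      Bil_F_integral hy]
  rw [sum_congr rfl h3]
  have h4 : RCLike.re (∑ l ∈ box N,
      q l * ((∑ m ∈ MM M, hh x (l * m)) * ∑ m ∈ MM M, hh y (l * m))) ≤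
      ∑ l ∈ box N, ‖∑ m ∈ MM M, hh x (l * m)‖ * ‖∑ m ∈ MM M, hh y (l * m)‖ := by
    refine (RCLike.re_le_norm _).trans ((_root_.norm_sum_le _ _).trans (sum_le_sum fun l _ => ?_))
    rw [norm_mul, norm_mul]
    exact mul_le_of_le_one_left (by positivity) (hq l)
  have hz : (0 : ℤ) ∈ box N := by simp [box]
  rw [← add_sum_erase _
    (fun l => ‖∑ m ∈ MM M, hh x (l * m)‖ * ‖∑ m ∈ MM M, hh y (l * m)‖) hz] at h4
  have ix : 0 ≤ ∫ a, x a := integral_nonneg hx.nonneg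
  have iy : 0 ≤ ∫ a, y a := integral_nonneg hy.nonneg
  have h5 := mul_le_mul (Bil_norm_sum hx M 0) (Bil_norm_sum hy M 0) (norm_nonneg _)
    (by positivity)
  have h6 := Real.sum_mul_le_sqrt_mul_sqrt ((box N).erase 0)
    (fun l => ‖∑ m ∈ MM M, hh x (l * m)‖) fun l => ‖∑ m ∈ MM M, hh y (l * m)‖
  have hLM : 0 ≤ 256 * L * M := by positivity
  have h7 := mul_le_mul (Real.sqrt_le_sqrt (div_bound h hM hx))
    (Real.sqrt_le_sqrt (div_bound h hM hy)) (Real.sqrt_nonneg _) (Real.sqrt_nonneg _)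
  rw [Real.sqrt_mul hLM, Real.sqrt_mul hLM, mul_mul_mul_comm, Real.mul_self_sqrt hLM] at h7
  have h8 : 0 ≤ (M : ℝ) ^ 2 * ((∫ a, x a) * ∫ a, y a) := by positivity
  have e : 256 * C / N * (M ^ 2 * ((∫ a, x a) * ∫ a, y a)
      + L * M * (√(∫ a, x a ^ 2) * √(∫ a, y a ^ 2))) =
      C / N * (256 * (M ^ 2 * ((∫ a, x a) * ∫ a, y a))
        + 256 * L * M * (√(∫ a, x a ^ 2) * √(∫ a, y a ^ 2))) := by ring
  rw [e]
  refine mul_le_mul_of_nonneg_left (h4.trans ?_) hCN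
  have e2 : (2 * (M : ℝ) * ∫ a, x a) * (2 * M * ∫ a, y a) =
      4 * (M ^ 2 * ((∫ a, x a) * ∫ a, y a)) := by ring
  linarith

end Pool.Agent.Lib.MP_ecd12e_nt.GM
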