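import Pool.Agent.Lib.MP_ecd12e_nt.GM.Defs

/-! The largest eigenvalue of a Hermitian matrix that is bounded below. -/

namespace Pool.Agent.Lib.MP_ecd12e_nt.GM

open Finset Real MeasureTheory
open Pool.Agent.Lib.MP_ecd12e_nt.Bar
open scoped ContDiff ComplexConjugate

theorem LA_form {n : Type} [Fintype n] [DecidableEq n] (U : Matrix n n ℂ) (l : n → ℝ) (v : n → ℂ) :
    (∑ t, ∑ t', v t * conj (v t') * (U * Matrix.diagonal (fun i => (l i : ℂ)) * star U) t t').re =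
      ∑ i, l i * ‖∑ t, v t * U t i‖ ^ 2 := by
  have e : ∑ t, ∑ t', v t * conj (v t') * (U * Matrix.diagonal (fun i => (l i : ℂ)) * star U) t t' =
      ((∑ i, l i * ‖∑ t, v t * U t i‖ ^ 2 : ℝ) : ℂ) := by
    push_cast
    simp only [← Complex.mul_conj', map_sum, map_mul, Matrix.mul_apply (M := U * _),
      Matrix.mul_diagonal, Matrix.star_apply, mul_sum, sum_mul, RCLike.star_def]
    rw [sum_comm]
    conv_rhs => rw [sum_comm]
    refine sum_congr rfl fun t' _ => ?_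
    rw [sum_comm]
    refine sum_congr rfl fun i _ => sum_congr rfl fun t _ => ?_
    ring
  rw [e, Complex.ofReal_re]

theorem LA_diag {n : Type} [Fintype n] [DecidableEq n] (U : Matrix n n ℂ) (l : n → ℝ) (t : n) :
    (U * Matrix.diagonal (fun i => (l i : ℂ)) * star U) t t =
      ((∑ i, l i * ‖U t i‖ ^ 2 : ℝ) : ℂ) := by
  push_cast
  simp only [← Complex.mul_conj', Matrix.mul_apply (M := U * _), Matrix.mul_diagonal,
    Matrix.star_apply, RCLike.star_def]
  exact sum_congr rfl fun i _ => by ring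

theorem LA_mat {n : Type} [Fintype n] [DecidableEq n] (A : Matrix n n ℂ) (hA : A.IsHermitian)
    (d : n → ℝ) (hd : ∀ t, 0 ≤ d t)
    (hlow : ∀ v : n → ℂ, -(∑ t, d t * ‖v t‖ ^ 2) ≤ (∑ t, ∑ t', v t * conj (v t') * A t t').re)
    {Λ : ℝ} (hΛ : 0 ≤ Λ)
    (h3 : (∑ t1, ∑ t2, ∑ t3, A t1 t2 * A t2 t3 * A t3 t1).re
      + ∑ t, ∑ t', d t * ‖A t t'‖ ^ 2 ≤ Λ ^ 3) (v : n → ℂ) :
    (∑ t, ∑ t', v t * conj (v t') * A t t').re ≤ Λ * ∑ t, ‖v t‖ ^ 2 := by
  obtain ⟨U, l, h1, h2, hU⟩ : ∃ (U : Matrix n n ℂ) (l : n → ℝ), star U * U = 1 ∧ U * star U = 1 ∧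
      A = U * Matrix.diagonal (fun i => (l i : ℂ)) * star U := by
    refine ⟨hA.eigenvectorUnitary, hA.eigenvalues, Unitary.coe_star_mul_self _,
      Unitary.coe_mul_star_self _, ?_⟩
    conv_lhs => rw [hA.spectral_theorem, Unitary.conjStarAlgAut_apply]
    rfl
  have hmul : ∀ a b : n → ℝ, U * Matrix.diagonal (fun i => (a i : ℂ)) * star U *
      (U * Matrix.diagonal (fun i => (b i : ℂ)) * star U) =
      U * Matrix.diagonal (fun i => ((a i * b i : ℝ) : ℂ)) * star U := by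
    intro a b
    simp only [Matrix.mul_assoc]
    rw [← Matrix.mul_assoc (star U) U, h1, Matrix.one_mul,
      ← Matrix.mul_assoc (Matrix.diagonal _) (Matrix.diagonal _), Matrix.diagonal_mul_diagonal]
    simp only [Complex.ofReal_mul]
  have hcol : ∀ i j, ∑ t, conj (U t i) * U t j = if i = j then 1 else 0 := by
    intro i j
    have := congrFun (congrFun h1 i) j
    simpa only [Matrix.mul_apply, Matrix.star_apply, RCLike.star_def, Matrix.one_apply] using this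
  have hcol1 : ∀ i, ∑ t, ‖U t i‖ ^ 2 = 1 := by
    intro i
    have := hcol i i
    simp only [Complex.conj_mul', if_true] at this
    exact_mod_cast this
  have hl : ∀ j, -(∑ t, d t * ‖U t j‖ ^ 2) ≤ l j := by
    intro j
    have := hlow fun t => conj (U t j)
    rw [hU, LA_form] at this
    simp only [hcol, Complex.norm_conj] at this
    have e : ∑ x, l x * ‖if j = x then (1 : ℂ) else 0‖ ^ 2 = l j := by
      rw [sum_eq_single j (fun i _ hi => by simp [Ne.symm hi]) (by simp)]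
      simp
    rwa [e] at this
  have hA2 : A * A = U * Matrix.diagonal (fun i => ((l i * l i : ℝ) : ℂ)) * star U := by
    rw [← hmul, ← hU]
  have hA3 : A * A * A = U * Matrix.diagonal (fun i => ((l i * l i * l i : ℝ) : ℂ)) * star U := by
    rw [← hmul, ← hA2, ← hU]
  have e3 : (∑ t1, ∑ t2, ∑ t3, A t1 t2 * A t2 t3 * A t3 t1).re = ∑ i, l i ^ 3 := by
    have a1 : ∑ t1, ∑ t2, ∑ t3, A t1 t2 * A t2 t3 * A t3 t1 = ∑ t, (A * A * A) t t := by
      refine sum_congr rfl fun t1 _ => ?_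
      simp only [Matrix.mul_apply, sum_mul]
      rw [sum_comm]
    rw [a1, hA3]
    simp only [LA_diag, ← Complex.ofReal_sum, Complex.ofReal_re]
    rw [sum_comm]
    refine sum_congr rfl fun i _ => ?_
    rw [← mul_sum, hcol1]
    ring
  have e2 : ∑ t, ∑ t', d t * ‖A t t'‖ ^ 2 = ∑ i, l i ^ 2 * ∑ t, d t * ‖U t i‖ ^ 2 := by
    have a1 : ∀ t, ∑ t', ‖A t t'‖ ^ 2 = ∑ i, l i * l i * ‖U t i‖ ^ 2 := by
      intro t
      have a2 := LA_diag U (fun i => l i * l i) t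
      rw [← hA2, Matrix.mul_apply] at a2
      have a3 : ∀ t', A t t' * A t' t = ((‖A t t'‖ ^ 2 : ℝ) : ℂ) := by
        intro t'
        rw [← hA.apply t' t, RCLike.star_def, Complex.mul_conj']
        push_cast
        rfl
      simp only [a3] at a2
      exact_mod_cast a2
    simp only [← mul_sum, a1]
    simp only [mul_sum]
    rw [sum_comm]
    exact sum_congr rfl fun i _ => sum_congr rfl fun t _ => by ring
  rw [e3, e2, ← sum_add_distrib] at h3
  have hΛl : ∀ j, l j ≤ Λ := by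
    intro j
    have a1 : l j ^ 3 + l j ^ 2 * ∑ t, d t * ‖U t j‖ ^ 2 ≤ Λ ^ 3 := by
      refine le_trans (single_le_sum (f := fun i => l i ^ 3 + l i ^ 2 * ∑ t, d t * ‖U t i‖ ^ 2)
        (fun i _ => ?_) (mem_univ j)) h3
      have := mul_le_mul_of_nonneg_left (hl i) (sq_nonneg (l i))
      nlinarith
    have a2 : 0 ≤ l j ^ 2 * ∑ t, d t * ‖U t j‖ ^ 2 :=
      mul_nonneg (sq_nonneg _) (sum_nonneg fun t _ => mul_nonneg (hd t) (sq_nonneg _))
    exact le_of_pow_le_pow_left₀ (n := 3) (by norm_num) hΛ (by linarith)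
  have hv : ∑ t, ‖v t‖ ^ 2 = ∑ i, ‖∑ t, v t * U t i‖ ^ 2 := by
    have := LA_form U (fun _ => 1) v
    simp only [Complex.ofReal_one, Matrix.diagonal_one, h2, one_mul,
      Matrix.one_apply, mul_ite, mul_one, mul_zero, sum_ite_eq, mem_univ, if_true,
      Complex.mul_conj'] at this
    rw [← this]
    norm_cast
  rw [hU, LA_form, hv, mul_sum]
  exact sum_le_sum fun i _ => mul_le_mul_of_nonneg_right (hΛl i) (sq_nonneg _)

/-- Pass to the matrix on the subtype of `S` and use the spectral theorem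
(`Matrix.IsHermitian.spectral_theorem`, or an orthonormal basis of eigenvectors `w i` with
eigenvalues `l i`). The cubic trace is `∑ l i ^ 3`; `∑_{t,t'} d t ‖X t t'‖² = ∑_i l i ^ 2 * δ i`
with `δ i = ∑_t d t ‖w i t‖² ≥ 0`, and `-δ i ≤ l i`. So `l i ^ 3 + l i ^ 2 δ i ≥ 0` for all `i`,
hence `l i ^ 3 ≤ Λ ^ 3` and `l i ≤ Λ` for all `i`. -/
theorem eig_le (S : Finset ℤ) (X : ℤ → ℤ → ℂ) (hX : ∀ t t', conj (X t t') = X t' t) (d : ℤ → ℝ)
    (hd : ∀ t, 0 ≤ d t)
    (hlow : ∀ v : ℤ → ℂ, -(∑ t ∈ S, d t * ‖v t‖ ^ 2)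
      ≤ (∑ t ∈ S, ∑ t' ∈ S, v t * conj (v t') * X t t').re)
    {Λ : ℝ} (hΛ : 0 ≤ Λ)
    (h3 : (∑ t1 ∈ S, ∑ t2 ∈ S, ∑ t3 ∈ S, X t1 t2 * X t2 t3 * X t3 t1).re
      + ∑ t ∈ S, ∑ t' ∈ S, d t * ‖X t t'‖ ^ 2 ≤ Λ ^ 3) (v : ℤ → ℂ) :
    (∑ t ∈ S, ∑ t' ∈ S, v t * conj (v t') * X t t').re ≤ Λ * sq2 S v := by
  have h := LA_mat (n := S) (Matrix.of fun t t' => X t t') ?_ (fun t => d t) (fun t => hd t) ?_ hΛ
    ?_ (fun t => v t)
  · simp only [sq2, ← sum_coe_sort S]
    exact h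
  · ext t t'
    exact hX t' t
  · intro w
    have := hlow fun t => if h : t ∈ S then w ⟨t, h⟩ else 0
    simp only [← sum_coe_sort S, coe_mem, dif_pos, Subtype.coe_eta] at this
    exact this
  · simp only [← sum_coe_sort S] at h3
    exact h3

end Pool.Agent.Lib.MP_ecd12e_nt.GM
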