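import Pool.Agent.Lib.MP_ecd12e_nt.GM.Spc

/-! The distribution of fractions at scale `1 / K`. -/

namespace Pool.Agent.Lib.MP_ecd12e_nt.GM

open Finset Real MeasureTheory
open Pool.Agent.Lib.MP_ecd12e_nt.Bar
open scoped ContDiff ComplexConjugate

/-- the pairs with a given gcd -/
def Nu_F (N d : ℕ) : Finset (ℕ × ℕ) :=
  (Icc N (2 * N) ×ˢ Icc N (2 * N)).filter fun p => Nat.gcd p.1 p.2 = d

/-- the part of `nu` with a given gcd -/
noncomputable def Nu_S (N K d : ℕ) (θ : ℝ) : ℝ :=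
  ∑ p ∈ Nu_F N d, K * ps (K * (θ - (log p.2 - log p.1)))

lemma Nu_mem {N d : ℕ} {p : ℕ × ℕ} (h : p ∈ Nu_F N d) :
    (N ≤ p.1 ∧ p.1 ≤ 2 * N) ∧ (N ≤ p.2 ∧ p.2 ≤ 2 * N) ∧ Nat.gcd p.1 p.2 = d := by
  simpa only [Nu_F, mem_filter, mem_product, mem_Icc, and_assoc] using h

lemma Nu_eq {N : ℕ} (hN : 1 ≤ N) (K : ℕ) (θ : ℝ) :
    nu N K θ = ∑ d ∈ Icc 1 (2 * N), Nu_S N K d θ := by
  unfold nu Nu_S Nu_F
  rw [sum_fiberwise_of_maps_to (g := fun p : ℕ × ℕ => Nat.gcd p.1 p.2), sum_product]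
  · refine sum_congr rfl fun _ _ => sum_congr rfl fun _ _ => ?_
    congr 3
    ring
  · intro p hp
    obtain ⟨h1, h2⟩ := mem_Icc.1 (mem_product.1 hp).1
    exact mem_Icc.2 ⟨Nat.gcd_pos_of_pos_left _ (by omega),
      (Nat.gcd_le_left _ (by omega)).trans h2⟩

lemma Nu_card {N d : ℕ} (hN : 1 ≤ N) (hd : 1 ≤ d) :
    ((Nu_F N d).card : ℝ) ≤ 4 * N ^ 2 / d ^ 2 := by
  have h1 : (Nu_F N d).card ≤ (Icc 1 (2 * N / d) ×ˢ Icc 1 (2 * N / d)).card := by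
    refine card_le_card_of_injOn (fun p => (p.1 / d, p.2 / d)) (fun p hp => ?_)
      fun p hp q hq e => ?_
    · obtain ⟨⟨a1, a2⟩, ⟨b1, b2⟩, h⟩ := Nu_mem hp
      have c1 : d ≤ p.1 := h ▸ Nat.gcd_le_left _ (by omega)
      have c2 : d ≤ p.2 := h ▸ Nat.gcd_le_right _ (by omega)
      exact mem_coe.2 (mem_product.2
        ⟨mem_Icc.2 ⟨Nat.div_pos c1 hd, Nat.div_le_div_right a2⟩,
          mem_Icc.2 ⟨Nat.div_pos c2 hd, Nat.div_le_div_right b2⟩⟩)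
    · obtain ⟨_, _, h⟩ := Nu_mem hp
      obtain ⟨_, _, h'⟩ := Nu_mem hq
      obtain ⟨e1, e2⟩ := Prod.mk.inj e
      refine Prod.ext ?_ ?_
      · rw [← Nat.mul_div_cancel' (h ▸ Nat.gcd_dvd_left p.1 p.2 : d ∣ p.1), e1,
          Nat.mul_div_cancel' (h' ▸ Nat.gcd_dvd_left q.1 q.2 : d ∣ q.1)]
      · rw [← Nat.mul_div_cancel' (h ▸ Nat.gcd_dvd_right p.1 p.2 : d ∣ p.2), e2,
          Nat.mul_div_cancel' (h' ▸ Nat.gcd_dvd_right q.1 q.2 : d ∣ q.2)]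
  rw [card_product, Nat.card_Icc, Nat.add_sub_cancel] at h1
  have h2 : ((2 * N / d : ℕ) : ℝ) ≤ 2 * N / d := by
    simpa using Nat.cast_div_le (α := ℝ) (m := 2 * N) (n := d)
  have h3 : ((Nu_F N d).card : ℝ) ≤ ((2 * N / d : ℕ) : ℝ) * ((2 * N / d : ℕ) : ℝ) := by
    exact_mod_cast h1
  refine (h3.trans (mul_self_le_mul_self (Nat.cast_nonneg _) h2)).trans_eq ?_
  ring

lemma Nu_log {U V D : ℕ} {B : ℝ} (hU : 0 < U) (h : U < V) (h1 : D ∣ U) (h2 : D ∣ V)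
    (hB : (V : ℝ) ≤ B) : D / B ≤ log V - log U := by
  have h3 : D ≤ V - U := Nat.le_of_dvd (by omega) (Nat.dvd_sub h2 h1)
  have h4 : (D : ℝ) + U ≤ V := by exact_mod_cast (by omega : D + U ≤ V)
  have hU' : (0 : ℝ) < U := by exact_mod_cast hU
  have hV : (0 : ℝ) < V := by exact_mod_cast hU.trans h
  have h5 := one_sub_inv_le_log_of_pos (div_pos hV hU')
  rw [log_div hV.ne' hU'.ne', inv_div] at h5
  refine le_trans (le_trans (div_le_div_of_nonneg_left (Nat.cast_nonneg _) hV hB) ?_) h5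
  rw [le_sub_iff_add_le, ← add_div, div_le_one hV]
  exact h4

lemma Nu_sep {N d : ℕ} (hN : 1 ≤ N) (hd : 1 ≤ d) {p q : ℕ × ℕ} (hp : p ∈ Nu_F N d)
    (hq : q ∈ Nu_F N d) (h : p ≠ q) :
    (d : ℝ) ^ 2 / (4 * N ^ 2) ≤ |(log p.2 - log p.1) - (log q.2 - log q.1)| := by
  obtain ⟨⟨a1, a2⟩, ⟨b1, b2⟩, e⟩ := Nu_mem hp
  obtain ⟨⟨a1', a2'⟩, ⟨b1', b2'⟩, e'⟩ := Nu_mem hq
  have hne : q.1 * p.2 ≠ p.1 * q.2 := fun h1 => by
    have h2 : q.1 * d = p.1 * d := by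
      calc q.1 * d = Nat.gcd (q.1 * p.1) (q.1 * p.2) := by rw [Nat.gcd_mul_left, e]
        _ = Nat.gcd (p.1 * q.1) (p.1 * q.2) := by rw [h1, mul_comm q.1 p.1]
        _ = p.1 * d := by rw [Nat.gcd_mul_left, e']
    have h3 := Nat.eq_of_mul_eq_mul_right hd h2
    rw [h3] at h1
    exact h (Prod.ext h3.symm (Nat.eq_of_mul_eq_mul_left (by omega) h1))
  have d1 : d * d ∣ q.1 * p.2 :=
    mul_dvd_mul (e' ▸ Nat.gcd_dvd_left q.1 q.2) (e ▸ Nat.gcd_dvd_right p.1 p.2)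
  have d2 : d * d ∣ p.1 * q.2 :=
    mul_dvd_mul (e ▸ Nat.gcd_dvd_left p.1 p.2) (e' ▸ Nat.gcd_dvd_right q.1 q.2)
  have u1 : ((q.1 * p.2 : ℕ) : ℝ) ≤ 4 * N ^ 2 := by
    exact_mod_cast (Nat.mul_le_mul a2' b2).trans_eq (by ring)
  have u2 : ((p.1 * q.2 : ℕ) : ℝ) ≤ 4 * N ^ 2 := by
    exact_mod_cast (Nat.mul_le_mul a2 b2').trans_eq (by ring)
  have e1 : (log p.2 - log p.1) - (log q.2 - log q.1) =
      log ((q.1 * p.2 : ℕ) : ℝ) - log ((p.1 * q.2 : ℕ) : ℝ) := by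
    rw [Nat.cast_mul, Nat.cast_mul, log_mul (Nat.cast_ne_zero.2 (by omega))
      (Nat.cast_ne_zero.2 (by omega)), log_mul (Nat.cast_ne_zero.2 (by omega))
      (Nat.cast_ne_zero.2 (by omega))]
    ring
  have e2 : (d : ℝ) ^ 2 = ((d * d : ℕ) : ℝ) := by rw [Nat.cast_mul, sq]
  rw [e1, e2]
  rcases lt_or_gt_of_ne hne with h1 | h1
  · rw [abs_sub_comm]
    exact (Nu_log (Nat.mul_pos (by omega) (by omega)) h1 d1 d2 u2).trans (le_abs_self _)
  · exact (Nu_log (Nat.mul_pos (by omega) (by omega)) h1 d2 d1 u1).trans (le_abs_self _)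

lemma Nu_S_le {N K d : ℕ} (hN : 1 ≤ N) (hK : 1 ≤ K) (hd : 1 ≤ d) (θ : ℝ) :
    Nu_S N K d θ ≤ 2 * K + 16 * N ^ 2 * ((d : ℝ) ^ 2)⁻¹ := by
  have hN' : (0 : ℝ) < N := by exact_mod_cast hN
  have hd' : (0 : ℝ) < d := by exact_mod_cast hd
  refine (spaced_sum (Nu_F N d) (fun p => log p.2 - log p.1)
    (δ := (d : ℝ) ^ 2 / (4 * N ^ 2)) (by positivity) (K := K) (by exact_mod_cast hK)
    (fun p hp q hq h => Nu_sep hN hd hp hq h) θ).trans_eq ?_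
  field_simp
  ring

lemma Nu_S_nonneg (N K d : ℕ) (θ : ℝ) : 0 ≤ Nu_S N K d θ :=
  sum_nonneg fun _ _ => mul_nonneg (Nat.cast_nonneg _) (ps_pos _).le

lemma Nu_S_cont (N K d : ℕ) : Continuous (Nu_S N K d) := by
  unfold Nu_S
  fun_prop

lemma Nu_S_int {N K d : ℕ} (hN : 1 ≤ N) (hK : 1 ≤ K) (hd : 1 ≤ d) :
    Integrable (Nu_S N K d) ∧ ∫ θ, Nu_S N K d θ ≤ 16 * N ^ 2 / d ^ 2 := by
  have hK' : (0 : ℝ) < K := by exact_mod_cast hK
  refine ⟨integrable_finsetSum _ fun p _ => (int_ps hK' _).1, ?_⟩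
  unfold Nu_S
  rw [integral_finsetSum _ fun p _ => (int_ps hK' _).1,
    sum_congr rfl fun p _ => (int_ps hK' _).2, sum_const, nsmul_eq_mul]
  refine (mul_le_mul (Nu_card hN hd) pi_le_four pi_pos.le (by positivity)).trans_eq ?_
  ring

lemma Nu_inv_sq (M : ℕ) : ∑ d ∈ Icc 1 M, ((d : ℝ) ^ 2)⁻¹ ≤ 2 := by
  have h := sum_Ioo_inv_sq_le (α := ℝ) 0 (M + 1)
  rw [Nat.cast_zero, zero_add, div_one] at h
  refine le_trans (le_of_eq ?_) h
  congr 1

lemma Nu_harm {N : ℕ} {L : ℝ} (h : Lg N L) : ∑ d ∈ Icc 1 (2 * N), (d : ℝ)⁻¹ ≤ 2 * L := by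
  have h1 := harmonic_le_one_add_log (2 * N)
  simp only [harmonic_eq_sum_Icc, Rat.cast_sum, Rat.cast_inv, Rat.cast_natCast] at h1
  have hN : (0 : ℝ) < N := by exact_mod_cast h.hN
  rw [Nat.cast_mul, Nat.cast_two, log_mul two_ne_zero hN.ne'] at h1
  linarith [h.hlog, h.one_le, log_two_lt_d9]

/-- Group the pairs by `d = gcd n1 n2 ∈ [1, 2 N]`. Let `S d θ` be the sum over the pairs with gcd
`d`. There are at most `(2 N / d)²` of them, and the points `log n2 - log n1` are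
`(d / (2 N))²`-separated (distinct coprime pairs `(a, b)`, `(a', b')` with entries `≤ 2 N / d`:
`|log (a b') - log (a' b)| ≥ 1 / max (a b') (a' b)`). So `S d ≤ 2 K + 16 N² / d²` by `spaced_sum`,
hence `S d ≤ min (S d) (2 K) + 16 N² / d²`. Put `sp = chi * ∑ d, min (S d) (2 K)`. Then
`∫ (min (S d) (2 K))² ≤ 2 K π (2 N / d)²` (`int_ps`), and Cauchy-Schwarz with weights `1 / d`. -/
theorem nu_split : ∃ C : ℝ, 0 < C ∧ ∀ (N K : ℕ) (L : ℝ), Lg N L → 1 ≤ K → ∃ sp : ℝ → ℝ, Nice sp ∧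
    (∀ θ, sp θ ≤ C * (K * N)) ∧ ∫ θ, sp θ ^ 2 ≤ C * (L ^ 2 * K * N ^ 2) ∧
    ∀ θ, chi θ * nu N K θ ≤ C * N ^ 2 * chi θ + sp θ := by
  refine ⟨128, by norm_num, fun N K L hL hK => ?_⟩
  have hN := hL.hN
  have hL1 := hL.one_le
  have hK' : (0 : ℝ) < K := by exact_mod_cast hK
  have hm0 : ∀ d θ, 0 ≤ min (Nu_S N K d θ) (2 * K) := fun d θ =>
    le_min (Nu_S_nonneg N K d θ) (by positivity)
  have hs0 : ∀ θ, 0 ≤ ∑ d ∈ Icc 1 (2 * N), min (Nu_S N K d θ) (2 * K) := fun θ =>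
    sum_nonneg fun d _ => hm0 d θ
  have hnice : Nice fun θ => chi θ * ∑ d ∈ Icc 1 (2 * N), min (Nu_S N K d θ) (2 * K) :=
    ⟨continuous_chi.mul (continuous_finsetSum _ fun d _ => (Nu_S_cont N K d).min continuous_const),
      fun θ => mul_nonneg (chi_nonneg θ) (hs0 θ), fun θ h => by rw [chi_eq_zero h, zero_mul]⟩
  refine ⟨_, hnice, fun θ => ?_, ?_, fun θ => ?_⟩
  · have h1 := sum_le_card_nsmul (Icc 1 (2 * N)) (fun d => min (Nu_S N K d θ) (2 * K)) (2 * K)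
      fun d _ => min_le_right _ _
    rw [Nat.card_Icc, Nat.add_sub_cancel, nsmul_eq_mul, Nat.cast_mul, Nat.cast_two] at h1
    have h2 := mul_le_of_le_one_left (hs0 θ) (chi_le_one θ)
    have h3 : (0 : ℝ) ≤ K * N := by positivity
    nlinarith
  · have hI : ∀ d ∈ Icc 1 (2 * N), Integrable fun θ => 4 * L * K * d * Nu_S N K d θ :=
      fun d hd => (Nu_S_int hN hK (mem_Icc.1 hd).1).1.const_mul _
    refine (integral_mono (g := fun θ => ∑ d ∈ Icc 1 (2 * N), 4 * L * K * d * Nu_S N K d θ)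
      (hnice.pow two_ne_zero).integrable (integrable_finsetSum _ hI) fun θ => ?_).trans ?_
    · have h1 := sum_sq_le_sum_mul_sum_of_sq_eq_mul (Icc 1 (2 * N))
        (r := fun d => min (Nu_S N K d θ) (2 * K)) (f := fun d => (d : ℝ)⁻¹)
        (g := fun d => d * min (Nu_S N K d θ) (2 * K) ^ 2) (fun d _ => by positivity)
        (fun d _ => by positivity) fun d hd => by
          rw [inv_mul_cancel_left₀ (Nat.cast_ne_zero.2 (by have := (mem_Icc.1 hd).1; omega))]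
      have h2 := pow_le_pow_left₀ (hnice.nonneg θ)
        (mul_le_of_le_one_left (hs0 θ) (chi_le_one θ)) 2
      refine (h2.trans h1).trans ((mul_le_mul_of_nonneg_right (Nu_harm hL)
        (sum_nonneg fun d _ => by positivity)).trans ?_)
      rw [mul_sum]
      refine sum_le_sum fun d _ => ?_
      have h3 : min (Nu_S N K d θ) (2 * K) ^ 2 ≤ Nu_S N K d θ * (2 * K) := by
        rw [sq]
        exact mul_le_mul (min_le_left _ _) (min_le_right _ _) (hm0 d θ) (Nu_S_nonneg N K d θ)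
      have h4 := mul_le_mul_of_nonneg_left h3 (show 0 ≤ 2 * L * d by positivity)
      linarith
    · rw [integral_finsetSum _ hI]
      have h1 : ∀ d ∈ Icc 1 (2 * N), ∫ θ, 4 * L * K * d * Nu_S N K d θ ≤
          64 * L * K * N ^ 2 * (d : ℝ)⁻¹ := fun d hd => by
        have hd' : (0 : ℝ) < d := by exact_mod_cast (mem_Icc.1 hd).1
        rw [integral_const_mul]
        refine (mul_le_mul_of_nonneg_left (Nu_S_int hN hK (mem_Icc.1 hd).1).2
          (by positivity)).trans_eq ?_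
        field_simp
        ring
      refine (sum_le_sum h1).trans ?_
      rw [← mul_sum]
      refine (mul_le_mul_of_nonneg_left (Nu_harm hL) (by positivity)).trans_eq ?_
      ring
  · have h1 : nu N K θ ≤ 128 * N ^ 2 + ∑ d ∈ Icc 1 (2 * N), min (Nu_S N K d θ) (2 * K) := by
      have h2 : ∀ d ∈ Icc 1 (2 * N), Nu_S N K d θ ≤
          16 * N ^ 2 * ((d : ℝ) ^ 2)⁻¹ + min (Nu_S N K d θ) (2 * K) := fun d hd => by
        have h3 := Nu_S_le hN hK (mem_Icc.1 hd).1 θ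
        have h4 : 0 ≤ 16 * (N : ℝ) ^ 2 * ((d : ℝ) ^ 2)⁻¹ := by positivity
        rcases le_total (Nu_S N K d θ) (2 * K) with h | h
        · rw [min_eq_left h]
          linarith
        · rw [min_eq_right h]
          linarith
      rw [Nu_eq hN]
      refine (sum_le_sum h2).trans ?_
      rw [sum_add_distrib, ← mul_sum]
      have h3 := mul_le_mul_of_nonneg_left (Nu_inv_sq (2 * N))
        (show 0 ≤ 16 * (N : ℝ) ^ 2 by positivity)
      nlinarith [sq_nonneg (N : ℝ)]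
    refine (mul_le_mul_of_nonneg_left h1 (chi_nonneg θ)).trans_eq ?_
    ring

end Pool.Agent.Lib.MP_ecd12e_nt.GM
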