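import Pool.Agent.Lib.MP_ecd12e_nt.GM.Fej
import Pool.Agent.Lib.MP_ecd12e_nt.GM.Nu

/-! The transform of the full weight. -/

namespace Pool.Agent.Lib.MP_ecd12e_nt.GM

open Finset Real MeasureTheory
open Pool.Agent.Lib.MP_ecd12e_nt.Bar
open scoped ContDiff ComplexConjugate

theorem Full_log {N n : ℕ} (hN : 1 ≤ N) (h : n ∈ Icc N (2 * N)) :
    log N ≤ log n ∧ log n ≤ log N + 1 := by
  obtain ⟨h1, h2⟩ := mem_Icc.1 h
  have m : (0 : ℝ) < N := by exact_mod_cast hN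
  have a1 : (N : ℝ) ≤ n := by exact_mod_cast h1
  have a2 : (n : ℝ) ≤ 2 * N := by exact_mod_cast h2
  refine ⟨log_le_log m a1, (log_le_log (m.trans_le a1) a2).trans ?_⟩
  rw [log_mul two_ne_zero m.ne']
  linarith [log_two_lt_d9]

theorem Full_tp {N T : ℕ} (hN : 1 ≤ N) (hT : 1 ≤ T) (b : ℕ → ℂ) (θ : ℝ) :
    tp (box (4 * T)) (fun t => ((phi T t * ‖DD N b t‖ ^ 2 : ℝ) : ℂ)) θ =
      ∑ n1 ∈ Icc N (2 * N), ∑ n2 ∈ Icc N (2 * N),
        b n1 * conj (b n2) * (fj (2 * T) (θ + log n1 - log n2) : ℂ) := by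
  simp_rw [fj_eq (K := 2 * T) (H := 4 * T) (by omega) (by omega), mul_sum]
  rw [tp, sum_congr rfl fun n1 _ => sum_comm, sum_comm]
  refine sum_congr rfl fun t _ => ?_
  rw [Complex.ofReal_mul, ← Complex.normSq_eq_norm_sq, ← Complex.mul_conj, DD, map_sum,
    sum_mul_sum, mul_sum, sum_mul]
  refine sum_congr rfl fun n1 h1 => ?_
  rw [mul_sum, sum_mul]
  refine sum_congr rfl fun n2 h2 => ?_
  have m : (N : ℝ) ≠ 0 := by positivity
  have m1 : (n1 : ℝ) ≠ 0 := Nat.cast_ne_zero.2 (by have := (mem_Icc.1 h1).1; omega)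
  have m2 : (n2 : ℝ) ≠ 0 := Nat.cast_ne_zero.2 (by have := (mem_Icc.1 h2).1; omega)
  have e : ei (t * (θ + log n1 - log n2)) =
      ei (t * log ((n1 : ℝ) / N)) * ei (-(t * log ((n2 : ℝ) / N))) * ei (t * θ) := by
    rw [← ei_add, ← ei_add, log_div m1 m, log_div m2 m]
    congr 1
    ring
  rw [map_mul, conj_ei, e, phi]
  push_cast
  ring

/-- Expand `‖DD‖ ^ 2`, use `fj_eq` with `K = 2 T` and `fj_le` (`2 + log 2 ≤ π`). -/
theorem ab_full {N T : ℕ} (hN : 1 ≤ N) (hT : 1 ≤ T) {b : ℕ → ℂ} (hb : ∀ n, ‖b n‖ ≤ 1) (θ : ℝ) :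
    ab (box (4 * T)) (fun t => ((phi T t * ‖DD N b t‖ ^ 2 : ℝ) : ℂ)) θ
      ≤ 20 * (chi θ * nu N (2 * T) θ) := by
  rw [ab]
  rcases le_or_gt 2 |θ| with h | h
  · simp [chi_eq_zero h]
  rw [mul_left_comm]
  refine mul_le_mul_of_nonneg_left ?_ (chi_nonneg θ)
  rw [Full_tp hN hT, nu, mul_sum]
  refine (_root_.norm_sum_le _ _).trans (sum_le_sum fun n1 h1 => ?_)
  rw [mul_sum]
  refine (_root_.norm_sum_le _ _).trans (sum_le_sum fun n2 h2 => ?_)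
  have a1 := Full_log hN h1
  have a2 := Full_log hN h2
  have h' := abs_lt.1 h
  have k := fj_le (K := 2 * T) (by omega) (θ := θ + log n1 - log n2)
    (abs_le.2 ⟨by linarith [pi_gt_three, a1.1, a2.2], by linarith [pi_gt_three, a1.2, a2.1]⟩)
  rw [norm_mul, norm_mul, Complex.norm_conj, Complex.norm_real, norm_of_nonneg (fj_nonneg _ _)]
  refine le_trans ?_ k
  exact mul_le_of_le_one_left (fj_nonneg _ _) (mul_le_one₀ (hb _) (norm_nonneg _) (hb _))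

end Pool.Agent.Lib.MP_ecd12e_nt.GM
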