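import Pool.Agent.Lib.MP_ecd12e_nt.GM.Bil

/-! The linear form over lines. -/

namespace Pool.Agent.Lib.MP_ecd12e_nt.GM

open Finset Real MeasureTheory
open Pool.Agent.Lib.MP_ecd12e_nt.Bar
open scoped ContDiff ComplexConjugate

lemma Lin_maj : ∃ C : ℝ, 0 < C ∧ ∀ N : ℕ, 1 ≤ N → ∃ q : ℤ → ℂ, (∀ l, ‖q l‖ ≤ 1) ∧
    (∀ y : ℝ, 0 ≤ C / N * (∑ l ∈ box N, q l * ei (2 * π * l * y)).re) ∧
    ∀ (y : ℝ) (K : Finset ℤ), ∑ k ∈ K, ps (N * (k - y))
      ≤ C / N * (∑ l ∈ box N, q l * ei (2 * π * l * y)).re := by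
  obtain ⟨C, hC, H⟩ := majorant
  refine ⟨C, hC, fun N hN => ?_⟩
  obtain ⟨q, hq, H⟩ := H N hN
  refine ⟨q, hq, fun y => by simpa using H y ∅, fun y K => ?_⟩
  refine le_trans (le_of_eq ?_) (H y (K.map (Equiv.neg ℤ).toEmbedding))
  rw [sum_map]
  refine sum_congr rfl fun k _ => ?_
  rw [← ps_neg]
  congr 1
  simp only [Equiv.coe_toEmbedding, Equiv.neg_apply]
  push_cast
  ring

/-- `majorant`, `int_exp_le` applied to the nonnegative majorant, `int_ei_eight`. -/
theorem lin_const : ∃ C : ℝ, 0 < C ∧ ∀ (N M : ℕ), 1 ≤ N → ∀ K : Finset ℤ,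
    ∫ a, chi a * ∑ k ∈ K, ∑ m ∈ MM M, ps (N * (k - m * exp a)) ≤ C / N * M := by
  obtain ⟨C, hC, H⟩ := Lin_maj
  refine ⟨128 * C, by positivity, fun N M hN K => ?_⟩
  obtain ⟨q, hq, H0, H⟩ := H N hN
  have hCN : 0 ≤ C / N := by positivity
  let G : ℝ → ℝ := fun p => ∑ m ∈ MM M, C / N * (∑ l ∈ box N, q l * ei (2 * π * l * (m * p))).re
  have hG : Continuous G := by
    simp only [G]
    fun_prop
  have hG0 : ∀ p, 0 ≤ G p := fun p => sum_nonneg fun m _ => H0 _
  have hsupp : Function.support (fun a => chi a * ∑ k ∈ K, ∑ m ∈ MM M,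
      ps (N * (k - m * exp a))) ⊆ Set.Ioc (-2) 2 := by
    intro a ha
    by_contra hc
    refine ha ?_
    have h2 : 2 ≤ |a| := by
      rw [Set.mem_Ioc, not_and_or, not_lt, not_le] at hc
      rw [le_abs]
      rcases hc with hc | hc
      · right; linarith
      · left; linarith
    simp only [chi_eq_zero h2, zero_mul]
  rw [← intervalIntegral.integral_eq_integral_of_support_subset hsupp]
  have h1 : ∫ a in (-2 : ℝ)..2, chi a * ∑ k ∈ K, ∑ m ∈ MM M, ps (N * (k - m * exp a)) ≤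
      ∫ a in (-2 : ℝ)..2, G (exp a) := by
    refine intervalIntegral.integral_mono_on (by norm_num)
      (Continuous.intervalIntegrable (by fun_prop) _ _)
      (Continuous.intervalIntegrable (hG.comp continuous_exp) _ _) fun a _ => ?_
    refine (mul_le_of_le_one_left (sum_nonneg fun _ _ => sum_nonneg fun _ _ => (ps_pos _).le)
      (chi_le_one a)).trans ?_
    rw [sum_comm]
    exact sum_le_sum fun m _ => H _ K
  have h2 : ∀ m ∈ MM M, ∫ p in (0 : ℝ)..8,
      C / N * (∑ l ∈ box N, q l * ei (2 * π * l * (m * p))).re ≤ C / N * 8 := by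
    intro m hm
    have hm0 : m ≠ 0 := (mem_erase.1 hm).1
    rw [intervalIntegral.integral_const_mul]
    refine mul_le_mul_of_nonneg_left ?_ hCN
    have h3 := Complex.reCLM.intervalIntegral_comp_comm (μ := volume) (a := (0 : ℝ)) (b := 8)
      (f := fun p : ℝ => ∑ l ∈ box N, q l * ei (2 * π * l * (m * p)))
      (Continuous.intervalIntegrable (by fun_prop) _ _)
    simp only [Complex.reCLM_apply] at h3
    rw [h3, intervalIntegral.integral_finsetSum
      fun l _ => Continuous.intervalIntegrable (by fun_prop) _ _]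
    have h4 : ∀ l ∈ box N, ∫ p in (0 : ℝ)..8, q l * ei (2 * π * l * (m * p)) =
        if l = 0 then q 0 * 8 else 0 := by
      intro l _
      have e : ∀ p : ℝ, 2 * π * l * (m * p) = 2 * π * (l * m : ℤ) * p := fun p => by
        push_cast
        ring
      simp only [e]
      rw [intervalIntegral.integral_const_mul, int_ei_eight]
      by_cases hl : l = 0
      · simp [hl]
      · simp [hl, hm0]
    rw [sum_congr rfl h4, sum_ite_eq', if_pos (by simp [box])]
    refine (Complex.re_le_norm _).trans ?_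
    rw [norm_mul]
    have := hq 0
    simp only [Complex.norm_ofNat]
    linarith
  have h3 : ∫ p in (0 : ℝ)..8, G p ≤ 2 * M * (C / N * 8) := by
    simp only [G]
    rw [intervalIntegral.integral_finsetSum
      fun m _ => Continuous.intervalIntegrable (by fun_prop) _ _]
    refine (sum_le_sum h2).trans ?_
    rw [sum_const, nsmul_eq_mul]
    exact mul_le_mul_of_nonneg_right (Bil_card M) (by positivity)
  have h4 := int_exp_le hG hG0
  have e : 128 * C / N * M = 8 * (2 * M * (C / N * 8)) := by ring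
  linarith

/-- As `bil`, with Cauchy-Schwarz against the constant sequence. -/
theorem lin : ∃ C : ℝ, 0 < C ∧ ∀ (N M : ℕ) (L : ℝ), Lg N L → M ≤ N → ∀ x : ℝ → ℝ, Nice x →
    ∀ K : Finset ℤ, ∫ a, x a * ∑ k ∈ K, ∑ m ∈ MM M, ps (N * (k - m * exp a))
      ≤ C / N * (M * (∫ a, x a) + √(L * M * N) * √(∫ a, x a ^ 2)) := by
  obtain ⟨C, hC, H⟩ := Lin_maj
  refine ⟨32 * C, by positivity, fun N M L h hM x hx K => ?_⟩
  obtain ⟨q, hq, -, H⟩ := H N h.hN
  have hL := h.one_le
  have hCN : 0 ≤ C / N := by positivity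
  have hint : ∀ l ∈ box N, Integrable fun a : ℝ => q l * Bil_F M x l a :=
    fun l _ => (Bil_F_int hx M l).const_mul (q l)
  have hsum : Integrable fun a : ℝ => ∑ l ∈ box N, q l * Bil_F M x l a :=
    integrable_finsetSum _ hint
  have hpt : ∀ a : ℝ, x a * ∑ k ∈ K, ∑ m ∈ MM M, ps (N * (k - m * exp a)) ≤
      C / N * (∑ l ∈ box N, q l * Bil_F M x l a).re := by
    intro a
    have h1 : ∑ k ∈ K, ∑ m ∈ MM M, ps (N * (k - m * exp a)) ≤ ∑ m ∈ MM M, C / N *
        (∑ l ∈ box N, q l * ei (2 * π * l * (m * exp a))).re := by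
      rw [sum_comm]
      exact sum_le_sum fun m _ => H _ K
    refine (mul_le_mul_of_nonneg_left h1 (hx.nonneg _)).trans (le_of_eq ?_)
    have h2 : ∑ l ∈ box N, q l * Bil_F M x l a =
        ((x a : ℝ) : ℂ) * ∑ m ∈ MM M, ∑ l ∈ box N, q l * ei (2 * π * l * (m * exp a)) := by
      simp only [Bil_F, mul_sum]
      rw [sum_comm]
      refine sum_congr rfl fun m _ => sum_congr rfl fun l _ => ?_
      have e : 2 * π * l * (m * exp a) = 2 * π * (l * m : ℤ) * exp a := by
        push_cast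
        ring
      rw [e]
      ring
    rw [h2, Complex.re_ofReal_mul, Complex.re_sum]
    simp only [← mul_sum]
    ring
  have h0 : ∀ a : ℝ, 0 ≤ x a * ∑ k ∈ K, ∑ m ∈ MM M, ps (N * (k - m * exp a)) := fun a =>
    mul_nonneg (hx.nonneg _) (sum_nonneg fun _ _ => sum_nonneg fun _ _ => (ps_pos _).le)
  refine (integral_mono_of_nonneg (ae_of_all _ h0) (hsum.re.const_mul (C / N))
    (ae_of_all _ hpt)).trans ?_
  rw [integral_const_mul, integral_re hsum, integral_finsetSum _ hint]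
  have h3 : ∀ l ∈ box N, ∫ a : ℝ, q l * Bil_F M x l a = q l * ∑ m ∈ MM M, hh x (l * m) := by
    intro l _
    rw [integral_const_mul, Bil_F_integral hx]
  rw [sum_congr rfl h3]
  have h4 : RCLike.re (∑ l ∈ box N, q l * ∑ m ∈ MM M, hh x (l * m)) ≤
      ∑ l ∈ box N, ‖∑ m ∈ MM M, hh x (l * m)‖ := by
    refine (RCLike.re_le_norm _).trans ((_root_.norm_sum_le _ _).trans (sum_le_sum fun l _ => ?_))
    rw [norm_mul]
    exact mul_le_of_le_one_left (norm_nonneg _) (hq l)
  have hz : (0 : ℤ) ∈ box N := by simp [box]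
  rw [← add_sum_erase _ (fun l => ‖∑ m ∈ MM M, hh x (l * m)‖) hz] at h4
  have ix : 0 ≤ ∫ a, x a := integral_nonneg hx.nonneg
  have ix2 : 0 ≤ ∫ a, x a ^ 2 := integral_nonneg fun a => sq_nonneg _
  have h5 := Bil_norm_sum hx M 0
  have hcard : (((box N).erase 0).card : ℝ) ≤ 2 * N := by
    have h6 : ((box N).erase 0).card ≤ 2 * N := by
      rw [card_erase_of_mem hz, box, Int.card_Icc]
      omega
    exact_mod_cast h6
  have h6 : (∑ l ∈ (box N).erase 0, ‖∑ m ∈ MM M, hh x (l * m)‖) ^ 2 ≤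
      (32 * (√(L * M * N) * √(∫ a, x a ^ 2))) ^ 2 := by
    refine sq_sum_le_card_mul_sum_sq.trans ?_
    refine (mul_le_mul hcard (div_bound h hM hx) (sum_nonneg fun _ _ => by positivity)
      (by positivity)).trans ?_
    rw [mul_pow, mul_pow, Real.sq_sqrt (by positivity), Real.sq_sqrt ix2]
    have h7 : 0 ≤ L * M * N * ∫ a, x a ^ 2 := by positivity
    nlinarith
  have h7 := (pow_le_pow_iff_left₀ (sum_nonneg fun _ _ => norm_nonneg _) (by positivity)
    two_ne_zero).1 h6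
  have h8 : 0 ≤ (M : ℝ) * ∫ a, x a := by positivity
  have e : 32 * C / N * (M * (∫ a, x a) + √(L * M * N) * √(∫ a, x a ^ 2)) =
      C / N * (32 * (M * ∫ a, x a) + 32 * (√(L * M * N) * √(∫ a, x a ^ 2))) := by ring
  rw [e]
  refine mul_le_mul_of_nonneg_left (h4.trans ?_) hCN
  linarith

end Pool.Agent.Lib.MP_ecd12e_nt.GM
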