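import Pool.Agent.Lib.MP_ecd12e_nt.GM.Kap
import Pool.Agent.Lib.MP_ecd12e_nt.GM.Lin
import Pool.Agent.Lib.MP_ecd12e_nt.GM.Full

/-! The second order term. -/

namespace Pool.Agent.Lib.MP_ecd12e_nt.GM

open Finset Real MeasureTheory
open Pool.Agent.Lib.MP_ecd12e_nt.Bar
open scoped ContDiff ComplexConjugate

lemma S2_int {y : ℝ → ℝ} (hy : Continuous y) {f : ℝ → ℂ} (hf : Continuous f) :
    Integrable fun a => f a * Psi2 (y a) a := by
  obtain ⟨C, -, hC⟩ := Psi2_le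
  refine (hf.mul (continuous_Psi2 hy)).integrable_of_hasCompactSupport
    (HasCompactSupport.intro (isCompact_Icc (a := -2) (b := 2)) fun a ha => ?_)
  have h := hC (y a) a
  rw [chi_eq_zero (not_lt.1 fun hc => ha (abs_le.1 hc.le)), zero_mul, mul_zero,
    norm_le_zero_iff] at h
  exact mul_eq_zero_of_right _ h

lemma S2_eq (N : ℕ) (S B : Finset ℤ) (ρ : ℤ → ℝ) (t : ℤ) :
    ((∑ t' ∈ S, ρ t' * ‖(N : ℂ) * kB N B (t - t')‖ ^ 2 : ℝ) : ℂ) = N ^ 2 * ∑ k ∈ B, ∑ m ∈ B,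
      ∫ a, ei (-(t * a)) * tp S (fun t => (ρ t : ℂ)) a * Psi2 (N * (k - m * exp a)) a := by
  have h : ∀ k m : ℤ, ∫ a, ei (-(t * a)) * tp S (fun t => (ρ t : ℂ)) a *
      Psi2 (N * (k - m * exp a)) a = ∑ t' ∈ S, (ρ t' : ℂ) *
        (kap (t - t' : ℤ) (k * N) * conj (kap (t - t' : ℤ) (m * N))) := fun k m => by
    simp only [kap_two, ← integral_const_mul, ← mul_assoc]
    rw [← integral_finsetSum _ fun t' _ => S2_int (by fun_prop) (by fun_prop)]
    refine integral_congr_ae (ae_of_all _ fun a => ?_)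
    simp only [tp, mul_sum, sum_mul]
    refine sum_congr rfl fun t' _ => ?_
    rw [show -(((t - t' : ℤ) : ℝ) * a) = -(t * a) + t' * a by push_cast; ring, ei_add,
      show (k : ℝ) * N - m * N * exp a = N * (k - m * exp a) by ring]
    ring
  simp only [h]
  push_cast
  simp only [← Complex.mul_conj', kB, map_mul, map_sum, map_natCast, mul_sum, sum_mul]
  refine Eq.trans ?_ sum_comm
  rw [sum_comm]
  refine sum_congr rfl fun k _ => ?_
  rw [sum_comm]
  refine sum_congr rfl fun m _ => sum_congr rfl fun t' _ => ?_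
  push_cast
  ring

lemma S2_le : ∃ C : ℝ, 0 < C ∧ ∀ (N : ℕ) (S B : Finset ℤ) (ρ : ℤ → ℝ) (t : ℤ),
    ∑ t' ∈ S, ρ t' * ‖(N : ℂ) * kB N B (t - t')‖ ^ 2 ≤ C * N ^ 2 *
      ∫ a, ab S (fun t => (ρ t : ℂ)) a * ∑ k ∈ B, ∑ m ∈ B, ps (N * (k - m * exp a)) := by
  obtain ⟨C, h0, hC⟩ := Psi2_le
  refine ⟨C, h0, fun N S B ρ t => ?_⟩
  have hi : ∀ k m : ℤ, Integrable fun a => ab S (fun t => (ρ t : ℂ)) a *
      ps (N * (k - m * exp a)) := fun k m =>
    ((nice_ab _ _).cont.mul (by fun_prop)).integrable_of_hasCompactSupport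
      (nice_ab _ _).compact.mul_right
  refine (le_abs_self _).trans ?_
  rw [← Real.norm_eq_abs, ← Complex.norm_real, S2_eq, norm_mul, norm_pow, Complex.norm_natCast,
    mul_comm C, mul_assoc]
  refine mul_le_mul_of_nonneg_left ?_ (by positivity)
  simp only [mul_sum]
  rw [integral_finsetSum _ fun k _ => integrable_finsetSum _ fun m _ => hi k m, mul_sum]
  refine norm_sum_le_of_le _ fun k _ => ?_
  rw [integral_finsetSum _ fun m _ => hi k m, mul_sum]
  refine norm_sum_le_of_le _ fun m _ => ?_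
  rw [← integral_const_mul]
  refine norm_integral_le_of_norm_le ((hi k m).const_mul C) (ae_of_all _ fun a => ?_)
  rw [norm_mul, norm_mul, norm_ei, one_mul]
  refine (mul_le_mul_of_nonneg_left (hC _ _) (norm_nonneg _)).trans_eq ?_
  rw [ab]
  ring

/-- By `kap_two` the sum is `N² ∑_{m1, m2} ∫ ei (-(t a)) F a * Psi2 (N (m1 - m2 exp a)) a`, where
`F = tp (box (4 T)) (phi ‖DD‖²)`. Then `Psi2_le`, `ab_full`, `nu_split`, `lin_const`, `lin`,
`Nice.int_le`. The three terms are `N³ M`, `N² M L √T`, `N² L √(L M N T)`. -/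
theorem second_order : ∃ C : ℝ, 0 < C ∧ ∀ (N T M : ℕ) (L : ℝ), Lg N L → M ≤ N → N ≤ T →
    T ≤ N ^ 2 → (M : ℝ) * N ≤ 2 * T * L → ∀ b : ℕ → ℂ, (∀ n, ‖b n‖ ≤ 1) → ∀ t : ℤ,
      ∑ t' ∈ box (4 * T), phi T t' * ‖DD N b t'‖ ^ 2 * ‖(N : ℂ) * kB N (MM M) (t - t')‖ ^ 2
        ≤ C * (L ^ 2 * T * N ^ 2) := by
  obtain ⟨C0, c0, h0⟩ := S2_le
  obtain ⟨C1, c1, h1⟩ := nu_split
  obtain ⟨C2, c2, h2⟩ := lin_const
  obtain ⟨C3, c3, h3⟩ := lin
  refine ⟨C0 * (20 * (2 * C1 * C2 + 6 * C3 * √C1)), by positivity,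
    fun N T M L hL hM hT _ hMN b hb t => ?_⟩
  have hN := hL.hN
  have hL1 := hL.one_le
  have n0 : (0 : ℝ) < N := by exact_mod_cast hN
  have m0 : (0 : ℝ) ≤ M := M.cast_nonneg
  have t0 : (0 : ℝ) ≤ T := T.cast_nonneg
  have mn : (M : ℝ) ≤ N := by exact_mod_cast hM
  obtain ⟨sp, s1, -, s2, s3⟩ := h1 N (2 * T) L hL (by omega)
  refine (h0 N _ _ _ t).trans ?_
  set G : ℝ → ℝ := fun a => ∑ k ∈ MM M, ∑ m ∈ MM M, ps (N * (k - m * exp a)) with hG
  have g0 : ∀ a, 0 ≤ G a := fun a => sum_nonneg fun _ _ => sum_nonneg fun _ _ => (ps_pos _).le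
  have gi : ∀ x : ℝ → ℝ, Nice x → Integrable fun a => x a * G a := fun x hx =>
    (hx.cont.mul (by rw [hG]; fun_prop)).integrable_of_hasCompactSupport hx.compact.mul_right
  have e1 : ∫ a, ab (box (4 * T)) (fun t => ((phi T t * ‖DD N b t‖ ^ 2 : ℝ) : ℂ)) a * G a ≤
      20 * (C1 * N ^ 2 * (∫ a, chi a * G a) + ∫ a, sp a * G a) := by
    rw [← integral_const_mul, ← integral_add ((gi _ nice_chi).const_mul _) (gi _ s1),
      ← integral_const_mul]
    refine integral_mono (gi _ (nice_ab _ _))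
      ((((gi _ nice_chi).const_mul _).add (gi _ s1)).const_mul _) fun a => ?_
    refine (mul_le_mul_of_nonneg_right ((ab_full hN (hN.trans hT) hb a).trans
      (mul_le_mul_of_nonneg_left (s3 a) (by norm_num))) (g0 a)).trans_eq ?_
    ring
  have e2 : C1 * N ^ 2 * ∫ a, chi a * G a ≤ 2 * C1 * C2 * (L ^ 2 * T) := by
    refine (mul_le_mul_of_nonneg_left (h2 N M hN (MM M)) (by positivity)).trans ?_
    rw [show C1 * N ^ 2 * (C2 / N * M) = C1 * C2 * (M * N) by field_simp]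
    have : (M : ℝ) * N ≤ 2 * (L ^ 2 * T) := by nlinarith [mul_nonneg t0 (zero_le_one.trans hL1)]
    exact (mul_le_mul_of_nonneg_left this (by positivity)).trans_eq (by ring)
  have e3 : ∫ a, sp a * G a ≤ 6 * C3 * √C1 * (L ^ 2 * T) := by
    refine (h3 N M L hL hM sp s1 (MM M)).trans ?_
    have a1 := s1.int_le s2
    have a2 := sqrt_le_sqrt s2
    push_cast at a1 a2
    have a3 : (M : ℝ) ≤ √(L * M * N) := le_sqrt_of_sq_le (by
      nlinarith [mul_le_mul_of_nonneg_left mn m0, mul_nonneg m0 n0.le])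
    have a4 : √(L * M * N) * √(C1 * (L ^ 2 * (2 * T) * N ^ 2)) ≤ 2 * √C1 * (L ^ 2 * T) * N := by
      rw [← sqrt_mul (by positivity)]
      refine sqrt_le_iff.2 ⟨by positivity, ?_⟩
      rw [mul_pow, mul_pow, mul_pow, sq_sqrt c1.le, mul_assoc L]
      refine (mul_le_mul_of_nonneg_right (mul_le_mul_of_nonneg_left hMN (by positivity))
        (by positivity)).trans_eq (by ring)
    have a5 := mul_le_mul a3 a1 (integral_nonneg s1.nonneg) (sqrt_nonneg _)
    have a6 := mul_le_mul_of_nonneg_left a2 (sqrt_nonneg (L * M * N))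
    refine (mul_le_mul_of_nonneg_left (show _ ≤ 6 * √C1 * (L ^ 2 * T) * N by linarith)
      (by positivity)).trans_eq ?_
    field_simp
  refine (mul_le_mul_of_nonneg_left (e1.trans (mul_le_mul_of_nonneg_left (add_le_add e2 e3)
    (by norm_num))) (by positivity)).trans_eq ?_
  ring

end Pool.Agent.Lib.MP_ecd12e_nt.GM
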