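import Pool.Agent.Lib.MP_ecd12e_nt.GM.Full

/-! The third moment of the weight. -/

namespace Pool.Agent.Lib.MP_ecd12e_nt.GM

open Finset Real MeasureTheory
open Pool.Agent.Lib.MP_ecd12e_nt.Bar
open scoped ContDiff ComplexConjugate

theorem Third_phi_nonneg (T : ℕ) (t : ℤ) : 0 ≤ phi T t := le_max_left _ _

theorem Third_phi_le_one (T : ℕ) (t : ℤ) : phi T t ≤ 1 := by
  refine max_le zero_le_one ?_
  have : 0 ≤ |(t : ℝ)| / (2 * T) := by positivity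
  linarith

theorem Third_cube {x c s : ℝ} (hx : 0 ≤ x) (hc : 0 ≤ c) (hs : 0 ≤ s) (h : x ≤ c + s) :
    x ^ 3 ≤ 2 * c * x ^ 2 + 8 * s ^ 3 := by
  rcases le_total s c with h1 | h1
  · have h2 : x * x ^ 2 ≤ 2 * c * x ^ 2 :=
      mul_le_mul_of_nonneg_right (by linarith) (sq_nonneg x)
    have h3 : 0 ≤ s ^ 3 := by positivity
    nlinarith
  · have h2 : x ^ 3 ≤ (2 * s) ^ 3 := pow_le_pow_left₀ hx (by linarith) 3
    have h3 : 0 ≤ 2 * c * x ^ 2 := by positivity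
    nlinarith

theorem wa_nonneg (N T : ℕ) (b : ℕ → ℂ) (V : ℝ) (t : ℤ) : 0 ≤ wa N T b V t := by
  unfold wa
  split_ifs
  · exact mul_nonneg (Third_phi_nonneg T t) (sq_nonneg _)
  · exact le_rfl

theorem wa_le (N T : ℕ) (b : ℕ → ℂ) (V : ℝ) (t : ℤ) : wa N T b V t ≤ V ^ 2 := by
  unfold wa
  split_ifs with h
  · have h1 : ‖DD N b t‖ ^ 2 ≤ V ^ 2 := pow_le_pow_left₀ (norm_nonneg _) h 2
    have h2 : phi T t * ‖DD N b t‖ ^ 2 ≤ 1 * ‖DD N b t‖ ^ 2 :=
      mul_le_mul_of_nonneg_right (Third_phi_le_one T t) (sq_nonneg _)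
    linarith
  · exact sq_nonneg _

theorem wa_le_phi (N T : ℕ) (b : ℕ → ℂ) (V : ℝ) (t : ℤ) :
    wa N T b V t ≤ phi T t * ‖DD N b t‖ ^ 2 := by
  unfold wa
  split_ifs
  · exact le_rfl
  · exact mul_nonneg (Third_phi_nonneg T t) (sq_nonneg _)

theorem wa_supp {N T : ℕ} (hT : 1 ≤ T) (b : ℕ → ℂ) (V : ℝ) {t : ℤ} (ht : t ∉ box (2 * T)) :
    wa N T b V t = 0 := by
  have h0 : phi T t = 0 := by
    refine max_eq_left ?_
    have hT' : (0 : ℝ) < 2 * T := by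
      have : (1 : ℝ) ≤ T := by exact_mod_cast hT
      linarith
    have h1 : ((2 * T : ℕ) : ℤ) ≤ |t| := by
      by_contra hc
      push Not at hc
      exact ht (mem_Icc.2 (abs_le.1 hc.le))
    have h2 : (2 * T : ℝ) ≤ |(t : ℝ)| := by exact_mod_cast h1
    have h3 : 1 ≤ |(t : ℝ)| / (2 * T) := (one_le_div hT').2 h2
    linarith
  unfold wa
  rw [h0, zero_mul, ite_self]

theorem wa_sq_le (N T : ℕ) (b : ℕ → ℂ) (V : ℝ) (t : ℤ) :
    wa N T b V t ^ 2 ≤ wa N T b V t * ‖DD N b t‖ ^ 2 := by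
  rw [sq]
  refine mul_le_mul_of_nonneg_left ((wa_le_phi N T b V t).trans ?_) (wa_nonneg N T b V t)
  exact mul_le_of_le_one_left (sq_nonneg _) (Third_phi_le_one T t)

/-- `ab wa ≤ 20 chi nu + H ≤ c + 20 sp` with `c = C N² + H` (`ab_full`, `nu_split`), and
`x ≤ c + s` gives `x³ ≤ 2 c x² + 8 s³`; `int_ab_sq`. -/
theorem third_moment : ∃ C : ℝ, 0 < C ∧ ∀ (N T : ℕ) (L V H : ℝ), Lg N L → 1 ≤ T →
    ∀ b : ℕ → ℂ, (∀ n, ‖b n‖ ≤ 1) →
      ∑ t ∈ (box (4 * T)).filter (fun t => V < ‖DD N b t‖), ‖DD N b t‖ ^ 2 ≤ H →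
      ∫ θ, ab (box (4 * T)) (fun t => (wa N T b V t : ℂ)) θ ^ 3
        ≤ C * ((N ^ 2 + H) * sq2 (box (4 * T)) (fun t => (wa N T b V t : ℂ))
          + L ^ 2 * T ^ 2 * N ^ 3) := by
  obtain ⟨C, hC, hnu⟩ := nu_split
  refine ⟨4 * π * (20 * C + 1) + 256000 * C ^ 2, by positivity, ?_⟩
  intro N T L V H hL hT b hb hH
  obtain ⟨sp, hsp, hsp1, hsp2, hsp3⟩ := hnu N (2 * T) L hL (by omega)
  have hH0 : 0 ≤ H := le_trans (sum_nonneg fun _ _ => sq_nonneg _) hH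
  set S := box (4 * T) with hS
  set ρ : ℤ → ℂ := fun t => (wa N T b V t : ℂ) with hρ
  have hpt : ∀ θ, ab S ρ θ ≤ (20 * C * N ^ 2 + H) + 20 * sp θ := by
    intro θ
    have h1 := ab_full hL.hN hT hb θ
    have h2 : ‖tp S (fun t => ((phi T t * ‖DD N b t‖ ^ 2 : ℝ) : ℂ)) θ - tp S ρ θ‖ ≤ H := by
      unfold tp
      rw [← sum_sub_distrib]
      refine (_root_.norm_sum_le _ _).trans (le_trans ?_ hH)
      rw [sum_filter]
      refine sum_le_sum fun t _ => ?_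
      rw [← sub_mul, norm_mul, norm_ei, mul_one, hρ]
      simp only [wa]
      by_cases h : ‖DD N b t‖ ≤ V
      · rw [if_pos h, if_neg (not_lt.2 h), sub_self, norm_zero]
      · rw [if_neg h, if_pos (not_le.1 h), Complex.ofReal_zero, sub_zero, Complex.norm_real,
          Real.norm_of_nonneg (mul_nonneg (Third_phi_nonneg T t) (sq_nonneg _))]
        exact mul_le_of_le_one_left (sq_nonneg _) (Third_phi_le_one T t)
    have h3 : ‖tp S ρ θ‖ ≤ ‖tp S (fun t => ((phi T t * ‖DD N b t‖ ^ 2 : ℝ) : ℂ)) θ‖ + H := by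
      have := norm_sub_norm_le (tp S ρ θ)
        (tp S (fun t => ((phi T t * ‖DD N b t‖ ^ 2 : ℝ) : ℂ)) θ)
      rw [norm_sub_rev] at this
      linarith
    have h4 := mul_le_mul_of_nonneg_left h3 (chi_nonneg θ)
    have h5 : chi θ * H ≤ H := mul_le_of_le_one_left hH0 (chi_le_one θ)
    have h6 : C * N ^ 2 * chi θ ≤ C * N ^ 2 :=
      mul_le_of_le_one_right (by positivity) (chi_le_one θ)
    have h7 := hsp3 θ
    unfold ab at h1 ⊢
    rw [mul_add] at h4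
    linarith
  have hc0 : 0 ≤ 20 * C * N ^ 2 + H := by positivity
  have hKN : 0 ≤ C * (((2 * T : ℕ) : ℝ) * N) := by positivity
  have hpt2 : ∀ θ, ab S ρ θ ^ 3 ≤ 2 * (20 * C * N ^ 2 + H) * ab S ρ θ ^ 2
      + 64000 * (C * (((2 * T : ℕ) : ℝ) * N)) * sp θ ^ 2 := by
    intro θ
    have h1 := Third_cube ((nice_ab S ρ).nonneg θ) hc0
      (mul_nonneg (by norm_num) (hsp.nonneg θ)) (hpt θ)
    have h2 := mul_le_mul_of_nonneg_right (hsp1 θ) (sq_nonneg (sp θ))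
    nlinarith
  have i2 : Integrable fun θ => ab S ρ θ ^ 2 := ((nice_ab S ρ).pow two_ne_zero).integrable
  have i3 : Integrable fun θ => ab S ρ θ ^ 3 := ((nice_ab S ρ).pow three_ne_zero).integrable
  have j2 : Integrable fun θ => sp θ ^ 2 := (hsp.pow two_ne_zero).integrable
  have hint := integral_mono i3 ((i2.const_mul _).add (j2.const_mul _)) hpt2
  rw [integral_add' (i2.const_mul _) (j2.const_mul _), integral_const_mul,
    integral_const_mul] at hint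
  have h1 := mul_le_mul_of_nonneg_left (int_ab_sq S ρ) (mul_nonneg zero_le_two hc0)
  have h2 := mul_le_mul_of_nonneg_left hsp2 (mul_nonneg (by norm_num : (0:ℝ) ≤ 64000) hKN)
  have hq := sq2_nonneg S ρ
  have h3 : 20 * C * N ^ 2 + H ≤ (20 * C + 1) * (N ^ 2 + H) := by
    have : 0 ≤ C * H := by positivity
    nlinarith [sq_nonneg (N : ℝ)]
  have h4 := mul_le_mul_of_nonneg_right h3 (by positivity : 0 ≤ 4 * π * sq2 S ρ)
  have h5 : 0 ≤ 4 * π * (20 * C + 1) * (L ^ 2 * T ^ 2 * N ^ 3) := by positivity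
  have h6 : 0 ≤ 256000 * C ^ 2 * ((N ^ 2 + H) * sq2 S ρ) := by positivity
  push_cast at h2 hint
  nlinarith

end Pool.Agent.Lib.MP_ecd12e_nt.GM
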