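import Pool.Agent.Lib.MP_ecd12e_nt.GM.Hal
import Pool.Agent.Lib.MP_ecd12e_nt.GM.Third
import Pool.Agent.Lib.MP_ecd12e_nt.GM.S2
import Pool.Agent.Lib.MP_ecd12e_nt.GM.LA

/-! The trace method with the weight `wa`. -/

namespace Pool.Agent.Lib.MP_ecd12e_nt.GM

open Finset Real MeasureTheory
open Pool.Agent.Lib.MP_ecd12e_nt.Bar
open scoped ContDiff ComplexConjugate

/-- the truncated fourth moment -/
noncomputable def AA (N T : ℕ) (b : ℕ → ℂ) (V : ℝ) : ℝ :=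
  ∑ t ∈ box (4 * T), wa N T b V t * ‖DD N b t‖ ^ 2

theorem Core_re {x y : ℂ} {c : ℝ} (h : ‖x - y‖ ≤ c) : x.re - c ≤ y.re ∧ x.re ≤ y.re + c := by
  have h1 := abs_le.1 ((Complex.abs_re_le_norm _).trans h)
  rw [Complex.sub_re] at h1
  constructor <;> linarith [h1.1, h1.2]

theorem Core_eig (S : Finset ℤ) {N M : ℕ} {a : ℤ → ℝ} (ha : ∀ t, 0 ≤ a t) {c E Λ : ℝ}
    (hc : 0 ≤ c) (hΛ : 0 ≤ Λ)
    (hlow : ∀ η : ℤ → ℂ, -(c * sq2 S η) ≤ ((N : ℂ) * qf S (kB N (MM M)) η).re)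
    (hE : ∀ t : ℤ, ∑ t' ∈ S, a t' * ‖(N : ℂ) * kB N (MM M) (t - t')‖ ^ 2 ≤ E)
    (h3 : N ^ 3 * ‖tri N S (MM M) (MM M) (MM M) (fun t => (a t : ℂ)) (fun t => (a t : ℂ))
      (fun t => (a t : ℂ))‖ + c * E * ∑ t ∈ S, a t ^ 2 ≤ Λ ^ 3) (v : ℤ → ℂ) :
    ((N : ℂ) * qf S (kB N (MM M)) (fun t => (a t : ℂ) * v t)).re ≤
      Λ * ∑ t ∈ S, a t * ‖v t‖ ^ 2 := by
  have hr : ∀ t, ((√(a t) : ℝ) : ℂ) * (√(a t) : ℝ) = a t := fun t => by
    rw [← Complex.ofReal_mul, mul_self_sqrt (ha t)]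
  have hq : ∀ w : ℤ → ℂ, ∑ t ∈ S, ∑ t' ∈ S, w t * conj (w t') *
      (((√(a t) : ℝ) : ℂ) * (√(a t') : ℝ) * (N * kB N (MM M) (t - t'))) =
      (N : ℂ) * qf S (kB N (MM M)) (fun t => ((√(a t) : ℝ) : ℂ) * w t) := fun w => by
    simp only [qf, mul_sum, map_mul, Complex.conj_ofReal]
    exact sum_congr rfl fun t _ => sum_congr rfl fun t' _ => by ring
  have hn : ∀ (t : ℤ) (z : ℂ), ‖((√(a t) : ℝ) : ℂ) * z‖ ^ 2 = a t * ‖z‖ ^ 2 := fun t z => by
    rw [norm_mul, mul_pow, Complex.norm_real, norm_eq_abs, sq_abs, sq_sqrt (ha t)]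
  have key := eig_le S
    (fun t t' => ((√(a t) : ℝ) : ℂ) * (√(a t') : ℝ) * (N * kB N (MM M) (t - t')))
    (fun t t' => by
      rw [map_mul, map_mul, map_mul, Complex.conj_ofReal, Complex.conj_ofReal, map_natCast,
        conj_kB, neg_sub, mul_comm ((√(a t) : ℝ) : ℂ)])
    (fun t => c * a t) (fun t => mul_nonneg hc (ha t))
    (fun w => by
      rw [hq]
      refine le_trans (le_of_eq ?_) (hlow _)
      simp only [sq2, hn, mul_sum, mul_assoc]) hΛ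
    (le_trans (add_le_add ?_ ?_) h3) (fun t => ((√(a t) : ℝ) : ℂ) * v t)
  · rw [hq] at key
    simp only [← mul_assoc, hr, sq2, hn] at key
    exact key
  · refine (Complex.re_le_norm _).trans (le_of_eq ?_)
    rw [← Complex.norm_natCast N, ← norm_pow, ← norm_mul]
    congr 1
    simp only [tri, mul_sum, ← hr]
    exact sum_congr rfl fun t1 _ => sum_congr rfl fun t2 _ => sum_congr rfl fun t3 _ => by ring
  · rw [mul_sum]
    refine sum_le_sum fun t _ => ?_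
    simp only [mul_assoc ((√(a t) : ℝ) : ℂ), hn, ← mul_sum]
    have h4 := mul_le_mul_of_nonneg_left (hE t) (mul_nonneg (mul_nonneg hc (ha t)) (ha t))
    linarith

/-- Put `a = wa`, `X t t' = √(a t) √(a t') N kB (t - t')`, `d = C N a` with `C` from `krest`
(`qf_kfull_nonneg`, `conj_kB`). The cubic trace of `X` is `N³ tri a a a`, and
`∑ d t ‖X t t'‖² ≤ C N AA * C' L² T N²` by `wa_sq_le`, `wa_le_phi`, `second_order`. Apply `eig_le`
to `v = √a conj DD` (`sq2 v = AA`), and `dual_ineq`, `krest` to `η = a conj DD`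
(`sq2 η ≤ V² AA`): `AA² ≤ 2 N (Λ AA + C N V² AA)`. -/
theorem trace_ineq (B : ℕ) : ∃ C : ℝ, 0 < C ∧ ∀ (N T M : ℕ) (L V Λ : ℝ), Lg N L →
    (N : ℝ) ≤ L ^ B → M ≤ N → N ≤ T → T ≤ N ^ 2 → T * L ≤ M * N → (M : ℝ) * N ≤ 2 * T * L →
    ∀ b : ℕ → ℂ, (∀ n, ‖b n‖ ≤ 1) → 0 ≤ Λ →
      N ^ 3 * ‖tri N (box (4 * T)) (MM M) (MM M) (MM M) (fun t => (wa N T b V t : ℂ))
          (fun t => (wa N T b V t : ℂ)) (fun t => (wa N T b V t : ℂ))‖
        + C * (L ^ 2 * T * N ^ 3 * AA N T b V) ≤ Λ ^ 3 →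
      AA N T b V ≤ 2 * N * Λ + C * (N ^ 2 * V ^ 2) := by
  obtain ⟨C1, hC1, h1⟩ := krest B
  obtain ⟨C2, hC2, h2⟩ := second_order
  refine ⟨C1 * C2 + 2 * C1, by positivity, ?_⟩
  intro N T M L V Λ hL hB hMN hNT hT hTL hMT b hb hΛ h3
  have hT3 : T ≤ N ^ 3 := hT.trans (Nat.pow_le_pow_right hL.hN (by norm_num))
  have hk := h1 N T M L hL.hN hL.one_le hB hNT hT3 hTL (box (4 * T)) subset_rfl
  have hs := h2 N T M L hL hMN hNT hT hMT b hb
  have hN : (0 : ℝ) ≤ N := Nat.cast_nonneg N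
  have hA : 0 ≤ AA N T b V :=
    sum_nonneg fun t _ => mul_nonneg (wa_nonneg N T b V t) (sq_nonneg _)
  have hs' : ∀ t : ℤ, ∑ t' ∈ box (4 * T), wa N T b V t' * ‖(N : ℂ) * kB N (MM M) (t - t')‖ ^ 2
      ≤ C2 * (L ^ 2 * T * N ^ 2) := fun t =>
    (sum_le_sum fun t' _ => mul_le_mul_of_nonneg_right (wa_le_phi N T b V t') (sq_nonneg _)).trans
      (hs t)
  have h4 : C1 * N * (C2 * (L ^ 2 * T * N ^ 2)) * ∑ t ∈ box (4 * T), wa N T b V t ^ 2 ≤
      (C1 * C2 + 2 * C1) * (L ^ 2 * T * N ^ 3 * AA N T b V) := by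
    have h5 : ∑ t ∈ box (4 * T), wa N T b V t ^ 2 ≤ AA N T b V :=
      sum_le_sum fun t _ => wa_sq_le N T b V t
    have h6 := mul_le_mul_of_nonneg_left h5
      (show 0 ≤ C1 * N * (C2 * (L ^ 2 * T * N ^ 2)) by positivity)
    have h7 : 0 ≤ 2 * C1 * (L ^ 2 * T * N ^ 3 * AA N T b V) := by positivity
    linarith
  have key := Core_eig (box (4 * T)) (wa_nonneg N T b V) (mul_nonneg hC1.le hN) hΛ
    (fun η => by linarith [(Core_re (hk η)).1, qf_kfull_nonneg N (box (4 * T)) η]) hs'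
    (by linarith) (fun t => conj (DD N b t))
  have h5 := dual_ineq hL.hN hb (box (4 * T)) (fun t => (wa N T b V t : ℂ) * conj (DD N b t))
  have h6 : ∑ t ∈ box (4 * T), (wa N T b V t : ℂ) * conj (DD N b t) * DD N b t =
      (AA N T b V : ℂ) := by
    rw [AA, Complex.ofReal_sum]
    refine sum_congr rfl fun t _ => ?_
    rw [mul_assoc, Complex.conj_mul']
    push_cast
    rfl
  have h7 : sq2 (box (4 * T)) (fun t => (wa N T b V t : ℂ) * conj (DD N b t)) ≤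
      V ^ 2 * AA N T b V := by
    rw [sq2, AA, mul_sum]
    refine sum_le_sum fun t _ => ?_
    rw [norm_mul, Complex.norm_conj, Complex.norm_real, mul_pow, norm_eq_abs, sq_abs,
      ← mul_assoc, sq]
    exact mul_le_mul_of_nonneg_right
      (mul_le_mul_of_nonneg_right (wa_le N T b V t) (wa_nonneg N T b V t)) (sq_nonneg _)
  have h8 := (Core_re (hk fun t => (wa N T b V t : ℂ) * conj (DD N b t))).2
  have h9 := mul_le_mul_of_nonneg_left h7 (mul_nonneg hC1.le hN)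
  simp only [Complex.norm_conj] at key
  rw [h6, Complex.norm_real, norm_eq_abs, sq_abs] at h5
  have h10 : AA N T b V ^ 2 ≤ 2 * N * (Λ * AA N T b V + C1 * N * (V ^ 2 * AA N T b V)) :=
    h5.trans (mul_le_mul_of_nonneg_left (by rw [AA] at h9 ⊢; linarith) (by positivity))
  have h11 : 0 ≤ C1 * C2 * (N ^ 2 * V ^ 2) := by positivity
  rcases hA.eq_or_lt with h0 | h0
  · rw [← h0]
    positivity
  · have h12 : AA N T b V ≤ 2 * N * Λ + 2 * C1 * (N ^ 2 * V ^ 2) :=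
      le_of_mul_le_mul_right (by linarith) h0
    linarith

end Pool.Agent.Lib.MP_ecd12e_nt.GM
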