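import Pool.Agent.Lib.MP_ecd12e_nt.GM.Defs

/-! Multiplicity in the first factor. -/

namespace Pool.Agent.Lib.MP_ecd12e_nt.GM

open Finset Real MeasureTheory
open Pool.Agent.Lib.MP_ecd12e_nt.Bar
open scoped ContDiff ComplexConjugate

lemma Cov2_near {e1 e3 : ℤ} (h3 : Sg e3) {μ2 μ3 a b y : ℝ}
    (ha : 0 < a) (hb : 0 < b) (hb2 : b ≤ 2 * μ3)
    (h : |e1 * exp (y + log a - log b) + e3| * μ3 ≤ 25 * μ2) :
    |b - -(e1 * e3 * (exp y * a))| ≤ 50 * μ2 := by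
  have he : exp (y + log a - log b) = exp y * a / b := by
    rw [exp_sub, exp_add, exp_log ha, exp_log hb]
  have h33 : (e3 : ℝ) * e3 = 1 := by rcases h3 with h | h <;> simp [h]
  have h3a : |(e3 : ℝ)| = 1 := by rcases h3 with h | h <;> simp [h]
  have h4 : b - -(e1 * e3 * (exp y * a)) = e3 * ((e1 * (exp y * a / b) + e3) * b) := by
    have : (e1 * (exp y * a / b) + e3) * b = e1 * (exp y * a) + e3 * b := by
      field_simp
    rw [this]
    linear_combination (-b) * h33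
  rw [he] at h
  rw [h4, abs_mul, abs_mul, h3a, one_mul, abs_of_pos hb]
  have h5 := mul_le_mul_of_nonneg_left hb2 (abs_nonneg (e1 * (exp y * a / b) + e3))
  linarith

lemma Cov2_ratio {e1 e3 : ℤ} (h1 : Sg e1) (h3 : Sg e3) {μ1 μ2 μ3 θ : ℝ} (hμ1 : 0 < μ1)
    (hμ3 : 0 < μ3) (h23 : μ2 ≤ μ3) (hθ : |θ - log (μ1 / μ3)| ≤ 5)
    (h : |e1 * exp θ + e3| * μ3 ≤ 25 * μ2) : μ1 ≤ 26 * exp 5 * μ3 := by
  have h4 : |e1 * exp θ + e3| ≤ 25 := by
    have : |e1 * exp θ + e3| * μ3 ≤ 25 * μ3 := by linarith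
    exact le_of_mul_le_mul_right this hμ3
  have h5 : exp θ ≤ 26 := by
    have h6 := abs_le.1 h4
    have h7 := exp_pos θ
    rcases h1 with h1 | h1 <;> rcases h3 with h3 | h3 <;> rw [h1, h3] at h6 <;> push_cast at h6 <;>
      linarith [h6.1, h6.2]
  have h6 : μ1 / μ3 ≤ exp θ * exp 5 := by
    rw [← exp_add, ← exp_log (div_pos hμ1 hμ3)]
    exact exp_le_exp.2 (by linarith [(abs_le.1 hθ).1])
  rw [div_le_iff₀ hμ3] at h6
  have h7 : exp θ * exp 5 * μ3 ≤ 26 * exp 5 * μ3 := by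
    have := exp_pos 5
    gcongr
  linarith

/-- The set of the `θ ∈ [log (μ1 / μ3) - 5, log (μ1 / μ3) + 5]` with
`|e1 exp θ + e3| μ3 ≤ 25 μ2` lies in an interval of length `≤ 500 μ2 / μ3`, and if it is nonempty
then `μ1 ≤ 26 e⁵ μ3`. For each `n1` at most `1 + 1000 μ2` numbers `n3` have `log n3` in a given
interval of that length. -/
theorem cov_count : ∃ C : ℝ, 0 < C ∧ ∀ (M : ℕ) (e1 e2 e3 : ℤ) (μ1 μ2 μ3 : ℕ),
    Blk M e1 e2 e3 μ1 μ2 μ3 → ∀ y : ℝ,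
      (((blk μ1 ×ˢ blk μ3).filter fun n : ℕ × ℕ =>
        |y + log n.1 - log n.2 - log ((μ1 : ℝ) / μ3)| ≤ 5 ∧
        |e1 * exp (y + log n.1 - log n.2) + e3| * μ3 ≤ 25 * μ2).card : ℝ)
        ≤ C * (μ2 * √(μ1 * μ3)) := by
  refine ⟨101 * √(26 * exp 5), by positivity, fun M e1 e2 e3 μ1 μ2 μ3 hB y => ?_⟩
  set S := (blk μ1 ×ˢ blk μ3).filter fun n : ℕ × ℕ =>
        |y + log n.1 - log n.2 - log ((μ1 : ℝ) / μ3)| ≤ 5 ∧
        |e1 * exp (y + log n.1 - log n.2) + e3| * μ3 ≤ 25 * μ2 with hS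
  have hμ2 : (1 : ℝ) ≤ μ2 := by exact_mod_cast hB.pos
  have hμ1 : (μ2 : ℝ) ≤ μ1 := by exact_mod_cast hB.le1
  have hμ3 : (μ2 : ℝ) ≤ μ3 := by exact_mod_cast hB.le3
  rcases S.eq_empty_or_nonempty with h0 | ⟨n, hn⟩
  · rw [h0, card_empty, Nat.cast_zero]
    positivity
  have hr : (μ1 : ℝ) ≤ 26 * exp 5 * μ3 :=
    Cov2_ratio hB.s1 hB.s3 (by linarith) (by linarith) hμ3 (mem_filter.1 hn).2.1
      (mem_filter.1 hn).2.2
  have hc : S.card ≤ (100 * μ2 + 1) * (blk μ1).card := by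
    refine card_le_mul_card_image_of_maps_to (f := Prod.fst)
      (fun a ha => (mem_product.1 (mem_filter.1 ha).1).1) _ fun a ha => ?_
    set c : ℝ := -(e1 * e3 * (exp y * a)) with hc
    have h1 : (S.filter fun p => p.1 = a).card ≤
        (Icc ⌈c - 50 * μ2⌉₊ (⌈c - 50 * μ2⌉₊ + 100 * μ2)).card := by
      refine card_le_card_of_injOn Prod.snd (fun p hp => ?_) fun p hp q hq hpq => ?_
      · obtain ⟨hp1, hp2⟩ := mem_filter.1 (mem_coe.1 hp)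
        obtain ⟨hp3, hp4⟩ := mem_filter.1 hp1
        obtain ⟨hp5, hp6⟩ := mem_product.1 hp3
        have ha1 : (μ1 : ℝ) ≤ p.1 := by exact_mod_cast (mem_Ico.1 hp5).1
        have hb1 : (μ3 : ℝ) ≤ p.2 := by exact_mod_cast (mem_Ico.1 hp6).1
        have hb2 : (p.2 : ℝ) ≤ 2 * μ3 := by exact_mod_cast (mem_Ico.1 hp6).2.le
        have h2 := Cov2_near hB.s3 (by linarith) (by linarith)
          hb2 hp4.2
        rw [hp2, ← hc] at h2
        have h3 := abs_le.1 h2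
        refine mem_coe.2 (mem_Icc.2 ⟨Nat.ceil_le.2 (by linarith [h3.1]), ?_⟩)
        have h4 := Nat.le_ceil (c - 50 * μ2)
        have h5 : (p.2 : ℝ) ≤ ⌈c - 50 * μ2⌉₊ + 100 * μ2 := by linarith [h3.2]
        exact_mod_cast h5
      · exact Prod.ext ((mem_filter.1 (mem_coe.1 hp)).2.trans
          (mem_filter.1 (mem_coe.1 hq)).2.symm) hpq
    rw [Nat.card_Icc] at h1
    exact h1.trans (by omega)
  have hb : (blk μ1).card = μ1 := by
    rw [blk, Nat.card_Ico]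
    omega
  rw [hb] at hc
  have hc' : (S.card : ℝ) ≤ (100 * μ2 + 1) * μ1 := by exact_mod_cast hc
  have hs : (μ1 : ℝ) ≤ √(26 * exp 5) * √(μ1 * μ3) := by
    rw [← sqrt_mul (by positivity)]
    apply le_sqrt_of_sq_le
    have : (0 : ℝ) ≤ μ1 := by linarith
    nlinarith
  calc (S.card : ℝ) ≤ (100 * μ2 + 1) * μ1 := hc'
    _ ≤ (101 * μ2) * (√(26 * exp 5) * √(μ1 * μ3)) :=
        mul_le_mul (by linarith) hs (by linarith) (by linarith)
    _ = 101 * √(26 * exp 5) * (μ2 * √(μ1 * μ3)) := by ring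

end Pool.Agent.Lib.MP_ecd12e_nt.GM
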