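import Pool.Agent.Lib.MP_ecd12e_nt.GM.Cov1
import Pool.Agent.Lib.MP_ecd12e_nt.GM.Cov2

/-! The first factor. -/

namespace Pool.Agent.Lib.MP_ecd12e_nt.GM

open Finset Real MeasureTheory
open Pool.Agent.Lib.MP_ecd12e_nt.Bar
open scoped ContDiff ComplexConjugate

theorem Cov_swap {F : ℝ → ℝ → ℝ} (hF : Continuous F.uncurry) (a b c d : ℝ) :
    ∫ x in a..b, ∫ y in c..d, F x y = ∫ y in c..d, ∫ x in a..b, F x y :=
  intervalIntegral_intervalIntegral_swap
    ((hF.continuousOn.integrableOn_compact (isCompact_uIcc.prod isCompact_uIcc)).mono_set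
      (Set.prod_mono Set.uIoc_subset_uIcc Set.uIoc_subset_uIcc))

theorem Cov_shear {P : ℝ → ℝ → ℝ} {F : ℝ → ℝ} (hP : Continuous P.uncurry) (hF : Continuous F)
    (hP0 : ∀ a c, 0 ≤ P a c) (hF0 : ∀ θ, 0 ≤ F θ) (A B : ℝ) :
    ∫ a in A..A + 5, ∫ c in B..B + 5, P a c * F (a - c) ≤
      ∫ θ in (A - B - 5)..(A - B + 5), (∫ c in B..B + 5, P (θ + c) c) * F θ := by
  have h1 : Continuous (fun a c => P a c * F (a - c)).uncurry :=
    hP.mul (hF.comp (continuous_fst.sub continuous_snd))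
  have h2 : Continuous (fun θ c => P (θ + c) c * F θ).uncurry :=
    (hP.comp ((continuous_fst.add continuous_snd).prodMk continuous_snd)).mul
      (hF.comp continuous_fst)
  simp_rw [← intervalIntegral.integral_mul_const]
  rw [Cov_swap h1, Cov_swap h2]
  refine intervalIntegral.integral_mono_on (by linarith) (Continuous.intervalIntegrable ?_ _ _)
    (Continuous.intervalIntegrable ?_ _ _) fun c hc => ?_
  · exact intervalIntegral.continuous_parametric_intervalIntegral_of_continuous'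
      (f := fun c a => P a c * F (a - c)) (h1.comp continuous_swap) _ _
  · exact intervalIntegral.continuous_parametric_intervalIntegral_of_continuous'
      (f := fun c θ => P (θ + c) c * F θ) (h2.comp continuous_swap) _ _
  · have e := intervalIntegral.integral_comp_sub_right (a := A) (b := A + 5)
      (fun θ => P (θ + c) c * F θ) c
    simp only [sub_add_cancel] at e
    rw [e]
    exact intervalIntegral.integral_mono_interval (by linarith [hc.2]) (by linarith)
      (by linarith [hc.1]) (Filter.Eventually.of_forall fun θ => mul_nonneg (hP0 _ _) (hF0 _))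
      (Continuous.intervalIntegrable (h2.comp (continuous_id.prodMk continuous_const)) _ _)

theorem Cov_tp (S : Finset ℤ) (ρ : ℤ → ℂ) {x0 x1 : ℝ} (h : x0 ≤ x1) (h' : x1 ≤ x0 + 12) :
    ∫ θ in x0..x1, ‖tp S ρ θ‖ ^ 2 ≤ 4 * π * sq2 S ρ := by
  have hc : Continuous fun θ => ‖tp S ρ θ‖ ^ 2 := by fun_prop
  rw [← intervalIntegral.integral_add_adjacent_intervals (b := (x0 + x1) / 2)
    (hc.intervalIntegrable _ _) (hc.intervalIntegrable _ _)]
  have h1 := int_tp_le S ρ (x0 := x0) (x1 := (x0 + x1) / 2) (by linarith)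
    (by linarith [pi_gt_three])
  have h2 := int_tp_le S ρ (x0 := (x0 + x1) / 2) (x1 := x1) (by linarith)
    (by linarith [pi_gt_three])
  linarith

theorem Cov_ind {p : ℝ → Prop} [DecidablePred p] (hp : MeasurableSet {y | p y}) {h : ℝ → ℝ}
    (hh : Continuous h) (a b : ℝ) :
    IntervalIntegrable (fun y => if p y then h y else 0) volume a b := by
  have e : (fun y => if p y then h y else 0) = {y | p y}.indicator h := by
    funext y
    simp [Set.indicator_apply]
  rw [e]
  exact ⟨(hh.intervalIntegrable a b).1.indicator hp, (hh.intervalIntegrable a b).2.indicator hp⟩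

theorem Cov_card (μ : ℕ) : (blk μ).card = μ := by
  rw [blk, Nat.card_Ico]
  omega

theorem Cov_log {μ n : ℕ} (hμ : 1 ≤ μ) (h : n ∈ blk μ) :
    log μ ≤ log n ∧ log n ≤ log μ + 1 := by
  obtain ⟨h1, h2⟩ := mem_Ico.1 h
  have m : (0 : ℝ) < μ := by exact_mod_cast hμ
  have a1 : (μ : ℝ) ≤ n := by exact_mod_cast h1
  have a2 : (n : ℝ) ≤ 2 * μ := by exact_mod_cast h2.le
  refine ⟨log_le_log m a1, (log_le_log (m.trans_le a1) a2).trans ?_⟩
  rw [log_mul two_ne_zero m.ne']
  linarith [log_two_lt_d9]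

/-- Exchange the integrals, put `a = θ + c`, enlarge the range of `θ` to the interval of length `10`
around `log (μ1 / μ3)`, exchange again, `cov_weight`; substitute `y = θ - log n1 + log n3 ∈ [-6, 6]`,
`cov_count`, and `int_tp_le` on `[-6, 0]` and `[0, 6]`. -/
theorem PP_le : ∃ C : ℝ, 0 < C ∧ ∀ (N M : ℕ) (e1 e2 e3 : ℤ) (μ1 μ2 μ3 : ℕ), 1 ≤ N → M ≤ N →
    Blk M e1 e2 e3 μ1 μ2 μ3 → ∀ (S : Finset ℤ) (ρ : ℤ → ℂ),
      PP N e1 e2 e3 μ1 μ2 μ3 (tp S ρ) ≤ C * (√(μ1 * μ3) / N * sq2 S ρ) := by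
  obtain ⟨C1, hC1, h1⟩ := cov_weight
  obtain ⟨C2, hC2, h2⟩ := cov_count
  refine ⟨C1 * (4 * π * (1 + C2)), by positivity, fun N M e1 e2 e3 μ1 μ2 μ3 hN hM hB S ρ => ?_⟩
  have hq := sq2_nonneg S ρ
  have n0 : (1 : ℝ) ≤ N := by exact_mod_cast hN
  have m2 : (1 : ℝ) ≤ μ2 := by exact_mod_cast hB.pos
  have m1 : (1 : ℝ) ≤ μ1 := by exact_mod_cast hB.pos.trans hB.le1
  have m3 : (1 : ℝ) ≤ μ3 := by exact_mod_cast hB.pos.trans hB.le3
  have m1' : (μ1 : ℝ) ≤ N := by exact_mod_cast (by have := hB.top1; omega : μ1 ≤ N)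
  have m3' : (μ3 : ℝ) ≤ N := by exact_mod_cast (by have := hB.top3; omega : μ3 ≤ N)
  set l : ℝ := log ((μ1 : ℝ) / μ3) with hl
  have hl' : l = log μ1 - log μ3 := log_div (by positivity) (by positivity)
  have hlo : lo μ1 μ2 - lo μ3 μ2 = l := by
    rw [lo, lo, hl', log_div (by positivity) (by positivity),
      log_div (by positivity) (by positivity)]
    ring
  set B := blk μ1 ×ˢ blk μ3 with hBdef
  set F : ℝ → ℝ := fun θ => ∑ n ∈ B, ‖tp S ρ (θ - (log n.1 - log n.2))‖ ^ 2 with hF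
  have hFc : Continuous F := by simp only [hF]; fun_prop
  have hF0 : ∀ θ, 0 ≤ F θ := fun θ => sum_nonneg fun _ _ => by positivity
  have hpl : Continuous (pl N e1 e2 e3 μ2).uncurry := by
    unfold pl Function.uncurry
    fun_prop
  have e0 : PP N e1 e2 e3 μ1 μ2 μ3 (tp S ρ) = ∫ a in lo μ1 μ2..lo μ1 μ2 + 5,
      ∫ c in lo μ3 μ2..lo μ3 μ2 + 5, pl N e1 e2 e3 μ2 a c * F (a - c) := by
    simp only [PP, hF, hBdef, sum_product, sub_add]
  have s1 := Cov_shear hpl hFc (fun _ _ => (ps_pos _).le) hF0 (lo μ1 μ2) (lo μ3 μ2)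
  rw [← e0, hlo] at s1
  set p : ℝ → Prop := fun θ => |θ - l| ≤ 5 ∧ |e1 * exp θ + e3| * μ3 ≤ 25 * μ2 with hp
  have hpm : ∀ L : ℝ, MeasurableSet {y | p (y + L)} := fun L =>
    ((isClosed_le (f := fun y => |y + L - l|) (g := fun _ => 5) (by fun_prop) (by fun_prop)).inter
      (isClosed_le (f := fun y => |e1 * exp (y + L) + e3| * μ3) (g := fun _ => 25 * (μ2 : ℝ))
        (by fun_prop) (by fun_prop))).measurableSet
  set H : ℕ × ℕ → ℝ → ℝ :=
    fun n y => if p (y + (log n.1 - log n.2)) then ‖tp S ρ y‖ ^ 2 else 0 with hH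
  have hHi : ∀ n a b, IntervalIntegrable (H n) volume a b := fun n a b =>
    Cov_ind (hpm _) (by fun_prop) a b
  have hH0 : ∀ n y, 0 ≤ H n y := fun n y => by simp only [hH]; positivity
  have hHi' : ∀ n ∈ B, IntervalIntegrable (fun θ => H n (θ - (log n.1 - log n.2))) volume
      (l - 5) (l + 5) := fun n _ => by
    simpa using (hHi n (l - 5 - (log n.1 - log n.2)) (l + 5 - (log n.1 - log n.2))).comp_sub_right
      (log n.1 - log n.2)
  have hsum : IntervalIntegrable (fun θ => ∑ n ∈ B, H n (θ - (log n.1 - log n.2))) volume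
      (l - 5) (l + 5) := by
    have := IntervalIntegrable.sum B hHi'
    rwa [Finset.sum_fn] at this
  have s2 : ∫ θ in (l - 5)..(l + 5), (∫ c in lo μ3 μ2..lo μ3 μ2 + 5,
      pl N e1 e2 e3 μ2 (θ + c) c) * F θ ≤ ∫ θ in (l - 5)..(l + 5),
      C1 * (1 / (N * μ2) ^ 2 * F θ + 1 / ((N : ℝ) * μ2) *
        ∑ n ∈ B, H n (θ - (log n.1 - log n.2))) := by
    refine intervalIntegral.integral_mono_on (by linarith) (Continuous.intervalIntegrable ?_ _ _)
      ((((hFc.intervalIntegrable _ _).const_mul _).add (hsum.const_mul _)).const_mul _)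
      fun θ hθ => ?_
    · refine Continuous.mul ?_ hFc
      exact intervalIntegral.continuous_parametric_intervalIntegral_of_continuous'
        (f := fun θ c => pl N e1 e2 e3 μ2 (θ + c) c)
        (by unfold pl Function.uncurry; fun_prop) _ _
    · refine (mul_le_mul_of_nonneg_right (h1 N M e1 e2 e3 μ1 μ2 μ3 hN hB θ) (hF0 θ)).trans
        (le_of_eq ?_)
      have a5 : |θ - l| ≤ 5 := abs_le.2 ⟨by linarith [hθ.1], by linarith [hθ.2]⟩
      simp only [hH, sub_add_cancel, hp, a5, true_and]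
      split_ifs
      · simp only [hF]; ring
      · simp only [sum_const_zero]; ring
  have t1 : ∫ θ in (l - 5)..(l + 5), F θ ≤ μ1 * μ3 * (4 * π * sq2 S ρ) := by
    simp only [hF]
    rw [intervalIntegral.integral_finsetSum fun n _ => Continuous.intervalIntegrable
      (u := fun θ => ‖tp S ρ (θ - (log n.1 - log n.2))‖ ^ 2) (by fun_prop) _ _]
    refine (sum_le_card_nsmul _ _ (4 * π * sq2 S ρ) fun n _ => ?_).trans (le_of_eq ?_)
    · rw [intervalIntegral.integral_comp_sub_right (fun θ => ‖tp S ρ θ‖ ^ 2)]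
      exact Cov_tp S ρ (by linarith) (by linarith)
    · rw [hBdef, card_product, Cov_card, Cov_card, nsmul_eq_mul, Nat.cast_mul]
  have t2 : ∫ θ in (l - 5)..(l + 5), ∑ n ∈ B, H n (θ - (log n.1 - log n.2)) ≤
      C2 * (μ2 * √(μ1 * μ3)) * (4 * π * sq2 S ρ) := by
    rw [intervalIntegral.integral_finsetSum hHi']
    have u1 : ∀ n ∈ B, ∫ θ in (l - 5)..(l + 5), H n (θ - (log n.1 - log n.2)) ≤
        ∫ y in (-6 : ℝ)..6, H n y := by
      intro n hn
      rw [intervalIntegral.integral_comp_sub_right (H n)]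
      obtain ⟨a1, a2⟩ := mem_product.1 hn
      have b1 := Cov_log (hB.pos.trans hB.le1) a1
      have b2 := Cov_log (hB.pos.trans hB.le3) a2
      exact intervalIntegral.integral_mono_interval (by linarith [b1.1, b1.2, b2.1, b2.2])
        (by linarith) (by linarith [b1.1, b1.2, b2.1, b2.2])
        (Filter.Eventually.of_forall (hH0 n)) (hHi n _ _)
    refine (sum_le_sum u1).trans ?_
    rw [← intervalIntegral.integral_finsetSum fun n _ => hHi n _ _]
    have hs6 : IntervalIntegrable (fun y => ∑ n ∈ B, H n y) volume (-6) 6 := by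
      have := IntervalIntegrable.sum B fun n _ => hHi n (-6) 6
      rwa [Finset.sum_fn] at this
    refine (intervalIntegral.integral_mono_on (g := fun y => C2 * (μ2 * √(μ1 * μ3)) *
      ‖tp S ρ y‖ ^ 2) (by norm_num) hs6 (Continuous.intervalIntegrable (by fun_prop) _ _)
      fun y _ => ?_).trans ?_
    · simp only [hH]
      rw [← sum_filter, sum_const, nsmul_eq_mul]
      refine mul_le_mul_of_nonneg_right ?_ (by positivity)
      simpa only [hp, add_sub_assoc] using h2 M e1 e2 e3 μ1 μ2 μ3 hB y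
    · rw [intervalIntegral.integral_const_mul]
      exact mul_le_mul_of_nonneg_left (Cov_tp S ρ (by norm_num) (by norm_num)) (by positivity)
  rw [intervalIntegral.integral_const_mul, intervalIntegral.integral_add
    ((hFc.intervalIntegrable _ _).const_mul _) (hsum.const_mul _),
    intervalIntegral.integral_const_mul, intervalIntegral.integral_const_mul] at s2
  refine s1.trans (s2.trans ?_)
  rw [mul_assoc C1]
  refine mul_le_mul_of_nonneg_left ?_ hC1.le
  set r := √((μ1 : ℝ) * μ3) with hr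
  have r0 : 0 ≤ r := sqrt_nonneg _
  have r2 : r * r = μ1 * μ3 := mul_self_sqrt (by positivity)
  have rN : r ≤ N := by
    rw [hr, sqrt_le_left (by positivity)]
    nlinarith
  have w1 : 1 / ((N : ℝ) * μ2) ^ 2 * (μ1 * μ3) ≤ r / N := by
    rw [← r2, one_div_mul_eq_div, div_le_div_iff₀ (by positivity) (by positivity)]
    have : (N : ℝ) * N ≤ (N * μ2) ^ 2 := by
      rw [← sq]
      exact pow_le_pow_left₀ (by positivity) (by nlinarith) 2
    calc r * r * N ≤ r * (N * N) := by
          rw [mul_assoc]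
          exact mul_le_mul_of_nonneg_left (mul_le_mul_of_nonneg_right rN (by positivity)) r0
      _ ≤ _ := mul_le_mul_of_nonneg_left this r0
  calc _ ≤ 1 / ((N : ℝ) * μ2) ^ 2 * (μ1 * μ3 * (4 * π * sq2 S ρ)) +
        1 / ((N : ℝ) * μ2) * (C2 * (μ2 * r) * (4 * π * sq2 S ρ)) := by gcongr
    _ = 1 / ((N : ℝ) * μ2) ^ 2 * (μ1 * μ3) * (4 * π * sq2 S ρ) +
        C2 * (r / N) * (4 * π * sq2 S ρ) := by field_simp
    _ ≤ r / N * (4 * π * sq2 S ρ) + C2 * (r / N) * (4 * π * sq2 S ρ) := by gcongr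
    _ = _ := by ring

end Pool.Agent.Lib.MP_ecd12e_nt.GM
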