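import Pool.Agent.Lib.MP_ecd12e_nt.GM.Spc

/-! The weight in the first factor. -/

namespace Pool.Agent.Lib.MP_ecd12e_nt.GM

open Finset Real MeasureTheory
open Pool.Agent.Lib.MP_ecd12e_nt.Bar
open scoped ContDiff ComplexConjugate

theorem Cov1_far {K y r : ℝ} (hK : 0 < K) (hr : 0 < r) (h : r ≤ |y|) :
    ps (K * y) ≤ 1 / r ^ 2 * (1 / K ^ 2) := by
  have h1 : r ^ 2 ≤ y ^ 2 := by rw [← sq_abs y]; gcongr
  rw [ps, one_div_mul_one_div, mul_pow]
  refine one_div_le_one_div_of_le (by positivity) ?_
  nlinarith [mul_le_mul_of_nonneg_left h1 (sq_nonneg K)]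

theorem Cov1_all {K e d a : ℝ} (hK : 0 < K) (he : |e| = 1) :
    ∫ c in a..a + 5, ps (K * (e + exp c * d)) ≤ 20 * (1 / K ^ 2) + 8 * (1 / K) := by
  have hd : ∀ c : ℝ, HasDerivAt (fun c => arctan (K * (e + exp c * d)))
      (d * (K * exp c * ps (K * (e + exp c * d)))) c := fun c => by
    have h := ((((hasDerivAt_exp c).mul_const d).const_add e).const_mul K).arctan
    convert h using 1
    rw [ps]
    ring
  have h1 := intervalIntegral.integral_eq_sub_of_hasDerivAt (a := a) (b := a + 5)
    (fun c _ => hd c) (Continuous.intervalIntegrable (by fun_prop) _ _)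
  rw [intervalIntegral.integral_const_mul] at h1
  have h2 : |d| * ∫ c in a..a + 5, K * exp c * ps (K * (e + exp c * d)) ≤ 4 := by
    refine (mul_le_mul_of_nonneg_left (le_abs_self _) (abs_nonneg d)).trans ?_
    rw [← abs_mul, h1, abs_le]
    constructor <;> linarith [arctan_lt_pi_div_two (K * (e + exp a * d)), pi_le_four,
      arctan_lt_pi_div_two (K * (e + exp (a + 5) * d)),
      neg_pi_div_two_lt_arctan (K * (e + exp a * d)),
      neg_pi_div_two_lt_arctan (K * (e + exp (a + 5) * d))]
  calc _ ≤ ∫ c in a..a + 5, (4 * (1 / K ^ 2) +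
        2 * (1 / K) * |d| * (K * exp c * ps (K * (e + exp c * d)))) := by
        refine intervalIntegral.integral_mono_on (by linarith)
          (Continuous.intervalIntegrable (by fun_prop) _ _)
          (Continuous.intervalIntegrable (by fun_prop) _ _) fun c _ => ?_
        have h3 := ps_pos (K * (e + exp c * d))
        have h4 : 2 * (1 / K) * |d| * (K * exp c * ps (K * (e + exp c * d))) =
            2 * |exp c * d| * ps (K * (e + exp c * d)) := by
          rw [abs_mul, abs_of_pos (exp_pos c)]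
          field_simp
        rw [h4]
        rcases le_total |exp c * d| (1 / 2) with h | h
        · have h5 : 1 / 2 ≤ |e + exp c * d| := by
            have := abs_sub_abs_le_abs_add e (exp c * d)
            linarith
          have h6 := Cov1_far hK (by norm_num) h5
          have h7 : 0 ≤ 2 * |exp c * d| * ps (K * (e + exp c * d)) := by positivity
          rw [show (1 : ℝ) / (1 / 2) ^ 2 = 4 by norm_num] at h6
          linarith
        · have h7 : 0 ≤ 4 * (1 / K ^ 2) := by positivity
          nlinarith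
    _ = 20 * (1 / K ^ 2) + 2 * (1 / K) *
        (|d| * ∫ c in a..a + 5, K * exp c * ps (K * (e + exp c * d))) := by
        rw [intervalIntegral.integral_add (Continuous.intervalIntegrable (by fun_prop) _ _)
          (Continuous.intervalIntegrable (by fun_prop) _ _), intervalIntegral.integral_const,
          intervalIntegral.integral_const_mul, smul_eq_mul]
        ring
    _ ≤ 20 * (1 / K ^ 2) + 2 * (1 / K) * 4 := by gcongr
    _ = _ := by ring

theorem Cov1_exp : exp (5 / 2) ≤ 25 / 2 := by
  refine (pow_le_pow_iff_left₀ (exp_pos _).le (by norm_num) two_ne_zero).1 ?_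
  rw [← exp_nat_mul, show ((2 : ℕ) : ℝ) * (5 / 2) = (5 : ℕ) * 1 by norm_num, exp_nat_mul]
  exact (pow_le_pow_left₀ (exp_pos _).le exp_one_lt_d9.le 5).trans (by norm_num)

/-- For fixed `θ = a - c` the weight is `ps (N μ2 (e2 + exp c * d))`, `d = e1 exp θ + e3`, with
`exp c ∈ [P e^{-5/2}, P e^{5/2}]`, `P = μ3 / μ2 ≥ 1`. If `|d| P ≥ 25` or `|d| P ≤ 1 / 25` the weight
is at most `4 / (N μ2)²`. Otherwise substitute `r = exp c` and use `int_ps`. -/
theorem cov_weight : ∃ C : ℝ, 0 < C ∧ ∀ (N M : ℕ) (e1 e2 e3 : ℤ) (μ1 μ2 μ3 : ℕ), 1 ≤ N →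
    Blk M e1 e2 e3 μ1 μ2 μ3 → ∀ θ : ℝ,
      ∫ c in lo μ3 μ2..lo μ3 μ2 + 5, pl N e1 e2 e3 μ2 (θ + c) c
        ≤ C * (1 / (N * μ2) ^ 2 +
          if |e1 * exp θ + e3| * μ3 ≤ 25 * μ2 then 1 / ((N : ℝ) * μ2) else 0) := by
  refine ⟨20, by norm_num, fun N M e1 e2 e3 μ1 μ2 μ3 hN hB θ => ?_⟩
  have h2 : (0 : ℝ) < μ2 := by exact_mod_cast hB.pos
  have h3 : (0 : ℝ) < μ3 := by exact_mod_cast hB.pos.trans hB.le3
  have hK : (0 : ℝ) < N * μ2 := mul_pos (by exact_mod_cast hN) h2
  have he : |(e2 : ℝ)| = 1 := by rcases hB.s2 with h | h <;> simp [h]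
  have hpl : ∀ c, pl N e1 e2 e3 μ2 (θ + c) c =
      ps (N * μ2 * (e2 + exp c * (e1 * exp θ + e3))) := fun c => by
    rw [pl, exp_add]
    congr 2
    ring
  simp only [hpl]
  split_ifs with h
  · refine (Cov1_all hK he).trans ?_
    have : 0 ≤ 1 / ((N : ℝ) * μ2) := by positivity
    linarith
  · calc _ ≤ ∫ c in lo μ3 μ2..lo μ3 μ2 + 5, 1 / ((N : ℝ) * μ2) ^ 2 := by
          refine intervalIntegral.integral_mono_on (by linarith)
            (Continuous.intervalIntegrable (by fun_prop) _ _)
            (Continuous.intervalIntegrable (by fun_prop) _ _) fun c hc => ?_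
          have h4 : (μ3 : ℝ) / μ2 ≤ exp c * (25 / 2) := by
            calc (μ3 : ℝ) / μ2 = exp (lo μ3 μ2) * exp (5 / 2) := by
                  rw [← exp_add, lo, sub_add_cancel, exp_log (div_pos h3 h2)]
              _ ≤ _ := mul_le_mul (exp_le_exp.2 hc.1) Cov1_exp (exp_pos _).le (exp_pos _).le
          have h5 : 2 ≤ |exp c * (e1 * exp θ + e3)| := by
            rw [abs_mul, abs_of_pos (exp_pos c)]
            rw [div_le_iff₀ h2] at h4
            have h6 := mul_le_mul_of_nonneg_left h4 (abs_nonneg (e1 * exp θ + e3))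
            refine le_of_mul_le_mul_right ?_ h2
            nlinarith [not_le.1 h]
          have h6 : 1 ≤ |e2 + exp c * (e1 * exp θ + e3)| := by
            have := abs_sub_abs_le_abs_add (exp c * (e1 * exp θ + e3)) e2
            rw [add_comm (exp c * _)] at this
            linarith
          simpa using Cov1_far hK one_pos h6
      _ ≤ _ := by
          rw [intervalIntegral.integral_const, smul_eq_mul]
          have : 0 ≤ 1 / ((N : ℝ) * μ2) ^ 2 := by positivity
          linarith

end Pool.Agent.Lib.MP_ecd12e_nt.GM
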