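import Pool.Agent.Lib.MP_ecd12e_nt.GM.Vdc

/-! The Beta integral along one curve. -/

namespace Pool.Agent.Lib.MP_ecd12e_nt.GM

open Finset Real MeasureTheory
open Pool.Agent.Lib.MP_ecd12e_nt.Bar
open scoped ContDiff ComplexConjugate

lemma Curve_interval (a0 c0 e g : ℝ) (he : e = 1 ∨ e = -1) (F : ℝ → ℝ → ℂ) :
    (∫ a in a0..a0 + 5, (Set.Icc (exp c0) (exp (c0 + 5))).indicator (F a) (e * exp a + g)) = 0 ∨
    ∃ x0 x1 : ℝ, x0 ≤ x1 ∧ (∀ x ∈ Set.Icc x0 x1, x ∈ Set.Icc a0 (a0 + 5) ∧
      e * exp x + g ∈ Set.Icc (exp c0) (exp (c0 + 5))) ∧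
      (∫ a in a0..a0 + 5, (Set.Icc (exp c0) (exp (c0 + 5))).indicator (F a) (e * exp a + g)) =
        ∫ a in x0..x1, F a (e * exp a + g) := by
  set S : Set ℝ := Set.Icc a0 (a0 + 5) ∩
    (fun a => e * exp a + g) ⁻¹' Set.Icc (exp c0) (exp (c0 + 5)) with hS
  have h5 : a0 ≤ a0 + 5 := by linarith
  have key : (∫ a in a0..a0 + 5, (Set.Icc (exp c0) (exp (c0 + 5))).indicator (F a) (e * exp a + g)) =
      ∫ a in S, F a (e * exp a + g) := by
    have hm : MeasurableSet ((fun a => e * exp a + g) ⁻¹' Set.Icc (exp c0) (exp (c0 + 5))) :=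
      (isClosed_Icc.preimage (by fun_prop)).measurableSet
    rw [intervalIntegral.integral_of_le h5, ← integral_Icc_eq_integral_Ioc, hS,
      ← setIntegral_indicator hm]
    rfl
  rcases S.eq_empty_or_nonempty with h | h
  · left
    rw [key, h]
    simp
  · right
    have hc : IsCompact S := isCompact_Icc.inter_right (isClosed_Icc.preimage (by fun_prop))
    have ho : S.OrdConnected := by
      refine Set.ordConnected_Icc.inter ?_
      rcases he with rfl | rfl
      · refine Set.ordConnected_Icc.preimage_mono fun a b hab => ?_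
        have := exp_le_exp.2 hab
        linarith
      · refine Set.ordConnected_Icc.preimage_anti fun a b hab => ?_
        have := exp_le_exp.2 hab
        linarith
    have hI := eq_Icc_of_connected_compact ⟨h, ho.isPreconnected⟩ hc
    have hle : sInf S ≤ sSup S := by
      rw [hI] at h
      exact Set.nonempty_Icc.1 h
    refine ⟨sInf S, sSup S, hle, fun x hx => ?_, ?_⟩
    · rw [← hI] at hx
      exact hx
    · rw [key, intervalIntegral.integral_of_le hle, ← integral_Icc_eq_integral_Ioc, ← hI]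

lemma Curve_exp {x : ℝ} (h : -(5 / 2) ≤ x) : 3 / 2 ≤ 40 * exp x := by
  have h1 : exp (-3) ≤ exp x := exp_le_exp.2 (by linarith)
  have h2 : exp (-3) * exp 1 ^ 3 = 1 := by
    rw [← exp_nat_mul, ← exp_add]
    norm_num
  have h3 : exp 1 ^ 3 ≤ (2.7182818286 : ℝ) ^ 3 :=
    pow_le_pow_left₀ (exp_pos 1).le exp_one_lt_d9.le 3
  have h4 : exp 1 ^ 3 ≤ 21 := h3.trans (by norm_num)
  nlinarith [exp_pos (-3)]

/-- Integral along one curve `r = e exp a + g`. The set of the `a ∈ [a0, a0 + 5]` with
`r ∈ [exp c0, exp (c0 + 5)]` is an interval `[x0, x1]` or empty; if it is nonempty, `exp a0` and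
`exp c0` are comparable. The phase has derivative `((β - α) e exp a - α g) / r`: take `b = 1`,
`k = 1 / r`. If `|α| ≥ 4 |β - α| exp (a0 + 5)` use `vdc1` with `η = |α| / 4` (then `|α| ≥ c H`),
otherwise `|β - α| ≥ c H / exp a0` and `vdc2` with `η = √|β - α| exp a0`. -/
theorem curve_le : ∃ C : ℝ, 0 < C ∧ ∀ (a0 c0 e g α β H : ℝ), -(5 / 2) ≤ a0 → -(5 / 2) ≤ c0 →
    (e = 1 ∨ e = -1) → 1 / 2 ≤ |g| → |g| ≤ 3 / 2 → 0 < H → H ≤ max |α| |β| →
    min (exp a0) (exp c0) ≤ H →
      ‖∫ a in a0..a0 + 5, (Set.Icc (exp c0) (exp (c0 + 5))).indicator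
          (fun r : ℝ => ((1 / r : ℝ) : ℂ) * ei (-(α * a) + β * log r)) (e * exp a + g)‖
        ≤ C / √(max (exp a0) (exp c0) * H) := by
  have hE : 1 ≤ exp 5 := one_le_exp (by norm_num)
  set E := exp 5 with hEd
  set K := E + 40 with hK
  have hK1 : 1 ≤ K := by linarith
  refine ⟨24 * K + 8 * (5 * E * K), by positivity,
    fun a0 c0 e g α β H ha0 hc0 he hg0 hg1 hH hHm hmin => ?_⟩
  have hP := exp_pos a0
  have hQ := exp_pos c0
  have hMx : 0 < max (exp a0) (exp c0) := lt_max_of_lt_left hP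
  have hsq : 0 < √(max (exp a0) (exp c0) * H) := sqrt_pos.2 (by positivity)
  rcases Curve_interval a0 c0 e g he
    (fun a r : ℝ => ((1 / r : ℝ) : ℂ) * ei (-(α * a) + β * log r)) with h | ⟨x0, x1, hx, hS, h⟩
  · rw [h, norm_zero]
    positivity
  rw [h]
  have hPE : exp (a0 + 5) = exp a0 * E := exp_add _ _
  have hQE : exp (c0 + 5) = exp c0 * E := exp_add _ _
  have hPE1 : 1 ≤ exp a0 * E := by
    rw [← hPE]
    exact one_le_exp (by linarith)
  have hlo : ∀ x ∈ Set.Icc x0 x1, exp a0 ≤ exp x := fun x hx => exp_le_exp.2 (hS x hx).1.1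
  have hhi : ∀ x ∈ Set.Icc x0 x1, exp x ≤ exp a0 * E := fun x hx =>
    hPE ▸ exp_le_exp.2 (hS x hx).1.2
  have hr : ∀ x ∈ Set.Icc x0 x1, 0 < e * exp x + g := fun x hx => hQ.trans_le (hS x hx).2.1
  have hx0 : x0 ∈ Set.Icc x0 x1 := Set.left_mem_Icc.2 hx
  have hg := abs_le.1 hg1
  have hPQ : exp a0 ≤ K * exp c0 ∧ exp c0 ≤ K * exp a0 := by
    have h1 := hlo x0 hx0
    have h2 := hhi x0 hx0
    have h3 := (hS x0 hx0).2.1
    have h4 := (hS x0 hx0).2.2
    have h5 := Curve_exp ha0
    have h6 := Curve_exp hc0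
    have h7 := exp_pos x0
    rw [hQE] at h4
    rw [hK]
    rcases he with rfl | rfl
    · constructor <;> nlinarith [hg.1, hg.2]
    · constructor <;> nlinarith [hg.1, hg.2]
  have hMQ : max (exp a0) (exp c0) ≤ K * exp c0 :=
    max_le hPQ.1 (le_mul_of_one_le_left hQ.le hK1)
  have hMP : max (exp a0) (exp c0) ≤ K * exp a0 :=
    max_le (le_mul_of_one_le_left hP.le hK1) hPQ.2
  have hMH : max (exp a0) (exp c0) ≤ K * H := by
    rcases min_le_iff.1 hmin with h1 | h1
    · exact hMP.trans (mul_le_mul_of_nonneg_left h1 (by linarith))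
    · exact hMQ.trans (mul_le_mul_of_nonneg_left h1 (by linarith))
  have hφ : ∀ x ∈ Set.Icc x0 x1, HasDerivAt (fun a => -(α * a) + β * log (e * exp a + g))
      (((β - α) * e * exp x + -(α * g)) * (1 / (e * exp x + g))) x := by
    intro x hx
    have h1 : HasDerivAt (fun a => e * exp a + g) (e * exp x) x :=
      ((hasDerivAt_exp x).const_mul e).add_const g
    have h2 := (((hasDerivAt_id x).const_mul α).neg).add ((h1.log (hr x hx).ne').const_mul β)
    refine HasDerivAt.congr_deriv h2 ?_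
    have := (hr x hx).ne'
    field_simp
    ring
  have hk : ContinuousOn (fun a => 1 / (e * exp a + g)) (Set.Icc x0 x1) :=
    continuousOn_const.div (by fun_prop) fun x hx => (hr x hx).ne'
  have hae : |e| = 1 := by rcases he with rfl | rfl <;> simp
  have hβ : |β| ≤ |α| + |β - α| := by
    have := abs_add_le α (β - α)
    rwa [add_sub_cancel] at this
  have hD0 := abs_nonneg (β - α)
  have hα0 := abs_nonneg α
  have hHD : H ≤ |α| + |β - α| := hHm.trans (max_le (by linarith) hβ)
  rcases le_or_gt (4 * (|β - α| * (exp a0 * E))) |α| with hc | hc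
  · have h1 : |β - α| ≤ |β - α| * (exp a0 * E) := le_mul_of_one_le_right hD0 hPE1
    have h2 : H ≤ 2 * |α| := by linarith
    have h3 := vdc1 (x0 := x0) (x1 := x1) (A := (β - α) * e) (B := -(α * g)) (η := H / 8)
      (β0 := 1) (β1 := 0) (b := fun _ => 1) (b' := fun _ => 0) hx (by positivity) hφ hk
      (fun x _ => hasDerivAt_const x 1) continuousOn_const (fun x _ => by simp)
      (fun x _ => by simp) (fun x hx => by
        have h4 : |(β - α) * e * exp x| ≤ |β - α| * (exp a0 * E) := by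
          rw [abs_mul, abs_mul, hae, mul_one, abs_of_pos (exp_pos x)]
          exact mul_le_mul_of_nonneg_left (hhi x hx) hD0
        have h5 : |α| * (1 / 2) ≤ |α * g| := by
          rw [abs_mul]
          exact mul_le_mul_of_nonneg_left hg0 hα0
        have h6 := abs_sub ((β - α) * e * exp x) ((β - α) * e * exp x + -(α * g))
        have h7 : (β - α) * e * exp x - ((β - α) * e * exp x + -(α * g)) = α * g := by ring
        rw [h7] at h6
        linarith)
    simp only [one_mul, mul_one, zero_mul, add_zero] at h3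
    refine h3.trans ?_
    have h4 : √(max (exp a0) (exp c0) * H) ≤ K * H := by
      refine sqrt_le_iff.2 ⟨by positivity, ?_⟩
      have h5 : H ≤ K * H := le_mul_of_one_le_left hH.le hK1
      rw [sq]
      exact mul_le_mul hMH h5 hH.le (by positivity)
    rw [div_le_div_iff₀ (by positivity) hsq]
    have h5 : 0 ≤ 8 * (5 * E * K) * (H / 8) := by positivity
    nlinarith
  · have hD : 0 < |β - α| := by
      rcases hD0.lt_or_eq with h1 | h1
      · exact h1
      · rw [← h1] at hc
        linarith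
    have h1 : |β - α| ≤ |β - α| * (exp a0 * E) := le_mul_of_one_le_right hD0 hPE1
    have h2 : H ≤ 5 * (|β - α| * (exp a0 * E)) := by linarith
    set η := √(|β - α| * exp a0 * exp c0) with hη
    have hη0 : 0 < η := sqrt_pos.2 (by positivity)
    have hη2 : η ^ 2 = |β - α| * exp a0 * exp c0 := sq_sqrt (by positivity)
    have hA : |(β - α) * e| = |β - α| := by rw [abs_mul, hae, mul_one]
    have h3 := vdc2 (x0 := x0) (x1 := x1) (A := (β - α) * e) (B := -(α * g)) (η := η)
      (β0 := 1) (β1 := 0) (κ0 := 1 / exp c0) (b := fun _ => 1) (b' := fun _ => 0) hx hη0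
      (abs_pos.1 (hA ▸ hD)) hφ hk
      (fun x _ => hasDerivAt_const x 1) continuousOn_const (fun x _ => by simp)
      (fun x _ => by simp) (fun x hx => by
        rw [one_mul, abs_of_pos (one_div_pos.2 (hr x hx))]
        exact one_div_le_one_div_of_le hQ (hS x hx).2.1)
    simp only [one_mul, mul_one, zero_mul, add_zero] at h3
    refine h3.trans ?_
    have h4 : 1 / exp c0 * (2 * η / (|(β - α) * e| * exp x0)) ≤ 2 / η := by
      rw [hA]
      have h5 : 2 * η / (|β - α| * exp x0) ≤ 2 * η / (|β - α| * exp a0) :=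
        div_le_div_of_nonneg_left (by positivity) (by positivity)
          (mul_le_mul_of_nonneg_left (hlo x0 hx0) hD0)
      refine (mul_le_mul_of_nonneg_left h5 (by positivity)).trans (le_of_eq ?_)
      field_simp
      rw [hη2]
      ring
    have hL : 1 ≤ 5 * E * K := by nlinarith
    have h5 : √(max (exp a0) (exp c0) * H) ≤ 5 * E * K * η := by
      refine sqrt_le_iff.2 ⟨by positivity, ?_⟩
      have h6 : max (exp a0) (exp c0) * H ≤ K * exp c0 * (5 * (|β - α| * (exp a0 * E))) :=
        mul_le_mul hMQ h2 hH.le (by positivity)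
      have h7 : K * exp c0 * (5 * (|β - α| * (exp a0 * E))) = 5 * E * K * η ^ 2 := by
        rw [hη2]
        ring
      have h8 : 5 * E * K * η ^ 2 ≤ 5 * E * K * (5 * E * K * η ^ 2) :=
        le_mul_of_one_le_left (by positivity) hL
      calc _ ≤ 5 * E * K * (5 * E * K * η ^ 2) := by linarith
        _ = _ := by ring
    have h6 : 6 / η + 2 / η = 8 / η := by ring
    refine (add_le_add_right h4 _).trans ?_
    rw [h6, div_le_div_iff₀ hη0 hsq]
    have h7 : 0 ≤ 24 * K * η := by positivity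
    nlinarith

end Pool.Agent.Lib.MP_ecd12e_nt.GM
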