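import Pool.Agent.Lib.MP_ecd12e_nt.GM.Pars

/-! Decay of the oscillatory integrals. -/

namespace Pool.Agent.Lib.MP_ecd12e_nt.GM

open Finset Real MeasureTheory
open Pool.Agent.Lib.MP_ecd12e_nt.Bar
open scoped ContDiff ComplexConjugate

lemma Dec_int {G : ℝ → ℝ} (hG : Continuous G) (hc : HasCompactSupport G) (s ξ : ℝ) :
    Integrable fun θ => (G θ : ℂ) * ei (s * θ - 2 * π * ξ * exp θ) := by
  refine Continuous.integrable_of_hasCompactSupport (by fun_prop) ?_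
  refine HasCompactSupport.mul_right ?_
  exact hc.comp_left (g := fun x : ℝ => (x : ℂ)) Complex.ofReal_zero

lemma Dec_parts {G : ℝ → ℝ} (hG : ContDiff ℝ ∞ G) (hc : HasCompactSupport G) (s ξ : ℝ) :
    (2 * π * ξ * Complex.I) * ∫ θ, ((exp θ * G θ : ℝ) : ℂ) * ei (s * θ - 2 * π * ξ * exp θ) =
      (∫ θ, ((deriv G θ : ℝ) : ℂ) * ei (s * θ - 2 * π * ξ * exp θ)) +
        (s * Complex.I) * ∫ θ, (G θ : ℂ) * ei (s * θ - 2 * π * ξ * exp θ) := by
  have i1 := Dec_int (G := fun θ => exp θ * G θ) (continuous_exp.mul hG.continuous) hc.mul_left s ξ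
  have i2 := Dec_int (hG.continuous_deriv (by simp)) hc.deriv s ξ
  have i3 := Dec_int hG.continuous hc s ξ
  have hd : ∀ θ, HasDerivAt (fun θ => (G θ : ℂ) * ei (s * θ - 2 * π * ξ * exp θ))
      (((deriv G θ : ℝ) : ℂ) * ei (s * θ - 2 * π * ξ * exp θ) +
        (s * Complex.I) * ((G θ : ℂ) * ei (s * θ - 2 * π * ξ * exp θ)) -
        (2 * π * ξ * Complex.I) * (((exp θ * G θ : ℝ) : ℂ) * ei (s * θ - 2 * π * ξ * exp θ))) θ := by
    intro θ
    have h1 := (hG.differentiable (by simp) θ).hasDerivAt.ofReal_comp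
    have h2 : HasDerivAt (fun θ => s * θ - 2 * π * ξ * exp θ) (s * 1 - 2 * π * ξ * exp θ) θ :=
      ((hasDerivAt_id θ).const_mul s).sub ((hasDerivAt_exp θ).const_mul _)
    refine (h1.mul (hasDerivAt_ei h2)).congr_deriv ?_
    push_cast
    ring
  have h0 := integral_eq_zero_of_hasDerivAt_of_integrable hd
    ((i2.add (i3.const_mul _)).sub (i1.const_mul _)) i3
  have i4 : Integrable fun θ => ((deriv G θ : ℝ) : ℂ) * ei (s * θ - 2 * π * ξ * exp θ) +
      (s * Complex.I) * ((G θ : ℂ) * ei (s * θ - 2 * π * ξ * exp θ)) := i2.add (i3.const_mul _)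
  rw [integral_sub i4 (i1.const_mul _), integral_add i2 (i3.const_mul _),
    integral_const_mul, integral_const_mul] at h0
  exact (sub_eq_zero.1 h0).symm

/-- Induction on `B`. With `G2 = exp (-θ) G` and `G1 = G2'`,
`2 π i ξ ∫ G E = ∫ G1 E + i s ∫ G2 E` for `E = ei (s θ - 2 π ξ exp θ)`. -/
theorem osc_decay (B : ℕ) : ∀ G : ℝ → ℝ, ContDiff ℝ ∞ G → HasCompactSupport G →
    ∃ C : ℝ, 0 < C ∧ ∀ s ξ : ℝ, ξ ≠ 0 →
      ‖∫ θ, (G θ : ℂ) * ei (s * θ - 2 * π * ξ * exp θ)‖ ≤ C * ((1 + |s|) / |ξ|) ^ B := by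
  induction B with
  | zero =>
    intro G hG hc
    refine ⟨(∫ θ, |G θ|) + 1, by positivity, fun s ξ _ => ?_⟩
    refine (norm_integral_le_integral_norm _).trans ?_
    simp only [norm_mul, norm_ei, mul_one, Complex.norm_real, Real.norm_eq_abs, pow_zero]
    linarith
  | succ B ih =>
    intro G hG hc
    have hG2 : ContDiff ℝ ∞ fun θ => exp (-θ) * G θ := (contDiff_exp.comp contDiff_neg).mul hG
    have hc2 : HasCompactSupport fun θ => exp (-θ) * G θ := hc.mul_left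
    obtain ⟨C1, p1, h1⟩ := ih _ (hG2.iterate_deriv 1) hc2.deriv
    obtain ⟨C2, p2, h2⟩ := ih _ hG2 hc2
    refine ⟨C1 + C2, by positivity, fun s ξ hξ => ?_⟩
    have h3 := Dec_parts hG2 hc2 s ξ
    have e : ∀ θ, exp θ * (exp (-θ) * G θ) = G θ := fun θ => by
      rw [← mul_assoc, ← exp_add, add_neg_cancel, exp_zero, one_mul]
    simp only [e] at h3
    have h4 := congrArg norm h3
    have hξ' : 0 < |ξ| := abs_pos.2 hξ
    have n1 : ‖(2 * π * ξ * Complex.I : ℂ)‖ = 2 * π * |ξ| := by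
      simp [abs_of_pos pi_pos]
    have n2 : ‖(s * Complex.I : ℂ)‖ = |s| := by simp
    rw [norm_mul, n1] at h4
    have h5 := (norm_add_le _ _).trans (add_le_add (h1 s ξ hξ)
      ((norm_mul _ _).le.trans (mul_le_mul n2.le (h2 s ξ hξ) (norm_nonneg _) (abs_nonneg s))))
    have h6 := h4.le.trans h5
    have q0 : 0 ≤ ((1 + |s|) / |ξ|) ^ B := by positivity
    have q1 := abs_nonneg s
    rw [pow_succ, ← mul_assoc, ← mul_div_assoc, le_div_iff₀ hξ']
    have q2 := mul_nonneg (mul_nonneg p1.le q0) q1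
    have q3 := mul_nonneg p2.le q0
    have q4 := mul_nonneg hξ'.le (norm_nonneg
      (∫ θ, (G θ : ℂ) * ei (s * θ - 2 * π * ξ * exp θ)))
    have q5 := mul_le_mul_of_nonneg_right (show (1 : ℝ) ≤ 2 * π by linarith [pi_gt_three]) q4
    nlinarith

theorem kap_decay (B : ℕ) : ∃ C : ℝ, 0 < C ∧ ∀ s ξ : ℝ, ξ ≠ 0 →
    ‖kap s ξ‖ ≤ C * ((1 + |s|) / |ξ|) ^ B :=
  osc_decay B WW contDiff_WW (Wd_zero ▸ compact_Wd 0)

end Pool.Agent.Lib.MP_ecd12e_nt.GM
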