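import Pool.Agent.Lib.MP_ecd12e_nt.Bar.MeanV
import Pool.Agent.Lib.MP_ecd12e_nt.Mean

/-! Definitions for the improved large value estimate. -/

namespace Pool.Agent.Lib.MP_ecd12e_nt.GM

open Finset Real MeasureTheory
open Pool.Agent.Lib.MP_ecd12e_nt.Bar
open scoped ContDiff ComplexConjugate

/-- the Cauchy weight -/
noncomputable def ps (x : ℝ) : ℝ := 1 / (1 + x ^ 2)

/-- continuous cutoff: `1` on `[-7/4, 7/4]`, `0` outside `(-2, 2)` -/
noncomputable def chi (x : ℝ) : ℝ := max 0 (min 1 (8 - 4 * |x|))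

/-- smooth bump: `1` on `[1, 2]`, `0` outside `(1/2, 5/2)` -/
noncomputable def bump : ContDiffBump (3 / 2 : ℝ) := ⟨1 / 2, 1, by norm_num, by norm_num⟩

/-- the bump in logarithmic coordinates, with the Jacobian -/
noncomputable def WW (θ : ℝ) : ℝ := bump (exp θ) * exp θ

/-- derivatives of `WW` -/
noncomputable def Wd (j : ℕ) : ℝ → ℝ := iteratedDeriv j WW

/-- `∫ w(u) u^{is} e(-ξ u) du` -/
noncomputable def kap (s ξ : ℝ) : ℂ := ∫ θ, (WW θ : ℂ) * ei (s * θ - 2 * π * ξ * exp θ)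

/-- the part of the kernel that comes from the frequencies in `B` -/
noncomputable def kB (N : ℕ) (B : Finset ℤ) (s : ℤ) : ℂ := ∑ m ∈ B, kap s (m * N)

/-- the full kernel -/
noncomputable def kfull (N : ℕ) (s : ℤ) : ℂ :=
  ∑ n ∈ Icc 1 (3 * N), (bump ((n : ℝ) / N) : ℂ) * ei (s * log ((n : ℝ) / N))

/-- nonzero frequencies below `M` -/
noncomputable def MM (M : ℕ) : Finset ℤ := (Ioo (-(M : ℤ)) M).erase 0

/-- a dyadic block -/
def blk (μ : ℕ) : Finset ℕ := Ico μ (2 * μ)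

/-- a signed dyadic block -/
def sb (e : ℤ) (μ : ℕ) : Finset ℤ := (blk μ).image fun n : ℕ => e * n

/-- symmetric interval of integers -/
noncomputable def box (H : ℕ) : Finset ℤ := Icc (-(H : ℤ)) H

/-- trigonometric polynomial -/
noncomputable def tp (S : Finset ℤ) (ρ : ℤ → ℂ) (θ : ℝ) : ℂ := ∑ t ∈ S, ρ t * ei (t * θ)

/-- squared norm of a sequence -/
noncomputable def sq2 (S : Finset ℤ) (ρ : ℤ → ℂ) : ℝ := ∑ t ∈ S, ‖ρ t‖ ^ 2

/-- the Fejér kernel -/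
noncomputable def fj (K : ℕ) (θ : ℝ) : ℝ := ‖∑ j ∈ range K, ei (j * θ)‖ ^ 2 / K

/-- the trilinear form -/
noncomputable def tri (N : ℕ) (S B1 B2 B3 : Finset ℤ) (ρ1 ρ2 ρ3 : ℤ → ℂ) : ℂ :=
  ∑ t1 ∈ S, ∑ t2 ∈ S, ∑ t3 ∈ S,
    ρ1 t1 * ρ2 t2 * ρ3 t3 * (kB N B1 (t1 - t2) * kB N B2 (t2 - t3) * kB N B3 (t3 - t1))

/-- the radial integral -/
noncomputable def Psi (ξ1 ξ2 ξ3 a c : ℝ) : ℂ :=
  ∫ σ, ((WW (σ + a) * WW σ * WW (σ + c) : ℝ) : ℂ) *
    ei (-(2 * π * exp σ * (ξ1 * exp a + ξ2 + ξ3 * exp c)))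

/-- the radial integral with two factors -/
noncomputable def Psi2 (y a : ℝ) : ℂ :=
  ∫ σ, ((WW σ * WW (σ + a) : ℝ) : ℂ) * ei (-(2 * π * exp σ * y))

/-- the thickened lines -/
noncomputable def Xi (N : ℕ) (B1 B2 B3 : Finset ℤ) (z : ℝ × ℝ) : ℝ :=
  ∑ m1 ∈ B1, ∑ m2 ∈ B2, ∑ m3 ∈ B3, ps (N * (m1 * exp z.1 + m2 + m3 * exp z.2))

/-- continuous, nonnegative, vanishing outside `(-2, 2)` -/
structure Nice (x : ℝ → ℝ) : Prop where
  cont : Continuous x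
  nonneg : ∀ θ, 0 ≤ x θ
  supp : ∀ θ, 2 ≤ |θ| → x θ = 0

/-- the modulus of a trigonometric polynomial, cut off -/
noncomputable def ab (S : Finset ℤ) (ρ : ℤ → ℂ) (θ : ℝ) : ℝ := chi θ * ‖tp S ρ θ‖

/-- `L` dominates logarithms and divisor functions -/
structure Lg (N : ℕ) (L : ℝ) : Prop where
  hN : 1 ≤ N
  hlog : 1 + log N ≤ L
  hdiv : ∀ n : ℕ, n ≤ N ^ 6 → ((n.divisors.card : ℕ) : ℝ) ≤ L

/-- Fourier coefficients in the variable `exp a` -/
noncomputable def hh (x : ℝ → ℝ) (k : ℤ) : ℂ := ∫ a, (x a : ℂ) * ei (2 * π * k * exp a)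

/-- the normalised Dirichlet polynomial -/
noncomputable def DD (N : ℕ) (b : ℕ → ℂ) (t : ℤ) : ℂ :=
  ∑ n ∈ Icc N (2 * N), b n * ei (t * log ((n : ℝ) / N))

/-- the Fejér weight, extended by zero -/
noncomputable def phi (T : ℕ) (t : ℤ) : ℝ := max 0 (1 - |(t : ℝ)| / (2 * T))

/-- the weight of the trace method -/
noncomputable def wa (N T : ℕ) (b : ℕ → ℂ) (V : ℝ) (t : ℤ) : ℝ :=
  if ‖DD N b t‖ ≤ V then phi T t * ‖DD N b t‖ ^ 2 else 0

/-- smoothed counting function of fractions -/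
noncomputable def nu (N K : ℕ) (θ : ℝ) : ℝ :=
  ∑ n1 ∈ Icc N (2 * N), ∑ n2 ∈ Icc N (2 * N), K * ps (K * (θ + log n1 - log n2))

/-- short Dirichlet polynomial on a block -/
noncomputable def Zb (μ : ℕ) (γ : ℕ → ℂ) (x : ℤ) : ℂ := ∑ n ∈ blk μ, γ n * ei (x * log n)

/-- left end of the range of a logarithmic ratio -/
noncomputable def lo (μ μ' : ℕ) : ℝ := log ((μ : ℝ) / μ') - 5 / 2

/-- the weight of the standard line -/
noncomputable def pl (N : ℕ) (e1 e2 e3 : ℤ) (μ2 : ℕ) (a c : ℝ) : ℝ :=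
  ps (N * μ2 * (e1 * exp a + e2 + e3 * exp c))

/-- first factor of the Cauchy-Schwarz step -/
noncomputable def PP (N : ℕ) (e1 e2 e3 : ℤ) (μ1 μ2 μ3 : ℕ) (f : ℝ → ℂ) : ℝ :=
  ∫ a in lo μ1 μ2..lo μ1 μ2 + 5, ∫ c in lo μ3 μ2..lo μ3 μ2 + 5,
    pl N e1 e2 e3 μ2 a c * ∑ n1 ∈ blk μ1, ∑ n3 ∈ blk μ3, ‖f (a - c - log n1 + log n3)‖ ^ 2

/-- second factor of the Cauchy-Schwarz step -/
noncomputable def QQ (N : ℕ) (e1 e2 e3 : ℤ) (μ1 μ2 μ3 : ℕ) (γ : ℕ → ℂ) (f g : ℝ → ℂ) : ℝ :=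
  ∫ a in lo μ1 μ2..lo μ1 μ2 + 5, ∫ c in lo μ3 μ2..lo μ3 μ2 + 5,
    pl N e1 e2 e3 μ2 a c * ∑ n1 ∈ blk μ1, ∑ n3 ∈ blk μ3,
      ‖∑ n ∈ blk μ2, γ n * (f (-a - log n + log n1) * g (c - log n3 + log n))‖ ^ 2

/-- the Beta kernel -/
noncomputable def Jk (N : ℕ) (e1 e2 e3 : ℤ) (μ1 μ2 μ3 : ℕ) (α β : ℤ) : ℂ :=
  ∫ a in lo μ1 μ2..lo μ1 μ2 + 5, ∫ c in lo μ3 μ2..lo μ3 μ2 + 5,
    (pl N e1 e2 e3 μ2 a c : ℂ) * ei (-(α * a) + β * c)

/-- bilinear form with kernel `J` -/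
noncomputable def BJ (J : ℤ → ℤ → ℂ) (I I' : Finset ℤ) (u v : ℤ → ℂ) : ℂ :=
  ∑ α ∈ I, ∑ β ∈ I', u α * v β * J α β

/-- Fourier coefficients of `f (θ + x) * conj (f (θ + x'))` -/
noncomputable def cor (S : Finset ℤ) (ρ : ℤ → ℂ) (x x' : ℝ) (α : ℤ) : ℂ :=
  ∑ t ∈ S, ρ (t + α) * conj (ρ t) * ei (((t : ℝ) + α) * x - t * x')

/-- a sign -/
def Sg (e : ℤ) : Prop := e = 1 ∨ e = -1

/-- the parameters of the flat estimate; `M = z ^ 30` -/
structure Par (N T M : ℕ) (L z : ℝ) : Prop where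
  lg : Lg N L
  hMN : M ≤ N
  hNT : N ≤ T
  hTM : T * M ≤ N ^ 2
  hT6 : T ≤ M ^ 6
  hz : 1 ≤ z
  hzM : z ^ 30 = M

/-- three admissible blocks, the middle one being the smallest -/
structure Blk (M : ℕ) (e1 e2 e3 : ℤ) (μ1 μ2 μ3 : ℕ) : Prop where
  s1 : Sg e1
  s2 : Sg e2
  s3 : Sg e3
  pos : 1 ≤ μ2
  le1 : μ2 ≤ μ1
  le3 : μ2 ≤ μ3
  top1 : 2 * μ1 ≤ M
  top3 : 2 * μ3 ≤ M

lemma ps_pos (x : ℝ) : 0 < ps x := by unfold ps; positivity

lemma ps_le_one (x : ℝ) : ps x ≤ 1 := by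
  unfold ps
  rw [div_le_one (by positivity)]
  nlinarith [sq_nonneg x]

lemma ps_neg (x : ℝ) : ps (-x) = ps x := by simp [ps]

@[fun_prop] lemma continuous_ps : Continuous ps :=
  continuous_const.div (by fun_prop) fun x => by positivity

@[fun_prop] lemma continuous_ei : Continuous ei := by
  unfold ei
  fun_prop

@[fun_prop] lemma continuous_chi : Continuous chi := by
  unfold chi
  fun_prop

lemma chi_nonneg (x : ℝ) : 0 ≤ chi x := le_max_left _ _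

lemma chi_le_one (x : ℝ) : chi x ≤ 1 := max_le zero_le_one (min_le_left _ _)

lemma chi_neg (x : ℝ) : chi (-x) = chi x := by simp [chi]

lemma chi_eq_one {x : ℝ} (h : |x| ≤ 7 / 4) : chi x = 1 := by
  unfold chi
  rw [min_eq_left (by linarith), max_eq_right zero_le_one]

lemma chi_eq_zero {x : ℝ} (h : 2 ≤ |x|) : chi x = 0 :=
  max_eq_left ((min_le_right _ _).trans (by linarith))

lemma nice_chi : Nice chi := ⟨continuous_chi, chi_nonneg, fun _ => chi_eq_zero⟩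

@[fun_prop] lemma continuous_tp (S : Finset ℤ) (ρ : ℤ → ℂ) : Continuous (tp S ρ) := by
  unfold tp
  fun_prop

lemma nice_ab (S : Finset ℤ) (ρ : ℤ → ℂ) : Nice (ab S ρ) :=
  ⟨by unfold ab; fun_prop, fun _ => mul_nonneg (chi_nonneg _) (norm_nonneg _),
    fun _ h => by rw [ab, chi_eq_zero h, zero_mul]⟩

lemma Nice.compact {x : ℝ → ℝ} (h : Nice x) : HasCompactSupport x :=
  HasCompactSupport.intro (isCompact_Icc (a := -2) (b := 2)) fun θ hθ => h.supp θ (by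
    by_contra hc
    exact hθ (abs_le.1 (not_le.1 hc).le))

lemma Nice.integrable {x : ℝ → ℝ} (h : Nice x) : Integrable x :=
  h.cont.integrable_of_hasCompactSupport h.compact

lemma Nice.pow {x : ℝ → ℝ} (h : Nice x) {k : ℕ} (hk : k ≠ 0) : Nice fun θ => x θ ^ k :=
  ⟨h.cont.pow k, fun θ => pow_nonneg (h.nonneg θ) k, fun θ hθ => by rw [h.supp θ hθ, zero_pow hk]⟩

lemma Lg.one_le {N : ℕ} {L : ℝ} (h : Lg N L) : 1 ≤ L := by
  have := log_nonneg (x := N) (by exact_mod_cast h.hN)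
  linarith [h.hlog]

lemma sq2_nonneg (S : Finset ℤ) (ρ : ℤ → ℂ) : 0 ≤ sq2 S ρ :=
  sum_nonneg fun _ _ => by positivity

lemma hasDerivAt_ei {f : ℝ → ℝ} {f' x : ℝ} (h : HasDerivAt f f' x) :
    HasDerivAt (fun y => ei (f y)) (Complex.I * f' * ei (f x)) x := by
  unfold ei
  have h1 := (h.ofReal_comp.mul_const Complex.I).cexp
  convert h1 using 1
  ring

lemma contDiff_WW : ContDiff ℝ ∞ WW := (bump.contDiff.comp contDiff_exp).mul contDiff_exp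

@[fun_prop] lemma continuous_WW : Continuous WW := contDiff_WW.continuous

lemma bump_one {x : ℝ} (h1 : 1 ≤ x) (h2 : x ≤ 2) : bump x = 1 :=
  bump.one_of_mem_closedBall (by
    rw [Metric.mem_closedBall, Real.dist_eq, abs_le]
    constructor <;> simp only [bump] <;> linarith)

lemma bump_zero {x : ℝ} (h : x ≤ 1 / 2 ∨ 5 / 2 ≤ x) : bump x = 0 :=
  bump.zero_of_le_dist (by
    rw [Real.dist_eq, le_abs]
    rcases h with h | h
    · right; simp only [bump]; linarith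
    · left; simp only [bump]; linarith)

lemma WW_nonneg (θ : ℝ) : 0 ≤ WW θ := mul_nonneg bump.nonneg (exp_pos θ).le

lemma WW_zero {θ : ℝ} (h : θ < -(7 / 10) ∨ 19 / 20 < θ) : WW θ = 0 := by
  rw [WW, bump_zero, zero_mul]
  rcases h with h | h
  · left
    have h1 : exp θ ≤ exp (-log 2) := exp_le_exp.2 (by linarith [log_two_lt_d9])
    rwa [exp_neg, exp_log two_pos, ← one_div] at h1
  · right
    have h2 : exp θ = exp (θ / 8) ^ 8 := by rw [← exp_nat_mul]; congr 1; push_cast; ring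
    have h4 := quadratic_le_exp_of_nonneg (x := θ / 8) (by linarith)
    have h5 : (1.1257 : ℝ) ^ 8 ≤ exp (θ / 8) ^ 8 :=
      pow_le_pow_left₀ (by norm_num) (by nlinarith) 8
    rw [h2]
    exact le_trans (by norm_num) h5

lemma Wd_zero : Wd 0 = WW := iteratedDeriv_zero

lemma contDiff_Wd (j : ℕ) : ContDiff ℝ ∞ (Wd j) := by
  rw [Wd, iteratedDeriv_eq_iterate]
  exact contDiff_WW.iterate_deriv j

@[fun_prop] lemma continuous_Wd (j : ℕ) : Continuous (Wd j) := (contDiff_Wd j).continuous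

lemma hasDerivAt_Wd (j : ℕ) (θ : ℝ) : HasDerivAt (Wd j) (Wd (j + 1) θ) θ := by
  have h : Wd (j + 1) = deriv (Wd j) := iteratedDeriv_succ
  rw [h]
  exact ((contDiff_Wd j).differentiable (by simp) θ).hasDerivAt

/-- all derivatives vanish outside `(-3/4, 1)` -/
lemma Wd_eq_zero (j : ℕ) {θ : ℝ} (h : θ ≤ -(3 / 4) ∨ 1 ≤ θ) : Wd j θ = 0 := by
  have key : ∀ j : ℕ, ∀ θ : ℝ, (θ < -(7 / 10) ∨ 19 / 20 < θ) → Wd j θ = 0 := by
    intro j
    induction j with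
    | zero => exact fun θ hθ => by rw [Wd_zero]; exact WW_zero hθ
    | succ j ih =>
      intro θ hθ
      have h1 : Wd j =ᶠ[nhds θ] fun _ => 0 := by
        have h2 : IsOpen {θ : ℝ | θ < -(7 / 10) ∨ 19 / 20 < θ} := isOpen_Iio.union isOpen_Ioi
        filter_upwards [h2.mem_nhds hθ] with y hy using ih y hy
      exact (hasDerivAt_Wd j θ).unique ((hasDerivAt_const θ (0:ℝ)).congr_of_eventuallyEq h1)
  exact key j θ (h.imp (fun h => by linarith) fun h => by linarith)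

lemma compact_Wd (j : ℕ) : HasCompactSupport (Wd j) :=
  HasCompactSupport.intro (isCompact_Icc (a := -(3 / 4)) (b := 1)) fun θ hθ => Wd_eq_zero j (by
    by_contra hc
    push Not at hc
    exact hθ ⟨hc.1.le, hc.2.le⟩)

lemma exists_Wd_le : ∃ C : ℝ, 1 ≤ C ∧ ∀ j ≤ 2, ∀ θ, |Wd j θ| ≤ C := by
  have h : ∀ j, ∃ C : ℝ, ∀ θ, ‖Wd j θ‖ ≤ C := fun j =>
    (continuous_Wd j).bounded_above_of_compact_support (compact_Wd j)
  choose C hC using h
  refine ⟨max 1 (max (C 0) (max (C 1) (C 2))), le_max_left _ _, fun j hj θ => ?_⟩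
  refine (hC j θ).trans (le_trans ?_ (le_max_right _ _))
  interval_cases j
  · exact le_max_left _ _
  · exact (le_max_left _ _).trans (le_max_right _ _)
  · exact (le_max_right _ _).trans (le_max_right _ _)

end Pool.Agent.Lib.MP_ecd12e_nt.GM
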