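import Pool.Agent.Lib.MP_ecd12e_nt.GM.Pars

/-! The Fejér kernel. -/

namespace Pool.Agent.Lib.MP_ecd12e_nt.GM

open Finset Real MeasureTheory
open Pool.Agent.Lib.MP_ecd12e_nt.Bar
open scoped ContDiff ComplexConjugate

theorem fj_nonneg (K : ℕ) (θ : ℝ) : 0 ≤ fj K θ := by
  unfold fj
  positivity

@[fun_prop] theorem continuous_fj (K : ℕ) : Continuous (fj K) := by
  unfold fj
  fun_prop

theorem Fej_box (K : ℕ) (f : ℤ → ℂ) :
    ∑ t ∈ box K, f t = f 0 + ∑ j ∈ range K, (f ((j : ℤ) + 1) + f (-((j : ℤ) + 1))) := by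
  induction K with
  | zero => simp [box]
  | succ K ih =>
    have e : box (K + 1) = insert ((K : ℤ) + 1) (insert (-((K : ℤ) + 1)) (box K)) := by
      ext t
      simp only [box, mem_Icc, mem_insert]
      push_cast
      omega
    rw [e, sum_insert (by simp only [box, mem_Icc, mem_insert]; omega),
      sum_insert (by simp only [box, mem_Icc]; omega), ih, sum_range_succ]
    ring

theorem Fej_step (K : ℕ) (θ : ℝ) :
    ei (K * θ) * conj (∑ j ∈ range K, ei (j * θ)) = ∑ j ∈ range K, ei (((j : ℝ) + 1) * θ) := by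
  rw [map_sum, mul_sum, ← sum_range_reflect]
  refine sum_congr rfl fun j hj => ?_
  have hj' : j < K := mem_range.1 hj
  rw [conj_ei, ← ei_add]
  congr 1
  have : ((K - 1 - j : ℕ) : ℝ) = K - 1 - j := by
    rw [Nat.sub_sub, Nat.cast_sub (by omega)]
    push_cast
    ring
  rw [this]
  ring

theorem Fej_sq {K H : ℕ} (hH : K ≤ H) (θ : ℝ) :
    (∑ j ∈ range K, ei (j * θ)) * conj (∑ j ∈ range K, ei (j * θ)) =
      ∑ t ∈ box H, ((max 0 ((K : ℝ) - |(t : ℝ)|) : ℝ) : ℂ) * ei (t * θ) := by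
  induction K with
  | zero =>
    rw [sum_range_zero, zero_mul]
    refine (sum_eq_zero fun t _ => ?_).symm
    rw [max_eq_left (by simp)]
    simp
  | succ K ih =>
    have h1 := Fej_step K θ
    have h2 : conj (ei (K * θ)) * (∑ j ∈ range K, ei (j * θ)) =
        ∑ j ∈ range K, ei (-(((j : ℝ) + 1) * θ)) := by
      have := congrArg conj h1
      rw [map_mul, Complex.conj_conj, map_sum] at this
      rw [this]
      exact sum_congr rfl fun j _ => conj_ei _
    have h3 : ei (K * θ) * conj (ei (K * θ)) = 1 := by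
      rw [conj_ei, ← ei_add, add_neg_cancel, ei_zero]
    have h4 : ∑ t ∈ box H, (if t ∈ box K then ei (t * θ) else 0) = ∑ t ∈ box K, ei (t * θ) := by
      rw [sum_ite_mem, inter_eq_right.2]
      intro t ht
      simp only [box, mem_Icc] at ht ⊢
      omega
    have h5 : ∑ t ∈ box K, ei (t * θ) = 1 + (∑ j ∈ range K, ei (((j : ℝ) + 1) * θ) +
        ∑ j ∈ range K, ei (-(((j : ℝ) + 1) * θ))) := by
      rw [Fej_box K fun t => ei (t * θ), ← sum_add_distrib]
      congr 1
      · simp [ei_zero]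
      · refine sum_congr rfl fun j _ => ?_
        push_cast
        rw [neg_mul]
    have h6 : ∀ t : ℤ, ((max 0 (((K + 1 : ℕ) : ℝ) - |(t : ℝ)|) : ℝ) : ℂ) * ei (t * θ) =
        ((max 0 ((K : ℝ) - |(t : ℝ)|) : ℝ) : ℂ) * ei (t * θ) +
          if t ∈ box K then ei (t * θ) else 0 := by
      intro t
      split_ifs with ht
      · have h7 : |(t : ℝ)| ≤ K := by
          simp only [box, mem_Icc] at ht
          exact_mod_cast abs_le.2 ht
        rw [max_eq_right (by push_cast; linarith), max_eq_right (by linarith)]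
        push_cast
        ring
      · have h7 : (K : ℝ) + 1 ≤ |(t : ℝ)| := by
          simp only [box, mem_Icc] at ht
          have : (K : ℤ) + 1 ≤ |t| := by
            rw [le_abs]
            omega
          exact_mod_cast this
        rw [max_eq_left (by push_cast; linarith), max_eq_left (by linarith), add_zero]
    rw [sum_congr rfl fun t _ => h6 t, sum_add_distrib, ← ih (by omega), h4, h5, ← h1, ← h2, ← h3,
      sum_range_succ, map_add]
    ring

/-- Induction on `K` for `K * fj K θ`, or count pairs `(j, j')` with `j - j' = t`. -/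
theorem fj_eq {K H : ℕ} (hK : 1 ≤ K) (hH : K ≤ H) (θ : ℝ) :
    (fj K θ : ℂ) = ∑ t ∈ box H, ((max 0 (1 - |(t : ℝ)| / K) : ℝ) : ℂ) * ei (t * θ) := by
  have hK0 : (0 : ℝ) < K := by exact_mod_cast hK
  have h1 := Fej_sq hH θ
  rw [Complex.mul_conj, Complex.normSq_eq_norm_sq] at h1
  unfold fj
  rw [Complex.ofReal_div, h1, sum_div]
  refine sum_congr rfl fun t _ => ?_
  have : max 0 (1 - |(t : ℝ)| / K) = max 0 ((K : ℝ) - |(t : ℝ)|) / K := by
    rw [← max_div_div_right hK0.le, zero_div, sub_div, div_self hK0.ne']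
  rw [this, Complex.ofReal_div]
  ring

theorem Fej_geom (K : ℕ) (θ : ℝ) :
    (∑ j ∈ range K, ei (j * θ)) * (ei θ - 1) = ei (K * θ) - 1 := by
  induction K with
  | zero => simp [ei_zero]
  | succ K ih =>
    rw [sum_range_succ, add_mul, ih]
    push_cast
    rw [add_mul, one_mul, ei_add]
    ring

/-- Geometric sum and `norm_ei_sub_one`. -/
theorem fj_sin {K : ℕ} (hK : 1 ≤ K) (θ : ℝ) :
    K * fj K θ * sin (θ / 2) ^ 2 = sin (K * θ / 2) ^ 2 := by
  have hK0 : (0 : ℝ) < K := by exact_mod_cast hK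
  have h1 := congrArg (fun z : ℂ => ‖z‖ ^ 2) (Fej_geom K θ)
  simp only [norm_mul, norm_ei_sub_one, mul_pow, sq_abs] at h1
  unfold fj
  rw [mul_div_cancel₀ _ hK0.ne']
  linarith

theorem Fej_le {K : ℕ} (hK : 1 ≤ K) (θ : ℝ) : fj K θ ≤ K := by
  have hK0 : (0 : ℝ) < K := by exact_mod_cast hK
  have h1 : ‖∑ j ∈ range K, ei (j * θ)‖ ≤ K :=
    (_root_.norm_sum_le _ _).trans (by simp [norm_ei])
  unfold fj
  rw [div_le_iff₀ hK0, ← sq]
  exact pow_le_pow_left₀ (norm_nonneg _) h1 2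

/-- `fj ≤ K` and `fj ≤ π ^ 2 / (K θ ^ 2)`. -/
theorem fj_le {K : ℕ} (hK : 1 ≤ K) {θ : ℝ} (h : |θ| ≤ π) : fj K θ ≤ 20 * (K * ps (K * θ)) := by
  have hK0 : (0 : ℝ) < K := by exact_mod_cast hK
  have h0 := fj_nonneg K θ
  have h1 := Fej_le hK θ
  have h2 := fj_sin hK θ
  have h3 : sin (K * θ / 2) ^ 2 ≤ 1 := sin_sq_le_one _
  have h4 : 2 / π * |θ / 2| ≤ |sin (θ / 2)| :=
    mul_abs_le_abs_sin (by rw [abs_div, abs_two]; linarith)
  have h5 : |θ| ≤ 4 * |sin (θ / 2)| := by
    rw [abs_div, abs_two, div_mul_div_comm, div_le_iff₀ (by positivity)] at h4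
    nlinarith [pi_le_four, abs_nonneg (sin (θ / 2))]
  have h6 : θ ^ 2 ≤ 16 * sin (θ / 2) ^ 2 := by
    have := pow_le_pow_left₀ (abs_nonneg _) h5 2
    rw [mul_pow, sq_abs, sq_abs] at this
    linarith
  have h7 : K * fj K θ * θ ^ 2 ≤ 16 := by
    have := mul_le_mul_of_nonneg_left h6 (mul_nonneg hK0.le h0)
    linarith
  unfold ps
  rw [mul_one_div, ← mul_div_assoc, le_div_iff₀ (by positivity)]
  have h8 := mul_le_mul_of_nonneg_left h7 hK0.le
  nlinarith

theorem fj_int {K : ℕ} (hK : 1 ≤ K) (x : ℝ) : ∫ y in (0:ℝ)..2 * π, fj K (x - y) = 2 * π := by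
  rw [intervalIntegral.integral_comp_sub_left (fj K) x, sub_zero]
  have e : x = (x - 2 * π) + 2 * π := by ring
  have h1 : ∫ θ in (x - 2 * π)..(x - 2 * π) + 2 * π, ((fj K θ : ℝ) : ℂ) = ((2 * π : ℝ) : ℂ) := by
    simp only [fj_eq hK le_rfl]
    rw [intervalIntegral.integral_finsetSum fun t _ => Continuous.intervalIntegrable (by fun_prop) _ _]
    simp only [intervalIntegral.integral_const_mul, int_ei]
    rw [sum_eq_single_of_mem 0 (by simp [box]) fun t _ ht => by rw [if_neg ht, mul_zero]]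
    simp
  rw [← e, intervalIntegral.integral_ofReal] at h1
  exact_mod_cast h1

end Pool.Agent.Lib.MP_ecd12e_nt.GM
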