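import Pool.Agent.Lib.MP_ecd12e_nt.GM.Defs
import Pool.Agent.Lib.MP_ecd12e_nt.Sep

/-! Subdivision. -/

namespace Pool.Agent.Lib.MP_ecd12e_nt.GM

open Finset Real MeasureTheory
open Pool.Agent.Lib.MP_ecd12e_nt.Bar
open scoped ContDiff ComplexConjugate

/-- Cut `[0, T]` into intervals `[k T1, (k + 1) T1]`, `k ≤ T / T1`; the shift goes into the
coefficients `b n * ei (k T1 log (n / N))`. -/
theorem subdivide {N T1 : ℕ} (hT1 : 1 ≤ T1) {V Y T : ℝ} (hT : 0 ≤ T)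
    (h : ∀ b : ℕ → ℂ, (∀ n, ‖b n‖ ≤ 1) → ∀ W : Finset ℤ,
      (∀ t ∈ W, 0 ≤ t ∧ t ≤ T1 ∧ V < ‖DD N b t‖) → (W.card : ℝ) ≤ Y)
    {b : ℕ → ℂ} (hb : ∀ n, ‖b n‖ ≤ 1) (W : Finset ℤ)
    (hW : ∀ t ∈ W, 0 ≤ (t : ℝ) ∧ (t : ℝ) ≤ T ∧ V < ‖DD N b t‖) :
    (W.card : ℝ) ≤ (T / T1 + 1) * Y := by
  have hY : 0 ≤ Y := by simpa using h b hb ∅ (by simp)
  have h1 : (0 : ℝ) < T1 := by exact_mod_cast hT1
  have h2 : (0 : ℤ) < T1 := by exact_mod_cast hT1
  refine (card_le_mul_real (T := Icc (0 : ℤ) ⌊T / T1⌋₊) (fun t => t / (T1 : ℤ)) (M := Y)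
    (fun t ht => ?_) fun k _ S hS hk => ?_).trans (mul_le_mul_of_nonneg_right ?_ hY)
  · obtain ⟨a1, a2, _⟩ := hW t ht
    have a3 : 0 ≤ t := by exact_mod_cast a1
    refine mem_Icc.2 ⟨Int.ediv_nonneg a3 h2.le, ?_⟩
    rw [Int.natCast_floor_eq_floor (by positivity), Int.le_floor, le_div_iff₀ h1]
    refine le_trans ?_ a2
    exact_mod_cast Int.ediv_mul_le t h2.ne'
  · rw [← card_image_of_injective S (sub_left_injective (b := k * (T1 : ℤ)))]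
    refine h (fun n => b n * ei ((k * (T1 : ℤ) : ℤ) * log ((n : ℝ) / N)))
      (fun n => by rw [norm_mul, norm_ei, mul_one]; exact hb n) _ fun t ht => ?_
    obtain ⟨s, hs, rfl⟩ := mem_image.1 ht
    have a1 := Int.emod_nonneg s h2.ne'
    have a2 := Int.emod_lt_of_pos s h2
    have a3 : s % T1 = s - k * T1 := by rw [Int.emod_def, hk s hs, mul_comm]
    refine ⟨a3 ▸ a1, a3 ▸ a2.le, (hW s (hS hs)).2.2.trans_eq (congrArg _ ?_)⟩
    refine sum_congr rfl fun n _ => ?_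
    rw [mul_assoc, ← ei_add]
    congr 2
    push_cast
    ring
  · rw [Int.card_Icc, sub_zero, ← Nat.cast_succ, Int.toNat_natCast, Nat.cast_succ]
    linarith [Nat.floor_le (show 0 ≤ T / T1 by positivity)]

/-- `card_divisors_pow_le` in `Sep.lean`, `isLittleO_log_rpow_atTop`. -/
theorem eventually_Lg {B : ℕ} (hB : 1 ≤ B) (L0 : ℝ) : ∃ N0 : ℕ, ∀ N : ℕ, N0 ≤ N →
    Lg N ((N : ℝ) ^ (1 / (B : ℝ))) ∧ L0 ≤ (N : ℝ) ^ (1 / (B : ℝ)) := by
  have hB' : (0 : ℝ) < B := by exact_mod_cast hB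
  have h1 : Filter.Tendsto (fun N : ℕ => (N : ℝ) ^ (1 / (2 * B : ℝ))) Filter.atTop Filter.atTop :=
    (tendsto_rpow_atTop (by positivity)).comp tendsto_natCast_atTop_atTop
  obtain ⟨N1, hN1⟩ := Filter.eventually_atTop.1 (h1.eventually_ge_atTop (max L0 (2 * B + 1)))
  refine ⟨max (max N1 1) (((12 * B) ^ (12 * B)) ^ 2 ^ (12 * B)), fun N hN => ?_⟩
  have a1 : N1 ≤ N := (le_max_left _ _).trans ((le_max_left _ _).trans hN)
  have a2 : 1 ≤ N := (le_max_right _ _).trans ((le_max_left _ _).trans hN)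
  have a3 := (le_max_right _ _).trans hN
  have a4 : (0 : ℝ) < N := by exact_mod_cast a2
  have b1 := (le_max_left _ _).trans (hN1 N a1)
  have b2 := (le_max_right _ _).trans (hN1 N a1)
  have b3 : (N : ℝ) ^ (1 / (B : ℝ)) = (N : ℝ) ^ (1 / (2 * B : ℝ)) * (N : ℝ) ^ (1 / (2 * B : ℝ)) := by
    rw [← rpow_add a4]
    congr 1
    field_simp
    ring
  have b4 := log_le_rpow_div a4.le (show 0 < 1 / (2 * B : ℝ) by positivity)
  rw [div_div_eq_mul_div, div_one] at b4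
  refine ⟨⟨a2, by nlinarith, fun n hn => ?_⟩, by nlinarith⟩
  rcases eq_or_ne n 0 with rfl | hn0
  · rw [Nat.divisors_zero, card_empty, Nat.cast_zero]
    positivity
  have c1 : n.divisors.card ^ (12 * B) ≤ N ^ 12 := by
    refine (card_divisors_pow_le (by omega) hn0).trans ((Nat.mul_le_mul hn
      (a3.trans (Nat.le_self_pow (n := 6) (by norm_num) N))).trans_eq ?_)
    ring
  have c2 : ((N : ℝ) ^ (1 / (B : ℝ))) ^ (12 * B) = (N : ℝ) ^ 12 := by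
    rw [mul_comm, pow_mul, one_div, rpow_inv_natCast_pow a4.le (by omega)]
  refine le_of_pow_le_pow_left₀ (n := 12 * B) (by omega) (by positivity) ?_
  rw [c2]
  exact_mod_cast c1

theorem norm_DD {N : ℕ} (hN : 1 ≤ N) (b : ℕ → ℂ) (t : ℤ) : ‖DD N b t‖ =
    ‖∑ n ∈ Icc N (2 * N), b n * Complex.exp ((((t : ℝ) * log (n : ℝ) : ℝ) : ℂ) * Complex.I)‖ := by
  have h1 : DD N b t = (∑ n ∈ Icc N (2 * N), b n * ei (t * log (n : ℝ))) * ei (-(t * log N)) := by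
    rw [sum_mul]
    refine sum_congr rfl fun n hn => ?_
    rw [mul_assoc, ← ei_add, log_div (Nat.cast_ne_zero.2 (by have := (mem_Icc.1 hn).1; omega))
      (Nat.cast_ne_zero.2 (by omega))]
    congr 2
    ring
  rw [h1, norm_mul, norm_ei, mul_one]
  rfl

end Pool.Agent.Lib.MP_ecd12e_nt.GM
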