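import Pool.Agent.Lib.MP_ecd12e_nt.GM.Short
import Pool.Agent.Lib.MP_ecd12e_nt.GM.Sub

/-! The final statement. -/

namespace Pool.Agent.Lib.MP_ecd12e_nt.GM

open Finset Real MeasureTheory
open Pool.Agent.Lib.MP_ecd12e_nt.Bar
open scoped ContDiff ComplexConjugate

lemma Fin_norm_DD {N : ℕ} (hN : 1 ≤ N) {b : ℕ → ℂ} (hb : ∀ n, ‖b n‖ ≤ 1) (t : ℤ) :
    ‖DD N b t‖ ≤ 2 * N := by
  refine (_root_.norm_sum_le _ _).trans ((sum_le_card_nsmul _ _ 1 fun n _ => ?_).trans ?_)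
  · rw [norm_mul, norm_ei, mul_one]
    exact hb n
  · have h : (Icc N (2 * N)).card ≤ 2 * N := by
      rw [Nat.card_Icc]
      omega
    rw [nsmul_eq_mul, mul_one]
    exact_mod_cast h

lemma Fin_card {T : ℝ} (hT : 0 ≤ T) (W : Finset ℤ) (hW : ∀ t ∈ W, 0 ≤ (t : ℝ) ∧ (t : ℝ) ≤ T) :
    (W.card : ℝ) ≤ T + 1 := by
  have h1 : W ⊆ Icc (0 : ℤ) (⌊T⌋₊ : ℕ) := fun t ht => mem_Icc.2
    ⟨by exact_mod_cast (hW t ht).1, by
      rw [Int.natCast_floor_eq_floor hT]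
      exact Int.le_floor.2 (hW t ht).2⟩
  have h2 := card_le_card h1
  rw [Int.card_Icc, sub_zero, Int.toNat_natCast_add_one] at h2
  have h3 : (W.card : ℝ) ≤ (⌊T⌋₊ : ℕ) + 1 := by exact_mod_cast h2
  linarith [Nat.floor_le hT]

lemma Fin_floor {x : ℝ} (h : 1 ≤ x) : x ≤ 2 * (⌊x⌋₊ : ℕ) := by
  have h1 : (1 : ℝ) ≤ (⌊x⌋₊ : ℕ) := by exact_mod_cast (Nat.one_le_floor_iff x).2 h
  linarith [Nat.lt_floor_add_one x]

lemma Fin_div {x T : ℝ} (h : 1 ≤ x) (hT : 0 ≤ T) : T / (⌊x⌋₊ : ℕ) ≤ 2 * T / x := by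
  have h1 : (0 : ℝ) < (⌊x⌋₊ : ℕ) := by exact_mod_cast (Nat.one_le_floor_iff x).2 h
  rw [div_le_div_iff₀ h1 (by linarith)]
  linarith [mul_le_mul_of_nonneg_left (Fin_floor h) hT]

lemma Fin_y {N L R V : ℝ} (hN : 16 ≤ N) (hL : 1 ≤ L) (hR : 0 < R) (hNR : N ≤ R ^ 2)
    (hVN : V ≤ 2 * N) (hV : 0 < V) (hd : 2 * L ^ 2 * N * R ≤ V ^ 2) :
    0 < V ^ 2 / (L ^ 2 * N) ∧ N ≤ (V ^ 2 / (L ^ 2 * N)) ^ 2 ∧ (V ^ 2 / (L ^ 2 * N)) ^ 2 ≤ N ^ 3 ∧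
      V ^ 2 / (L ^ 2 * N) * R ≤ (V ^ 2 / (L ^ 2 * N)) ^ 2 := by
  have hN0 : 0 < N := by linarith
  have a1 : 2 * R ≤ V ^ 2 / (L ^ 2 * N) := by
    rw [le_div_iff₀ (by positivity)]
    linarith
  have a2 : V ^ 2 / (L ^ 2 * N) ≤ 4 * N := by
    rw [div_le_iff₀ (by positivity)]
    calc V ^ 2 ≤ (2 * N) ^ 2 := by gcongr
      _ = 4 * N * (1 * N) := by ring
      _ ≤ _ := by
        gcongr
        exact one_le_pow₀ hL
  generalize V ^ 2 / (L ^ 2 * N) = y at a1 a2 ⊢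
  have hy : 0 < y := by linarith
  refine ⟨hy, by nlinarith, ?_, by nlinarith⟩
  calc _ ≤ (4 * N) ^ 2 := by gcongr
    _ = 16 * N ^ 2 := by ring
    _ ≤ N * N ^ 2 := by gcongr
    _ = _ := by ring

lemma Fin_large (B : ℕ) : ∃ C L0 : ℝ, 0 < C ∧ ∀ (N : ℕ) (L R Q T V : ℝ), Lg N L → L0 ≤ L →
    (N : ℝ) ≤ L ^ B → L ^ 100 ≤ N → 16 ≤ N → 0 < R → (N : ℝ) ≤ R ^ 2 →
    (R ^ 2) ^ 73 = (N : ℝ) ^ 88 → R * Q = (N : ℝ) ^ 3 → (N : ℝ) ≤ T → 0 < V → V ≤ 2 * N →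
    ∀ b : ℕ → ℂ, (∀ n, ‖b n‖ ≤ 1) → ∀ W : Finset ℤ,
      (∀ t ∈ W, 0 ≤ (t : ℝ) ∧ (t : ℝ) ≤ T ∧ V < ‖DD N b t‖) →
        (W.card : ℝ) ≤ C * L ^ 9 * (N ^ 2 / V ^ 2 + √(min T (R ^ 2)) * N ^ 3 / V ^ 4
          + T * Q / V ^ 4) := by
  obtain ⟨C1, L1, hC1, h1⟩ := large_short B
  obtain ⟨C2, L2, hC2, h2⟩ := large_high B
  refine ⟨9 * C1 + 2 * C2, max L1 L2, by positivity,
    fun N L R Q T V hg hL hB h100 h16 hR hNR hR73 hQ hT hV hVN b hb W hW => ?_⟩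
  have hL1 := hg.one_le
  have hN : (16 : ℝ) ≤ N := by exact_mod_cast h16
  have hN0 : (0 : ℝ) < N := by linarith
  have hT0 : 0 ≤ T := by linarith
  have hQ0 : 0 < Q := (mul_pos_iff_of_pos_left hR).1 (by rw [hQ]; positivity)
  have hL9 : 1 ≤ L ^ 9 := one_le_pow₀ hL1
  have hL2 : L ^ 2 ≤ L ^ 9 := pow_le_pow_right₀ hL1 (by norm_num)
  have key : ∀ x : ℝ, (N : ℝ) ≤ x → x ≤ R ^ 2 → ∀ b : ℕ → ℂ, (∀ n, ‖b n‖ ≤ 1) → ∀ W : Finset ℤ,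
      (∀ t ∈ W, 0 ≤ t ∧ t ≤ (⌊x⌋₊ : ℕ) ∧ V < ‖DD N b t‖) →
      (W.card : ℝ) ≤ C1 * (N ^ 2 / V ^ 2 + L ^ 9 * (√x * N ^ 3) / V ^ 4) := by
    intro x hx hx' b hb W hW
    have a1 : ((⌊x⌋₊ : ℕ) : ℝ) ≤ x := Nat.floor_le (by linarith)
    have a2 : ((⌊x⌋₊ : ℕ) : ℝ) ^ 73 ≤ (N : ℝ) ^ 88 := by
      rw [← hR73]
      exact pow_le_pow_left₀ (Nat.cast_nonneg _) (a1.trans hx') 73
    refine (h1 N ⌊x⌋₊ L V hg ((le_max_left _ _).trans hL) hB h100 (Nat.le_floor hx)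
      (by exact_mod_cast a2) hV b hb W hW).trans ?_
    gcongr
  set S1 : ℝ := N ^ 2 / V ^ 2 with hS1
  set S2 : ℝ := √(min T (R ^ 2)) * N ^ 3 / V ^ 4 with hS2
  set S3 : ℝ := T * Q / V ^ 4 with hS3
  have s1 : 0 ≤ S1 := by positivity
  have s2 : 0 ≤ S2 := by positivity
  have s3 : 0 ≤ S3 := by positivity
  have fin : ∀ a1 a2 a3 : ℝ, a1 ≤ 9 * C1 + 2 * C2 → a2 ≤ 9 * C1 + 2 * C2 → a3 ≤ 9 * C1 + 2 * C2 →
      a1 * (L ^ 9 * S1) + a2 * (L ^ 9 * S2) + a3 * (L ^ 9 * S3) ≤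
        (9 * C1 + 2 * C2) * L ^ 9 * (S1 + S2 + S3) := fun a1 a2 a3 e1 e2 e3 => by
    calc _ ≤ (9 * C1 + 2 * C2) * (L ^ 9 * S1) + (9 * C1 + 2 * C2) * (L ^ 9 * S2) +
          (9 * C1 + 2 * C2) * (L ^ 9 * S3) := by gcongr
      _ = _ := by ring
  have l1 : S1 ≤ L ^ 9 * S1 := le_mul_of_one_le_left s1 hL9
  rcases le_total T (R ^ 2) with hc | hc
  · refine (key T hT hc b hb W fun t ht => ⟨by exact_mod_cast (hW t ht).1, ?_, (hW t ht).2.2⟩).trans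
      (le_trans ?_ (fin C1 C1 0 (by linarith) (by linarith) (by linarith)))
    · rw [Int.natCast_floor_eq_floor hT0]
      exact Int.le_floor.2 (hW t ht).2.1
    · rw [hS2, min_eq_left hc, zero_mul, add_zero, ← mul_add, mul_div_assoc (L ^ 9)]
      gcongr
  rcases le_total (V ^ 2) (2 * L ^ 2 * N * R) with hd | hd
  · have a0 : 1 ≤ ⌊R ^ 2⌋₊ := (Nat.one_le_floor_iff _).2 (by linarith)
    have a3 := subdivide a0 hT0 (key (R ^ 2) hNR le_rfl) hb W hW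
    rw [Real.sqrt_sq hR.le] at a3
    have a4 : T / (⌊R ^ 2⌋₊ : ℕ) + 1 ≤ 3 * T / R ^ 2 := by
      have b1 := Fin_div (x := R ^ 2) (by linarith) hT0
      have b2 : 1 ≤ T / R ^ 2 := (one_le_div (by positivity)).2 hc
      calc _ ≤ 2 * T / R ^ 2 + T / R ^ 2 := add_le_add b1 b2
        _ = _ := by ring
    have a5 : S1 ≤ 2 * (L ^ 9 * (R * N ^ 3) / V ^ 4) := by
      calc S1 = N ^ 2 * V ^ 2 / V ^ 4 := by rw [hS1]; field_simp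
        _ ≤ N ^ 2 * (2 * L ^ 9 * N * R) / V ^ 4 := by
          gcongr
          exact hd.trans (by gcongr)
        _ = _ := by ring
    refine a3.trans (le_trans ?_ (fin 0 0 (9 * C1) (by linarith) (by linarith) (by linarith)))
    calc _ ≤ 3 * T / R ^ 2 * (C1 * (3 * (L ^ 9 * (R * N ^ 3) / V ^ 4))) := by
          gcongr
          linarith
      _ = _ := by
          rw [hS3, ← hQ]
          field_simp
          ring
  · obtain ⟨hy0, a3, a2, a1⟩ := Fin_y hN hL1 hR hNR hVN hV hd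
    set y : ℝ := V ^ 2 / (L ^ 2 * N) with hy
    have a4 : ((⌊y ^ 2⌋₊ : ℕ) : ℝ) ≤ y ^ 2 := Nat.floor_le (sq_nonneg y)
    have a5 := a4.trans a2
    have a6 : L ^ 2 * N * √(⌊y ^ 2⌋₊ : ℕ) ≤ V ^ 2 := by
      calc _ ≤ L ^ 2 * N * √(y ^ 2) := by gcongr
        _ = _ := by
          rw [Real.sqrt_sq hy0.le, hy]
          field_simp
    have a0 : 1 ≤ ⌊y ^ 2⌋₊ := (Nat.one_le_floor_iff _).2 (by linarith)
    have a7 := subdivide a0 hT0 (h2 N ⌊y ^ 2⌋₊ L V hg.hN hL1 ((le_max_right _ _).trans hL) hB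
      (Nat.le_floor a3) (by exact_mod_cast a5) hV a6) hb W hW
    have a8 : T / (⌊y ^ 2⌋₊ : ℕ) ≤ 2 * T / (y * R) :=
      (Fin_div (x := y ^ 2) (by linarith) hT0).trans (by gcongr)
    refine a7.trans (le_trans ?_ (fin C2 0 (2 * C2) (by linarith) (by linarith) (by linarith)))
    have a9 : 2 * T / (y * R) * (C2 * S1) = 2 * C2 * (L ^ 2 * S3) := by
      have b1 : Q = N ^ 3 / R := by
        rw [← hQ]
        field_simp
      rw [hS1, hS3, hy, b1]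
      field_simp
    calc _ ≤ (2 * T / (y * R) + 1) * (C2 * S1) := by gcongr
      _ = C2 * S1 + 2 * C2 * (L ^ 2 * S3) := by rw [add_mul, a9, one_mul, add_comm]
      _ ≤ C2 * (L ^ 9 * S1) + 2 * C2 * (L ^ 9 * S3) := by gcongr
      _ = _ := by ring

/-- Take `B ≥ 100` with `13 / B ≤ ε`, `L = N^(1/B)`, `T0 = ⌊N^(88/73)⌋ ≥ N^(88/73) / 2`. We may
assume `V ≤ 2 N`. For `N < N0` use `card W ≤ T + 1`. If `T ≤ N^(88/73)` use `large_short` with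
`⌊T⌋`. Otherwise, if `V² ≤ 2 L² N √T0`, subdivide with `T0` and `large_short`; if not, subdivide
with `T1 = ⌊(V² / (L² N))²⌋ ∈ [N, N³]` and `large_high`. -/
theorem large_values : ∀ ε : ℝ, 0 < ε → ∃ C : ℝ, ∀ N : ℕ, 1 ≤ N → ∀ T V : ℝ, (N : ℝ) ≤ T → 0 < V →
    ∀ b : ℕ → ℂ, (∀ n, ‖b n‖ ≤ 1) → ∀ W : Finset ℤ,
      (∀ t ∈ W, 0 ≤ (t : ℝ) ∧ (t : ℝ) ≤ T ∧ V < ‖DD N b t‖) →
        (W.card : ℝ) ≤ C * (N : ℝ) ^ ε * (N ^ 2 / V ^ 2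
          + √(min T ((N : ℝ) ^ (88 / 73 : ℝ))) * N ^ 3 / V ^ 4
          + T * (N : ℝ) ^ (175 / 73 : ℝ) / V ^ 4) := by
  intro ε hε
  obtain ⟨B, hB⟩ := exists_nat_ge (max 100 (9 / ε))
  have hB1 : (100 : ℝ) ≤ B := (le_max_left _ _).trans hB
  have hB2 : 100 ≤ B := by exact_mod_cast hB1
  have hB3 : 9 ≤ ε * B := by
    rw [mul_comm, ← div_le_iff₀ hε]
    exact (le_max_right _ _).trans hB
  obtain ⟨C, L0, hC, h⟩ := Fin_large B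
  obtain ⟨N0, hN0⟩ := eventually_Lg (B := B) (by omega) L0
  refine ⟨C + 32 * ((N0 : ℝ) + 16) ^ 4, fun N hN T V hT hV b hb W hW => ?_⟩
  have hN1 : (1 : ℝ) ≤ N := by exact_mod_cast hN
  have hNp : (0 : ℝ) < N := by linarith
  have hT0 : 0 ≤ T := by linarith
  rcases W.eq_empty_or_nonempty with rfl | ⟨t, ht⟩
  · rw [card_empty, Nat.cast_zero]
    positivity
  have hVN : V ≤ 2 * N := (hW t ht).2.2.le.trans (Fin_norm_DD hN hb t)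
  rcases le_or_gt (N0 + 16) N with hc | hc
  · obtain ⟨hg, hL⟩ := hN0 N (by omega)
    have a1 : ((N : ℝ) ^ (1 / (B : ℝ))) ^ B = N := by
      rw [one_div, Real.rpow_inv_natCast_pow hNp.le (by omega)]
    have a2 : ((N : ℝ) ^ (44 / 73 : ℝ)) ^ 2 = (N : ℝ) ^ (88 / 73 : ℝ) := by
      rw [← Real.rpow_mul_natCast hNp.le]
      norm_num
    have a3 := h N _ ((N : ℝ) ^ (44 / 73 : ℝ)) ((N : ℝ) ^ (175 / 73 : ℝ)) T V hg hL a1.ge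
      ((pow_le_pow_right₀ hg.one_le hB2).trans a1.le) (by omega) (by positivity)
      (by rw [a2]; exact Real.self_le_rpow_of_one_le hN1 (by norm_num))
      (by rw [a2, ← Real.rpow_mul_natCast hNp.le, ← Real.rpow_natCast]; norm_num)
      (by rw [← Real.rpow_add hNp, ← Real.rpow_natCast]; norm_num) hT hV hVN b hb W hW
    rw [a2] at a3
    have a4 : ((N : ℝ) ^ (1 / (B : ℝ))) ^ 9 ≤ (N : ℝ) ^ ε := by
      rw [← Real.rpow_mul_natCast hNp.le]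
      refine Real.rpow_le_rpow_of_exponent_le hN1 ?_
      rw [div_mul_eq_mul_div, div_le_iff₀ (by linarith)]
      push_cast
      linarith
    refine a3.trans ?_
    gcongr
    exact le_add_of_nonneg_right (by positivity)
  · have a1 : (N : ℝ) ≤ N0 + 16 := by exact_mod_cast hc.le
    have a2 : 1 ≤ (N : ℝ) ^ (175 / 73 : ℝ) := Real.one_le_rpow hN1 (by norm_num)
    have a3 : 1 ≤ (N : ℝ) ^ ε := Real.one_le_rpow hN1 hε.le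
    have a4 : V ^ 4 ≤ (2 * ((N0 : ℝ) + 16)) ^ 4 := by
      gcongr
      linarith
    calc (W.card : ℝ) ≤ T + 1 := Fin_card hT0 W fun t ht => ⟨(hW t ht).1, (hW t ht).2.1⟩
      _ ≤ 2 * T := by linarith
      _ = 32 * ((N0 : ℝ) + 16) ^ 4 * 1 * (T * 1 / (2 * ((N0 : ℝ) + 16)) ^ 4) := by
        field_simp
        ring
      _ ≤ (C + 32 * ((N0 : ℝ) + 16) ^ 4) * (N : ℝ) ^ ε *
          (T * (N : ℝ) ^ (175 / 73 : ℝ) / V ^ 4) := by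
        gcongr
        exact le_add_of_nonneg_left hC.le
      _ ≤ _ := by
        gcongr
        exact le_add_of_nonneg_left (by positivity)

end Pool.Agent.Lib.MP_ecd12e_nt.GM
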