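import Pool.Agent.Lib.MP_ecd12e_nt.GM.Resc0

/-! Cauchy-Schwarz after rescaling. -/

namespace Pool.Agent.Lib.MP_ecd12e_nt.GM

open Finset Real MeasureTheory
open Pool.Agent.Lib.MP_ecd12e_nt.Bar
open scoped ContDiff ComplexConjugate

theorem Resc_rect {h : ℝ × ℝ → ℝ} (hc : Continuous h) (x y : ℝ) :
    ∫ z in Set.Icc x (x + 5) ×ˢ Set.Icc y (y + 5), h z =
      ∫ a in x..x + 5, ∫ c in y..y + 5, h (a, c) := by
  have hi : IntegrableOn h (Set.Icc x (x + 5) ×ˢ Set.Icc y (y + 5)) (volume.prod volume) :=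
    hc.continuousOn.integrableOn_compact (isCompact_Icc.prod isCompact_Icc)
  rw [Measure.volume_eq_prod, setIntegral_prod _ hi, integral_Icc_eq_integral_Ioc,
    intervalIntegral.integral_of_le (by linarith)]
  refine setIntegral_congr_fun measurableSet_Ioc fun a _ => ?_
  rw [integral_Icc_eq_integral_Ioc, intervalIntegral.integral_of_le (by linarith)]

theorem Resc_log {μ n : ℕ} (h1 : 1 ≤ μ) (hn : n ∈ blk μ) :
    log μ ≤ log n ∧ log n ≤ log μ + 7 / 10 := by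
  rw [blk, mem_Ico] at hn
  have h0 : (0 : ℝ) < μ := by exact_mod_cast h1
  have h2 : (μ : ℝ) ≤ n := by exact_mod_cast hn.1
  have h3 : (n : ℝ) ≤ 2 * μ := by exact_mod_cast hn.2.le
  refine ⟨log_le_log h0 h2, (log_le_log (by linarith) h3).trans ?_⟩
  rw [log_mul two_ne_zero h0.ne']
  linarith [log_two_lt_d9]

theorem Resc_supp {j : ℕ} {θ : ℝ} (h : Wd j θ ≠ 0) : -(3 / 4) < θ ∧ θ < 1 := by
  by_contra hc
  refine h (Wd_eq_zero j ?_)
  by_contra hd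
  push Not at hd
  exact hc hd

/-- the summands of `tri_resc` -/
noncomputable def RescF (f g h : ℝ → ℂ) (μ1 μ2 μ3 j1 j2 j3 : ℕ) (z : ℝ × ℝ) (σ : ℝ) : ℂ :=
  S3w (blk μ1 ×ˢ blk μ2 ×ˢ blk μ3)
    (fun n => f (z.1 - z.2 - log n.1 + log n.2.2) *
      (g (-z.1 - log n.2.1 + log n.1) * h (z.2 - log n.2.2 + log n.2.1)))
    (fun n => z.1 - log n.1) (fun n => -log n.2.1) (fun n => z.2 - log n.2.2) j1 j2 j3 σ

theorem Resc_zero {f g h : ℝ → ℂ} {μ1 μ2 μ3 j1 j2 j3 : ℕ} (h2 : 1 ≤ μ2) (h1 : μ2 ≤ μ1)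
    (h3 : μ2 ≤ μ3) {z : ℝ × ℝ} {σ : ℝ} (hne : RescF f g h μ1 μ2 μ3 j1 j2 j3 z σ ≠ 0) :
    z ∈ Set.Icc (lo μ1 μ2) (lo μ1 μ2 + 5) ×ˢ Set.Icc (lo μ3 μ2) (lo μ3 μ2 + 5) ∧
      σ ∈ Set.Icc (log μ2 - 3 / 4) (log μ2 + 7 / 4) := by
  obtain ⟨n, hn, hne⟩ := exists_ne_zero_of_sum_ne_zero hne
  simp only [mem_product] at hn
  have hw : Wd j1 (σ + (z.1 - log n.1)) * Wd j2 (σ + -log n.2.1) *
      Wd j3 (σ + (z.2 - log n.2.2)) ≠ 0 := fun h0 => hne (by rw [h0]; simp)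
  have a1 := Resc_supp (left_ne_zero_of_mul (left_ne_zero_of_mul hw))
  have a2 := Resc_supp (right_ne_zero_of_mul (left_ne_zero_of_mul hw))
  have a3 := Resc_supp (right_ne_zero_of_mul hw)
  have b1 := Resc_log (h2.trans h1) hn.1
  have b2 := Resc_log h2 hn.2.1
  have b3 := Resc_log (h2.trans h3) hn.2.2
  have p2 : (μ2 : ℝ) ≠ 0 := by exact_mod_cast (by omega : μ2 ≠ 0)
  have p1 : (μ1 : ℝ) ≠ 0 := by exact_mod_cast (by omega : μ1 ≠ 0)
  have p3 : (μ3 : ℝ) ≠ 0 := by exact_mod_cast (by omega : μ3 ≠ 0)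
  simp only [Set.mem_prod, Set.mem_Icc, lo, log_div p1 p2, log_div p3 p2]
  refine ⟨⟨⟨?_, ?_⟩, ?_, ?_⟩, ?_, ?_⟩ <;> linarith [a1.1, a1.2, a2.1, a2.2, a3.1, a3.2, b1.1, b1.2,
    b2.1, b2.2, b3.1, b3.2]

/-- the normalised middle weight -/
noncomputable def RescG (C : ℝ) (j : ℕ) (σ : ℝ) (n : ℕ) : ℂ := ((Wd j (σ + -log n) / C : ℝ) : ℂ)

theorem Resc_bound {C κ : ℝ} (hC : 1 ≤ C) (hW : ∀ j ≤ 2, ∀ θ, |Wd j θ| ≤ C) (hκ : 0 < κ)
    (f g h : ℝ → ℂ) (μ1 μ2 μ3 : ℕ) {j1 j2 j3 : ℕ} (h1 : j1 ≤ 2) (h3 : j3 ≤ 2) (z : ℝ × ℝ)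
    (σ : ℝ) : ‖RescF f g h μ1 μ2 μ3 j1 j2 j3 z σ‖ ≤ C ^ 3 / 2 *
      (κ * ∑ n1 ∈ blk μ1, ∑ n3 ∈ blk μ3, ‖f (z.1 - z.2 - log n1 + log n3)‖ ^ 2 +
        κ⁻¹ * ∑ n1 ∈ blk μ1, ∑ n3 ∈ blk μ3, ‖∑ n ∈ blk μ2, RescG C j2 σ n *
          (g (-z.1 - log n + log n1) * h (z.2 - log n3 + log n))‖ ^ 2) := by
  have hC0 : (C : ℂ) ≠ 0 := by exact_mod_cast (by linarith : C ≠ 0)
  have e : RescF f g h μ1 μ2 μ3 j1 j2 j3 z σ = ∑ n1 ∈ blk μ1, ∑ n3 ∈ blk μ3,
      ((Wd j1 (σ + (z.1 - log n1)) * Wd j3 (σ + (z.2 - log n3)) * C : ℝ) : ℂ) *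
        (f (z.1 - z.2 - log n1 + log n3) * ∑ n ∈ blk μ2, RescG C j2 σ n *
          (g (-z.1 - log n + log n1) * h (z.2 - log n3 + log n))) := by
    rw [RescF, S3w, sum_product]
    refine sum_congr rfl fun n1 _ => ?_
    rw [sum_product_right]
    refine sum_congr rfl fun n3 _ => ?_
    rw [mul_sum, mul_sum]
    refine sum_congr rfl fun n _ => ?_
    simp only [RescG]
    push_cast
    field_simp
  rw [e, mul_sum, mul_sum, ← sum_add_distrib, mul_sum]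
  refine (_root_.norm_sum_le _ _).trans (sum_le_sum fun n1 _ => ?_)
  rw [mul_sum, mul_sum, ← sum_add_distrib, mul_sum]
  refine (_root_.norm_sum_le _ _).trans (sum_le_sum fun n3 _ => ?_)
  rw [norm_mul, norm_mul, Complex.norm_real, Real.norm_eq_abs, abs_mul, abs_mul,
    abs_of_nonneg (by linarith : 0 ≤ C)]
  set u := ‖f (z.1 - z.2 - log n1 + log n3)‖
  set v := ‖∑ n ∈ blk μ2, RescG C j2 σ n * (g (-z.1 - log n + log n1) * h (z.2 - log n3 + log n))‖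
  have hu : 0 ≤ u := norm_nonneg _
  have hv : 0 ≤ v := norm_nonneg _
  have a1 := hW j1 h1 (σ + (z.1 - log n1))
  have a3 := hW j3 h3 (σ + (z.2 - log n3))
  have a4 : |Wd j1 (σ + (z.1 - log n1))| * |Wd j3 (σ + (z.2 - log n3))| * C ≤ C * C * C := by
    gcongr
  have a5 : u * v ≤ (κ * u ^ 2 + κ⁻¹ * v ^ 2) / 2 := by
    have : κ * u ^ 2 + κ⁻¹ * v ^ 2 - 2 * (u * v) = κ⁻¹ * (κ * u - v) ^ 2 := by
      field_simp
      ring
    have h5 : 0 ≤ κ⁻¹ * (κ * u - v) ^ 2 := by positivity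
    linarith
  calc _ ≤ C * C * C * ((κ * u ^ 2 + κ⁻¹ * v ^ 2) / 2) := by gcongr
    _ = _ := by ring

/-- `tri_resc`, `rad3` with `lam = μ2`. Each `S3w … j1 j2 j3 σ` vanishes unless `z` is in the
rectangle and `σ ∈ [log μ2 - 3/4, log μ2 + 7/4]` (`Wd_eq_zero`). With `C_W` from `exists_Wd_le` and
`γ n = Wd j2 (σ - log n) / C_W`, Cauchy-Schwarz in `(n1, n3)` bounds its norm by
`C_W³ √p √q ≤ C_W³ (κ p + q / κ) / 2`, `κ = √(Q / P)`, where `p`, `q` are the sums in `PP`, `QQ`.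
For the `q` term exchange the integrals so that `σ` is outside. -/
theorem resc : ∃ C : ℝ, 0 < C ∧ ∀ (N M : ℕ) (S : Finset ℤ) (e1 e2 e3 : ℤ) (μ1 μ2 μ3 : ℕ),
    Blk M e1 e2 e3 μ1 μ2 μ3 → ∀ (ρ1 ρ2 ρ3 : ℤ → ℂ) (P Q : ℝ), 0 < P → 0 < Q →
      PP N e1 e2 e3 μ1 μ2 μ3 (tp S ρ1) ≤ P →
      (∀ γ : ℕ → ℂ, (∀ n, ‖γ n‖ ≤ 1) → QQ N e1 e2 e3 μ1 μ2 μ3 γ (tp S ρ2) (tp S ρ3) ≤ Q) →
      ‖tri N S (sb e1 μ1) (sb e2 μ2) (sb e3 μ3) ρ1 ρ2 ρ3‖ ≤ C * √(P * Q) := by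
  obtain ⟨C, hC, hW⟩ := exists_Wd_le
  refine ⟨405 * C ^ 3, by positivity, ?_⟩
  intro N M S e1 e2 e3 μ1 μ2 μ3 hB ρ1 ρ2 ρ3 P Q hP hQ hPP hQQ
  set κ := √Q / √P with hκd
  have sP : 0 < √P := sqrt_pos.2 hP
  have sQ : 0 < √Q := sqrt_pos.2 hQ
  have hκ : 0 < κ := div_pos sQ sP
  have hκ2 : κ * P + κ⁻¹ * Q = 2 * √(P * Q) := by
    rw [sqrt_mul hP.le, hκd]
    have e1 := sq_sqrt hP.le
    have e2 := sq_sqrt hQ.le
    field_simp
    rw [e1, e2]
    ring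
  set R := Set.Icc (lo μ1 μ2) (lo μ1 μ2 + 5) ×ˢ Set.Icc (lo μ3 μ2) (lo μ3 μ2 + 5) with hR
  set I := Set.Icc (log μ2 - 3 / 4) (log μ2 + 7 / 4) with hI
  have cR : IsCompact R := isCompact_Icc.prod isCompact_Icc
  have mR : MeasurableSet R := measurableSet_Icc.prod measurableSet_Icc
  let p : ℝ × ℝ → ℝ := fun z =>
    ∑ n1 ∈ blk μ1, ∑ n3 ∈ blk μ3, ‖tp S ρ1 (z.1 - z.2 - log n1 + log n3)‖ ^ 2
  let q : ℕ → ℝ × ℝ → ℝ → ℝ := fun j z σ =>
    ∑ n1 ∈ blk μ1, ∑ n3 ∈ blk μ3, ‖∑ n ∈ blk μ2, RescG C j σ n *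
      (tp S ρ2 (-z.1 - log n + log n1) * tp S ρ3 (z.2 - log n3 + log n))‖ ^ 2
  let w : ℝ × ℝ → ℝ := fun z => pl N e1 e2 e3 μ2 z.1 z.2
  have cw : Continuous w := by
    simp only [w, pl]
    fun_prop
  have cp : Continuous p := by
    simp only [p]
    fun_prop
  have cq : ∀ j, Continuous fun x : (ℝ × ℝ) × ℝ => q j x.1 x.2 := fun j => by
    simp only [q, RescG]
    fun_prop
  have hb1 : ∫ a in lo μ1 μ2..lo μ1 μ2 + 5, ∫ c in lo μ3 μ2..lo μ3 μ2 + 5,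
      w (a, c) * p (a, c) ≤ P := hPP
  have hb2 : ∀ j ≤ 2, ∀ σ, ∫ a in lo μ1 μ2..lo μ1 μ2 + 5, ∫ c in lo μ3 μ2..lo μ3 μ2 + 5,
      w (a, c) * q j (a, c) σ ≤ Q := fun j hj σ => by
    refine hQQ (RescG C j σ) fun n => ?_
    rw [RescG, Complex.norm_real, Real.norm_eq_abs, abs_div, abs_of_pos (by linarith : 0 < C),
      div_le_one (by linarith)]
    exact hW j hj _
  have hb3 : ∀ j1 ≤ 2, ∀ j2, ∀ j3 ≤ 2, ∀ z σ,
      ‖RescF (tp S ρ1) (tp S ρ2) (tp S ρ3) μ1 μ2 μ3 j1 j2 j3 z σ‖ ≤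
        C ^ 3 / 2 * (κ * p z + κ⁻¹ * q j2 z σ) := fun j1 h1 j2 j3 h3 z σ =>
    Resc_bound hC hW hκ (tp S ρ1) (tp S ρ2) (tp S ρ3) μ1 μ2 μ3 h1 h3 z σ
  have hb4 : ∀ z : ℝ × ℝ, ps (μ2 * (N * (e1 * exp z.1 + e2 + e3 * exp z.2))) = w z := fun z => by
    simp only [w, pl]
    congr 1
    ring
  have hw0 : ∀ z, 0 ≤ w z := fun z => (ps_pos _).le
  clear_value p q w
  let H : ℕ → ℝ × ℝ → ℝ → ℝ := fun j z σ => C ^ 3 / 2 * (κ * (w z * p z) + κ⁻¹ * (w z * q j z σ))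
  have cH : ∀ j, Continuous fun x : (ℝ × ℝ) × ℝ => H j x.1 x.2 := fun j => by
    have := cq j
    simp only [H]
    fun_prop
  have iH : ∀ j, Integrable (Function.uncurry (H j))
      ((volume.restrict R).prod (volume.restrict I)) := fun j => by
    rw [Measure.prod_restrict]
    exact (cH j).continuousOn.integrableOn_compact (cR.prod isCompact_Icc)
  have iL : ∀ j, Integrable (fun z => ∫ σ in I, H j z σ) (volume.restrict R) := fun j =>
    (iH j).integral_prod_left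
  have hH : ∀ j ≤ 2, ∫ z in R, ∫ σ in I, H j z σ ≤ 5 / 2 * (C ^ 3 * √(P * Q)) := by
    intro j hj
    rw [integral_integral_swap (iH j)]
    have h1 : ∀ σ, ∫ z in R, H j z σ ≤ C ^ 3 * √(P * Q) := by
      intro σ
      have cq' : Continuous fun z => q j z σ := (cq j).comp (Continuous.prodMk_left σ)
      have i1 : IntegrableOn (fun z => w z * p z) R :=
        (cw.mul cp).continuousOn.integrableOn_compact cR
      have i2 : IntegrableOn (fun z => w z * q j z σ) R :=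
        (cw.mul cq').continuousOn.integrableOn_compact cR
      have b1 : ∫ z in R, w z * p z ≤ P := by
        rw [hR, Resc_rect (h := fun z => w z * p z) (cw.mul cp)]
        exact hb1
      have b2 : ∫ z in R, w z * q j z σ ≤ Q := by
        rw [hR, Resc_rect (h := fun z => w z * q j z σ) (cw.mul cq')]
        exact hb2 j hj σ
      simp only [H]
      rw [integral_const_mul, integral_add (i1.const_mul _) (i2.const_mul _), integral_const_mul,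
        integral_const_mul]
      calc _ ≤ C ^ 3 / 2 * (κ * P + κ⁻¹ * Q) := by gcongr
        _ = _ := by rw [hκ2]; ring
    calc _ ≤ ∫ _σ in I, C ^ 3 * √(P * Q) :=
          integral_mono (iH j).integral_prod_right (integrable_const _) h1
      _ = _ := by
          rw [setIntegral_const, hI, smul_eq_mul, Measure.real, Real.volume_Icc,
            ENNReal.toReal_ofReal (by linarith)]
          ring
  rw [tri_resc N S hB]
  let G : ℝ × ℝ → ℝ := fun z =>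
    6 * ∑ _j1 ∈ range 3, ∑ j2 ∈ range 3, ∑ _j3 ∈ range 3, ∫ σ in I, H j2 z σ
  have iG : IntegrableOn G R := by
    refine Integrable.const_mul (integrable_finsetSum _ fun _ _ => integrable_finsetSum _
      fun j _ => integrable_finsetSum _ fun _ _ => iL j) 6
  refine (norm_integral_le_of_norm_le ((integrable_indicator_iff mR).2 iG)
    (Filter.Eventually.of_forall fun z => ?_)).trans ?_
  · by_cases hz : z ∈ R
    · rw [Set.indicator_of_mem hz]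
      refine (rad3 _ _ _ _ _ (lam := μ2) (Nat.cast_nonneg _) (fun n hn => ?_) _).trans ?_
      · simp only [mem_product, blk, mem_Ico] at hn
        have h0 : (μ2 : ℝ) ≤ n.2.1 := by exact_mod_cast hn.2.1.1
        have h1 : (1 : ℝ) ≤ μ2 := by exact_mod_cast hB.pos
        rw [neg_neg, exp_log (by linarith)]
        exact h0
      · rw [hb4, mul_assoc]
        simp only [G, mul_sum]
        refine sum_le_sum fun j1 h1 => sum_le_sum fun j2 _ => sum_le_sum fun j3 h3 => ?_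
        refine mul_le_mul_of_nonneg_left ?_ (by norm_num)
        rw [mem_range] at h1 h3
        change w z * ∫ σ, ‖RescF (tp S ρ1) (tp S ρ2) (tp S ρ3) μ1 μ2 μ3 j1 j2 j3 z σ‖ ≤ _
        rw [← setIntegral_eq_integral_of_forall_compl_eq_zero (s := I) (fun σ hσ => by
          by_contra hne
          exact hσ (Resc_zero hB.pos hB.le1 hB.le3 (norm_ne_zero_iff.1 hne)).2),
          ← integral_const_mul]
        refine integral_mono_of_nonneg (Filter.Eventually.of_forall fun σ =>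
          mul_nonneg (hw0 z) (norm_nonneg _))
          (((cH j2).comp (Continuous.prodMk_right z)).continuousOn.integrableOn_compact
            isCompact_Icc) (Filter.Eventually.of_forall fun σ => ?_)
        refine (mul_le_mul_of_nonneg_left (hb3 j1 (by omega) j2 j3 (by omega) z σ)
          (hw0 z)).trans (le_of_eq ?_)
        simp only [H]
        ring
    · rw [Set.indicator_of_notMem hz]
      have h0 : ∀ σ, RescF (tp S ρ1) (tp S ρ2) (tp S ρ3) μ1 μ2 μ3 0 0 0 z σ = 0 := fun σ => by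
        by_contra hne
        exact hz (Resc_zero hB.pos hB.le1 hB.le3 hne).1
      change ‖∫ σ, RescF (tp S ρ1) (tp S ρ2) (tp S ρ3) μ1 μ2 μ3 0 0 0 z σ * _‖ ≤ 0
      simp [h0]
  · rw [integral_indicator mR]
    simp only [G]
    rw [integral_const_mul, integral_finsetSum _ fun _ _ => integrable_finsetSum _
      fun j _ => integrable_finsetSum _ fun _ _ => iL j]
    have h2 : ∀ j1 ∈ range 3, ∫ z in R, ∑ j2 ∈ range 3, ∑ _j3 ∈ range 3, ∫ σ in I, H j2 z σ ≤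
        9 * (5 / 2 * (C ^ 3 * √(P * Q))) := by
      intro _ _
      rw [integral_finsetSum _ fun j _ => integrable_finsetSum _
        fun _ _ => iL j]
      have h3 : ∀ j2 ∈ range 3, ∫ z in R, ∑ _j3 ∈ range 3, ∫ σ in I, H j2 z σ ≤
          3 * (5 / 2 * (C ^ 3 * √(P * Q))) := by
        intro j2 hj
        rw [integral_finsetSum _ fun _ _ => iL j2, sum_const, card_range,
          nsmul_eq_mul]
        have := hH j2 (by rw [mem_range] at hj; omega)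
        push_cast
        linarith
      refine (sum_le_sum h3).trans (le_of_eq ?_)
      rw [sum_const, card_range, nsmul_eq_mul]
      push_cast
      ring
    refine (mul_le_mul_of_nonneg_left (sum_le_sum h2) (by norm_num)).trans (le_of_eq ?_)
    rw [sum_const, card_range, nsmul_eq_mul]
    push_cast
    ring

end Pool.Agent.Lib.MP_ecd12e_nt.GM
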