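import Pool.Agent.Lib.MP_ecd12e_nt.GM.Qle
import Pool.Agent.Lib.MP_ecd12e_nt.GM.Cov
import Pool.Agent.Lib.MP_ecd12e_nt.GM.Resc

/-! The flat estimate. -/

namespace Pool.Agent.Lib.MP_ecd12e_nt.GM

open Finset Real MeasureTheory
open Pool.Agent.Lib.MP_ecd12e_nt.Bar
open scoped ContDiff ComplexConjugate

/-- `resc`, `PP_le`, `QQ_le`. -/
theorem flat : ∃ C : ℝ, 0 < C ∧ ∀ (N T M : ℕ) (L z A : ℝ) (e1 e2 e3 : ℤ) (μ1 μ2 μ3 : ℕ),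
    Par N T M L z → Blk M e1 e2 e3 μ1 μ2 μ3 → 0 < A →
    ∀ ρ1 ρ2 ρ3 : ℤ → ℂ, (∀ t, t ∉ box (4 * T) → ρ2 t = 0) → (∀ t, t ∉ box (4 * T) → ρ3 t = 0) →
    sq2 (box (4 * T)) ρ1 ≤ A → sq2 (box (4 * T)) ρ2 ≤ A → sq2 (box (4 * T)) ρ3 ≤ A →
    (∀ θ, ‖tp (box (4 * T)) ρ2 θ‖ ≤ z ^ 2 * √A) → (∀ θ, ‖tp (box (4 * T)) ρ3 θ‖ ≤ z ^ 6 * √A) →
    (∀ t, ‖ρ3 t‖ ≤ √A / z ^ 6) →
      ‖tri N (box (4 * T)) (sb e1 μ1) (sb e2 μ2) (sb e3 μ3) ρ1 ρ2 ρ3‖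
        ≤ C * (L ^ 5 * z ^ 59 / N * (A * √A)) := by
  obtain ⟨C0, hC0, h0⟩ := resc
  obtain ⟨C1, hC1, h1⟩ := PP_le
  obtain ⟨C2, hC2, h2⟩ := QQ_le
  refine ⟨C0 * √(C1 * C2), by positivity, ?_⟩
  intro N T M L z A e1 e2 e3 μ1 μ2 μ3 hP hB hA ρ1 ρ2 ρ3 s2 s3 q1 q2 q3 u2 u3 v3
  have hN : (0 : ℝ) < N := by exact_mod_cast hP.lg.hN
  have hL := hP.lg.one_le
  have hz := hP.hz
  have hm1 : (1 : ℝ) ≤ μ1 := by exact_mod_cast hB.pos.trans hB.le1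
  have hm3 : (1 : ℝ) ≤ μ3 := by exact_mod_cast hB.pos.trans hB.le3
  have hs : 0 < √((μ1 : ℝ) * μ3) := sqrt_pos.2 (by positivity)
  have key := h0 N M (box (4 * T)) e1 e2 e3 μ1 μ2 μ3 hB ρ1 ρ2 ρ3
    (C1 * (√(μ1 * μ3) / N * A)) (C2 * (L ^ 9 * z ^ 118 * A ^ 2 / (N * √(μ1 * μ3))))
    (by positivity) (by positivity)
    ((h1 N M e1 e2 e3 μ1 μ2 μ3 hP.lg.hN hP.hMN hB _ ρ1).trans (by gcongr))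
    (fun γ hγ => h2 N T M L z A e1 e2 e3 μ1 μ2 μ3 hP hB γ hγ ρ2 ρ3 s2 s3 q2 q3 u2 u3 v3)
  refine key.trans ?_
  rw [mul_assoc C0 (√(C1 * C2))]
  refine mul_le_mul_of_nonneg_left ?_ hC0.le
  rw [sqrt_le_left (by positivity)]
  have e1 : C1 * (√(μ1 * μ3) / N * A) * (C2 * (L ^ 9 * z ^ 118 * A ^ 2 / (N * √(μ1 * μ3))))
      = C1 * C2 * (L ^ 9 * z ^ 118 / N ^ 2 * A ^ 3) := by
    field_simp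
  have e2 : (√(C1 * C2) * (L ^ 5 * z ^ 59 / N * (A * √A))) ^ 2
      = C1 * C2 * (L ^ 10 * z ^ 118 / N ^ 2 * A ^ 3) := by
    rw [mul_pow, mul_pow, mul_pow, sq_sqrt (by positivity), sq_sqrt hA.le]
    field_simp
  rw [e1, e2]
  gcongr
  norm_num

end Pool.Agent.Lib.MP_ecd12e_nt.GM
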