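import Pool.Agent.Lib.MP_ecd12e_nt.GM.S3a

/-! The cubic trace. -/

namespace Pool.Agent.Lib.MP_ecd12e_nt.GM

open Finset Real MeasureTheory
open Pool.Agent.Lib.MP_ecd12e_nt.Bar
open scoped ContDiff ComplexConjugate

/-- `tri_MM`; by `tri_cyc` the smallest block is put in the middle; `(2 J)³ ≤ 64 L³`. -/
theorem cubic_gain : ∃ C : ℝ, 0 < C ∧ ∀ (N T J : ℕ) (L z A E : ℝ), Par N T (2 ^ J) L z → 0 < A →
    ∀ a : ℤ → ℂ, (∀ t, t ∉ box (2 * T) → a t = 0) → sq2 (box (4 * T)) a ≤ A →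
    (∀ t, ‖a t‖ ≤ √A / z ^ 6) → ∫ θ, ab (box (4 * T)) a θ ^ 3 ≤ E →
      ‖tri N (box (4 * T)) (MM (2 ^ J)) (MM (2 ^ J)) (MM (2 ^ J)) a a a‖
        ≤ C * (L ^ 8 / N * (z ^ 59 * (A * √A) + (2 ^ J : ℕ) * E)) := by
  obtain ⟨C, hC, h⟩ := cubic_block
  refine ⟨64 * C, by positivity, ?_⟩
  intro N T J L z A E hP hA a sa qa ua hE
  have hN : (0 : ℝ) < N := by exact_mod_cast hP.lg.hN
  have hL := hP.lg.one_le
  have hz := hP.hz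
  have hE0 : 0 ≤ E := le_trans (integral_nonneg fun θ => pow_nonneg ((nice_ab _ _).nonneg θ) 3) hE
  set I := range J ×ˢ ({1, -1} : Finset ℤ) with hI
  set B := C * (L ^ 5 / N * (z ^ 59 * (A * √A) + (2 ^ J : ℕ) * E)) with hB
  have hB0 : 0 ≤ B := by positivity
  have hsg : ∀ p ∈ I, Sg p.2 ∧ 2 * 2 ^ p.1 ≤ 2 ^ J := by
    intro p hp
    rw [hI, mem_product, mem_range, mem_insert, mem_singleton] at hp
    refine ⟨hp.2, ?_⟩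
    rw [← pow_succ']
    exact Nat.pow_le_pow_right two_pos hp.1
  have mid : ∀ p1 ∈ I, ∀ p2 ∈ I, ∀ p3 ∈ I, p2.1 ≤ p1.1 → p2.1 ≤ p3.1 →
      ‖tri N (box (4 * T)) (sb p1.2 (2 ^ p1.1)) (sb p2.2 (2 ^ p2.1)) (sb p3.2 (2 ^ p3.1)) a a a‖
        ≤ B := by
    intro p1 h1 p2 h2 p3 h3 l1 l3
    exact h N T (2 ^ J) L z A E p1.2 p2.2 p3.2 _ _ _ hP
      ⟨(hsg p1 h1).1, (hsg p2 h2).1, (hsg p3 h3).1, Nat.one_le_two_pow,
        Nat.pow_le_pow_right two_pos l1, Nat.pow_le_pow_right two_pos l3, (hsg p1 h1).2,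
        (hsg p3 h3).2⟩ hA a sa qa ua hE
  have all : ∀ p1 ∈ I, ∀ p2 ∈ I, ∀ p3 ∈ I,
      ‖tri N (box (4 * T)) (sb p1.2 (2 ^ p1.1)) (sb p2.2 (2 ^ p2.1)) (sb p3.2 (2 ^ p3.1)) a a a‖
        ≤ B := by
    intro p1 h1 p2 h2 p3 h3
    by_cases c2 : p2.1 ≤ p1.1 ∧ p2.1 ≤ p3.1
    · exact mid p1 h1 p2 h2 p3 h3 c2.1 c2.2
    by_cases c3 : p3.1 ≤ p2.1 ∧ p3.1 ≤ p1.1
    · rw [tri_cyc]
      exact mid p2 h2 p3 h3 p1 h1 c3.1 c3.2
    · rw [tri_cyc, tri_cyc]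
      exact mid p3 h3 p1 h1 p2 h2 (by omega) (by omega)
  have hc : (I.card : ℝ) ≤ 4 * L := by
    have h1 : I.card = J * 2 := by rw [hI, card_product, card_range]; rfl
    have h2 : ((2 : ℝ) ^ J) ≤ N := by exact_mod_cast hP.hMN
    have h3 := log_le_log (by positivity) h2
    rw [log_pow] at h3
    have h4 := hP.lg.hlog
    have h5 := log_two_gt_d9
    have h6 : (0 : ℝ) ≤ J := Nat.cast_nonneg J
    rw [h1]
    push_cast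
    nlinarith
  rw [tri_MM]
  calc _ ≤ ∑ p1 ∈ I, ∑ p2 ∈ I, ∑ p3 ∈ I, B :=
        norm_sum_le_of_le _ fun p1 h1 => norm_sum_le_of_le _ fun p2 h2 =>
          norm_sum_le_of_le _ fun p3 h3 => all p1 h1 p2 h2 p3 h3
    _ = (I.card : ℝ) ^ 3 * B := by simp only [sum_const, nsmul_eq_mul]; ring
    _ ≤ (4 * L) ^ 3 * B := by gcongr
    _ = _ := by rw [hB]; ring

end Pool.Agent.Lib.MP_ecd12e_nt.GM
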