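import Pool.Agent.Lib.MP_ecd12e_nt.GM.Defs

/-! Solving the final inequality. -/

namespace Pool.Agent.Lib.MP_ecd12e_nt.GM

open Finset Real MeasureTheory
open Pool.Agent.Lib.MP_ecd12e_nt.Bar
open scoped ContDiff ComplexConjugate

/-- Pure numerics. Put `X = √T N³` (write `T = r²`, `A = s²`). If `A > K L⁹ X` with `K` large, then
`N Λ ≥ A / 4`, while each of the three terms of `(N Λ)³` is below `A³ / 200`: for the first,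
`(N⁵ G)² ≤ 16 L⁴ X³`; for the second `T N⁶ = X²`; for the third `(T³ N⁷)² ≤ X⁶` since
`T³ ≤ N⁴`. -/
theorem solve (C : ℝ) (hC : 0 < C) : ∃ K : ℝ, 0 < K ∧ ∀ N T L G A Λ : ℝ, 1 ≤ N → N ≤ T →
    T ^ 3 ≤ N ^ 4 → 1 ≤ L → 0 ≤ G → N * G ^ 2 ≤ 16 * L ^ 4 * (T * √T) → 0 ≤ A → 0 ≤ Λ →
    Λ ^ 3 ≤ C * L ^ 11 * (N ^ 2 * G * (A * √A) + T * N ^ 3 * A + T ^ 3 * N ^ 4) →
    A ≤ 2 * N * Λ + C * (L ^ 2 * (√T * N ^ 3)) → A ≤ K * (L ^ 9 * (√T * N ^ 3)) := by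
  refine ⟨1000 * (C + 1), by positivity, fun N T L G A Λ hN hNT hT hL hG hG2 hA hΛ h1 h2 => ?_⟩
  by_contra hc
  rw [not_le] at hc
  obtain ⟨K, hK⟩ : ∃ K, K = 1000 * (C + 1) := ⟨_, rfl⟩
  rw [← hK] at hc
  have hK1 : 1 ≤ K := by linarith
  have hCK : 1000 * C ≤ K := by linarith
  have hT0 : 0 ≤ T := by linarith
  obtain ⟨r, hr0, hr, rfl⟩ : ∃ r : ℝ, 0 ≤ r ∧ √T = r ∧ T = r ^ 2 :=
    ⟨√T, sqrt_nonneg T, rfl, (sq_sqrt hT0).symm⟩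
  obtain ⟨s, hs0, hs, rfl⟩ : ∃ s : ℝ, 0 ≤ s ∧ √A = s ∧ A = s ^ 2 :=
    ⟨√A, sqrt_nonneg A, rfl, (sq_sqrt hA).symm⟩
  rw [hr] at hG2 h2 hc
  rw [hs] at h1
  have hN0 : 0 ≤ N := by linarith
  have hL0 : 0 ≤ L := by linarith
  obtain ⟨X, hX⟩ : ∃ X, X = r * N ^ 3 := ⟨_, rfl⟩
  rw [← hX] at h2 hc
  have hX0 : 0 ≤ X := by rw [hX]; positivity
  have hLp : ∀ {i j : ℕ}, i ≤ j → L ^ i ≤ L ^ j := fun h => pow_le_pow_right₀ hL h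
  have hKp : ∀ {i j : ℕ}, i ≤ j → K ^ i ≤ K ^ j := fun h => pow_le_pow_right₀ hK1 h
  have hY0 : 0 ≤ K * (L ^ 9 * X) := by positivity
  have hA0 : 0 < s ^ 2 := hY0.trans_lt hc
  have a1 : C * (L ^ 2 * X) ≤ s ^ 2 / 1000 := by
    have b1 : L ^ 2 * X ≤ L ^ 9 * X := mul_le_mul_of_nonneg_right (hLp (by norm_num)) hX0
    have b2 := mul_le_mul hCK b1 (by positivity) (by positivity)
    linarith
  have a2 : (s ^ 2 / 4) ^ 3 ≤ (N * Λ) ^ 3 := pow_le_pow_left₀ (by positivity) (by linarith) 3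
  have a3 := mul_le_mul_of_nonneg_left h1 (show 0 ≤ N ^ 3 by positivity)
  have c2 : (K * (L ^ 9 * X)) ^ 2 ≤ (s ^ 2) ^ 2 := pow_le_pow_left₀ hY0 hc.le 2
  have c3 : (K * (L ^ 9 * X)) ^ 3 ≤ (s ^ 2) ^ 3 := pow_le_pow_left₀ hY0 hc.le 3
  have t1 : 200 * C * L ^ 11 * (N ^ 5 * G) ≤ s ^ 3 := by
    refine le_of_sq_le_sq ?_ (by positivity)
    have b1 : (N ^ 5 * G) ^ 2 ≤ 16 * L ^ 4 * X ^ 3 := by
      have := mul_le_mul_of_nonneg_left hG2 (show 0 ≤ N ^ 9 by positivity)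
      rw [hX]
      calc (N ^ 5 * G) ^ 2 = N ^ 9 * (N * G ^ 2) := by ring
        _ ≤ _ := this
        _ = _ := by ring
    have b2 : (1000 * C) ^ 2 ≤ K ^ 3 :=
      (pow_le_pow_left₀ (by positivity) hCK 2).trans (hKp (by norm_num))
    have b3 : L ^ 26 * X ^ 3 ≤ L ^ 27 * X ^ 3 :=
      mul_le_mul_of_nonneg_right (hLp (by norm_num)) (by positivity)
    have b4 := mul_le_mul b2 b3 (by positivity) (by positivity)
    have b5 := mul_le_mul_of_nonneg_left b1 (show 0 ≤ (200 * C * L ^ 11) ^ 2 by positivity)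
    have b6 : 0 ≤ C ^ 2 * (L ^ 26 * X ^ 3) := by positivity
    calc (200 * C * L ^ 11 * (N ^ 5 * G)) ^ 2 = (200 * C * L ^ 11) ^ 2 * (N ^ 5 * G) ^ 2 := by ring
      _ ≤ _ := b5
      _ = 640000 * (C ^ 2 * (L ^ 26 * X ^ 3)) := by ring
      _ ≤ 1000000 * (C ^ 2 * (L ^ 26 * X ^ 3)) := by linarith
      _ = (1000 * C) ^ 2 * (L ^ 26 * X ^ 3) := by ring
      _ ≤ _ := b4
      _ = (K * (L ^ 9 * X)) ^ 3 := by ring
      _ ≤ _ := c3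
      _ = _ := by ring
  have t2 : 200 * C * (L ^ 11 * X ^ 2) ≤ (s ^ 2) ^ 2 := by
    have b2 : 200 * C ≤ K ^ 2 := by linarith [hKp (show 1 ≤ 2 by norm_num), pow_one K]
    have b3 : L ^ 11 * X ^ 2 ≤ L ^ 18 * X ^ 2 :=
      mul_le_mul_of_nonneg_right (hLp (by norm_num)) (by positivity)
    calc _ ≤ K ^ 2 * (L ^ 18 * X ^ 2) := mul_le_mul b2 b3 (by positivity) (by positivity)
      _ = (K * (L ^ 9 * X)) ^ 2 := by ring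
      _ ≤ _ := c2
  have t3 : 200 * C * (L ^ 11 * ((r ^ 2) ^ 3 * N ^ 7)) ≤ (s ^ 2) ^ 3 := by
    have b1 : r ^ 3 ≤ N ^ 2 := by
      refine le_of_sq_le_sq ?_ (by positivity)
      calc (r ^ 3) ^ 2 = (r ^ 2) ^ 3 := by ring
        _ ≤ _ := hT
        _ = _ := by ring
    have b2 : 200 * C ≤ K ^ 3 := by linarith [hKp (show 1 ≤ 3 by norm_num), pow_one K]
    have b3 : (r ^ 2) ^ 3 * N ^ 7 ≤ X ^ 3 := by
      rw [hX]
      calc (r ^ 2) ^ 3 * N ^ 7 = r ^ 3 * (r ^ 3 * N ^ 7) := by ring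
        _ ≤ N ^ 2 * (r ^ 3 * N ^ 7) := mul_le_mul_of_nonneg_right b1 (by positivity)
        _ = _ := by ring
    have b4 : L ^ 11 * ((r ^ 2) ^ 3 * N ^ 7) ≤ L ^ 27 * X ^ 3 :=
      mul_le_mul (hLp (by norm_num)) b3 (by positivity) (by positivity)
    calc _ ≤ K ^ 3 * (L ^ 27 * X ^ 3) := mul_le_mul b2 b4 (by positivity) (by positivity)
      _ = (K * (L ^ 9 * X)) ^ 3 := by ring
      _ ≤ _ := c3
  have u1 := mul_le_mul_of_nonneg_right t1 (show 0 ≤ s ^ 3 by positivity)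
  have u2 := mul_le_mul_of_nonneg_right t2 hA0.le
  have u3 : N ^ 3 * (C * L ^ 11 * (N ^ 2 * G * (s ^ 2 * s) + r ^ 2 * N ^ 3 * s ^ 2 +
      (r ^ 2) ^ 3 * N ^ 4)) * 200 = 200 * C * L ^ 11 * (N ^ 5 * G) * s ^ 3 +
      200 * C * (L ^ 11 * X ^ 2) * s ^ 2 + 200 * C * (L ^ 11 * ((r ^ 2) ^ 3 * N ^ 7)) := by
    rw [hX]
    ring
  have u4 : (N * Λ) ^ 3 = N ^ 3 * Λ ^ 3 := mul_pow _ _ _
  have u5 : (s ^ 2 / 4) ^ 3 = (s ^ 2) ^ 3 / 64 := by ring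
  have u6 : s ^ 3 * s ^ 3 = (s ^ 2) ^ 3 := by ring
  have u7 : (s ^ 2) ^ 2 * s ^ 2 = (s ^ 2) ^ 3 := by ring
  have u8 : 0 < (s ^ 2) ^ 3 := by positivity
  linarith

end Pool.Agent.Lib.MP_ecd12e_nt.GM
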