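import Pool.Agent.Lib.MP_ecd12e_nt.GM.Core
import Pool.Agent.Lib.MP_ecd12e_nt.GM.Solve
import Pool.Agent.Lib.MP_ecd12e_nt.GM.S3

/-! The truncated fourth moment. -/

namespace Pool.Agent.Lib.MP_ecd12e_nt.GM

open Finset Real MeasureTheory
open Pool.Agent.Lib.MP_ecd12e_nt.Bar
open scoped ContDiff ComplexConjugate

theorem Four_T4 {N T : ℝ} (hN : 1 ≤ N) (h : T ^ 73 ≤ N ^ 88) (hT : 0 ≤ T) : T ^ 4 ≤ N ^ 5 := by
  refine le_of_pow_le_pow_left₀ (n := 73) (by norm_num) (by positivity) ?_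
  calc (T ^ 4) ^ 73 = (T ^ 73) ^ 4 := pow_right_comm T 4 73
    _ ≤ (N ^ 88) ^ 4 := pow_le_pow_left₀ (pow_nonneg hT _) h 4
    _ ≤ (N ^ 5) ^ 73 := by
      rw [← pow_mul, ← pow_mul]
      exact pow_le_pow_right₀ hN (by norm_num)

theorem Four_T3 {N T : ℝ} (hN : 1 ≤ N) (hNT : N ≤ T) (h : T ^ 4 ≤ N ^ 5) : T ^ 3 ≤ N ^ 4 := by
  have h0 : 0 < N := by linarith
  have h1 : 0 < T := by linarith
  refine le_of_mul_le_mul_right (a := N) ?_ h0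
  calc T ^ 3 * N ≤ T ^ 3 * T := by gcongr
    _ = T ^ 4 := by ring
    _ ≤ N ^ 5 := h
    _ = N ^ 4 * N := by ring

theorem Four_T2 {N T : ℝ} (hN : 1 ≤ N) (hNT : N ≤ T) (h : T ^ 3 ≤ N ^ 4) : T ≤ N ^ 2 := by
  have h0 : 0 < N := by linarith
  have h1 : 0 < T := by linarith
  refine le_of_mul_le_mul_right (a := N ^ 2) ?_ (by positivity)
  calc T * N ^ 2 ≤ T * T ^ 2 := by gcongr
    _ = T ^ 3 := by ring
    _ ≤ N ^ 4 := h
    _ = N ^ 2 * N ^ 2 := by ring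

theorem Four_TM {N T M L : ℝ} (hN : 1 ≤ N) (hT : 0 ≤ T) (h : T ^ 4 ≤ N ^ 5) (hL : 2 ≤ L)
    (hLN : L ^ 100 ≤ N) (hM : M * N ≤ 2 * T * L) : T * M ≤ N ^ 2 := by
  have h0 : 0 < N := by linarith
  have h1 : 0 < L := by linarith
  have h2 : 2 * T ^ 2 * L ≤ N ^ 3 := by
    refine le_of_pow_le_pow_left₀ (n := 2) (by norm_num) (by positivity) ?_
    calc (2 * T ^ 2 * L) ^ 2 = 2 ^ 2 * L ^ 2 * T ^ 4 := by ring
      _ ≤ L ^ 2 * L ^ 2 * N ^ 5 := by gcongr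
      _ = L ^ 4 * N ^ 5 := by ring
      _ ≤ N * N ^ 5 := mul_le_mul_of_nonneg_right
        ((pow_le_pow_right₀ (by linarith) (by norm_num)).trans hLN) (by positivity)
      _ = (N ^ 3) ^ 2 := by ring
  refine le_of_mul_le_mul_right (a := N) ?_ h0
  calc T * M * N = T * (M * N) := by ring
    _ ≤ T * (2 * T * L) := by gcongr
    _ = 2 * T ^ 2 * L := by ring
    _ ≤ N ^ 3 := h2
    _ = N ^ 2 * N := by ring

theorem Four_M6 {N T M L : ℝ} (hT : 0 < T) (h : N ^ 6 ≤ T ^ 5) (hL : 2 ≤ L)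
    (hM : T * L ≤ M * N) : T ≤ M ^ 6 := by
  refine le_of_mul_le_mul_right (a := T ^ 5) ?_ (by positivity)
  have h1 : T ≤ M * N := (le_mul_of_one_le_right hT.le (by linarith)).trans hM
  calc T * T ^ 5 = T ^ 6 := by ring
    _ ≤ (M * N) ^ 6 := by gcongr
    _ = M ^ 6 * N ^ 6 := mul_pow _ _ _
    _ ≤ M ^ 6 * T ^ 5 := by gcongr

theorem Four_hal {N T M L C : ℝ} (hN : 0 ≤ N) (hT : 0 ≤ T) (hL : 2 ≤ L) (hC : C ≤ L)
    (hM : M * N ≤ 2 * T * L) : C * (N * √(N * M)) ≤ L ^ 2 * N * √T := by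
  have h0 : 0 < L := by linarith
  have h1 : √(N * M) ≤ L * √T := by
    rw [sqrt_le_left (by positivity), mul_pow, sq_sqrt hT, mul_comm N]
    calc M * N ≤ 2 * T * L := hM
      _ ≤ L * T * L := by gcongr
      _ = L ^ 2 * T := by ring
  calc C * (N * √(N * M)) ≤ L * (N * (L * √T)) := by gcongr
    _ = L ^ 2 * N * √T := by ring

theorem Four_plain {N T M L : ℝ} (hN : 0 < N) (hT : 0 ≤ T) (hM0 : 0 ≤ M) (h : T ^ 5 ≤ N ^ 6)
    (hM : M * N ≤ 2 * T * L) : N * (M ^ 2) ^ 2 ≤ 16 * L ^ 4 * (T * √T) := by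
  have h1 : T ^ 3 ≤ √T * N ^ 3 := by
    refine le_of_pow_le_pow_left₀ (n := 2) (by norm_num) (by positivity) ?_
    rw [mul_pow, sq_sqrt hT]
    calc (T ^ 3) ^ 2 = T * T ^ 5 := by ring
      _ ≤ T * N ^ 6 := by gcongr
      _ = T * (N ^ 3) ^ 2 := by ring
  refine le_of_mul_le_mul_right (a := N ^ 3) ?_ (by positivity)
  calc N * (M ^ 2) ^ 2 * N ^ 3 = (M * N) ^ 4 := by ring
    _ ≤ (2 * T * L) ^ 4 := by gcongr
    _ = 16 * L ^ 4 * T * T ^ 3 := by ring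
    _ ≤ 16 * L ^ 4 * T * (√T * N ^ 3) := by gcongr
    _ = 16 * L ^ 4 * (T * √T) * N ^ 3 := by ring

theorem Four_gain {N T L z : ℝ} (hN : 0 < N) (hT : 0 ≤ T) (h : T ^ 73 ≤ N ^ 88)
    (hL : 2 ≤ L) (hM : z ^ 30 * N ≤ 2 * T * L) : N * (z ^ 59) ^ 2 ≤ 16 * L ^ 4 * (T * √T) := by
  have h0 : 0 < L := by linarith
  refine le_of_pow_le_pow_left₀ (n := 30) (by norm_num) (by positivity) ?_
  refine le_of_mul_le_mul_right (a := N ^ 88) ?_ (by positivity)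
  have h1 : √T ^ 30 = T ^ 15 := by rw [show 30 = 2 * 15 from rfl, pow_mul, sq_sqrt hT]
  have h2 : (1 : ℝ) ≤ 4 * L ^ 2 := by nlinarith
  have h3 : 0 ≤ 2 ^ 118 * L ^ 118 * T ^ 45 :=
    mul_nonneg (mul_nonneg (pow_nonneg zero_le_two _) (pow_nonneg h0.le _)) (pow_nonneg hT _)
  calc (N * (z ^ 59) ^ 2) ^ 30 * N ^ 88 = (z ^ 30 * N) ^ 118 := by ring
    _ ≤ (2 * T * L) ^ 118 := pow_le_pow_left₀ (by positivity) hM 118
    _ = 2 ^ 118 * L ^ 118 * T ^ 45 * 1 * T ^ 73 := by ring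
    _ ≤ 2 ^ 118 * L ^ 118 * T ^ 45 * (4 * L ^ 2) * N ^ 88 :=
      mul_le_mul (mul_le_mul_of_nonneg_left h2 h3) h (pow_nonneg hT _)
        (mul_nonneg h3 (by linarith))
    _ = (16 * L ^ 4 * (T * √T)) ^ 30 * N ^ 88 := by
      rw [mul_pow, mul_pow T, h1]
      ring

theorem Four_sup {N T L z A : ℝ} (hN : 1 ≤ N) (hT : 0 ≤ T) (hz : 0 < z) (h : T ^ 3 ≤ N ^ 4)
    (hL : 2 ≤ L) (hLN : L ^ 100 ≤ N) (hM : z ^ 30 * N ≤ 2 * T * L) (hA : √T * N ^ 3 ≤ A) :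
    L ^ 2 * N * √T ≤ √A / z ^ 6 := by
  have h0 : 0 < L := by linarith
  have h1 : 0 < N := by linarith
  have h2 : L ^ 4 * √T * z ^ 12 ≤ N := by
    refine le_of_pow_le_pow_left₀ (n := 10) (by norm_num) h1.le ?_
    refine le_of_mul_le_mul_right (a := N ^ 4) ?_ (by positivity)
    have h3 : √T ^ 10 = T ^ 5 := by rw [show 10 = 2 * 5 from rfl, pow_mul, sq_sqrt hT]
    have h4 : z ^ 30 * N ≤ L * T * L := hM.trans (by gcongr)
    have h5 : L ^ 48 ≤ N ^ 2 := ((pow_le_pow_right₀ (by linarith) (by norm_num)).trans hLN).trans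
      (le_self_pow₀ hN two_ne_zero)
    calc (L ^ 4 * √T * z ^ 12) ^ 10 * N ^ 4 = L ^ 40 * T ^ 5 * (z ^ 30 * N) ^ 4 := by
          rw [mul_pow, mul_pow, h3]
          ring
      _ ≤ L ^ 40 * T ^ 5 * (L * T * L) ^ 4 := by gcongr
      _ = L ^ 48 * (T ^ 3) ^ 3 := by ring
      _ ≤ N ^ 2 * (N ^ 4) ^ 3 := by gcongr
      _ = N ^ 10 * N ^ 4 := by ring
  rw [le_div_iff₀ (by positivity)]
  refine le_sqrt_of_sq_le (le_trans ?_ hA)
  calc (L ^ 2 * N * √T * z ^ 6) ^ 2 = √T * N ^ 2 * (L ^ 4 * √T * z ^ 12) := by ring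
    _ ≤ √T * N ^ 2 * N := by gcongr
    _ = √T * N ^ 3 := by ring

theorem Four_sum {N T M L G A s τ c ct ch cr : ℝ} (hN : 0 < N) (hT : 0 ≤ T) (hL : 1 ≤ L)
    (hG : 0 ≤ G) (hA : 0 ≤ A) (hs : 0 ≤ s) (hc : 0 ≤ c) (hct : 0 ≤ ct) (hch : 0 ≤ ch)
    (hcr : 0 ≤ cr) (hM : M * N ≤ 2 * T * L)
    (h : τ ≤ c * (L ^ 8 / N * (G * (A * s) +
      M * (ct * ((N ^ 2 + ch * N ^ 2) * A + L ^ 2 * T ^ 2 * N ^ 3))))) :
    N ^ 3 * τ + cr * (L ^ 2 * T * N ^ 3 * A) ≤ (c + 2 * c * ct * (1 + ch) + cr) * L ^ 11 *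
      (N ^ 2 * G * (A * s) + T * N ^ 3 * A + T ^ 3 * N ^ 4) := by
  have h0 : 0 < L := by linarith
  have h1 : L ^ 8 ≤ L ^ 11 := pow_le_pow_right₀ hL (by norm_num)
  have h2 : L ^ 9 ≤ L ^ 11 := pow_le_pow_right₀ hL (by norm_num)
  have h3 : L ^ 2 ≤ L ^ 11 := pow_le_pow_right₀ hL (by norm_num)
  have h4 : c ≤ c + 2 * c * ct * (1 + ch) + cr :=
    le_add_of_le_of_nonneg (le_add_of_nonneg_right (by positivity)) hcr
  have h5 : 2 * c * ct * (1 + ch) + cr ≤ c + 2 * c * ct * (1 + ch) + cr := by linarith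
  have h6 : 2 * c * ct ≤ c + 2 * c * ct * (1 + ch) + cr := by
    have h7 : 0 ≤ 2 * c * ct * ch := by positivity
    linarith
  calc N ^ 3 * τ + cr * (L ^ 2 * T * N ^ 3 * A)
      ≤ N ^ 3 * (c * (L ^ 8 / N * (G * (A * s) +
        M * (ct * ((N ^ 2 + ch * N ^ 2) * A + L ^ 2 * T ^ 2 * N ^ 3))))) +
        cr * (L ^ 2 * T * N ^ 3 * A) := by gcongr
    _ = c * L ^ 8 * (N ^ 2 * G * (A * s)) + c * L ^ 8 * N * (M * N) *
        (ct * ((1 + ch) * N ^ 2 * A + L ^ 2 * T ^ 2 * N ^ 3)) + cr * L ^ 2 * (T * N ^ 3 * A) := by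
      field_simp
    _ ≤ c * L ^ 8 * (N ^ 2 * G * (A * s)) + c * L ^ 8 * N * (2 * T * L) *
        (ct * ((1 + ch) * N ^ 2 * A + L ^ 2 * T ^ 2 * N ^ 3)) + cr * L ^ 2 * (T * N ^ 3 * A) := by
      gcongr
    _ = c * L ^ 8 * (N ^ 2 * G * (A * s)) + (2 * c * ct * (1 + ch) * L ^ 9 + cr * L ^ 2) *
        (T * N ^ 3 * A) + 2 * c * ct * L ^ 11 * (T ^ 3 * N ^ 4) := by ring
    _ ≤ c * L ^ 11 * (N ^ 2 * G * (A * s)) + (2 * c * ct * (1 + ch) * L ^ 11 + cr * L ^ 11) *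
        (T * N ^ 3 * A) + 2 * c * ct * L ^ 11 * (T ^ 3 * N ^ 4) := by gcongr
    _ = c * (L ^ 11 * (N ^ 2 * G * (A * s))) + (2 * c * ct * (1 + ch) + cr) *
        (L ^ 11 * (T * N ^ 3 * A)) + 2 * c * ct * (L ^ 11 * (T ^ 3 * N ^ 4)) := by ring
    _ ≤ (c + 2 * c * ct * (1 + ch) + cr) * (L ^ 11 * (N ^ 2 * G * (A * s))) +
        (c + 2 * c * ct * (1 + ch) + cr) * (L ^ 11 * (T * N ^ 3 * A)) +
        (c + 2 * c * ct * (1 + ch) + cr) * (L ^ 11 * (T ^ 3 * N ^ 4)) := by gcongr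
    _ = _ := by ring

theorem Four_J {N T L : ℝ} (hN : 1 ≤ N) (hNT : N ≤ T) (hL : 1 ≤ L) :
    ∃ J : ℕ, T * L ≤ 2 ^ J * N ∧ 2 ^ J * N ≤ 2 * T * L := by
  have h : ∃ J : ℕ, T * L ≤ 2 ^ J * N := by
    obtain ⟨J, hJ⟩ := pow_unbounded_of_one_lt (T * L) (one_lt_two (α := ℝ))
    exact ⟨J, hJ.le.trans (le_mul_of_one_le_right (by positivity) hN)⟩
  classical
  refine ⟨Nat.find h, Nat.find_spec h, ?_⟩
  rcases Nat.eq_zero_or_eq_succ_pred (Nat.find h) with h1 | h1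
  · have h2 := le_mul_of_one_le_right (show 0 ≤ T by linarith) hL
    rw [h1, pow_zero]
    linarith
  · have h2 := not_le.1 (Nat.find_min h (show (Nat.find h).pred < Nat.find h by
      rw [h1]; exact Nat.lt_succ_self _))
    rw [h1, pow_succ]
    linarith

theorem Four_root {x : ℝ} (hx : 0 ≤ x) {n : ℕ} (hn : n ≠ 0) : ∃ y, 0 ≤ y ∧ y ^ n = x :=
  ⟨x ^ (n : ℝ)⁻¹, rpow_nonneg hx _, rpow_inv_natCast_pow hx hn⟩

/-- Let `J` be least with `T L ≤ 2^J N`, `M = 2^J`, so `M N ≤ 2 T L`; `V² = L² N √T`. The size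
conditions follow from `T⁴ ≤ N⁵` and `L^100 ≤ N`, and `L ≥ L0` absorbs the constant of `halasz`.
We may assume `√T N³ ≤ A = AA`. `third_moment` with `halasz` gives `E = C (N² A + L² T² N³)`.
If `T⁵ ≤ N⁶` use `cubic_plain` and `G = M²`; otherwise `z = M^(1/30)`, `cubic_gain`, `G = z^59`
(`T ≤ M⁶`; `V⁴ z^12 ≤ √T N³`; `(N z^118)^30 ≤ (16 L⁴ T √T)^30` from `T^73 ≤ N^88`).
Take for `Λ` the cube root of the left side in `trace_ineq`; `solve`. -/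
theorem fourth_moment (B : ℕ) : ∃ C L0 : ℝ, 0 < C ∧ ∀ (N T : ℕ) (L : ℝ), Lg N L → L0 ≤ L →
    (N : ℝ) ≤ L ^ B → L ^ 100 ≤ N → N ≤ T → T ^ 73 ≤ N ^ 88 → ∀ b : ℕ → ℂ, (∀ n, ‖b n‖ ≤ 1) →
      AA N T b (√(L ^ 2 * N * √T)) ≤ C * (L ^ 9 * (√T * N ^ 3)) := by
  obtain ⟨ch, hch, Hh⟩ := halasz B
  obtain ⟨ct, hct, Ht⟩ := third_moment
  obtain ⟨cp, hcp, Hp⟩ := cubic_plain
  obtain ⟨cg, hcg, Hg⟩ := cubic_gain
  obtain ⟨cr, hcr, Hr⟩ := trace_ineq B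
  obtain ⟨K, hK, HK⟩ := solve (cp + cg + 2 * (cp + cg) * ct * (1 + ch) + cr) (by positivity)
  refine ⟨K + 1, max 2 ch, by positivity, fun N T L hLg hL0 hB h100 hNT h73 b hb => ?_⟩
  have hL : 2 ≤ L := (le_max_left _ _).trans hL0
  have hL1 := hLg.one_le
  have hN : (1 : ℝ) ≤ N := by exact_mod_cast hLg.hN
  have hNT' : (N : ℝ) ≤ T := by exact_mod_cast hNT
  have h73' : (T : ℝ) ^ 73 ≤ (N : ℝ) ^ 88 := by exact_mod_cast h73
  have hN0 : (0 : ℝ) < N := by linarith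
  have hT0 : (0 : ℝ) < T := by linarith
  have hL0' : 0 < L := by linarith
  have hT4 := Four_T4 hN h73' hT0.le
  have hT3 := Four_T3 hN hNT' hT4
  have hT2 := Four_T2 hN hNT' hT3
  obtain ⟨J, hJ1, hJ2⟩ := Four_J hN hNT' hL1
  have hcast : (2 : ℝ) ^ J = ((2 ^ J : ℕ) : ℝ) := by push_cast; rfl
  rw [hcast] at hJ1 hJ2
  have hM1 : 1 ≤ 2 ^ J := Nat.one_le_two_pow
  have hTM := Four_TM hN hT0.le hT4 hL h100 hJ2
  have hTM' : T * 2 ^ J ≤ N ^ 2 := by exact_mod_cast hTM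
  have hMN : 2 ^ J ≤ N := Nat.le_of_mul_le_mul_left
    (((Nat.mul_le_mul_right _ hNT).trans hTM').trans (le_of_eq (sq N))) hLg.hN
  have hV2 : √(L ^ 2 * N * √T) ^ 2 = L ^ 2 * N * √T := sq_sqrt (by positivity)
  have hV0 : 0 < √(L ^ 2 * N * √T) := by positivity
  generalize √(L ^ 2 * N * √T) = V at hV2 hV0 ⊢
  have hX : 0 < √T * (N : ℝ) ^ 3 := by positivity
  have hL9 : √T * (N : ℝ) ^ 3 ≤ L ^ 9 * (√T * (N : ℝ) ^ 3) :=
    le_mul_of_one_le_left hX.le (one_le_pow₀ hL1)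
  rcases le_total (AA N T b V) (√T * (N : ℝ) ^ 3) with hA | hA
  · exact (hA.trans hL9).trans (le_mul_of_one_le_left (by positivity) (by linarith))
  have hA0 : 0 < AA N T b V := hX.trans_le hA
  have hsq : sq2 (box (4 * T)) (fun t => (wa N T b V t : ℂ)) ≤ AA N T b V :=
    sum_le_sum fun t _ => by
      rw [Complex.norm_real, norm_eq_abs, sq_abs]
      exact wa_sq_le N T b V t
  have hH := Hh N T (2 ^ J) L V hLg.hN hL1 hB hNT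
    (by exact_mod_cast hT2.trans (pow_le_pow_right₀ hN (by norm_num))) hJ1 hV0
    (by rw [hV2]; exact Four_hal hN0.le hT0.le hL ((le_max_right _ _).trans hL0) hJ2) b hb
  have hE := (Ht N T L V _ hLg (hLg.hN.trans hNT) b hb hH).trans (mul_le_mul_of_nonneg_left
    (add_le_add (mul_le_mul_of_nonneg_left hsq (by positivity)) le_rfl) hct.le)
  obtain ⟨G, hG0, hG, htri⟩ : ∃ G : ℝ, 0 ≤ G ∧ N * G ^ 2 ≤ 16 * L ^ 4 * (T * √T) ∧
      ‖tri N (box (4 * T)) (MM (2 ^ J)) (MM (2 ^ J)) (MM (2 ^ J)) (fun t => (wa N T b V t : ℂ))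
        (fun t => (wa N T b V t : ℂ)) (fun t => (wa N T b V t : ℂ))‖ ≤
        (cp + cg) * (L ^ 8 / N * (G * (AA N T b V * √(AA N T b V)) + ((2 ^ J : ℕ) : ℝ) *
          (ct * ((N ^ 2 + ch * N ^ 2) * AA N T b V + L ^ 2 * T ^ 2 * N ^ 3)))) := by
    rcases le_total ((T : ℝ) ^ 5) ((N : ℝ) ^ 6) with h5 | h5
    · refine ⟨((2 ^ J : ℕ) : ℝ) ^ 2, by positivity,
        Four_plain hN0 hT0.le (by positivity) h5 hJ2,
        (Hp N (2 ^ J) L _ _ _ _ hLg hMN hA0 hsq hE).trans ?_⟩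
      have h6 : L ≤ L ^ 8 := le_self_pow₀ hL1 (by norm_num)
      gcongr
      linarith
    · obtain ⟨z, hz0, hz⟩ := Four_root (Nat.cast_nonneg (α := ℝ) (2 ^ J)) (n := 30) (by norm_num)
      have hz1 : 1 ≤ z := le_of_pow_le_pow_left₀ (n := 30) (by norm_num) hz0 (by
        rw [one_pow, hz]; exact_mod_cast hM1)
      have h6 : T ≤ (2 ^ J) ^ 6 := by
        exact_mod_cast Four_M6 hT0 h5 hL hJ1
      rw [← hz] at hJ2
      refine ⟨z ^ 59, by positivity, Four_gain hN0 hT0.le h73' hL hJ2,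
        (Hg N T J L z _ _ ⟨hLg, hMN, hNT, hTM', h6, hz1, hz⟩ hA0 _ (fun t ht => ?_) hsq
          (fun t => ?_) hE).trans ?_⟩
      · rw [wa_supp (hLg.hN.trans hNT) b V ht, Complex.ofReal_zero]
      · rw [Complex.norm_real, norm_of_nonneg (wa_nonneg N T b V t)]
        refine (wa_le N T b V t).trans (hV2.le.trans ?_)
        exact Four_sup hN hT0.le (by linarith) hT3 hL h100 hJ2 hA
      · gcongr
        linarith
  have hsum := Four_sum hN0 hT0.le hL1 hG0 hA0.le (sqrt_nonneg _) (by positivity) hct.le hch.le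
    hcr.le hJ2 htri
  obtain ⟨Λ, hΛ0, hΛ⟩ := Four_root (le_trans (by positivity) hsum) (n := 3) (by norm_num)
  have h1 := Hr N T (2 ^ J) L V Λ hLg hB hMN hNT (by exact_mod_cast hT2) hJ1 hJ2 b hb hΛ0
    (hsum.trans hΛ.ge)
  refine (HK N T L G _ Λ hN hNT' hT3 hL1 hG0 hG hA0.le hΛ0 hΛ.le (h1.trans ?_)).trans
    (mul_le_mul_of_nonneg_right (by linarith) (by positivity))
  rw [hV2, show (N : ℝ) ^ 2 * (L ^ 2 * N * √T) = L ^ 2 * (√T * N ^ 3) by ring]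
  exact add_le_add le_rfl (mul_le_mul_of_nonneg_right (le_add_of_nonneg_left (by positivity))
    (by positivity))

end Pool.Agent.Lib.MP_ecd12e_nt.GM
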