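import Pool.Agent.Lib.MP_ecd12e_nt.GM.Vdc

/-! Size of the kernel. -/

namespace Pool.Agent.Lib.MP_ecd12e_nt.GM

open Finset Real MeasureTheory
open Pool.Agent.Lib.MP_ecd12e_nt.Bar
open scoped ContDiff ComplexConjugate

/-- `vdc2` on `[-1, 1]` with `k = 1`, `b = WW`, `A = -2 π ξ`, `η = √|ξ|`. -/
theorem kap_vdc : ∃ C : ℝ, 0 < C ∧ ∀ s ξ : ℝ, ξ ≠ 0 → ‖kap s ξ‖ ≤ C / √|ξ| := by
  obtain ⟨C, hC, hW⟩ := exists_Wd_le
  refine ⟨9 * C, by positivity, fun s ξ hξ => ?_⟩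
  have ha : 0 < |ξ| := abs_pos.2 hξ
  have hη : 0 < √|ξ| := sqrt_pos.2 ha
  have e : kap s ξ = ∫ x in (-1 : ℝ)..1,
      ((Wd 0 x * 1 : ℝ) : ℂ) * ei (s * x - 2 * π * ξ * exp x) := by
    rw [intervalIntegral.integral_eq_integral_of_support_subset]
    · simp only [kap, Wd_zero, mul_one]
    · intro x hx
      by_contra hc
      refine hx ?_
      have : Wd 0 x = 0 := Wd_eq_zero 0 (by
        rcases not_and_or.1 hc with h | h
        · left
          linarith [not_lt.1 h]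
        · right
          exact (not_le.1 h).le)
      simp [this]
  have h := vdc2 (x0 := -1) (x1 := 1) (A := -(2 * π * ξ)) (B := s) (β0 := C) (β1 := C) (κ0 := C)
    (φ := fun x => s * x - 2 * π * ξ * exp x) (k := fun _ => 1) (b := Wd 0) (b' := Wd 1)
    (by norm_num) hη (neg_ne_zero.2 (by positivity)) (fun x _ => by
      refine (((hasDerivAt_id' x).const_mul s).fun_sub
        ((hasDerivAt_exp x).const_mul (2 * π * ξ))).congr_deriv ?_
      ring) continuousOn_const (fun x _ => hasDerivAt_Wd 0 x) (continuous_Wd 1).continuousOn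
    (fun x _ => hW 0 (by norm_num) x) (fun x _ => hW 1 (by norm_num) x)
    (fun x _ => by simpa using hW 0 (by norm_num) x)
  rw [e]
  refine h.trans ?_
  have h1 : 2 * √|ξ| / (|-(2 * π * ξ)| * exp (-1)) ≤ 1 / √|ξ| := by
    rw [abs_neg, abs_mul, abs_of_pos (by positivity : 0 < 2 * π),
      div_le_div_iff₀ (by positivity) hη, mul_assoc 2, mul_self_sqrt ha.le]
    have h2 : 1 ≤ π * exp (-1) := by
      rw [exp_neg, ← div_eq_mul_inv, le_div_iff₀ (exp_pos 1)]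
      linarith [exp_one_lt_d9, pi_gt_three]
    nlinarith
  calc _ ≤ (6 * C + C * (1 - -1)) / √|ξ| + C * (1 / √|ξ|) := by gcongr
    _ = _ := by ring

lemma Kv_sum (H : ℕ) : ∑ m ∈ Icc (-(H : ℤ)) H, 1 / √|(m : ℝ)| ≤ 4 * √H := by
  induction H with
  | zero => simp
  | succ H ih =>
    have e : Icc (-((H + 1 : ℕ) : ℤ)) ((H + 1 : ℕ) : ℤ) =
        insert ((H + 1 : ℕ) : ℤ) (insert (-((H + 1 : ℕ) : ℤ)) (Icc (-(H : ℤ)) H)) := by
      ext m
      simp only [mem_Icc, mem_insert]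
      omega
    rw [e, sum_insert (by simp only [mem_Icc, mem_insert]; omega),
      sum_insert (by simp only [mem_Icc]; omega), Int.cast_neg, abs_neg, Int.cast_natCast,
      Nat.abs_cast]
    have hp : 0 < √((H + 1 : ℕ) : ℝ) := sqrt_pos.2 (by positivity)
    have h1 : 1 / √((H + 1 : ℕ) : ℝ) ≤ 2 * (√((H + 1 : ℕ) : ℝ) - √H) := by
      rw [div_le_iff₀ hp]
      have a1 := mul_self_sqrt (x := ((H + 1 : ℕ) : ℝ)) (by positivity)
      have a2 := mul_self_sqrt (x := (H : ℝ)) (by positivity)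
      have a3 : ((H + 1 : ℕ) : ℝ) = H + 1 := Nat.cast_succ H
      nlinarith [sq_nonneg (√((H + 1 : ℕ) : ℝ) - √H)]
    linarith

/-- `∑_{m < M} 1 / √m ≤ 2 √M`. -/
theorem kB_le : ∃ C : ℝ, 0 < C ∧ ∀ (N M : ℕ) (s : ℤ), 1 ≤ N →
    N * ‖kB N (MM M) s‖ ≤ C * √(N * M) := by
  obtain ⟨C, hC, h⟩ := kap_vdc
  refine ⟨4 * C, by positivity, fun N M s hN => ?_⟩
  have hN0 : (0 : ℝ) < N := by exact_mod_cast hN
  have hs : 0 < √(N : ℝ) := sqrt_pos.2 hN0
  have h1 : ‖kB N (MM M) s‖ ≤ C / √N * (4 * √M) := by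
    calc ‖kB N (MM M) s‖ ≤ ∑ m ∈ MM M, C / √N * (1 / √|(m : ℝ)|) := by
          refine norm_sum_le_of_le _ fun m hm => ?_
          have hm0 : (m : ℝ) ≠ 0 := by exact_mod_cast (mem_erase.1 hm).1
          refine (h s _ (mul_ne_zero hm0 hN0.ne')).trans (le_of_eq ?_)
          rw [abs_mul, Nat.abs_cast, sqrt_mul (abs_nonneg _), div_mul_div_comm, mul_one, mul_comm]
      _ ≤ ∑ m ∈ Icc (-(M : ℤ)) M, C / √N * (1 / √|(m : ℝ)|) :=
          sum_le_sum_of_subset_of_nonneg ((erase_subset _ _).trans Ioo_subset_Icc_self)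
            fun _ _ _ => by positivity
      _ ≤ _ := by
          rw [← mul_sum]
          exact mul_le_mul_of_nonneg_left (Kv_sum M) (by positivity)
  refine (mul_le_mul_of_nonneg_left h1 hN0.le).trans (le_of_eq ?_)
  rw [sqrt_mul hN0.le]
  have a1 := mul_self_sqrt hN0.le
  field_simp
  linear_combination (-√(M : ℝ)) * a1

end Pool.Agent.Lib.MP_ecd12e_nt.GM
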