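import Pool.Agent.Lib.MP_ecd12e_nt.GM.Rest
import Pool.Agent.Lib.MP_ecd12e_nt.GM.Kv

/-! The Halász-Montgomery bound. -/

namespace Pool.Agent.Lib.MP_ecd12e_nt.GM

open Finset Real MeasureTheory
open Pool.Agent.Lib.MP_ecd12e_nt.Bar
open scoped ContDiff ComplexConjugate

theorem Hal_qf (S : Finset ℤ) (k η : ℤ → ℂ) {K : ℝ} (c : ℝ) (hc : 0 ≤ c)
    (hk : ∀ s, c * ‖k s‖ ≤ K) : ‖(c : ℂ) * qf S k η‖ ≤ K * (∑ t ∈ S, ‖η t‖) ^ 2 := by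
  rw [qf, mul_sum, sq, sum_mul_sum, mul_sum]
  refine (_root_.norm_sum_le _ _).trans (sum_le_sum fun t _ => ?_)
  rw [mul_sum, mul_sum]
  refine (_root_.norm_sum_le _ _).trans (sum_le_sum fun t' _ => ?_)
  rw [norm_mul, norm_mul, norm_mul, Complex.norm_conj, Complex.norm_real, Real.norm_of_nonneg hc]
  have h := mul_le_mul_of_nonneg_right (hk (t - t'))
    (mul_nonneg (norm_nonneg (η t)) (norm_nonneg (η t')))
  linarith

theorem Hal_arith {Y s V A B : ℝ} (hs : 0 ≤ s) (hV : 0 < V) (hA : 0 ≤ A)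
    (h1 : Y ^ 2 ≤ A * Y + B * s ^ 2) (h2 : V * s ≤ Y) (h3 : 2 * B ≤ V ^ 2) : Y ≤ 2 * A := by
  have h0 : 0 ≤ V * s := mul_nonneg hV.le hs
  have h4 : (V * s) ^ 2 ≤ Y ^ 2 := pow_le_pow_left₀ h0 h2 2
  have h5 : 2 * B * s ^ 2 ≤ V ^ 2 * s ^ 2 := mul_le_mul_of_nonneg_right h3 (sq_nonneg s)
  by_contra hc
  have hc' : 2 * A < Y := not_le.1 hc
  nlinarith [mul_pos (sub_pos.2 hc') (by linarith : 0 < Y)]

/-- Let `U` be the set of the `t` with `V < ‖DD t‖`, `η = conj DD`, `Y = ∑_U ‖DD‖²`. Then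
`Y² ≤ 2 N (C N Y + C √(N M) (Y / V)²)` by `dual_ineq`, `krest`, `kB_le`. -/
theorem halasz (B : ℕ) : ∃ C : ℝ, 0 < C ∧ ∀ (N T M : ℕ) (L V : ℝ), 1 ≤ N → 1 ≤ L →
    (N : ℝ) ≤ L ^ B → N ≤ T → T ≤ N ^ 3 → T * L ≤ M * N → 0 < V → C * (N * √(N * M)) ≤ V ^ 2 →
    ∀ b : ℕ → ℂ, (∀ n, ‖b n‖ ≤ 1) →
      ∑ t ∈ (box (4 * T)).filter (fun t => V < ‖DD N b t‖), ‖DD N b t‖ ^ 2 ≤ C * N ^ 2 := by
  obtain ⟨C1, hC1, h1⟩ := krest B
  obtain ⟨C2, hC2, h2⟩ := kB_le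
  refine ⟨4 * (C1 + C2), by positivity, fun N T M L V hN hL hNL hNT hTN hTL hV hC b hb => ?_⟩
  set U := (box (4 * T)).filter (fun t => V < ‖DD N b t‖) with hU
  have hN0 : (0 : ℝ) ≤ N := Nat.cast_nonneg N
  have hR : 0 ≤ (N : ℝ) * √(N * M) := by positivity
  have a1 := h1 N T M L hN hL hNL hNT hTN hTL U (filter_subset _ _) fun t => conj (DD N b t)
  have a2 := Hal_qf U (kB N (MM M)) (fun t => conj (DD N b t)) (N : ℝ) hN0 fun s => h2 N M s hN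
  have a3 := dual_ineq hN hb U fun t => conj (DD N b t)
  have e1 : sq2 U (fun t => conj (DD N b t)) = ∑ t ∈ U, ‖DD N b t‖ ^ 2 :=
    sum_congr rfl fun t _ => by rw [Complex.norm_conj]
  have e2 : ‖∑ t ∈ U, conj (DD N b t) * DD N b t‖ = ∑ t ∈ U, ‖DD N b t‖ ^ 2 := by
    have e : ∑ t ∈ U, conj (DD N b t) * DD N b t = ((∑ t ∈ U, ‖DD N b t‖ ^ 2 : ℝ) : ℂ) := by
      rw [Complex.ofReal_sum]
      exact sum_congr rfl fun t _ => by rw [Complex.conj_mul', Complex.ofReal_pow]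
    rw [e, Complex.norm_real, Real.norm_of_nonneg (sum_nonneg fun t _ => sq_nonneg _)]
  have e3 : ∑ t ∈ U, ‖conj (DD N b t)‖ = ∑ t ∈ U, ‖DD N b t‖ :=
    sum_congr rfl fun t _ => by rw [Complex.norm_conj]
  rw [e1] at a1
  rw [e3, Complex.ofReal_natCast] at a2
  rw [e2] at a3
  have a4 : (qf U (kfull N) fun t => conj (DD N b t)).re ≤
      C1 * N * ∑ t ∈ U, ‖DD N b t‖ ^ 2 + C2 * √(N * M) * (∑ t ∈ U, ‖DD N b t‖) ^ 2 :=
    (Complex.re_le_norm _).trans ((norm_le_norm_sub_add _ _).trans (add_le_add a1 a2))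
  have a5 : V * ∑ t ∈ U, ‖DD N b t‖ ≤ ∑ t ∈ U, ‖DD N b t‖ ^ 2 := by
    rw [mul_sum]
    refine sum_le_sum fun t ht => ?_
    rw [sq]
    exact mul_le_mul_of_nonneg_right (mem_filter.1 ht).2.le (norm_nonneg _)
  have a6 := Hal_arith (A := 2 * C1 * N ^ 2) (B := 2 * C2 * (N * √(N * M)))
    (sum_nonneg fun t _ => norm_nonneg _) hV (by positivity)
    (a3.trans ((mul_le_mul_of_nonneg_left a4 (by positivity)).trans (le_of_eq (by ring)))) a5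
    (by nlinarith [mul_nonneg hC1.le hR])
  nlinarith [mul_nonneg hC2.le (sq_nonneg (N : ℝ))]

end Pool.Agent.Lib.MP_ecd12e_nt.GM
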