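import Pool.Agent.Lib.MP_ecd12e_nt.GM.Shell

/-! High frequencies. -/

namespace Pool.Agent.Lib.MP_ecd12e_nt.GM

open Finset Real MeasureTheory
open Pool.Agent.Lib.MP_ecd12e_nt.Bar
open scoped ContDiff ComplexConjugate

lemma High_sub {H K : ℕ} (h : H ≤ K) : box H ⊆ box K :=
  Finset.Icc_subset_Icc (by omega) (by omega)

lemma High_sqrt {I K : Finset ℤ} (h : I ⊆ K) (u : ℤ → ℂ) : √(sq2 I u) ≤ √(sq2 K u) :=
  Real.sqrt_le_sqrt (sum_le_sum_of_subset_of_nonneg h fun _ _ _ => by positivity)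

lemma High_split (J : ℤ → ℤ → ℂ) {I K : Finset ℤ} (h : I ⊆ K) (u v : ℤ → ℂ) :
    BJ J K K u v = BJ J (K \ I) K u v + BJ J I (K \ I) u v + BJ J I I u v := by
  unfold BJ
  rw [add_assoc, ← sum_add_distrib, ← sum_sdiff h]
  congr 1
  exact sum_congr rfl fun α _ => (sum_sdiff h).symm

lemma High_abs {H K : ℕ} {α : ℤ} (h : α ∈ box K \ box H) : (H : ℤ) ≤ |α| := by
  have h1 := (mem_sdiff.1 h).2
  rw [box, mem_Icc, ← abs_le] at h1
  exact (not_le.1 h1).le

lemma High_log {N T M H0 i : ℕ} {L z : ℝ} (hP : Par N T M L z) (hM : 1 ≤ M) (h0 : z ^ 20 ≤ H0)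
    (hi : 2 ^ i * H0 ≤ 16 * T) : (i : ℝ) ≤ 4 * L := by
  have h1 : (1 : ℝ) ≤ H0 := (one_le_pow₀ hP.hz).trans h0
  have h2 : 1 ≤ H0 := by exact_mod_cast h1
  have h3 : 2 ^ i ≤ 2 ^ 4 * N ^ 2 := by
    have h4 : 2 ^ i ≤ 2 ^ i * H0 := Nat.le_mul_of_pos_right _ h2
    have h5 : T ≤ T * M := Nat.le_mul_of_pos_right _ hM
    have := hP.hTM
    omega
  have hN : (1 : ℝ) ≤ N := by exact_mod_cast hP.lg.hN
  have h4 : (2 : ℝ) ^ i ≤ 2 ^ 4 * (N : ℝ) ^ 2 := by exact_mod_cast h3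
  have h5 := Real.log_le_log (by positivity) h4
  rw [Real.log_mul (by positivity) (by positivity), Real.log_pow, Real.log_pow, Real.log_pow] at h5
  have h6 := Real.log_two_gt_d9
  have h7 := Real.log_nonneg hN
  have h8 := hP.lg.hlog
  push_cast at h5
  have h9 : (i : ℝ) * log 2 ≤ (4 * L) * log 2 := by nlinarith
  exact le_of_mul_le_mul_right h9 (by linarith)

/-- Induction on `i`: `box (2 H) × box (2 H)` is the union of `box H × box H`,
`(box (2 H) \ box H) × box (2 H)` and `box H × (box (2 H) \ box H)`; `shell` twice; finally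
`i ≤ 7 L` since `2 ^ i ≤ 16 T ≤ 16 N²`. -/
theorem high : ∃ C : ℝ, 0 < C ∧ ∀ (N T M μ μ' H0 i : ℕ) (L z J0 P : ℝ), Par N T M L z → 1 ≤ μ →
    2 * μ ≤ M → 1 ≤ μ' → 2 * μ' ≤ M → z ^ 20 ≤ H0 → 2 ^ i * H0 ≤ 16 * T → 0 ≤ J0 → 1 ≤ P →
    ∀ J : ℤ → ℤ → ℂ,
      (∀ (I I' : Finset ℤ) (u v : ℤ → ℂ), ‖BJ J I I' u v‖ ≤ J0 * (√(sq2 I u) * √(sq2 I' v))) →
      (∀ H : ℕ, H0 ≤ H → H ≤ 8 * T → ∀ α β : ℤ, (H : ℤ) ≤ max |α| |β| →
        ‖J α β‖ ≤ J0 * √(P / H)) → ∀ u v : ℤ → ℂ,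
        ‖BJ J (box (2 ^ i * H0)) (box (2 ^ i * H0)) (Zb μ (fun _ => 1) * u)
            ((fun β => conj (Zb μ' (fun _ => 1) β)) * v)
          - BJ J (box H0) (box H0) (Zb μ (fun _ => 1) * u)
            ((fun β => conj (Zb μ' (fun _ => 1) β)) * v)‖
          ≤ C * (L ^ 4 * J0 * √P * z ^ 50) *
            (√(sq2 (box (2 ^ i * H0)) u) * √(sq2 (box (2 ^ i * H0)) v)) := by
  obtain ⟨C, hC, hs⟩ := shell
  refine ⟨8 * C, by positivity, fun N T M μ μ' H0 i L z J0 P hP h1 h2 h3 h4 h5 hi hJ0 hP1 J hJ hJ'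
    u v => ?_⟩
  have hL := hP.lg.one_le
  have hz := hP.hz
  set U := Zb μ (fun _ => 1) * u with hU
  set V := (fun β => conj (Zb μ' (fun _ => 1) β)) * v with hV
  set E := C * (L ^ 3 * J0 * √P * z ^ 50) with hE
  have hE0 : 0 ≤ E := by positivity
  have key : ∀ k : ℕ, 2 ^ k * H0 ≤ 16 * T →
      ‖BJ J (box (2 ^ k * H0)) (box (2 ^ k * H0)) U V - BJ J (box H0) (box H0) U V‖ ≤
        k * (2 * E) * (√(sq2 (box (2 ^ k * H0)) u) * √(sq2 (box (2 ^ k * H0)) v)) := by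
    intro k
    induction k with
    | zero => intro _; simp
    | succ k ih =>
      intro hk
      have e : 2 ^ (k + 1) * H0 = 2 * (2 ^ k * H0) := by ring
      rw [e] at hk ⊢
      have hH0 : H0 ≤ 2 ^ k * H0 := Nat.le_mul_of_pos_left _ (by positivity)
      generalize 2 ^ k * H0 = H at *
      have ih' := ih (by omega)
      have hsub : box H ⊆ box (2 * H) := High_sub (by omega)
      have hzH : z ^ 20 ≤ H := h5.trans (by exact_mod_cast hH0)
      have a1 := hs N T M μ μ' H L z J0 P hP h1 h2 h3 h4 hzH (by omega) hJ0 hP1 J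
        (box (2 * H) \ box H) (box (2 * H)) sdiff_subset Subset.rfl (hJ _ _)
        (fun α hα β _ => hJ' H hH0 (by omega) α β ((High_abs hα).trans (le_max_left _ _))) u v
      have a2 := hs N T M μ μ' H L z J0 P hP h1 h2 h3 h4 hzH (by omega) hJ0 hP1 J
        (box H) (box (2 * H) \ box H) hsub sdiff_subset (hJ _ _)
        (fun α _ β hβ => hJ' H hH0 (by omega) α β ((High_abs hβ).trans (le_max_right _ _))) u v
      rw [← hU, ← hV, ← hE] at a1 a2
      have b1 := High_sqrt hsub u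
      have b2 := High_sqrt hsub v
      have b3 := High_sqrt (sdiff_subset (s := box (2 * H)) (t := box H)) u
      have b4 := High_sqrt (sdiff_subset (s := box (2 * H)) (t := box H)) v
      set X := √(sq2 (box (2 * H)) u) * √(sq2 (box (2 * H)) v) with hX
      have c1 : ‖BJ J (box (2 * H) \ box H) (box (2 * H)) U V‖ ≤ E * X :=
        a1.trans (by rw [hX]; gcongr)
      have c2 : ‖BJ J (box H) (box (2 * H) \ box H) U V‖ ≤ E * X :=
        a2.trans (by rw [hX]; gcongr)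
      have c3 : ‖BJ J (box H) (box H) U V - BJ J (box H0) (box H0) U V‖ ≤ k * (2 * E) * X :=
        ih'.trans (by rw [hX]; gcongr)
      rw [High_split J hsub, add_sub_assoc]
      refine (norm_add₃_le).trans ?_
      push_cast
      linarith
  refine (key i hi).trans (mul_le_mul_of_nonneg_right ?_ (by positivity))
  have := High_log hP (by omega) h5 hi
  calc (i : ℝ) * (2 * E) ≤ (4 * L) * (2 * E) := by gcongr
    _ = _ := by rw [hE]; ring

end Pool.Agent.Lib.MP_ecd12e_nt.GM
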