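import Pool.Agent.Lib.MP_ecd12e_nt.GM.Defs

/-! An uncertainty principle by interpolation. -/

namespace Pool.Agent.Lib.MP_ecd12e_nt.GM

open Finset Real MeasureTheory
open Pool.Agent.Lib.MP_ecd12e_nt.Bar
open scoped ContDiff ComplexConjugate

lemma Itp_sq {I S : Finset ℤ} {w u : ℤ → ℂ} {a : ℝ} (ha : 0 ≤ a) (hw : ∀ α ∈ S, ‖w α‖ ≤ a) :
    √(sq2 I fun α => if α ∈ S then w α * u α else 0) ≤ a * √(sq2 I u) := by
  rw [← Real.sqrt_sq ha, ← Real.sqrt_mul (sq_nonneg a)]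
  refine Real.sqrt_le_sqrt ?_
  unfold sq2
  rw [mul_sum]
  refine sum_le_sum fun α _ => ?_
  beta_reduce
  split_ifs with h
  · rw [norm_mul, mul_pow]
    exact mul_le_mul_of_nonneg_right (pow_le_pow_left₀ (norm_nonneg _) (hw α h) 2) (sq_nonneg _)
  · rw [norm_zero, zero_pow two_ne_zero]
    positivity

lemma Itp_two {J : ℤ → ℤ → ℂ} {I I' S S' : Finset ℤ} {C2 a b : ℝ} (hC2 : 0 ≤ C2)
    (h2 : ∀ u v : ℤ → ℂ, ‖BJ J I I' u v‖ ≤ C2 * (√(sq2 I u) * √(sq2 I' v))) (hS : S ⊆ I)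
    (hS' : S' ⊆ I') {w w' : ℤ → ℂ} (ha : 0 ≤ a) (hb : 0 ≤ b) (hw : ∀ α ∈ S, ‖w α‖ ≤ a)
    (hw' : ∀ β ∈ S', ‖w' β‖ ≤ b) (u v : ℤ → ℂ) :
    ‖BJ J S S' (w * u) (w' * v)‖ ≤ C2 * (a * b) * (√(sq2 I u) * √(sq2 I' v)) := by
  have e : BJ J S S' (w * u) (w' * v) = BJ J I I' (fun α => if α ∈ S then w α * u α else 0)
      (fun β => if β ∈ S' then w' β * v β else 0) := by
    unfold BJ
    symm
    rw [← sum_subset hS fun α _ hα => by simp [hα]]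
    refine sum_congr rfl fun α hα => ?_
    rw [← sum_subset hS' fun β _ hβ => by simp [hβ]]
    refine sum_congr rfl fun β hβ => ?_
    simp [hα, hβ]
  rw [e]
  refine (h2 _ _).trans ?_
  have k1 := Itp_sq (I := I) (u := u) ha hw
  have k2 := Itp_sq (I := I') (u := v) hb hw'
  calc _ ≤ C2 * ((a * √(sq2 I u)) * (b * √(sq2 I' v))) := by gcongr
    _ = _ := by ring

lemma Itp_cs {I S : Finset ℤ} (hS : S ⊆ I) (w u : ℤ → ℂ) :
    ∑ α ∈ S, ‖(w * u) α‖ ≤ √(sq2 S w) * √(sq2 I u) := by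
  have h1 := Real.sum_mul_le_sqrt_mul_sqrt S (fun α => ‖w α‖) fun α => ‖u α‖
  have h2 : sq2 S u ≤ sq2 I u := sum_le_sum_of_subset_of_nonneg hS fun _ _ _ => by positivity
  simp only [Pi.mul_apply, norm_mul]
  exact h1.trans (mul_le_mul_of_nonneg_left (Real.sqrt_le_sqrt h2) (Real.sqrt_nonneg _))

lemma Itp_one {J : ℤ → ℤ → ℂ} {I I' S S' : Finset ℤ} {C1 : ℝ} (hC1 : 0 ≤ C1)
    (h1 : ∀ α ∈ I, ∀ β ∈ I', ‖J α β‖ ≤ C1) (hS : S ⊆ I) (hS' : S' ⊆ I') (w w' u v : ℤ → ℂ) :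
    ‖BJ J S S' (w * u) (w' * v)‖ ≤
      C1 * (√(sq2 S w) * √(sq2 S' w')) * (√(sq2 I u) * √(sq2 I' v)) := by
  have k1 := Itp_cs hS w u
  have k2 := Itp_cs hS' w' v
  have k3 : ‖BJ J S S' (w * u) (w' * v)‖ ≤
      (∑ α ∈ S, ‖(w * u) α‖) * (∑ β ∈ S', ‖(w' * v) β‖) * C1 := by
    unfold BJ
    rw [sum_mul_sum, sum_mul]
    refine norm_sum_le_of_le _ fun α hα => ?_
    rw [sum_mul]
    refine norm_sum_le_of_le _ fun β hβ => ?_
    rw [norm_mul, norm_mul]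
    exact mul_le_mul_of_nonneg_left (h1 α (hS hα) β (hS' hβ)) (by positivity)
  have k4 : 0 ≤ ∑ β ∈ S', ‖(w' * v) β‖ := sum_nonneg fun _ _ => norm_nonneg _
  calc _ ≤ _ := k3
    _ ≤ (√(sq2 S w) * √(sq2 I u)) * (√(sq2 S' w') * √(sq2 I' v)) * C1 := by gcongr
    _ = _ := by ring

lemma Itp_tail {I S : Finset ℤ} (hS : S ⊆ I) {w : ℤ → ℂ} {t Y : ℝ} {k : ℕ} (ht : 0 ≤ t)
    (hw : ∀ α ∈ S, t ≤ ‖w α‖) (hY : ∑ α ∈ I, ‖w α‖ ^ (2 * (k + 1)) ≤ Y) :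
    √(sq2 S w) * t ^ k ≤ √Y := by
  rw [← Real.sqrt_sq (pow_nonneg ht k), ← Real.sqrt_mul (sq2_nonneg _ _)]
  refine Real.sqrt_le_sqrt (le_trans ?_ hY)
  refine le_trans ?_ (sum_le_sum_of_subset_of_nonneg hS fun _ _ _ => by positivity)
  unfold sq2
  rw [sum_mul]
  refine sum_le_sum fun α hα => ?_
  have h := pow_le_pow_left₀ ht (hw α hα) k
  calc _ ≤ ‖w α‖ ^ 2 * (‖w α‖ ^ k) ^ 2 := by gcongr
    _ = _ := by ring

lemma Itp_split_left (J : ℤ → ℤ → ℂ) (S S' : Finset ℤ) (p : ℤ → Prop) [DecidablePred p]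
    (u v : ℤ → ℂ) :
    BJ J S S' u v = BJ J (S.filter p) S' u v + BJ J (S.filter fun α => ¬ p α) S' u v :=
  (sum_filter_add_sum_filter_not S p _).symm

lemma Itp_split_right (J : ℤ → ℤ → ℂ) (S S' : Finset ℤ) (p : ℤ → Prop) [DecidablePred p]
    (u v : ℤ → ℂ) :
    BJ J S S' u v = BJ J S (S'.filter p) u v + BJ J S (S'.filter fun α => ¬ p α) u v := by
  unfold BJ
  rw [← sum_add_distrib]
  exact sum_congr rfl fun α _ => (sum_filter_add_sum_filter_not S' p _).symm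

/-- Split `I` into the levels `‖w‖ ≤ 1` and `2^(i-1) < ‖w‖ ≤ 2^i = λ`, `1 ≤ i ≤ n`. The bottom level
gives `C2 Mx`. For the level `λ` split `I'` by `‖w'‖ ≤ x / λ`: this part gives `C2 x`. For the rest
use `h1`, with `∑ ‖w u‖ ≤ λ √(card) √(sq2 u)`, `card ≤ Y (2 / λ)^(2 j)`, and
`∑ ‖w' v‖ ≤ √(Y (λ / x)^(2 j - 2)) √(sq2 v)`: this gives `2^j C1 Y / x^(j-1) ≤ 2^j C2 x`.
Restriction to subsets is done by multiplying `u`, `v` with indicators. -/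
theorem interp {J : ℤ → ℤ → ℂ} {I I' : Finset ℤ} {C1 C2 Y x Mx : ℝ} {j n : ℕ} (hj : 1 ≤ j)
    (hC1 : 0 ≤ C1) (hC2 : 0 ≤ C2)
    (h2 : ∀ u v : ℤ → ℂ, ‖BJ J I I' u v‖ ≤ C2 * (√(sq2 I u) * √(sq2 I' v)))
    (h1 : ∀ α ∈ I, ∀ β ∈ I', ‖J α β‖ ≤ C1) {w w' : ℤ → ℂ} (hw : ∀ α, ‖w α‖ ≤ Mx)
    (hw' : ∀ β, ‖w' β‖ ≤ Mx) (hY : ∑ α ∈ I, ‖w α‖ ^ (2 * j) ≤ Y)
    (hY' : ∑ β ∈ I', ‖w' β‖ ^ (2 * j) ≤ Y) (hM : 1 ≤ Mx) (hx : Mx ≤ x) (hn : Mx ≤ 2 ^ n)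
    (hCY : C1 * Y ≤ C2 * x ^ j) (u v : ℤ → ℂ) :
    ‖BJ J I I' (w * u) (w' * v)‖
      ≤ (n + 1) * (1 + 2 ^ j) * C2 * x * (√(sq2 I u) * √(sq2 I' v)) := by
  obtain ⟨k, rfl⟩ : ∃ k, j = k + 1 := ⟨j - 1, by omega⟩
  have hx0 : 0 < x := by linarith
  have hY0 : 0 ≤ Y := (sum_nonneg fun _ _ => by positivity).trans hY
  have hUV : 0 ≤ √(sq2 I u) * √(sq2 I' v) := by positivity
  have lev : ∀ (S : Finset ℤ) (t : ℝ), S ⊆ I → 0 < t → (∀ α ∈ S, t ≤ ‖w α‖) →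
      (∀ α ∈ S, ‖w α‖ ≤ 2 * t) → ‖BJ J S I' (w * u) (w' * v)‖ ≤
        (1 + 2 ^ (k + 1)) * C2 * x * (√(sq2 I u) * √(sq2 I' v)) := by
    intro S t hS ht hlo hhi
    rw [Itp_split_right J S I' fun β => ‖w' β‖ ≤ x / (2 * t)]
    have a1 := Itp_two hC2 h2 hS (filter_subset (fun β => ‖w' β‖ ≤ x / (2 * t)) I')
      (by positivity) (by positivity) hhi (fun β hβ => (mem_filter.1 hβ).2) u v
    rw [mul_div_cancel₀ _ (by positivity)] at a1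
    have a2 := Itp_one hC1 h1 hS (filter_subset (fun β => ¬ ‖w' β‖ ≤ x / (2 * t)) I') w w' u v
    have a3 := Itp_tail hS ht.le hlo hY
    have a4 := Itp_tail (filter_subset (fun β => ¬ ‖w' β‖ ≤ x / (2 * t)) I') (t := x / (2 * t))
      (by positivity) (fun β hβ => (not_le.1 (mem_filter.1 hβ).2).le) hY'
    have a5 := mul_le_mul a3 a4 (by positivity) (Real.sqrt_nonneg _)
    generalize √(sq2 (I'.filter fun β => ¬ ‖w' β‖ ≤ x / (2 * t)) w') = P' at a2 a4 a5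
    · rw [Real.mul_self_sqrt hY0] at a5
      have a6 : √(sq2 S w) * t ^ k * (P' * (x / (2 * t)) ^ k) = √(sq2 S w) * P' * (x ^ k / 2 ^ k) := by
        rw [← div_pow, show x / 2 = t * (x / (2 * t)) by field_simp, mul_pow]
        ring
      rw [a6] at a5
      have a7 : C1 * (√(sq2 S w) * P') ≤ 2 ^ k * C2 * x := by
        have a8 := (mul_le_mul_of_nonneg_left a5 hC1).trans hCY
        have a9 : (0 : ℝ) < x ^ k / 2 ^ k := by positivity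
        refine le_of_mul_le_mul_right ?_ a9
        calc _ = C1 * (√(sq2 S w) * P' * (x ^ k / 2 ^ k)) := by ring
          _ ≤ _ := a8
          _ = _ := by field_simp; ring
      have a10 : 2 ^ k * C2 * x ≤ 2 ^ (k + 1) * C2 * x := by gcongr <;> norm_num
      have a11 := mul_le_mul_of_nonneg_right (a7.trans a10) hUV
      calc _ ≤ _ := norm_add_le _ _
        _ ≤ _ := add_le_add a1 (a2.trans a11)
        _ = _ := by ring
  have key : ∀ m : ℕ, ‖BJ J (I.filter fun α => ‖w α‖ ≤ 2 ^ m) I' (w * u) (w' * v)‖ ≤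
      (m + 1) * (1 + 2 ^ (k + 1)) * C2 * x * (√(sq2 I u) * √(sq2 I' v)) := by
    intro m
    induction m with
    | zero =>
      have a1 := Itp_two hC2 h2 (filter_subset (fun α => ‖w α‖ ≤ 2 ^ 0) I) (Subset.refl I')
        (by positivity) hx0.le (fun α hα => (mem_filter.1 hα).2) (fun β _ => (hw' β).trans hx) u v
      refine a1.trans (mul_le_mul_of_nonneg_right ?_ hUV)
      have : 0 ≤ 2 ^ (k + 1) * C2 * x := by positivity
      push_cast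
      linarith
    | succ m ih =>
      rw [Itp_split_left J _ I' fun α => ‖w α‖ ≤ 2 ^ m]
      have e : (I.filter fun α => ‖w α‖ ≤ 2 ^ (m + 1)).filter (fun α => ‖w α‖ ≤ 2 ^ m) =
          I.filter fun α => ‖w α‖ ≤ 2 ^ m := by
        rw [filter_filter]
        refine filter_congr fun α _ => and_iff_right_of_imp fun h => h.trans ?_
        gcongr <;> norm_num
      rw [e]
      have a1 := lev ((I.filter fun α => ‖w α‖ ≤ 2 ^ (m + 1)).filter fun α => ¬ ‖w α‖ ≤ 2 ^ m)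
        (2 ^ m) ((filter_subset _ _).trans (filter_subset _ _)) (by positivity)
        (fun α hα => (not_le.1 (mem_filter.1 hα).2).le)
        (fun α hα => by rw [← pow_succ']; exact (mem_filter.1 (mem_filter.1 hα).1).2)
      calc _ ≤ _ := norm_add_le _ _
        _ ≤ _ := add_le_add ih a1
        _ = _ := by push_cast; ring
  have fin := key n
  rwa [filter_true_of_mem fun α _ => (hw α).trans hn] at fin

end Pool.Agent.Lib.MP_ecd12e_nt.GM
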