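import Pool.Agent.Lib.MP_ecd12e_nt.GM.Spc
import Pool.Agent.Lib.MP_ecd12e_nt.GM.Curve

/-! The entries of the Beta kernel. -/

namespace Pool.Agent.Lib.MP_ecd12e_nt.GM

open Finset Real MeasureTheory
open Pool.Agent.Lib.MP_ecd12e_nt.Bar
open scoped ContDiff ComplexConjugate

/-- the integrand of `curve_le` -/
noncomputable def Jone_ind (c0 α β a r : ℝ) : ℂ :=
  (Set.Icc (exp c0) (exp (c0 + 5))).indicator
    (fun r : ℝ => ((1 / r : ℝ) : ℂ) * ei (-(α * a) + β * log r)) r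

lemma Jone_norm_ind {c0 : ℝ} (hc : -(5 / 2) ≤ c0) (α β a r : ℝ) :
    ‖Jone_ind c0 α β a r‖ ≤ exp (5 / 2) := by
  unfold Jone_ind
  by_cases h : r ∈ Set.Icc (exp c0) (exp (c0 + 5))
  · have h0 : 0 < r := (exp_pos c0).trans_le h.1
    rw [Set.indicator_of_mem h, norm_mul, norm_ei, mul_one, Complex.norm_real, Real.norm_eq_abs,
      abs_of_pos (by positivity), div_le_iff₀ h0]
    calc (1 : ℝ) = exp 0 := exp_zero.symm
      _ ≤ exp (5 / 2 + c0) := exp_le_exp.2 (by linarith)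
      _ = exp (5 / 2) * exp c0 := exp_add _ _
      _ ≤ exp (5 / 2) * r := mul_le_mul_of_nonneg_left h.1 (exp_pos _).le
  · rw [Set.indicator_of_notMem h, norm_zero]
    exact (exp_pos _).le

lemma Jone_meas (c0 α β e : ℝ) :
    Measurable fun p : ℝ × ℝ => Jone_ind c0 α β p.1 (e * exp p.1 + p.2) := by
  have h1 : Measurable fun p : ℝ × ℝ => e * exp p.1 + p.2 := by fun_prop
  unfold Jone_ind Set.indicator
  refine Measurable.ite (h1 measurableSet_Icc) ?_ measurable_const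
  refine Measurable.mul ?_ (continuous_ei.measurable.comp ?_)
  · exact Complex.measurable_ofReal.comp (measurable_const.div h1)
  · exact ((measurable_const.mul measurable_fst).neg).add
      (measurable_const.mul (measurable_log.comp h1))

/-- the substitution `r = exp c` -/
lemma Jone_sub (c0 α β a : ℝ) {w : ℝ → ℝ} (hw : Continuous w) :
    ∫ c in c0..c0 + 5, (w (exp c) : ℂ) * ei (-(α * a) + β * c)
      = ∫ r, (w r : ℂ) * Jone_ind c0 α β a r := by
  have hg : ContinuousOn (fun r : ℝ => (w r : ℂ) * (((1 / r : ℝ) : ℂ) * ei (-(α * a) + β * log r)))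
      (exp '' Set.uIcc c0 (c0 + 5)) := by
    rintro _ ⟨x, -, rfl⟩
    have h0 : exp x ≠ 0 := (exp_pos x).ne'
    refine ContinuousAt.continuousWithinAt ?_
    refine (Complex.continuous_ofReal.comp hw).continuousAt.mul (ContinuousAt.mul ?_ ?_)
    · exact Complex.continuous_ofReal.continuousAt.comp
        (continuousAt_const.div continuousAt_id h0)
    · exact continuous_ei.continuousAt.comp
        (continuousAt_const.add (continuousAt_const.mul (continuousAt_log h0)))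
  have h := intervalIntegral.integral_deriv_smul_comp' (a := c0) (b := c0 + 5) (f := exp)
    (f' := exp) (fun x _ => hasDerivAt_exp x) continuous_exp.continuousOn hg
  have hle : exp c0 ≤ exp (c0 + 5) := exp_le_exp.2 (by linarith)
  rw [intervalIntegral.integral_of_le hle, ← integral_Icc_eq_integral_Ioc,
    ← integral_indicator measurableSet_Icc] at h
  calc ∫ c in c0..c0 + 5, (w (exp c) : ℂ) * ei (-(α * a) + β * c)
      = ∫ c in c0..c0 + 5, exp c • ((fun r : ℝ =>
          (w r : ℂ) * (((1 / r : ℝ) : ℂ) * ei (-(α * a) + β * log r))) ∘ exp) c := by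
        refine intervalIntegral.integral_congr fun c _ => ?_
        have h0 : ((exp c : ℝ) : ℂ) ≠ 0 := Complex.ofReal_ne_zero.2 (exp_pos c).ne'
        simp only [Function.comp, log_exp, Complex.real_smul]
        rw [Complex.ofReal_div, Complex.ofReal_one]
        field_simp
    _ = _ := h.trans (by
        refine integral_congr_ae (Filter.Eventually.of_forall fun r => ?_)
        unfold Jone_ind
        by_cases hr : r ∈ Set.Icc (exp c0) (exp (c0 + 5))
        · simp only [Set.indicator_of_mem hr]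
        · simp only [Set.indicator_of_notMem hr, mul_zero])

lemma Jone_far {K ξ : ℝ} (hK : 0 < K) (h : 1 / 2 ≤ |ξ|) : ps (K * ξ) ≤ 5 / K ^ 2 * ps ξ := by
  have h1 : 1 / 4 ≤ ξ ^ 2 := by
    rw [← sq_abs]
    nlinarith
  unfold ps
  rw [div_mul_div_comm, div_le_div_iff₀ (by positivity) (by positivity)]
  have h2 : 0 < K ^ 2 := by positivity
  nlinarith [mul_le_mul_of_nonneg_left h1 h2.le]

/-- the analytic part -/
lemma Jone_main {a0 c0 e x α β K A : ℝ} (hc : -(5 / 2) ≤ c0) (hK : 0 < K) (hA : 0 ≤ A)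
    (h : ∀ g, |g - x| ≤ 1 / 2 → ‖∫ a in a0..a0 + 5, Jone_ind c0 α β a (e * exp a + g)‖ ≤ A) :
    ‖∫ a in a0..a0 + 5, ∫ c in c0..c0 + 5,
        (ps (K * (exp c - e * exp a - x)) : ℂ) * ei (-(α * a) + β * c)‖
      ≤ π * (A / K + 25 * exp (5 / 2) / K ^ 2) := by
  have h1 : ∀ a, ∫ c in c0..c0 + 5, (ps (K * (exp c - e * exp a - x)) : ℂ) * ei (-(α * a) + β * c)
      = ∫ g, (ps (K * (g - x)) : ℂ) * Jone_ind c0 α β a (e * exp a + g) := fun a => by
    rw [Jone_sub c0 α β a (w := fun r => ps (K * (r - e * exp a - x))) (by fun_prop),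
      ← integral_add_left_eq_self _ (e * exp a)]
    simp only [add_sub_cancel_left]
  obtain ⟨i1, v1⟩ := int_ps hK x
  obtain ⟨i2, v2⟩ := int_ps one_pos x
  simp only [one_mul] at i2 v2
  have hfin : IsFiniteMeasure (volume.restrict (Set.uIoc a0 (a0 + 5))) :=
    isFiniteMeasure_restrict.2 measure_Ioc_lt_top.ne
  have hint : Integrable (Function.uncurry fun a g : ℝ =>
      (ps (K * (g - x)) : ℂ) * Jone_ind c0 α β a (e * exp a + g))
      ((volume.restrict (Set.uIoc a0 (a0 + 5))).prod volume) := by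
    refine Integrable.mono' ((i1.const_mul (exp (5 / 2) / K)).comp_snd _) ?_
      (Filter.Eventually.of_forall fun p => ?_)
    · refine Measurable.aestronglyMeasurable ?_
      refine Measurable.mul ?_ (Jone_meas c0 α β e)
      exact Continuous.measurable (by fun_prop)
    · change ‖(ps (K * (p.2 - x)) : ℂ) * Jone_ind c0 α β p.1 (e * exp p.1 + p.2)‖ ≤ _
      rw [norm_mul, Complex.norm_real, Real.norm_eq_abs, abs_of_pos (ps_pos _)]
      calc _ ≤ ps (K * (p.2 - x)) * exp (5 / 2) :=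
            mul_le_mul_of_nonneg_left (Jone_norm_ind hc _ _ _ _) (ps_pos _).le
        _ = _ := by field_simp
  simp_rw [h1]
  rw [intervalIntegral_integral_swap hint]
  simp_rw [intervalIntegral.integral_const_mul]
  have hb : Integrable fun g => A / K * (K * ps (K * (g - x))) +
      25 * exp (5 / 2) / K ^ 2 * ps (g - x) := (i1.const_mul _).add (i2.const_mul _)
  refine (norm_integral_le_of_norm_le hb (Filter.Eventually.of_forall fun g => ?_)).trans ?_
  · rw [norm_mul, Complex.norm_real, Real.norm_eq_abs, abs_of_pos (ps_pos _)]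
    have p1 := ps_pos (K * (g - x))
    have p2 := ps_pos (g - x)
    have e1 : A / K * (K * ps (K * (g - x))) = ps (K * (g - x)) * A := by field_simp
    rw [e1]
    rcases le_total |g - x| (1 / 2) with hg | hg
    · exact (mul_le_mul_of_nonneg_left (h g hg) p1.le).trans
        (le_add_of_nonneg_right (by positivity))
    · have h5 : ‖∫ a in a0..a0 + 5, Jone_ind c0 α β a (e * exp a + g)‖ ≤ exp (5 / 2) * 5 := by
        have := intervalIntegral.norm_integral_le_of_norm_le_const (a := a0) (b := a0 + 5)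
          (f := fun a => Jone_ind c0 α β a (e * exp a + g)) (C := exp (5 / 2))
          fun a _ => Jone_norm_ind hc _ _ _ _
        rwa [add_sub_cancel_left, abs_of_pos (by norm_num : (0 : ℝ) < 5)] at this
      refine le_trans ?_ (le_add_of_nonneg_left (by positivity))
      calc _ ≤ (5 / K ^ 2 * ps (g - x)) * (exp (5 / 2) * 5) :=
            mul_le_mul (Jone_far hK hg) h5 (norm_nonneg _) (by positivity)
        _ = _ := by ring
  · rw [integral_add (i1.const_mul _) (i2.const_mul _), integral_const_mul, v1,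
      integral_const_mul, v2]
    exact le_of_eq (by ring)

lemma Jone_exp_lo {μ μ' : ℕ} (h : 1 ≤ μ') (h' : μ' ≤ μ) :
    -(5 / 2) ≤ lo μ μ' ∧ exp (lo μ μ') = μ / μ' / exp (5 / 2) := by
  have h1 : (1 : ℝ) ≤ μ' := by exact_mod_cast h
  have h2 : (μ' : ℝ) ≤ μ := by exact_mod_cast h'
  have h3 : (1 : ℝ) ≤ (μ : ℝ) / μ' := by
    rw [le_div_iff₀ (by linarith)]
    linarith
  unfold lo
  refine ⟨by linarith [log_nonneg h3], ?_⟩
  rw [exp_sub, exp_log (by linarith)]

/-- the numerical part -/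
lemma Jone_num {N M μ1 μ2 μ3 H E C : ℝ} (hN : 1 ≤ N) (h2 : 1 ≤ μ2) (h1 : μ2 ≤ μ1) (h3 : μ2 ≤ μ3)
    (t1 : 2 * μ1 ≤ M) (t3 : 2 * μ3 ≤ M) (hH : 0 < H) (hHM : H * M ≤ 8 * N ^ 2) (hE : 1 ≤ E)
    (hC : 0 < C) :
    π * (C / √(max (μ1 / μ2 / E) (μ3 / μ2 / E) * H) / (N * μ2) + 25 * E / (N * μ2) ^ 2)
      ≤ π * (C * E + 50 * E) / (N * √(μ1 * μ3)) * √(M / (μ2 * H)) := by
  have hM : 0 < M := by linarith
  have p1 : 0 < μ1 := by linarith
  have p2 : 0 < μ2 := by linarith
  have p3 : 0 < μ3 := by linarith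
  have pE : 0 < E := by linarith
  have pN : 0 < N := by linarith
  obtain ⟨m, hm, hm1, hm3⟩ : ∃ m, max (μ1 / μ2 / E) (μ3 / μ2 / E) = m / μ2 / E ∧
      μ1 * μ3 ≤ m * M ∧ 0 < m := by
    rcases le_total μ1 μ3 with h | h
    · exact ⟨μ3, max_eq_right (by gcongr), by nlinarith, p3⟩
    · exact ⟨μ1, max_eq_left (by gcongr), by nlinarith, p1⟩
  rw [hm]
  set s := √(μ1 * μ3) with hs
  set w := √(M / (μ2 * H)) with hw
  set q := √(m / μ2 / E * H) with hq
  have ps0 : 0 < s := sqrt_pos.2 (by positivity)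
  have pw : 0 < w := sqrt_pos.2 (by positivity)
  have pq : 0 < q := sqrt_pos.2 (by positivity)
  have w2 : w ^ 2 = M / (μ2 * H) := sq_sqrt (by positivity)
  have q2 : q ^ 2 = m / μ2 / E * H := sq_sqrt (by positivity)
  have b1 : s ≤ E * w * μ2 * q := by
    rw [hs, sqrt_le_iff]
    refine ⟨by positivity, ?_⟩
    have : (E * w * μ2 * q) ^ 2 = E * (m * M) := by
      rw [mul_pow, mul_pow, mul_pow, w2, q2]
      field_simp
    rw [this]
    have : 0 < m * M := by positivity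
    nlinarith
  have b2 : s ≤ 2 * w * N * μ2 ^ 2 := by
    rw [hs, sqrt_le_iff]
    refine ⟨by positivity, ?_⟩
    have : (2 * w * N * μ2 ^ 2) ^ 2 = 4 * N ^ 2 * M * μ2 ^ 3 / H := by
      rw [mul_pow, mul_pow, mul_pow, w2]
      field_simp
      ring
    rw [this, le_div_iff₀ hH]
    have c1 : μ1 * μ3 ≤ M ^ 2 / 4 := by nlinarith
    have c2 : (1 : ℝ) ≤ μ2 ^ 3 := one_le_pow₀ h2
    have c3 : μ1 * μ3 * H ≤ 2 * N ^ 2 * M := by nlinarith
    have c4 : 0 < N ^ 2 * M := by positivity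
    nlinarith
  have d1 : C / q / (N * μ2) ≤ C * E / (N * s) * w := by
    rw [div_div, div_mul_eq_mul_div, div_le_div_iff₀ (by positivity) (by positivity)]
    have := mul_le_mul_of_nonneg_left b1 (mul_pos hC pN).le
    nlinarith
  have d2 : 25 * E / (N * μ2) ^ 2 ≤ 50 * E / (N * s) * w := by
    rw [div_mul_eq_mul_div, div_le_div_iff₀ (by positivity) (by positivity)]
    have := mul_le_mul_of_nonneg_left b2 (by positivity : 0 ≤ 25 * E * N)
    nlinarith
  calc _ ≤ π * (C * E / (N * s) * w + 50 * E / (N * s) * w) :=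
        mul_le_mul_of_nonneg_left (add_le_add d1 d2) pi_pos.le
    _ = _ := by ring

/-- For fixed `a` substitute `r = exp c`, then `r = e exp a + g` with `e = -e1 e3`, so that the
weight is `ps (N μ2 (e2 + e3 g))`; exchange the integrals. For `|e2 + e3 g| ≤ 1 / 2` use `curve_le`
and `int_ps`; otherwise the inner integral is at most `5 e^{5/2}` and
`∫_{|ξ| ≥ 1/2} ps (N μ2 ξ) ≤ 4 / (N μ2)²`. Note `√(μ1 μ3) ≤ max μ1 μ3`. -/
theorem Jk_one : ∃ C : ℝ, 0 < C ∧ ∀ (N M : ℕ) (e1 e2 e3 : ℤ) (μ1 μ2 μ3 : ℕ), 1 ≤ N →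
    Blk M e1 e2 e3 μ1 μ2 μ3 → ∀ (H : ℕ) (α β : ℤ), min μ1 μ3 ≤ H → H * M ≤ 8 * N ^ 2 →
      (H : ℤ) ≤ max |α| |β| → ‖Jk N e1 e2 e3 μ1 μ2 μ3 α β‖
        ≤ C / (N * √(μ1 * μ3)) * √(M / (μ2 * H)) := by
  obtain ⟨C, hC, hcurve⟩ := curve_le
  refine ⟨π * (C * exp (5 / 2) + 50 * exp (5 / 2)), by positivity, ?_⟩
  intro N M e1 e2 e3 μ1 μ2 μ3 hN hB H α β hH hHM hαβ
  obtain ⟨ha0, ea0⟩ := Jone_exp_lo hB.pos hB.le1
  obtain ⟨hc0, ec0⟩ := Jone_exp_lo hB.pos hB.le3
  have rN : (1 : ℝ) ≤ N := by exact_mod_cast hN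
  have r2 : (1 : ℝ) ≤ μ2 := by exact_mod_cast hB.pos
  have r1 : (μ2 : ℝ) ≤ μ1 := by exact_mod_cast hB.le1
  have r3 : (μ2 : ℝ) ≤ μ3 := by exact_mod_cast hB.le3
  have t1 : 2 * (μ1 : ℝ) ≤ M := by exact_mod_cast hB.top1
  have t3 : 2 * (μ3 : ℝ) ≤ M := by exact_mod_cast hB.top3
  have rH : min (μ1 : ℝ) μ3 ≤ H := by exact_mod_cast hH
  have pH : (0 : ℝ) < H := lt_of_lt_of_le (lt_min (by linarith) (by linarith)) rH
  have rHM : (H : ℝ) * M ≤ 8 * N ^ 2 := by exact_mod_cast hHM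
  have rαβ : (H : ℝ) ≤ max |(α : ℝ)| |(β : ℝ)| := by exact_mod_cast hαβ
  have hE : (1 : ℝ) ≤ exp (5 / 2) := one_le_exp (by norm_num)
  have hK : (0 : ℝ) < N * μ2 := by positivity
  have hdiv : ∀ μ : ℝ, 0 ≤ μ → μ / μ2 / exp (5 / 2) ≤ μ := fun μ hμ =>
    (div_le_self (by positivity) hE).trans (div_le_self hμ r2)
  have hmin : min (exp (lo μ1 μ2)) (exp (lo μ3 μ2)) ≤ H := by
    rw [ea0, ec0]
    exact (min_le_min (hdiv _ (by positivity)) (hdiv _ (by positivity))).trans rH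
  have he : (-(e1 * e3 : ℝ) = 1 ∨ -(e1 * e3 : ℝ) = -1) := by
    rcases hB.s1 with h | h <;> rcases hB.s3 with h' | h' <;> subst h h' <;> norm_num
  have hx : |-(e2 * e3 : ℝ)| = 1 := by
    rcases hB.s2 with h | h <;> rcases hB.s3 with h' | h' <;> subst h h' <;> norm_num
  have hpl : ∀ a c, pl N e1 e2 e3 μ2 a c =
      ps (N * μ2 * (exp c - -(e1 * e3 : ℝ) * exp a - -(e2 * e3 : ℝ))) := fun a c => by
    unfold pl
    rcases hB.s3 with h | h <;> subst h
    · congr 1
      push_cast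
      ring
    · rw [← ps_neg]
      congr 1
      push_cast
      ring
  unfold Jk
  simp_rw [hpl]
  refine (Jone_main (A := C / √(max (exp (lo μ1 μ2)) (exp (lo μ3 μ2)) * H)) hc0 hK
    (by positivity) fun g hg => ?_).trans ?_
  · have u1 := abs_sub_abs_le_abs_sub g (-(e2 * e3 : ℝ))
    have u2 := abs_sub_abs_le_abs_sub (-(e2 * e3 : ℝ)) g
    rw [abs_sub_comm] at u2
    rw [hx] at u1 u2
    exact hcurve _ _ _ g α β H ha0 hc0 he (by linarith) (by linarith) pH rαβ hmin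
  · rw [ea0, ec0]
    exact Jone_num rN r2 r1 r3 t1 t3 pH rHM hE hC

end Pool.Agent.Lib.MP_ecd12e_nt.GM
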