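import Pool.Agent.Lib.MP_ecd12e_nt.GM.Spc

/-! The Beta kernel is bounded on square summable sequences. -/

namespace Pool.Agent.Lib.MP_ecd12e_nt.GM

open Finset Real MeasureTheory
open Pool.Agent.Lib.MP_ecd12e_nt.Bar
open scoped ContDiff ComplexConjugate

lemma Jtwo_aux1 {K : ℝ} (hK : 0 < K) (A l : ℝ) {e : ℤ} (he : Sg e) :
    ∫ c in l..l + 5, ps (K * (A + e * exp c)) ≤ π / (K * exp l) := by
  have he2 : (e : ℝ) * e = 1 := by rcases he with rfl | rfl <;> norm_num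
  have hd : ∀ c : ℝ, HasDerivAt (fun c => (e : ℝ) * arctan (K * (A + e * exp c)))
      (K * exp c * ps (K * (A + e * exp c))) c := by
    intro c
    have h1 : HasDerivAt (fun c => K * (A + e * exp c)) (K * (e * exp c)) c :=
      (((hasDerivAt_exp c).const_mul (e : ℝ)).const_add A).const_mul K
    have h2 := (h1.arctan).const_mul (e : ℝ)
    refine h2.congr_deriv ?_
    unfold ps
    linear_combination (1 / (1 + (K * (A + e * exp c)) ^ 2) * K * exp c) * he2
  have hI := intervalIntegral.integral_eq_sub_of_hasDerivAt (a := l) (b := l + 5)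
    (fun c _ => hd c) (Continuous.intervalIntegrable (by fun_prop) _ _)
  have hb : ∫ c in l..l + 5, K * exp c * ps (K * (A + e * exp c)) ≤ π := by
    rw [hI]
    have a1 := arctan_lt_pi_div_two (K * (A + e * exp (l + 5)))
    have a2 := neg_pi_div_two_lt_arctan (K * (A + e * exp (l + 5)))
    have a3 := arctan_lt_pi_div_two (K * (A + e * exp l))
    have a4 := neg_pi_div_two_lt_arctan (K * (A + e * exp l))
    rcases he with rfl | rfl <;> push_cast at * <;> linarith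
  have hl : 0 < K * exp l := by positivity
  rw [le_div_iff₀ hl, ← intervalIntegral.integral_mul_const]
  refine le_trans (intervalIntegral.integral_mono_on (by linarith)
    (Continuous.intervalIntegrable (by fun_prop) _ _)
    (Continuous.intervalIntegrable (by fun_prop) _ _) fun c hc => ?_) hb
  rw [mul_comm]
  exact mul_le_mul_of_nonneg_right
    (mul_le_mul_of_nonneg_left (exp_le_exp.2 hc.1) hK.le) (ps_pos _).le

lemma Jtwo_aux2 {N μ μ2 : ℕ} (hN : 1 ≤ N) (h2 : 1 ≤ μ2) (h : μ2 ≤ μ) :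
    π / ((N : ℝ) * μ2 * exp (lo μ μ2)) = π * exp (5 / 2) / (N * μ) := by
  have a1 : (0 : ℝ) < N := by exact_mod_cast hN
  have a2 : (0 : ℝ) < μ2 := by exact_mod_cast h2
  have a3 : (0 : ℝ) < μ := by exact_mod_cast h2.trans h
  rw [lo, exp_sub, exp_log (by positivity)]
  field_simp

/-- Substitute `r = exp c ≥ e^{-5/2} μ3 / μ2` and use `int_ps` with `K = N μ2`. -/
theorem int_pl_c : ∃ C : ℝ, 0 < C ∧ ∀ (N M : ℕ) (e1 e2 e3 : ℤ) (μ1 μ2 μ3 : ℕ), 1 ≤ N →
    Blk M e1 e2 e3 μ1 μ2 μ3 →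
      (∀ a, ∫ c in lo μ3 μ2..lo μ3 μ2 + 5, pl N e1 e2 e3 μ2 a c ≤ C / (N * μ3)) ∧
      ∀ c, ∫ a in lo μ1 μ2..lo μ1 μ2 + 5, pl N e1 e2 e3 μ2 a c ≤ C / (N * μ1) := by
  refine ⟨π * exp (5 / 2), by positivity, fun N M e1 e2 e3 μ1 μ2 μ3 hN hB => ⟨fun a => ?_, fun c => ?_⟩⟩
  · have a1 : (0 : ℝ) < N := by exact_mod_cast hN
    have a2 : (0 : ℝ) < μ2 := by exact_mod_cast hB.pos
    rw [← Jtwo_aux2 hN hB.pos hB.le3]
    exact Jtwo_aux1 (by positivity) (e1 * exp a + e2) _ hB.s3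
  · have a1 : (0 : ℝ) < N := by exact_mod_cast hN
    have a2 : (0 : ℝ) < μ2 := by exact_mod_cast hB.pos
    rw [← Jtwo_aux2 hN hB.pos hB.le1]
    refine le_of_eq_of_le ?_ (Jtwo_aux1 (by positivity) (e2 + e3 * exp c) _ hB.s1)
    refine intervalIntegral.integral_congr fun a _ => ?_
    simp only [pl]
    congr 2
    ring

@[fun_prop] lemma Jtwo_cont (N : ℕ) (e1 e2 e3 : ℤ) (μ2 : ℕ) {X : Type} [TopologicalSpace X]
    {f g : X → ℝ} (hf : Continuous f) (hg : Continuous g) :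
    Continuous fun x => pl N e1 e2 e3 μ2 (f x) (g x) := by
  unfold pl
  fun_prop

lemma Jtwo_par {E : Type} [NormedAddCommGroup E] [NormedSpace ℝ E] {F : ℝ → ℝ → E}
    (hF : Continuous fun z : ℝ × ℝ => F z.1 z.2) (c d : ℝ) : Continuous fun a => ∫ y in c..d, F a y :=
  intervalIntegral.continuous_parametric_intervalIntegral_of_continuous' (f := F) hF c d

lemma Jtwo_swap {F : ℝ → ℝ → ℝ} (hF : Continuous fun z : ℝ × ℝ => F z.1 z.2) (a b c d : ℝ) :
    ∫ x in a..b, ∫ y in c..d, F x y = ∫ y in c..d, ∫ x in a..b, F x y := by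
  refine intervalIntegral_intervalIntegral_swap ?_
  have h : IntegrableOn F.uncurry (Set.uIcc a b ×ˢ Set.uIcc c d) :=
    hF.continuousOn.integrableOn_compact (isCompact_uIcc.prod isCompact_uIcc)
  exact h.mono_set (Set.prod_mono Set.uIoc_subset_uIcc Set.uIoc_subset_uIcc)

theorem BJ_Jk (N : ℕ) (e1 e2 e3 : ℤ) (μ1 μ2 μ3 : ℕ) (I I' : Finset ℤ) (u v : ℤ → ℂ) :
    BJ (Jk N e1 e2 e3 μ1 μ2 μ3) I I' u v
      = ∫ a in lo μ1 μ2..lo μ1 μ2 + 5, ∫ c in lo μ3 μ2..lo μ3 μ2 + 5,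
        (pl N e1 e2 e3 μ2 a c : ℂ) * (tp I u (-a) * tp I' v c) := by
  have key : ∀ a c : ℝ, (pl N e1 e2 e3 μ2 a c : ℂ) * (tp I u (-a) * tp I' v c) =
      ∑ x ∈ I ×ˢ I', u x.1 * v x.2 * ((pl N e1 e2 e3 μ2 a c : ℂ) * ei (-(x.1 * a) + x.2 * c)) := by
    intro a c
    rw [tp, tp, sum_mul_sum, sum_product, mul_sum]
    refine sum_congr rfl fun α _ => ?_
    rw [mul_sum]
    refine sum_congr rfl fun β _ => ?_
    rw [ei_add, mul_neg]
    ring
  simp_rw [key]
  have inner : ∀ a : ℝ, ∫ c in lo μ3 μ2..lo μ3 μ2 + 5,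
      ∑ x ∈ I ×ˢ I', u x.1 * v x.2 * ((pl N e1 e2 e3 μ2 a c : ℂ) * ei (-(x.1 * a) + x.2 * c)) =
      ∑ x ∈ I ×ˢ I', u x.1 * v x.2 * ∫ c in lo μ3 μ2..lo μ3 μ2 + 5,
        (pl N e1 e2 e3 μ2 a c : ℂ) * ei (-(x.1 * a) + x.2 * c) := by
    intro a
    rw [intervalIntegral.integral_finsetSum fun x _ =>
      Continuous.intervalIntegrable (by fun_prop) _ _]
    exact sum_congr rfl fun x _ => intervalIntegral.integral_const_mul _ _
  simp_rw [inner]
  rw [intervalIntegral.integral_finsetSum fun x _ => Continuous.intervalIntegrable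
    (continuous_const.mul (Jtwo_par (F := fun a c =>
      (pl N e1 e2 e3 μ2 a c : ℂ) * ei (-(x.1 * a) + x.2 * c)) (by fun_prop) _ _)) _ _,
    BJ, sum_product]
  refine sum_congr rfl fun α _ => sum_congr rfl fun β _ => ?_
  rw [intervalIntegral.integral_const_mul]
  rfl

lemma Jtwo_opt {X A B : ℝ} (hA : 0 ≤ A) (hB : 0 ≤ B) (h : ∀ κ : ℝ, 0 < κ → X ≤ κ * A + B / κ) :
    X ≤ 2 * (√A * √B) := by
  by_contra hc
  rw [not_le] at hc
  have hX : 0 < X := lt_of_le_of_lt (by positivity) hc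
  rcases hA.eq_or_lt with rfl | hA'
  · have h1 := h (2 * (B + 1) / X) (by positivity)
    rw [mul_zero, zero_add, le_div_iff₀ (by positivity), mul_div_cancel₀ _ hX.ne'] at h1
    linarith
  rcases hB.eq_or_lt with rfl | hB'
  · have h1 := h (X / (2 * A)) (by positivity)
    rw [zero_div, add_zero, show X / (2 * A) * A = X / 2 by field_simp] at h1
    linarith
  have a1 : 0 < √A := sqrt_pos.2 hA'
  have a2 : 0 < √B := sqrt_pos.2 hB'
  have h1 := h (√B / √A) (by positivity)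
  have e1 : √B / √A * A = √A * √B := by
    rw [div_mul_eq_mul_div, div_eq_iff a1.ne']
    linear_combination (-√B) * mul_self_sqrt hA
  have e2 : B / (√B / √A) = √A * √B := by
    rw [div_div_eq_mul_div, div_eq_iff a2.ne']
    linear_combination (-√A) * mul_self_sqrt hB
  rw [e1, e2] at h1
  linarith

/-- Schur test: `‖G‖ ‖H‖ ≤ (κ ‖G‖² + ‖H‖² / κ) / 2`, `int_pl_c`, `int_tp_le` (`5 ≤ 2 π`). -/
theorem Jk_two : ∃ C : ℝ, 0 < C ∧ ∀ (N M : ℕ) (e1 e2 e3 : ℤ) (μ1 μ2 μ3 : ℕ), 1 ≤ N →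
    Blk M e1 e2 e3 μ1 μ2 μ3 → ∀ (I I' : Finset ℤ) (u v : ℤ → ℂ),
      ‖BJ (Jk N e1 e2 e3 μ1 μ2 μ3) I I' u v‖
        ≤ C / (N * √(μ1 * μ3)) * (√(sq2 I u) * √(sq2 I' v)) := by
  obtain ⟨C, hC, h⟩ := int_pl_c
  refine ⟨2 * π * C, by positivity, fun N M e1 e2 e3 μ1 μ2 μ3 hN hB I I' u v => ?_⟩
  obtain ⟨h3, h1⟩ := h N M e1 e2 e3 μ1 μ2 μ3 hN hB
  have a0 : (0 : ℝ) < N := by exact_mod_cast hN
  have a1 : (0 : ℝ) < μ1 := by exact_mod_cast hB.pos.trans hB.le1
  have a3 : (0 : ℝ) < μ3 := by exact_mod_cast hB.pos.trans hB.le3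
  have hu := sq2_nonneg I u
  have hv := sq2_nonneg I' v
  have hpl : ∀ a c, 0 ≤ pl N e1 e2 e3 μ2 a c := fun a c => (ps_pos _).le
  rw [BJ_Jk]
  generalize lo μ1 μ2 = l1 at h1 ⊢
  generalize lo μ3 μ2 = l3 at h3 ⊢
  have p5 : (5 : ℝ) ≤ 2 * π := by linarith [pi_gt_three]
  have iG : ∫ a in l1..l1 + 5, ‖tp I u (-a)‖ ^ 2 ≤ 2 * π * sq2 I u := by
    rw [intervalIntegral.integral_comp_neg fun a => ‖tp I u a‖ ^ 2]
    exact int_tp_le I u (by linarith) (by linarith)
  have iH : ∫ c in l3..l3 + 5, ‖tp I' v c‖ ^ 2 ≤ 2 * π * sq2 I' v :=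
    int_tp_le I' v (by linarith) (by linarith)
  have jG : ∫ a in l1..l1 + 5, ∫ c in l3..l3 + 5, pl N e1 e2 e3 μ2 a c * ‖tp I u (-a)‖ ^ 2
      ≤ C / (N * μ3) * (2 * π * sq2 I u) := by
    refine le_trans ?_ (mul_le_mul_of_nonneg_left iG (by positivity))
    rw [← intervalIntegral.integral_const_mul]
    refine intervalIntegral.integral_mono_on (by linarith)
      (Continuous.intervalIntegrable (Jtwo_par (F := fun a c =>
        pl N e1 e2 e3 μ2 a c * ‖tp I u (-a)‖ ^ 2) (by fun_prop) _ _) _ _)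
      (Continuous.intervalIntegrable (by fun_prop) _ _) fun a _ => ?_
    rw [intervalIntegral.integral_mul_const]
    exact mul_le_mul_of_nonneg_right (h3 a) (by positivity)
  have jH : ∫ a in l1..l1 + 5, ∫ c in l3..l3 + 5, pl N e1 e2 e3 μ2 a c * ‖tp I' v c‖ ^ 2
      ≤ C / (N * μ1) * (2 * π * sq2 I' v) := by
    rw [Jtwo_swap (F := fun a c => pl N e1 e2 e3 μ2 a c * ‖tp I' v c‖ ^ 2) (by fun_prop)]
    refine le_trans ?_ (mul_le_mul_of_nonneg_left iH (by positivity))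
    rw [← intervalIntegral.integral_const_mul]
    refine intervalIntegral.integral_mono_on (by linarith)
      (Continuous.intervalIntegrable (Jtwo_par (F := fun c a =>
        pl N e1 e2 e3 μ2 a c * ‖tp I' v c‖ ^ 2) (by fun_prop) _ _) _ _)
      (Continuous.intervalIntegrable (by fun_prop) _ _) fun c _ => ?_
    rw [intervalIntegral.integral_mul_const]
    exact mul_le_mul_of_nonneg_right (h1 c) (by positivity)
  have cG := Jtwo_par (F := fun a c => pl N e1 e2 e3 μ2 a c * ‖tp I u (-a)‖ ^ 2) (by fun_prop)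
    l3 (l3 + 5)
  have cH := Jtwo_par (F := fun a c => pl N e1 e2 e3 μ2 a c * ‖tp I' v c‖ ^ 2) (by fun_prop)
    l3 (l3 + 5)
  refine le_of_le_of_eq (Jtwo_opt (A := C / (N * μ3) * (π * sq2 I u))
    (B := C / (N * μ1) * (π * sq2 I' v)) (by positivity) (by positivity) fun κ hκ => ?_) ?_
  · refine le_trans (intervalIntegral.norm_integral_le_of_norm_le (by linarith)
      (g := fun a => κ / 2 * (∫ c in l3..l3 + 5, pl N e1 e2 e3 μ2 a c * ‖tp I u (-a)‖ ^ 2)
        + 1 / (2 * κ) * ∫ c in l3..l3 + 5, pl N e1 e2 e3 μ2 a c * ‖tp I' v c‖ ^ 2)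
      (Filter.Eventually.of_forall fun a _ => ?_)
      (Continuous.intervalIntegrable (by fun_prop) _ _)) ?_
    · rw [← intervalIntegral.integral_const_mul, ← intervalIntegral.integral_const_mul,
        ← intervalIntegral.integral_add (Continuous.intervalIntegrable (by fun_prop) _ _)
          (Continuous.intervalIntegrable (by fun_prop) _ _)]
      refine intervalIntegral.norm_integral_le_of_norm_le (by linarith)
        (Filter.Eventually.of_forall fun c _ => ?_)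
        (Continuous.intervalIntegrable (by fun_prop) _ _)
      rw [norm_mul, norm_mul, Complex.norm_real, Real.norm_of_nonneg (hpl a c)]
      have b1 : ‖tp I u (-a)‖ * ‖tp I' v c‖
          ≤ κ / 2 * ‖tp I u (-a)‖ ^ 2 + 1 / (2 * κ) * ‖tp I' v c‖ ^ 2 := by
        have b2 : 0 ≤ 1 / (2 * κ) * (κ * ‖tp I u (-a)‖ - ‖tp I' v c‖) ^ 2 := by positivity
        have b3 : 1 / (2 * κ) * (κ * ‖tp I u (-a)‖ - ‖tp I' v c‖) ^ 2
            = κ / 2 * ‖tp I u (-a)‖ ^ 2 + 1 / (2 * κ) * ‖tp I' v c‖ ^ 2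
              - ‖tp I u (-a)‖ * ‖tp I' v c‖ := by
          field_simp
          ring
        linarith
      have b4 := mul_le_mul_of_nonneg_left b1 (hpl a c)
      linarith
    · rw [intervalIntegral.integral_add (Continuous.intervalIntegrable (by fun_prop) _ _)
        (Continuous.intervalIntegrable (by fun_prop) _ _), intervalIntegral.integral_const_mul,
        intervalIntegral.integral_const_mul]
      have b1 := mul_le_mul_of_nonneg_left jG (show 0 ≤ κ / 2 by positivity)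
      have b2 := mul_le_mul_of_nonneg_left jH (show 0 ≤ 1 / (2 * κ) by positivity)
      refine (add_le_add b1 b2).trans (le_of_eq ?_)
      field_simp
  · have s1 : 0 < √(μ1 : ℝ) := sqrt_pos.2 a1
    have s3 : 0 < √(μ3 : ℝ) := sqrt_pos.2 a3
    have e : ∀ {μ s : ℝ}, 0 < μ → √(C / (N * μ) * (π * s)) = √(C * π / N) * √s / √μ := by
      intro μ s hμ
      rw [← sqrt_mul (by positivity), ← sqrt_div' _ hμ.le]
      congr 1
      field_simp
    have e2 : √(C * π / N) * √(C * π / N) = C * π / N := mul_self_sqrt (by positivity)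
    rw [e a3, e a1, sqrt_mul a1.le]
    generalize √(C * π / N) = w at e2
    have e3 : C = w * w * N / π := by rw [e2]; field_simp
    rw [e3]
    field_simp

end Pool.Agent.Lib.MP_ecd12e_nt.GM
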