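import Pool.Agent.Lib.MP_ecd12e_nt.GM.Defs

/-! The short zeta sum at low frequencies. -/

namespace Pool.Agent.Lib.MP_ecd12e_nt.GM

open Finset Real MeasureTheory
open Pool.Agent.Lib.MP_ecd12e_nt.Bar
open scoped ContDiff ComplexConjugate

lemma KL_zero (μ : ℕ) (x : ℤ) : ‖Zb μ (fun _ => 1) x‖ ≤ μ := by
  refine (_root_.norm_sum_le _ _).trans ?_
  simp only [one_mul, norm_ei, sum_const, blk, Nat.card_Ico, nsmul_eq_mul, mul_one]
  have : 2 * μ - μ ≤ μ := by omega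
  exact_mod_cast this

lemma KL_one {μ : ℕ} (hμ : 1 ≤ μ) {x : ℤ} {n : ℕ} (hn : 1 ≤ n) (hx : |(x : ℝ)| = n)
    (hnμ : n ≤ μ) : ‖Zb μ (fun _ => 1) x‖ ≤ 81 * μ * (n : ℝ)⁻¹ := by
  have hn' : (0 : ℝ) < n := by exact_mod_cast hn
  have hnμ' : (n : ℝ) ≤ μ := by exact_mod_cast hnμ
  have h1 := Bar.norm_sum_le hμ (u := (x : ℝ)) (abs_pos.1 (hx ▸ hn')) (hx ▸ hnμ')
  have e : Icc μ (2 * μ) = insert (2 * μ) (blk μ) := by
    ext k
    simp only [blk, mem_Icc, mem_insert, mem_Ico]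
    omega
  rw [e, sum_insert (by simp [blk]), hx] at h1
  have h2 : Zb μ (fun _ => 1) x = (ei (x * log ((2 * μ : ℕ) : ℝ)) +
      ∑ k ∈ blk μ, ei (x * log k)) - ei (x * log ((2 * μ : ℕ) : ℝ)) := by
    simp only [Zb, one_mul]
    ring
  have h3 : (1 : ℝ) ≤ μ * (n : ℝ)⁻¹ := by
    rw [← div_eq_mul_inv, le_div_iff₀ hn']
    linarith
  rw [h2]
  refine (norm_sub_le _ _).trans ?_
  rw [norm_ei]
  rw [div_eq_mul_inv] at h1
  linarith

lemma KL_ind {μ : ℕ} (hμ : 1 ≤ μ) (H : ℕ) (hH : H ≤ μ) :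
    ∑ x ∈ box H, ‖Zb μ (fun _ => 1) x‖ ≤ μ + 162 * μ * (harmonic H : ℝ) := by
  induction H with
  | zero =>
    have := KL_zero μ 0
    simpa [box] using this
  | succ H ih =>
    have e : box (H + 1) = insert ((H : ℤ) + 1) (insert (-((H : ℤ) + 1)) (box H)) := by
      ext k
      simp only [box, mem_Icc, mem_insert]
      omega
    have n1 : (H : ℤ) + 1 ∉ insert (-((H : ℤ) + 1)) (box H) := by
      simp only [box, mem_Icc, mem_insert]
      omega
    have n2 : -((H : ℤ) + 1) ∉ box H := by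
      simp only [box, mem_Icc]
      omega
    have p : (0 : ℝ) ≤ (H : ℝ) + 1 := by positivity
    have a1 := KL_one hμ (x := (H : ℤ) + 1) (n := H + 1) (by omega)
      (by push_cast; exact abs_of_nonneg p) hH
    have a2 := KL_one hμ (x := -((H : ℤ) + 1)) (n := H + 1) (by omega)
      (by push_cast; rw [abs_neg]; exact abs_of_nonneg p) hH
    rw [e, sum_insert n1, sum_insert n2, harmonic_succ]
    push_cast at a1 a2 ⊢
    linarith [ih (by omega)]

/-- `Bar.norm_sum_le` gives `‖Zb μ 1 x‖ ≤ 80 μ / |x| + 1`; harmonic sum. -/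
theorem sum_Zb_one {N μ H : ℕ} {L : ℝ} (h : Lg N L) (hμ : 1 ≤ μ) (hμN : μ ≤ N) (hH : H ≤ μ) :
    ∑ x ∈ box H, ‖Zb μ (fun _ => 1) x‖ ≤ 200 * L * μ := by
  have h1 := KL_ind hμ H hH
  have hL := h.one_le
  have h2 : (harmonic H : ℝ) ≤ L := by
    refine (harmonic_le_one_add_log H).trans (le_trans ?_ h.hlog)
    rcases Nat.eq_zero_or_pos H with h0 | h0
    · rw [h0, Nat.cast_zero, log_zero]
      linarith [log_natCast_nonneg N]
    · have : log (H : ℝ) ≤ log N :=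
        log_le_log (by exact_mod_cast h0) (by exact_mod_cast hH.trans hμN)
      linarith
  have h3 : (0 : ℝ) ≤ μ := Nat.cast_nonneg μ
  nlinarith [mul_le_mul_of_nonneg_left h2 h3, mul_le_mul_of_nonneg_left hL h3]

end Pool.Agent.Lib.MP_ecd12e_nt.GM
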