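import Pool.Agent.Lib.MP_ecd12e_nt.GM.Rad3

/-! Products of two oscillatory integrals. -/

namespace Pool.Agent.Lib.MP_ecd12e_nt.GM

open Finset Real MeasureTheory
open Pool.Agent.Lib.MP_ecd12e_nt.Bar
open scoped ContDiff ComplexConjugate

lemma Kap_WW {θ : ℝ} (h : θ ∉ Set.Icc (-1 : ℝ) 1) : WW θ = 0 := by
  refine WW_zero ?_
  by_contra hc
  push Not at hc
  exact h ⟨by linarith [hc.1], by linarith [hc.2]⟩

lemma Kap_cont {X : Type} [TopologicalSpace X] [FirstCountableTopology X]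
    [LocallyCompactSpace X] {f : X → ℝ → ℂ} (hf : Continuous f.uncurry)
    (h0 : ∀ x σ, σ ∉ Set.Icc (-1 : ℝ) 1 → f x σ = 0) : Continuous fun x => ∫ σ, f x σ := by
  have h := continuous_parametric_integral_of_continuous (μ := volume) hf
    (isCompact_Icc (a := (-1 : ℝ)) (b := 1))
  refine h.congr fun x => ?_
  exact setIntegral_eq_integral_of_forall_compl_eq_zero (h0 x)

theorem conj_kap (s ξ : ℝ) : conj (kap s ξ) = kap (-s) (-ξ) := by
  unfold kap
  rw [← integral_conj]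
  congr 1
  funext θ
  rw [map_mul, Complex.conj_ofReal, conj_ei]
  congr 2
  ring

theorem conj_kB (N M : ℕ) (s : ℤ) : conj (kB N (MM M) s) = kB N (MM M) (-s) := by
  unfold kB
  rw [map_sum]
  have hm : ∀ m ∈ MM M, -m ∈ MM M := fun m hm => by
    simp only [MM, mem_erase, mem_Ioo] at hm ⊢
    omega
  refine sum_nbij' (fun m => -m) (fun m => -m) hm hm (fun m _ => neg_neg m) (fun m _ => neg_neg m)
    fun m _ => ?_
  rw [conj_kap]
  push_cast
  rw [neg_mul]

theorem continuous_Psi2 {y : ℝ → ℝ} (hy : Continuous y) : Continuous fun a => Psi2 (y a) a := by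
  unfold Psi2
  refine Kap_cont (f := fun a σ => ((WW σ * WW (σ + a) : ℝ) : ℂ) * ei (-(2 * π * exp σ * y a)))
    ?_ fun a σ h => by simp [Kap_WW h]
  unfold Function.uncurry
  fun_prop

theorem continuous_Psi (ξ1 ξ2 ξ3 : ℝ) : Continuous fun z : ℝ × ℝ => Psi ξ1 ξ2 ξ3 z.1 z.2 := by
  unfold Psi
  refine Kap_cont (f := fun (z : ℝ × ℝ) σ => ((WW (σ + z.1) * WW σ * WW (σ + z.2) : ℝ) : ℂ) *
    ei (-(2 * π * exp σ * (ξ1 * exp z.1 + ξ2 + ξ3 * exp z.2)))) ?_ fun a σ h => by simp [Kap_WW h]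
  unfold Function.uncurry
  fun_prop

/-- In the second factor substitute `θ = σ + a`; Fubini. -/
theorem kap_two (s ξ1 ξ2 : ℝ) :
    kap s ξ1 * conj (kap s ξ2) = ∫ a, ei (-(s * a)) * Psi2 (ξ1 - ξ2 * exp a) a := by
  rw [conj_kap]
  unfold kap
  rw [← integral_mul_const]
  have e1 : ∀ σ : ℝ, (WW σ : ℂ) * ei (s * σ - 2 * π * ξ1 * exp σ) *
      ∫ θ, (WW θ : ℂ) * ei (-s * θ - 2 * π * -ξ2 * exp θ) =
      ∫ a, (WW σ : ℂ) * ei (s * σ - 2 * π * ξ1 * exp σ) *
        ((WW (σ + a) : ℂ) * ei (-s * (σ + a) - 2 * π * -ξ2 * exp (σ + a))) := by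
    intro σ
    rw [integral_const_mul, integral_add_left_eq_self
      (fun θ : ℝ => (WW θ : ℂ) * ei (-s * θ - 2 * π * -ξ2 * exp θ)) σ]
  simp_rw [e1]
  rw [integral_integral_swap]
  · congr 1
    funext a
    unfold Psi2
    rw [← integral_const_mul]
    congr 1
    funext σ
    have e2 : ei (s * σ - 2 * π * ξ1 * exp σ) * ei (-s * (σ + a) - 2 * π * -ξ2 * exp (σ + a)) =
        ei (-(s * a)) * ei (-(2 * π * exp σ * (ξ1 - ξ2 * exp a))) := by
      rw [← ei_add, ← ei_add, exp_add]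
      congr 1
      ring
    push_cast
    linear_combination (WW σ : ℂ) * (WW (σ + a) : ℂ) * e2
  · refine Continuous.integrable_of_hasCompactSupport ?_ ?_
    · unfold Function.uncurry
      fun_prop
    · refine HasCompactSupport.intro ((isCompact_Icc (a := (-1 : ℝ)) (b := 1)).prod
        (isCompact_Icc (a := (-2 : ℝ)) (b := 2))) fun p hp => ?_
      by_cases h1 : p.1 ∈ Set.Icc (-1 : ℝ) 1
      · have h2 : p.1 + p.2 ∉ Set.Icc (-1 : ℝ) 1 := fun h2 =>
          hp ⟨h1, by linarith [h1.2, h2.1], by linarith [h1.1, h2.2]⟩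
        simp [Function.uncurry, Kap_WW h2]
      · simp [Function.uncurry, Kap_WW h1]

end Pool.Agent.Lib.MP_ecd12e_nt.GM
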