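import Pool.Agent.Lib.MP_ecd12e_nt.GM.Kap

/-! Products of three oscillatory integrals. -/

namespace Pool.Agent.Lib.MP_ecd12e_nt.GM

open Finset Real MeasureTheory
open Pool.Agent.Lib.MP_ecd12e_nt.Bar
open scoped ContDiff ComplexConjugate

lemma Kap3_aux {f1 f2 f3 : ℝ → ℂ} (c1 : Continuous f1) (c2 : Continuous f2) (c3 : Continuous f3)
    (z1 : ∀ θ, 1 ≤ |θ| → f1 θ = 0) (z2 : ∀ θ, 1 ≤ |θ| → f2 θ = 0) (z3 : ∀ θ, 1 ≤ |θ| → f3 θ = 0) :
    (∫ θ, f1 θ) * (∫ θ, f2 θ) * (∫ θ, f3 θ) =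
      ∫ z : ℝ × ℝ, ∫ σ, f2 σ * (f1 (σ + z.1) * f3 (σ + z.2)) := by
  have hc : Continuous (Function.uncurry fun (z : ℝ × ℝ) (σ : ℝ) =>
      f2 σ * (f1 (σ + z.1) * f3 (σ + z.2))) := by
    unfold Function.uncurry
    fun_prop
  have hs : HasCompactSupport (Function.uncurry fun (z : ℝ × ℝ) (σ : ℝ) =>
      f2 σ * (f1 (σ + z.1) * f3 (σ + z.2))) := by
    refine HasCompactSupport.intro (isCompact_closedBall 0 2) fun p hp => ?_
    show f2 p.2 * (f1 (p.2 + p.1.1) * f3 (p.2 + p.1.2)) = 0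
    by_cases h2 : 1 ≤ |p.2|
    · rw [z2 _ h2, zero_mul]
    by_cases h1 : 1 ≤ |p.2 + p.1.1|
    · rw [z1 _ h1, zero_mul, mul_zero]
    by_cases h3 : 1 ≤ |p.2 + p.1.2|
    · rw [z3 _ h3, mul_zero, mul_zero]
    refine absurd ?_ hp
    rw [not_le, abs_lt] at h1 h2 h3
    simp only [mem_closedBall_zero_iff, Prod.norm_def, Real.norm_eq_abs, max_le_iff, abs_le]
    refine ⟨⟨⟨?_, ?_⟩, ?_, ?_⟩, ?_, ?_⟩ <;> linarith [h1.1, h1.2, h2.1, h2.2, h3.1, h3.2]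
  rw [integral_integral_swap (hc.integrable_of_hasCompactSupport hs)]
  have e : ∀ σ : ℝ, ∫ z : ℝ × ℝ, f2 σ * (f1 (σ + z.1) * f3 (σ + z.2)) =
      f2 σ * ((∫ θ, f1 θ) * ∫ θ, f3 θ) := fun σ => by
    rw [integral_const_mul, Measure.volume_eq_prod,
      integral_prod_mul (fun a => f1 (σ + a)) (fun c => f3 (σ + c)), integral_add_left_eq_self,
      integral_add_left_eq_self]
  simp only [e]
  rw [integral_mul_const]
  ring

lemma Kap3_zero (s ξ θ : ℝ) (h : 1 ≤ |θ|) : (WW θ : ℂ) * ei (s * θ - 2 * π * ξ * exp θ) = 0 := by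
  rw [WW_zero, Complex.ofReal_zero, zero_mul]
  rcases le_abs.1 h with h | h
  · right
    linarith
  · left
    linarith

/-- Substitute `θ1 = σ + a`, `θ2 = σ`, `θ3 = σ + c`; Fubini. -/
theorem kap_three {α β γ : ℝ} (h : α + β + γ = 0) (ξ1 ξ2 ξ3 : ℝ) :
    kap α ξ1 * kap β ξ2 * kap γ ξ3
      = ∫ z : ℝ × ℝ, ei (α * z.1 + γ * z.2) * Psi ξ1 ξ2 ξ3 z.1 z.2 := by
  unfold kap
  rw [Kap3_aux (by fun_prop) (by fun_prop) (by fun_prop) (Kap3_zero α ξ1) (Kap3_zero β ξ2)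
    (Kap3_zero γ ξ3)]
  refine integral_congr_ae (Filter.Eventually.of_forall fun z => ?_)
  simp only [Psi]
  rw [← integral_const_mul]
  refine integral_congr_ae (Filter.Eventually.of_forall fun σ => ?_)
  have e : ei (β * σ - 2 * π * ξ2 * exp σ) * (ei (α * (σ + z.1) - 2 * π * ξ1 * exp (σ + z.1)) *
      ei (γ * (σ + z.2) - 2 * π * ξ3 * exp (σ + z.2))) = ei (α * z.1 + γ * z.2) *
        ei (-(2 * π * exp σ * (ξ1 * exp z.1 + ξ2 + ξ3 * exp z.2))) := by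
    rw [← ei_add, ← ei_add, ← ei_add, exp_add, exp_add]
    congr 1
    linear_combination σ * h
  simp only [Complex.ofReal_mul]
  linear_combination ((WW (σ + z.1) : ℂ) * WW σ * WW (σ + z.2)) * e

end Pool.Agent.Lib.MP_ecd12e_nt.GM
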