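import Pool.Agent.Lib.MP_ecd12e_nt.GM.Mom

/-! Low frequencies. -/

namespace Pool.Agent.Lib.MP_ecd12e_nt.GM

open Finset Real MeasureTheory
open Pool.Agent.Lib.MP_ecd12e_nt.Bar
open scoped ContDiff ComplexConjugate

lemma Low_pt {u x : ℝ} (hu : 0 ≤ u) (hx : 0 < x) : u ^ 2 ≤ x ^ 2 + u ^ 12 / x ^ 10 := by
  rcases le_total u x with h | h
  · exact (pow_le_pow_left₀ hu h 2).trans (le_add_of_nonneg_right (by positivity))
  · refine le_trans ?_ (le_add_of_nonneg_left (by positivity))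
    rw [le_div_iff₀ (by positivity)]
    calc u ^ 2 * x ^ 10 ≤ u ^ 2 * u ^ 10 := by gcongr
      _ = u ^ 12 := by ring

lemma Low_l1 {S : Finset ℤ} {ρ : ℤ → ℂ} (h : ∀ t, t ∉ S → ρ t = 0) (α : ℤ) :
    ∑ t ∈ S, ‖ρ (t + α)‖ * ‖ρ t‖ ≤ sq2 S ρ := by
  have h1 : ∑ t ∈ S, ‖ρ (t + α)‖ ^ 2 ≤ sq2 S ρ := by
    rw [← sum_image (s := S) (g := fun t => t + α) (f := fun u => ‖ρ u‖ ^ 2)
      fun a _ b _ hab => add_right_cancel hab,
      ← sum_subset (inter_subset_left (s₂ := S)) fun u hu hu' => by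
        rw [h u fun hS => hu' (mem_inter.2 ⟨hu, hS⟩), norm_zero, zero_pow two_ne_zero]]
    exact sum_le_sum_of_subset_of_nonneg inter_subset_right fun _ _ _ => by positivity
  have h2 : ∑ t ∈ S, ‖ρ (t + α)‖ * ‖ρ t‖ ≤ ∑ t ∈ S, (‖ρ (t + α)‖ ^ 2 + ‖ρ t‖ ^ 2) / 2 :=
    sum_le_sum fun t _ => by nlinarith [sq_nonneg (‖ρ (t + α)‖ - ‖ρ t‖)]
  rw [← sum_div, sum_add_distrib] at h2
  unfold sq2 at h1 ⊢
  linarith

lemma Low_eq (μ : ℕ) (γ : ℕ → ℂ) (S : Finset ℤ) (ρ2 ρ3 : ℤ → ℂ) (α β : ℤ) :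
    ∑ n ∈ blk μ, ∑ n' ∈ blk μ, γ n * conj (γ n') *
        (cor S ρ2 (-log n) (-log n') α * cor S ρ3 (log n) (log n') β) =
      ∑ t ∈ S, ∑ s ∈ S, (ρ2 (t + α) * conj (ρ2 t)) * (ρ3 (s + β) * conj (ρ3 s)) *
        (Zb μ γ (s - (t + α - β)) * conj (Zb μ γ (s - t))) := by
  simp only [cor, Zb, map_sum, sum_mul_sum]
  simp only [mul_sum]
  simp only [sum_comm (s := blk μ) (t := S)]
  refine sum_congr rfl fun t _ => sum_congr rfl fun s _ => sum_congr rfl fun n _ =>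
    sum_congr rfl fun n' _ => ?_
  have e : ei (((t : ℝ) + α) * -log n - t * -log n') * ei (((s : ℝ) + β) * log n - s * log n') =
      ei (((s - (t + α - β) : ℤ) : ℝ) * log n) * ei (-(((s - t : ℤ) : ℝ) * log n')) := by
    rw [← ei_add, ← ei_add]
    congr 1
    push_cast
    ring
  rw [map_mul, conj_ei]
  linear_combination (γ n * conj (γ n') * (ρ2 (t + α) * conj (ρ2 t)) *
    (ρ3 (s + β) * conj (ρ3 s))) * e

/-- `‖Z‖² ≤ x² + ‖Z‖¹² / x¹⁰` with `x = z ^ 29`; `moment` with `j = 6`, `R = 8 T + 1`. -/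
theorem spread : ∃ C : ℝ, 0 < C ∧ ∀ (N T M μ : ℕ) (L z A : ℝ), Par N T M L z → 1 ≤ μ →
    2 * μ ≤ M → ∀ γ : ℕ → ℂ, (∀ n, ‖γ n‖ ≤ 1) → ∀ y : ℤ → ℝ, (∀ s, 0 ≤ y s) →
    ∑ s ∈ box (4 * T), y s ≤ A → (∀ s, y s ≤ A / z ^ 12) → ∀ x0 : ℤ,
      ∑ s ∈ box (4 * T), y s * ‖Zb μ γ (s - x0)‖ ^ 2 ≤ C * (L ^ 7 * z ^ 58 * A) := by
  obtain ⟨C, hC, H⟩ := moment
  refine ⟨1 + 10 * C, by positivity, fun N T M μ L z A hP h1 h2 γ hγ y y0 yA yz x0 => ?_⟩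
  have hz : 0 < z := by linarith [hP.hz]
  have hL := hP.lg.one_le
  have hA : 0 ≤ A := (sum_nonneg fun s _ => y0 s).trans yA
  have hM : 1 ≤ M := by omega
  have hT : T ≤ N ^ 2 := (Nat.le_mul_of_pos_right T hM).trans hP.hTM
  have hN : 1 ≤ N ^ 2 := Nat.one_le_pow _ _ hP.lg.hN
  have hm := H N M μ 6 (8 * T + 1) L hP.lg hP.hMN h1 h2 (by norm_num) le_rfl (by omega) (by omega)
    γ hγ (-((4 * T : ℕ) : ℤ) - x0) ((box (4 * T)).image fun s => s - x0) (by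
      intro u hu
      obtain ⟨s, hs, rfl⟩ := mem_image.1 hu
      have := mem_Icc.1 hs
      refine mem_Ico.2 ⟨by omega, ?_⟩
      push_cast at this ⊢
      omega)
  rw [sum_image fun a _ b _ hab => sub_left_injective hab] at hm
  have hR : (((8 * T + 1 : ℕ) : ℝ) + (M : ℝ) ^ 6) * (M : ℝ) ^ 6 ≤ 10 * z ^ 360 := by
    have a1 : 8 * T + 1 + M ^ 6 ≤ 10 * M ^ 6 := by
      have := hP.hT6
      have := Nat.one_le_pow 6 M hM
      omega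
    have a2 : ((8 * T + 1 : ℕ) : ℝ) + (M : ℝ) ^ 6 ≤ 10 * (M : ℝ) ^ 6 := by exact_mod_cast a1
    calc _ ≤ 10 * (M : ℝ) ^ 6 * (M : ℝ) ^ 6 := by gcongr
      _ = 10 * z ^ 360 := by
        rw [← hP.hzM]
        ring
  have hm2 : ∑ s ∈ box (4 * T), ‖Zb μ γ (s - x0)‖ ^ 12 ≤ C * (L ^ 7 * (10 * z ^ 360)) := by
    refine hm.trans (mul_le_mul_of_nonneg_left ?_ hC.le)
    rw [mul_assoc]
    exact mul_le_mul_of_nonneg_left hR (by positivity)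
  have hL7 : 1 ≤ L ^ 7 := one_le_pow₀ hL
  calc ∑ s ∈ box (4 * T), y s * ‖Zb μ γ (s - x0)‖ ^ 2
      ≤ ∑ s ∈ box (4 * T), (y s * z ^ 58 + A / z ^ 302 * ‖Zb μ γ (s - x0)‖ ^ 12) := by
        refine sum_le_sum fun s _ => ?_
        refine (mul_le_mul_of_nonneg_left (Low_pt (norm_nonneg _) (pow_pos hz 29)) (y0 s)).trans ?_
        rw [mul_add, ← pow_mul, ← pow_mul]
        refine add_le_add le_rfl ((mul_le_mul_of_nonneg_right (yz s) (by positivity)).trans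
          (le_of_eq ?_))
        field_simp
        ring
    _ = (∑ s ∈ box (4 * T), y s) * z ^ 58 +
          A / z ^ 302 * ∑ s ∈ box (4 * T), ‖Zb μ γ (s - x0)‖ ^ 12 := by
        rw [sum_add_distrib, sum_mul, mul_sum]
    _ ≤ A * z ^ 58 + A / z ^ 302 * (C * (L ^ 7 * (10 * z ^ 360))) := by gcongr
    _ = 1 * (z ^ 58 * A) + 10 * C * (L ^ 7 * z ^ 58 * A) := by
        field_simp
    _ ≤ L ^ 7 * (z ^ 58 * A) + 10 * C * (L ^ 7 * z ^ 58 * A) := by gcongr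
    _ = _ := by ring

/-- The sum equals `∑_{t,s} y2 t * y3 s * Zb (s + β - t - α) * conj (Zb (s - t))` with
`y2 t = ρ2 (t + α) conj (ρ2 t)`, `y3 s = ρ3 (s + β) conj (ρ3 s)`. The `ℓ¹` norms of `y2`, `y3` are at
most `A`; use `‖Z‖ ‖Z'‖ ≤ (‖Z‖² + ‖Z'‖²) / 2` and `spread` for each `t`. -/
theorem low : ∃ C : ℝ, 0 < C ∧ ∀ (N T M μ : ℕ) (L z A : ℝ), Par N T M L z → 1 ≤ μ → 2 * μ ≤ M →
    ∀ γ : ℕ → ℂ, (∀ n, ‖γ n‖ ≤ 1) → ∀ ρ2 ρ3 : ℤ → ℂ, (∀ t, t ∉ box (4 * T) → ρ2 t = 0) →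
    (∀ t, t ∉ box (4 * T) → ρ3 t = 0) → sq2 (box (4 * T)) ρ2 ≤ A → sq2 (box (4 * T)) ρ3 ≤ A →
    (∀ t, ‖ρ3 t‖ ≤ √A / z ^ 6) → ∀ α β : ℤ,
      ‖∑ n ∈ blk μ, ∑ n' ∈ blk μ, γ n * conj (γ n') *
          (cor (box (4 * T)) ρ2 (-log n) (-log n') α * cor (box (4 * T)) ρ3 (log n) (log n') β)‖
        ≤ C * (L ^ 7 * z ^ 58 * A ^ 2) := by
  obtain ⟨C, hC, H⟩ := spread
  refine ⟨C, hC, fun N T M μ L z A hP h1 h2 γ hγ ρ2 ρ3 s2 s3 a2 a3 hb α β => ?_⟩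
  have hz : 0 < z := by linarith [hP.hz]
  have hL := hP.lg.one_le
  have hA : 0 ≤ A := (sq2_nonneg _ _).trans a2
  have hs := H N T M μ L z A hP h1 h2 γ hγ (fun s => ‖ρ3 (s + β)‖ * ‖ρ3 s‖)
    (fun s => by positivity) ((Low_l1 s3 β).trans a3) fun s => by
      refine (mul_le_mul (hb _) (hb _) (norm_nonneg _) (by positivity)).trans (le_of_eq ?_)
      rw [div_mul_div_comm, Real.mul_self_sqrt hA, ← pow_add]
  rw [Low_eq]
  calc _ ≤ ∑ t ∈ box (4 * T), ‖ρ2 (t + α)‖ * ‖ρ2 t‖ * (C * (L ^ 7 * z ^ 58 * A)) := by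
        refine norm_sum_le_of_le _ fun t _ => ?_
        refine (norm_sum_le_of_le _ (n := fun s => ‖ρ2 (t + α)‖ * ‖ρ2 t‖ *
          ((‖ρ3 (s + β)‖ * ‖ρ3 s‖ * ‖Zb μ γ (s - (t + α - β))‖ ^ 2 +
            ‖ρ3 (s + β)‖ * ‖ρ3 s‖ * ‖Zb μ γ (s - t)‖ ^ 2) / 2)) fun s _ => ?_).trans ?_
        · simp only [norm_mul, Complex.norm_conj]
          rw [mul_assoc (‖ρ2 (t + α)‖ * ‖ρ2 t‖)]
          refine mul_le_mul_of_nonneg_left ?_ (by positivity)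
          rw [← mul_add, mul_div_assoc]
          refine mul_le_mul_of_nonneg_left ?_ (by positivity)
          nlinarith [sq_nonneg (‖Zb μ γ (s - (t + α - β))‖ - ‖Zb μ γ (s - t)‖)]
        · rw [← mul_sum, ← sum_div, sum_add_distrib]
          refine mul_le_mul_of_nonneg_left ?_ (by positivity)
          linarith [hs (t + α - β), hs t]
    _ ≤ A * (C * (L ^ 7 * z ^ 58 * A)) := by
        rw [← sum_mul]
        exact mul_le_mul_of_nonneg_right ((Low_l1 s2 α).trans a2) (by positivity)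
    _ = _ := by ring

end Pool.Agent.Lib.MP_ecd12e_nt.GM
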