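import Pool.Agent.Lib.MP_ecd12e_nt.GM.Fej

/-! A trigonometric majorant. -/

namespace Pool.Agent.Lib.MP_ecd12e_nt.GM

open Finset Real MeasureTheory
open Pool.Agent.Lib.MP_ecd12e_nt.Bar
open scoped ContDiff ComplexConjugate

theorem Maj_sin (m : ℤ) (r e : ℝ) : sin (2 * π * (r + m + e) / 2) ^ 2 ≤ π ^ 2 * (|r| + |e|) ^ 2 := by
  rw [show 2 * π * (r + m + e) / 2 = π * (r + e) + m * π by ring, sin_add_int_mul_pi, mul_pow,
    ← zpow_natCast, ← zpow_mul, mul_comm m, zpow_mul]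
  have h1 : sin (π * (r + e)) ^ 2 ≤ (π * (r + e)) ^ 2 := sin_sq_le_sq
  have h2 : (r + e) ^ 2 ≤ (|r| + |e|) ^ 2 := by
    rw [← sq_abs (r + e)]
    exact pow_le_pow_left₀ (abs_nonneg _) (abs_add_le r e) 2
  norm_num
  rw [mul_pow] at h1
  exact h1.trans (mul_le_mul_of_nonneg_left h2 (by positivity))

theorem Maj_low {N : ℕ} (hN : 1 ≤ N) (m : ℤ) (r : ℝ) :
    1 ≤ N * π ^ 2 * (|r| + 1 / (4 * N)) ^ 2 *
      (fj N (2 * π * (r + m + 1 / (4 * N))) + fj N (2 * π * (r + m + -(1 / (4 * N))))) := by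
  have hN0 : (0 : ℝ) < N := by exact_mod_cast hN
  have hd : |1 / (4 * (N : ℝ))| = 1 / (4 * N) := abs_of_pos (by positivity)
  have a1 := Maj_sin m r (1 / (4 * N))
  have a2 := Maj_sin m r (-(1 / (4 * N)))
  rw [abs_neg] at a2
  rw [hd] at a1 a2
  have b1 := fj_sin hN (2 * π * (r + m + 1 / (4 * N)))
  have b2 := fj_sin hN (2 * π * (r + m + -(1 / (4 * N))))
  have e : (N : ℝ) * (2 * π * (r + m + 1 / (4 * N))) / 2 =
      N * (2 * π * (r + m + -(1 / (4 * N)))) / 2 + π / 2 := by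
    field_simp
    ring
  rw [e, sin_add_pi_div_two] at b1
  have c := sin_sq_add_cos_sq (N * (2 * π * (r + m + -(1 / (4 * N)))) / 2)
  have d1 := mul_le_mul_of_nonneg_left a1
    (mul_nonneg hN0.le (fj_nonneg N (2 * π * (r + m + 1 / (4 * N)))))
  have d2 := mul_le_mul_of_nonneg_left a2
    (mul_nonneg hN0.le (fj_nonneg N (2 * π * (r + m + -(1 / (4 * N))))))
  linarith

theorem Maj_pt {N : ℝ} (hN : 1 ≤ N) {r : ℝ} (hr : |r| ≤ 1 / 2) (j : ℤ) :
    ps (N * (r + j)) * (N ^ 2 * (|r| + 1 / (4 * N)) ^ 2) ≤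
      (if j = 0 then 2 else 0) + 4 * (1 / (j : ℝ) ^ 2) := by
  have hN0 : 0 < N := one_pos.trans_le hN
  rw [ps, one_div_mul_eq_div, div_le_iff₀ (by positivity)]
  split_ifs with hj
  · subst hj
    have e : N ^ 2 * (|r| + 1 / (4 * N)) ^ 2 = (N * |r| + 1 / 4) ^ 2 := by field_simp
    rw [e, Int.cast_zero, add_zero, mul_pow N r, ← sq_abs r, ← mul_pow]
    norm_num
    nlinarith [sq_nonneg (N * |r| - 1 / 4)]
  · have h1 : (1 : ℝ) ≤ |(j : ℝ)| := by exact_mod_cast Int.one_le_abs hj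
    have h2 : |(j : ℝ)| / 2 ≤ |r + j| := by
      have := abs_add_le (r + j) (-r)
      rw [abs_neg, show r + j + -r = j by ring] at this
      linarith
    have h3 : (j : ℝ) ^ 2 ≤ 4 * (r + j) ^ 2 := by
      rw [← sq_abs (j : ℝ), ← sq_abs (r + j)]
      nlinarith
    have h4 : 1 / (4 * N) ≤ 1 / 4 := one_div_le_one_div_of_le (by norm_num) (by linarith)
    have h5 : (|r| + 1 / (4 * N)) ^ 2 ≤ 1 := pow_le_one₀ (by positivity) (by linarith)
    have h6 : 0 < (j : ℝ) ^ 2 := by positivity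
    rw [zero_add, mul_one_div, div_mul_eq_mul_div, le_div_iff₀ h6, mul_pow]
    have h7 := mul_le_mul h5 h3 h6.le zero_le_one
    nlinarith [mul_le_mul_of_nonneg_left h7 (sq_nonneg N)]

/-- Put `d = 1 / (4 N)`, `Q y = fj N (2 π (y + d)) + fj N (2 π (y - d))`, `q` its coefficients
divided by `2`. With `r = y - round y`: `sin² (π N y + π/4) + sin² (π N y - π/4) = 1` and
`sin² (π (y ± d)) ≤ π² (|r| + d)²` give `Q y ≥ 1 / (N π² (|r| + d)²)`, while the left side is at most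
`ps (N r) + 2 ∑_{j ≥ 1} 1 / (N² (j - 1/2)²) ≤ C / (N² (|r| + d)²)`. -/
theorem majorant : ∃ C : ℝ, 0 < C ∧ ∀ N : ℕ, 1 ≤ N → ∃ q : ℤ → ℂ, (∀ l, ‖q l‖ ≤ 1) ∧
    ∀ (y : ℝ) (K : Finset ℤ), ∑ k ∈ K, ps (N * (y + k))
      ≤ C / N * (∑ l ∈ box N, q l * ei (2 * π * l * y)).re := by
  have hs : Summable fun j : ℤ => (if j = 0 then 2 else 0) + 4 * (1 / (j : ℝ) ^ 2) :=
    (hasSum_ite_eq (0 : ℤ) (2 : ℝ)).summable.add
      ((summable_one_div_int_pow.2 one_lt_two).mul_left 4)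
  have h0 : ∀ j : ℤ, (0 : ℝ) ≤ (if j = 0 then 2 else 0) + 4 * (1 / (j : ℝ) ^ 2) := fun j => by
    positivity
  obtain ⟨S, hS⟩ : ∃ S : ℝ, S = ∑' j : ℤ, ((if j = 0 then 2 else 0) + 4 * (1 / (j : ℝ) ^ 2)) :=
    ⟨_, rfl⟩
  have hS0 : 0 ≤ S := hS ▸ tsum_nonneg h0
  refine ⟨2 * π ^ 2 * (S + 1), by positivity, fun N hN => ?_⟩
  have hN1 : (1 : ℝ) ≤ N := by exact_mod_cast hN
  have hN0 : (0 : ℝ) < N := one_pos.trans_le hN1
  refine ⟨fun l => ((max 0 (1 - |(l : ℝ)| / N) : ℝ) : ℂ) *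
    ((ei (2 * π * l * (1 / (4 * N))) + ei (2 * π * l * -(1 / (4 * N)))) / 2), fun l => ?_,
    fun y K => ?_⟩
  · rw [norm_mul, Complex.norm_real, Real.norm_of_nonneg (le_max_left _ _), norm_div]
    refine mul_le_one₀ (max_le zero_le_one (sub_le_self _ (by positivity))) (by positivity) ?_
    have := norm_add_le (ei (2 * π * l * (1 / (4 * N)))) (ei (2 * π * l * -(1 / (4 * N))))
    rw [norm_ei, norm_ei] at this
    rw [Complex.norm_two]
    linarith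
  · have e1 : ∑ l ∈ box N, ((max 0 (1 - |(l : ℝ)| / N) : ℝ) : ℂ) *
        ((ei (2 * π * l * (1 / (4 * N))) + ei (2 * π * l * -(1 / (4 * N)))) / 2) *
          ei (2 * π * l * y) =
        (((fj N (2 * π * (y + 1 / (4 * N))) + fj N (2 * π * (y + -(1 / (4 * N))))) / 2 : ℝ) : ℂ) := by
      rw [Complex.ofReal_div, Complex.ofReal_add, fj_eq hN le_rfl, fj_eq hN le_rfl,
        ← sum_add_distrib, sum_div]
      refine sum_congr rfl fun l _ => ?_
      have e : ∀ d : ℝ, ei (l * (2 * π * (y + d))) = ei (2 * π * l * d) * ei (2 * π * l * y) :=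
        fun d => by rw [← ei_add]; congr 1; ring
      rw [e, e, Complex.ofReal_ofNat]
      ring
    rw [e1, Complex.ofReal_re]
    obtain ⟨r, m, hr, rfl⟩ : ∃ (r : ℝ) (m : ℤ), |r| ≤ 1 / 2 ∧ y = r + m :=
      ⟨y - round y, round y, abs_sub_round y, by ring⟩
    have a := Maj_low hN m r
    have b : (∑ k ∈ K, ps (N * (r + m + k))) * (N ^ 2 * (|r| + 1 / (4 * N)) ^ 2) ≤ S := by
      have := hs.sum_le_tsum (K.map (Equiv.addLeft m).toEmbedding) fun j _ => h0 j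
      rw [sum_map, ← hS] at this
      rw [sum_mul]
      refine (sum_le_sum fun k _ => ?_).trans this
      have := Maj_pt hN1 hr (m + k)
      rwa [Int.cast_add, ← add_assoc, ← Int.cast_add] at this
    obtain ⟨Q, hQ⟩ : ∃ Q, Q = fj N (2 * π * (r + m + 1 / (4 * N))) +
      fj N (2 * π * (r + m + -(1 / (4 * N)))) := ⟨_, rfl⟩
    rw [← hQ] at a ⊢
    have hu : 0 < (N : ℝ) ^ 2 * (|r| + 1 / (4 * N)) ^ 2 := by positivity
    refine le_of_mul_le_mul_right (b.trans ?_) hu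
    rw [show 2 * π ^ 2 * (S + 1) / N * (Q / 2) * (N ^ 2 * (|r| + 1 / (4 * N)) ^ 2) =
      (S + 1) * (N * π ^ 2 * (|r| + 1 / (4 * N)) ^ 2 * Q) by field_simp]
    nlinarith

end Pool.Agent.Lib.MP_ecd12e_nt.GM
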