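import Pool.Agent.Lib.MP_ecd12e_nt.GM.Defs

/-! Moments of short Dirichlet polynomials. -/

namespace Pool.Agent.Lib.MP_ecd12e_nt.GM

open Finset Real MeasureTheory
open Pool.Agent.Lib.MP_ecd12e_nt.Bar
open scoped ContDiff ComplexConjugate

theorem Zb_le {μ M : ℕ} (h : 2 * μ ≤ M) {γ : ℕ → ℂ} (hγ : ∀ n, ‖γ n‖ ≤ 1) (x : ℤ) :
    ‖Zb μ γ x‖ ≤ M := by
  refine (_root_.norm_sum_le _ _).trans ((sum_le_card_nsmul _ _ 1 fun n _ => ?_).trans ?_)
  · rw [norm_mul, norm_ei, mul_one]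
    exact hγ n
  · rw [nsmul_eq_mul, mul_one, blk, Nat.card_Ico]
    exact_mod_cast (by omega : 2 * μ - μ ≤ M)

/-- at most `d(n) ^ j` tuples have product `n` -/
theorem card_tuples (j n : ℕ) (hn : n ≠ 0) (s : Finset ℕ) :
    ((Fintype.piFinset fun _ : Fin j => s).filter fun m => ∏ i, m i = n).card
      ≤ n.divisors.card ^ j := by
  refine (card_le_card (t := Fintype.piFinset fun _ : Fin j => n.divisors) fun m hm => ?_).trans_eq
    (Fintype.card_piFinset_const _ _)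
  exact Fintype.mem_piFinset.2 fun i => Nat.mem_divisors.2
    ⟨(mem_filter.1 hm).2 ▸ dvd_prod_of_mem _ (mem_univ i), hn⟩

lemma Mom_window {H η y : ℝ} (hH : 0 ≤ H) (hη : 0 ≤ η) {S : Finset ℕ}
    (hS : ∀ n ∈ S, 0 < n ∧ (n : ℝ) ≤ H ∧ |log n - y| ≤ η) : (S.card : ℝ) ≤ 1 + 2 * η * H := by
  rcases S.eq_empty_or_nonempty with rfl | h
  · rw [card_empty, Nat.cast_zero]; positivity
  obtain ⟨a0, -, a2⟩ := hS _ (S.min'_mem h)
  obtain ⟨b0, b1, b2⟩ := hS _ (S.max'_mem h)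
  have h1 : S.card ≤ (Icc (S.min' h) (S.max' h)).card :=
    card_le_card fun n hn => mem_Icc.2 ⟨S.min'_le n hn, S.le_max' n hn⟩
  have h2 := S.min'_le_max' h
  generalize S.min' h = a at *
  generalize S.max' h = b at *
  have h3 : (S.card : ℝ) + a ≤ b + 1 := by
    rw [Nat.card_Icc] at h1
    exact_mod_cast (by omega : S.card + a ≤ b + 1)
  have a0' : (0 : ℝ) < a := by exact_mod_cast a0
  have b0' : (0 : ℝ) < b := by exact_mod_cast b0
  have h4 := log_le_sub_one_of_pos (div_pos a0' b0')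
  rw [log_div a0'.ne' b0'.ne', le_sub_iff_add_le, le_div_iff₀ b0'] at h4
  have h5 : log b - log a ≤ 2 * η := by linarith [(abs_le.1 a2).1, (abs_le.1 b2).2]
  linarith [mul_le_mul h5 b1 b0'.le (by positivity)]

lemma Mom_prod {μ j : ℕ} {m : Fin j → ℕ} (hm : m ∈ Fintype.piFinset fun _ : Fin j => blk μ) :
    μ ^ j ≤ ∏ i, m i ∧ ∏ i, m i ≤ (2 * μ) ^ j := by
  have h := fun i => mem_Ico.1 (Fintype.mem_piFinset.1 hm i)
  constructor
  · simpa using pow_card_le_prod univ m μ fun i _ => (h i).1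
  · simpa using prod_le_pow_card univ m (2 * μ) fun i _ => (h i).2.le

open Classical in
lemma Mom_row {N M μ j R : ℕ} {L : ℝ} (hL : Lg N L) (hMN : M ≤ N) (hμ : 1 ≤ μ) (hM : 2 * μ ≤ M)
    (hj : j ≤ 6) (hR : 1 ≤ R) {m' : Fin j → ℕ}
    (hm' : m' ∈ Fintype.piFinset fun _ : Fin j => blk μ) :
    (((Fintype.piFinset fun _ : Fin j => blk μ).filter fun m : Fin j → ℕ => ∃ k : ℤ,
      |log (∏ i, m i : ℕ) / (2 * π) - log (∏ i, m' i : ℕ) / (2 * π) - k| ≤ 1 / R).card : ℝ) ≤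
      5 * ((1 + 2 * (2 * π / R) * M ^ j) * L ^ j) := by
  have hR' : (1 : ℝ) ≤ R := by exact_mod_cast hR
  have hμ' : (0 : ℝ) < μ := by exact_mod_cast hμ
  have hp := pi_gt_three
  have key : ∀ m ∈ Fintype.piFinset fun _ : Fin j => blk μ, 0 < ∏ i, m i ∧ ∏ i, m i ≤ M ^ j ∧
      0 ≤ log (∏ i, m i : ℕ) - j * log μ ∧ log (∏ i, m i : ℕ) - j * log μ ≤ 6 := fun m hm => by
    obtain ⟨h1, h2⟩ := Mom_prod hm
    have h0 := (pow_pos hμ j).trans_le h1
    refine ⟨h0, h2.trans (Nat.pow_le_pow_left hM j), ?_, ?_⟩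
    · rw [sub_nonneg, ← log_pow]
      exact log_le_log (by positivity) (by exact_mod_cast h1)
    · have h3 : log (∏ i, m i : ℕ) ≤ log ((2 * μ) ^ j) :=
        log_le_log (by exact_mod_cast h0) (by exact_mod_cast h2)
      rw [log_pow, log_mul two_ne_zero hμ'.ne'] at h3
      have h4 : (j : ℝ) ≤ 6 := by exact_mod_cast hj
      have h5 : log 2 ≤ 1 := by linarith [log_two_lt_d9]
      linarith [mul_le_mul h4 h5 (log_nonneg one_le_two) (by norm_num)]
  have h1 : ∀ k : ℤ, (((Fintype.piFinset fun _ : Fin j => blk μ).filter fun m =>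
      |log (∏ i, m i : ℕ) / (2 * π) - log (∏ i, m' i : ℕ) / (2 * π) - k| ≤ 1 / R).card : ℝ) ≤
      (1 + 2 * (2 * π / R) * M ^ j) * L ^ j := fun k => by
    rw [card_eq_sum_card_image fun m => ∏ i, m i, Nat.cast_sum]
    refine (sum_le_card_nsmul _ _ (L ^ j) fun n hn => ?_).trans ?_
    · obtain ⟨m, hm, rfl⟩ := mem_image.1 hn
      obtain ⟨a1, a2, -⟩ := key m (mem_filter.1 hm).1
      refine le_trans (Nat.cast_le.2 ((card_le_card (filter_subset_filter _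
        (filter_subset _ _))).trans (card_tuples j _ a1.ne' _))) ?_
      rw [Nat.cast_pow]
      exact pow_le_pow_left₀ (Nat.cast_nonneg _) (hL.hdiv _ (a2.trans
        ((Nat.pow_le_pow_left hMN j).trans (Nat.pow_le_pow_right hL.hN hj)))) j
    · rw [nsmul_eq_mul]
      refine mul_le_mul_of_nonneg_right (Mom_window (y := log (∏ i, m' i : ℕ) + 2 * π * k)
        (by positivity) (by positivity) fun n hn => ?_) (pow_nonneg (by linarith [hL.one_le]) j)
      obtain ⟨m, hm, rfl⟩ := mem_image.1 hn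
      obtain ⟨a1, a2, -⟩ := key m (mem_filter.1 hm).1
      refine ⟨a1, by exact_mod_cast a2, ?_⟩
      have h2 := mul_le_mul_of_nonneg_left (mem_filter.1 hm).2 two_pi_pos.le
      rw [← abs_of_pos two_pi_pos, ← abs_mul, abs_of_pos two_pi_pos, mul_one_div] at h2
      refine le_of_eq_of_le (congrArg _ ?_) h2
      field_simp
      ring
  refine le_trans (Nat.cast_le.2 ((card_le_card (t := (Icc (-2 : ℤ) 2).biUnion fun k =>
    (Fintype.piFinset fun _ : Fin j => blk μ).filter fun m =>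
      |log (∏ i, m i : ℕ) / (2 * π) - log (∏ i, m' i : ℕ) / (2 * π) - k| ≤ 1 / R)
        fun m hm => ?_).trans card_biUnion_le)) ?_
  · obtain ⟨h2, k, hk⟩ := mem_filter.1 hm
    refine mem_biUnion.2 ⟨k, ?_, mem_filter.2 ⟨h2, hk⟩⟩
    obtain ⟨-, -, a1, a2⟩ := key m h2
    obtain ⟨-, -, b1, b2⟩ := key m' hm'
    have h3 : |log (∏ i, m i : ℕ) / (2 * π) - log (∏ i, m' i : ℕ) / (2 * π)| ≤ 1 := by
      rw [← sub_div, abs_div, abs_of_pos two_pi_pos, div_le_one two_pi_pos, abs_le]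
      constructor <;> linarith
    have h4 : (1 : ℝ) / R ≤ 1 := (div_le_one (by positivity)).2 hR'
    have h5 : (-2 : ℝ) ≤ k := by linarith [(abs_le.1 h3).1, (abs_le.1 hk).2]
    have h6 : (k : ℝ) ≤ 2 := by linarith [(abs_le.1 h3).2, (abs_le.1 hk).1]
    exact mem_Icc.2 ⟨by exact_mod_cast h5, by exact_mod_cast h6⟩
  · rw [Nat.cast_sum]
    refine (sum_le_card_nsmul _ _ _ fun k _ => h1 k).trans_eq ?_
    rw [nsmul_eq_mul]
    rfl

lemma Mom_pow {μ j : ℕ} (hμ : 1 ≤ μ) (γ : ℕ → ℂ) (x0 : ℤ) (r : ℕ) :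
    Zb μ γ (x0 + r) ^ j = ∑ m ∈ Fintype.piFinset fun _ : Fin j => blk μ,
      (∏ i, γ (m i)) * ei (x0 * log (∏ i, m i : ℕ)) * ee (r * (log (∏ i, m i : ℕ) / (2 * π))) := by
  rw [Zb, sum_pow']
  refine sum_congr rfl fun m hm => ?_
  have h : ∀ i ∈ (univ : Finset (Fin j)), (m i : ℝ) ≠ 0 := fun i _ =>
    Nat.cast_ne_zero.2 (hμ.trans (mem_Ico.1 (Fintype.mem_piFinset.1 hm i)).1 |> Nat.ne_of_gt)
  rw [prod_mul_distrib, mul_assoc, Nat.cast_prod, log_prod h]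
  congr 1
  simp only [ei, ee, ← Complex.exp_sum, ← Complex.exp_add, ← sum_mul, ← Complex.ofReal_sum,
    ← mul_sum]
  congr 1
  have := Complex.ofReal_ne_zero.2 pi_ne_zero
  push_cast
  field_simp

/-- `Zb ^ j` is a sum over `j`-tuples (`Finset.prod_univ_sum`, `Finset.sum_pow'`); apply `mean_le`
with `θ = log (∏ m) / (2 π)`, the shift `x0` going into the coefficients. For a fixed tuple with
product `n'`, a close tuple has product `n ≤ M ^ j` with `|log n - log n' - 2 π k| ≤ 2 π / R` and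
`k ∈ {-1, 0, 1}` (`|log n - log n'| ≤ 6 log 2`); for each `k` there are at most
`1 + 4 π M ^ j / R` such `n`; `card_tuples`. Also `1 + log R ≤ 5 L`. -/
theorem moment : ∃ C : ℝ, 0 < C ∧ ∀ (N M μ j R : ℕ) (L : ℝ), Lg N L → M ≤ N → 1 ≤ μ → 2 * μ ≤ M →
    1 ≤ j → j ≤ 6 → 1 ≤ R → R ≤ 40 * N ^ 2 → ∀ γ : ℕ → ℂ, (∀ n, ‖γ n‖ ≤ 1) →
    ∀ (x0 : ℤ) (I : Finset ℤ), I ⊆ Ico x0 (x0 + R) →
      ∑ x ∈ I, ‖Zb μ γ x‖ ^ (2 * j) ≤ C * (L ^ (j + 1) * (R + M ^ j) * M ^ j) := by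
  classical
  refine ⟨38400, by norm_num, fun N M μ j R L hL hMN hμ hM _ hj hR hRN γ hγ x0 I hI => ?_⟩
  have hR' : (0 : ℝ) < R := by exact_mod_cast hR
  have hN : (1 : ℝ) ≤ N := by exact_mod_cast hL.hN
  have hL1 := hL.one_le
  have h1 := mean_le (Fintype.piFinset fun _ : Fin j => blk μ)
    (fun m => (∏ i, γ (m i)) * ei (x0 * log (∏ i, m i : ℕ))) (fun m => by
      rw [norm_mul, norm_ei, mul_one, norm_prod]
      exact prod_le_one (fun _ _ => norm_nonneg _) fun _ _ => hγ _)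
    (fun m => log (∏ i, m i : ℕ) / (2 * π)) hR
  simp only [← Mom_pow hμ, norm_pow, ← pow_mul'] at h1
  have h2 : 1 + log R ≤ 40 * L := by
    have h3 : log R ≤ log (40 * N ^ 2) := log_le_log hR' (by exact_mod_cast hRN)
    rw [log_mul (by norm_num) (by positivity), log_pow] at h3
    push_cast at h3
    linarith [log_le_sub_one_of_pos (x := 40) (by norm_num), hL.hlog, log_nonneg hN]
  rw [card_filter, sum_product_right] at h1
  simp only [← card_filter] at h1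
  rw [Nat.cast_sum] at h1
  have h3 := (sum_le_card_nsmul _ _ _ fun m hm => Mom_row hL hMN hμ hM hj hR (m' := m) hm)
  rw [nsmul_eq_mul, Fintype.card_piFinset_const, blk, Nat.card_Ico, Nat.cast_pow] at h3
  have h4 : ((2 * μ - μ : ℕ) : ℝ) ≤ M := by exact_mod_cast (by omega : 2 * μ - μ ≤ M)
  have h5 : R * (1 + 2 * (2 * π / R) * M ^ j) ≤ 16 * (R + M ^ j) := by
    have : R * (1 + 2 * (2 * π / R) * M ^ j) = R + 4 * (π * M ^ j) := by field_simp; ring
    linarith [mul_le_mul_of_nonneg_right pi_le_four (pow_nonneg (Nat.cast_nonneg M) j)]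
  calc _ ≤ ∑ x ∈ Ico x0 (x0 + R), ‖Zb μ γ x‖ ^ (2 * j) :=
        sum_le_sum_of_subset_of_nonneg hI fun _ _ _ => by positivity
    _ = ∑ r ∈ range R, ‖Zb μ γ (x0 + r)‖ ^ (2 * j) := by
        rw [Int.Ico_eq_finset_map, sum_map, add_sub_cancel_left, Int.toNat_natCast]
        rfl
    _ ≤ 12 * R * (40 * L) * (M ^ j * (5 * ((1 + 2 * (2 * π / R) * M ^ j) * L ^ j))) :=
        h1.trans (mul_le_mul (by gcongr) (h3.trans (by gcongr)) (by positivity) (by positivity))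
    _ = 2400 * (L ^ (j + 1) * (R * (1 + 2 * (2 * π / R) * M ^ j)) * M ^ j) := by ring
    _ ≤ 2400 * (L ^ (j + 1) * (16 * (R + M ^ j)) * M ^ j) := by gcongr
    _ = _ := by ring

end Pool.Agent.Lib.MP_ecd12e_nt.GM
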