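import Pool.Agent.Lib.MP_ecd12e_nt.GM.Bil

/-! The bilinear bound in the three charts. -/

namespace Pool.Agent.Lib.MP_ecd12e_nt.GM

open Finset Real MeasureTheory
open Pool.Agent.Lib.MP_ecd12e_nt.Bar
open scoped ContDiff ComplexConjugate

/-- the right side of `bil` -/
noncomputable def bb (N M : ℕ) (L : ℝ) (x y : ℝ → ℝ) : ℝ :=
  1 / N * (M ^ 2 * ((∫ a, x a) * ∫ a, y a) + L * M * (√(∫ a, x a ^ 2) * √(∫ a, y a ^ 2)))

/-- the bilinear bound for two coordinate functions `u`, `v` and the weight `Ξ` -/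
def PairB (C : ℝ) (N M : ℕ) (L : ℝ) (Ξ u v : ℝ × ℝ → ℝ) : Prop :=
  ∀ x y : ℝ → ℝ, Nice x → Nice y → Integrable (fun z => x (u z) * y (v z) * Ξ z) ∧
    ∫ z, x (u z) * y (v z) * Ξ z ≤ C * bb N M L x y

theorem PairB.symm {C : ℝ} {N M : ℕ} {L : ℝ} {Ξ u v : ℝ × ℝ → ℝ} (h : PairB C N M L Ξ u v) :
    PairB C N M L Ξ v u := by
  intro x y hx hy
  have e := h y x hy hx
  have b : bb N M L y x = bb N M L x y := by
    unfold bb
    ring
  rw [b] at e
  simpa only [mul_comm (y _) (x _)] using e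

/-- `ps (s y) ≤ 64 ps y` if `1 / 8 ≤ s`. -/
theorem ps_mul_le {s : ℝ} (hs : 1 / 8 ≤ s) (y : ℝ) : ps (s * y) ≤ 64 * ps y := by
  unfold ps
  rw [mul_one_div, div_le_div_iff₀ (by positivity) (by positivity), mul_pow]
  have : 1 / 64 ≤ s ^ 2 := by nlinarith
  nlinarith [mul_le_mul_of_nonneg_right this (sq_nonneg y)]

theorem Pair_exp {t : ℝ} (ht : |t| < 2) (y : ℝ) : ps (exp (-t) * y) ≤ 64 * ps y := by
  refine ps_mul_le ?_ y
  have h1 : exp t ≤ exp 1 * exp 1 := by
    rw [← exp_add]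
    exact exp_le_exp.2 (by linarith [le_abs_self t])
  have h2 := exp_one_lt_d9
  have h3 := exp_pos 1
  rw [exp_neg, ← one_div]
  exact one_div_le_one_div_of_le (exp_pos t) (by nlinarith)

theorem Pair_cont (N : ℕ) (B1 B2 B3 : Finset ℤ) : Continuous (Xi N B1 B2 B3) := by
  unfold Xi
  fun_prop

theorem Pair_nonneg (N : ℕ) (B1 B2 B3 : Finset ℤ) (z : ℝ × ℝ) : 0 ≤ Xi N B1 B2 B3 z :=
  sum_nonneg fun _ _ => sum_nonneg fun _ _ => sum_nonneg fun _ _ => (ps_pos _).le

theorem Pair_chart {C : ℝ} {N M : ℕ} {L : ℝ} {Ξ u v u' v' : ℝ × ℝ → ℝ}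
    (h : PairB C N M L Ξ u' v') {φ : ℝ × ℝ → ℝ × ℝ} (hφ : MeasurePreserving φ) (cu : Continuous u)
    (cv : Continuous v) (cΞ : Continuous Ξ) (h0 : ∀ z, 0 ≤ Ξ z) (hu : ∀ z, u (φ z) = u' z)
    (hv : ∀ z, v (φ z) = v' z) (hΞ : ∀ z, |v' z| < 2 → Ξ (φ z) ≤ 64 * Ξ z) :
    PairB (64 * C) N M L Ξ u v := by
  intro x y hx hy
  obtain ⟨h1, h2⟩ := h x y hx hy
  have c : Continuous fun z => x (u z) * y (v z) * Ξ z :=
    ((hx.cont.comp cu).mul (hy.cont.comp cv)).mul cΞ
  have p0 : ∀ z, 0 ≤ x (u z) * y (v z) * Ξ z := fun z =>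
    mul_nonneg (mul_nonneg (hx.nonneg _) (hy.nonneg _)) (h0 z)
  have p1 : ∀ z, x (u (φ z)) * y (v (φ z)) * Ξ (φ z) ≤ 64 * (x (u' z) * y (v' z) * Ξ z) := by
    intro z
    rw [hu, hv]
    by_cases hz : |v' z| < 2
    · rw [mul_left_comm]
      exact mul_le_mul_of_nonneg_left (hΞ z hz) (mul_nonneg (hx.nonneg _) (hy.nonneg _))
    · simp [hy.supp _ (not_lt.1 hz)]
  have i1 : Integrable fun z => x (u (φ z)) * y (v (φ z)) * Ξ (φ z) :=
    (h1.const_mul 64).mono' (c.measurable.comp hφ.measurable).aestronglyMeasurable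
      (Filter.Eventually.of_forall fun z => by
        rw [Real.norm_of_nonneg (p0 _)]
        exact p1 z)
  refine ⟨(hφ.integrable_comp c.aestronglyMeasurable).1 i1, ?_⟩
  rw [← hφ.map_eq, integral_map hφ.measurable.aemeasurable c.aestronglyMeasurable]
  refine (integral_mono i1 (h1.const_mul 64) p1).trans ?_
  rw [integral_const_mul, mul_assoc]
  exact mul_le_mul_of_nonneg_left h2 (by norm_num)

theorem Pair_mp : MeasurePreserving fun z : ℝ × ℝ => (-z.2, -z.2 + z.1) :=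
  (measurePreserving_prod_add_swap (volume : Measure ℝ) volume).comp
    ((MeasurePreserving.id volume).prod (Measure.measurePreserving_neg volume))

theorem Pair_mp' : MeasurePreserving fun z : ℝ × ℝ => (-z.1 + z.2, -z.1) :=
  (Measure.measurePreserving_swap (μ := (volume : Measure ℝ)) (ν := volume)).comp
    (Pair_mp.comp (Measure.measurePreserving_swap (μ := (volume : Measure ℝ)) (ν := volume)))

/-- Third pair: `bil` for `x (-·)` and `y`. First pair: substitute `(a, c) = (-a', c' - a')`, a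
measure preserving map; `m1 e^a + m2 + m3 e^c = e^{-a'} (m2 e^{a'} + m1 + m3 e^{c'})` and
`|a'| ≤ 2` where `y a' ≠ 0`; the integrand becomes `y a' * x (-c')`. Second pair:
`(a, c) = (a' - c', -c')`, `m1 e^a + m2 + m3 e^c = e^{-c'} (m1 e^{a'} + m3 + m2 e^{c'})`.
Integrability: continuous with compact support. -/
theorem pair : ∃ C : ℝ, 0 < C ∧ ∀ (N M : ℕ) (L : ℝ), Lg N L → M ≤ N →
    PairB C N M L (Xi N (MM M) (MM M) (MM M)) (fun z => z.1 - z.2) (fun z => -z.1) ∧
    PairB C N M L (Xi N (MM M) (MM M) (MM M)) (fun z => z.1 - z.2) (fun z => z.2) ∧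
    PairB C N M L (Xi N (MM M) (MM M) (MM M)) (fun z => -z.1) (fun z => z.2) := by
  obtain ⟨C, C0, hC⟩ := bil
  refine ⟨64 * C, by positivity, fun N M L hL hM => ?_⟩
  have cΞ := Pair_cont N (MM M) (MM M) (MM M)
  have h0 := Pair_nonneg N (MM M) (MM M) (MM M)
  have h3 : PairB C N M L (Xi N (MM M) (MM M) (MM M)) (fun z => -z.1) (fun z => z.2) := by
    intro x y hx hy
    have hx' : Nice fun a => x (-a) :=
      ⟨hx.cont.comp continuous_neg, fun _ => hx.nonneg _, fun θ h => hx.supp _ (by rwa [abs_neg])⟩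
    constructor
    · refine Continuous.integrable_of_hasCompactSupport
        (((hx'.cont.comp continuous_fst).mul (hy.cont.comp continuous_snd)).mul cΞ)
        (HasCompactSupport.intro (isCompact_Icc (a := (-2, -2)) (b := (2, 2))) fun z hz => ?_)
      by_cases h1 : 2 ≤ |z.1|
      · simp [hx'.supp _ h1]
      by_cases h2 : 2 ≤ |z.2|
      · simp [hy.supp _ h2]
      obtain ⟨a1, a2⟩ := abs_lt.1 (not_le.1 h1)
      obtain ⟨a3, a4⟩ := abs_lt.1 (not_le.1 h2)
      exact absurd ⟨⟨a1.le, a3.le⟩, a2.le, a4.le⟩ hz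
    · refine (hC N M L hL hM _ y hx' hy _).trans (le_of_eq ?_)
      rw [integral_neg_eq_self x, integral_neg_eq_self fun a => x a ^ 2, bb]
      ring
  refine ⟨Pair_chart h3 Pair_mp (by fun_prop) (by fun_prop) cΞ h0 (fun z => by ring)
    (fun z => by ring) fun z hz => ?_, Pair_chart h3.symm Pair_mp' (by fun_prop) (by fun_prop) cΞ h0
    (fun z => by ring) (fun z => rfl) fun z hz => ?_,
    Pair_chart h3 (MeasurePreserving.id _) (by fun_prop) (by fun_prop) cΞ h0 (fun _ => rfl)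
      (fun _ => rfl) fun z _ => le_mul_of_one_le_left (h0 z) (by norm_num)⟩
  · unfold Xi
    simp only [mul_sum]
    rw [sum_comm (s := MM M) (f := fun m1 m2 : ℤ => ∑ m3 ∈ MM M,
      64 * ps (N * (m1 * exp z.1 + m2 + m3 * exp z.2)))]
    refine sum_le_sum fun m1 _ => ?_
    rw [sum_comm]
    refine sum_le_sum fun m3 _ => sum_le_sum fun m2 _ => le_trans (le_of_eq ?_) (Pair_exp hz _)
    congr 1
    rw [exp_add, exp_neg]
    field_simp
    ring
  · rw [abs_neg] at hz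
    unfold Xi
    simp only [mul_sum]
    rw [sum_comm]
    refine sum_le_sum fun m2 _ => ?_
    rw [sum_comm]
    refine sum_le_sum fun m3 _ => sum_le_sum fun m1 _ => le_trans (le_of_eq ?_) (Pair_exp hz _)
    congr 1
    rw [exp_add, exp_neg]
    field_simp
    ring

end Pool.Agent.Lib.MP_ecd12e_nt.GM
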