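import Pool.Agent.Lib.MP_ecd12e_nt.GM.Dec

/-! Poisson summation. -/

namespace Pool.Agent.Lib.MP_ecd12e_nt.GM

open Finset Real MeasureTheory
open Pool.Agent.Lib.MP_ecd12e_nt.Bar
open scoped ContDiff ComplexConjugate

/-- the summand of the kernel as a continuous function -/
noncomputable def Poi_g (N : ℕ) (s : ℤ) (x : ℝ) : ℂ :=
  (bump (x / N) : ℂ) * ei (s * log (max (x / N) (1 / 2)))

lemma Poi_g_eq (N : ℕ) (s : ℤ) (x : ℝ) :
    Poi_g N s x = (bump (x / N) : ℂ) * ei (s * log (x / N)) := by
  unfold Poi_g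
  rcases le_total (x / N) (1 / 2) with h | h
  · rw [bump_zero (Or.inl h)]
    simp
  · rw [max_eq_left h]

lemma Poi_cont (N : ℕ) (s : ℤ) : Continuous (Poi_g N s) := by
  unfold Poi_g
  have h1 : Continuous fun x : ℝ => log (max (x / N) (1 / 2)) :=
    Continuous.log (by fun_prop) fun x => (lt_max_of_lt_right (by norm_num)).ne'
  have h2 : Continuous fun x : ℝ => bump (x / N) := bump.continuous.comp (by fun_prop)
  exact (Complex.continuous_ofReal.comp h2).mul (continuous_ei.comp (continuous_const.mul h1))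

lemma Poi_zero {N : ℕ} (hN : 1 ≤ N) (s : ℤ) {x : ℝ} (h : x ≤ 0 ∨ 3 * N ≤ x) :
    Poi_g N s x = 0 := by
  have hN0 : (0 : ℝ) < N := by exact_mod_cast hN
  rw [Poi_g, bump_zero, Complex.ofReal_zero, zero_mul]
  rcases h with h | h
  · exact Or.inl ((div_nonpos_of_nonpos_of_nonneg h hN0.le).trans (by norm_num))
  · right
    rw [le_div_iff₀ hN0]
    linarith

open scoped FourierTransform in
lemma Poi_fourier {N : ℕ} (hN : 1 ≤ N) (s : ℤ) (ξ : ℝ) :
    𝓕 (Poi_g N s) ξ = (N : ℂ) * kap s (ξ * N) := by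
  have hN0 : (0 : ℝ) < N := by exact_mod_cast hN
  have h1 := integral_image_eq_integral_abs_deriv_smul (s := Set.univ)
    (f := fun θ => N * exp θ) (f' := fun θ => N * exp θ) MeasurableSet.univ
    (fun θ _ => ((hasDerivAt_exp θ).const_mul (N : ℝ)).hasDerivWithinAt)
    (fun a _ b _ hab => exp_injective (mul_left_cancel₀ hN0.ne' hab))
    fun v : ℝ => Complex.exp (((-2 * π * v * ξ : ℝ) : ℂ) * Complex.I) • Poi_g N s v
  rw [setIntegral_eq_integral_of_forall_compl_eq_zero, Measure.restrict_univ] at h1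
  · rw [fourier_real_eq_integral_exp_smul, h1, kap, ← integral_const_mul]
    refine integral_congr_ae (Filter.Eventually.of_forall fun θ => ?_)
    have h2 : (N : ℝ) * exp θ / N = exp θ := by field_simp
    have h3 : (s : ℝ) * θ - 2 * π * (ξ * N) * exp θ = -2 * π * (N * exp θ) * ξ + s * θ := by ring
    simp only [Poi_g_eq, h2, log_exp, h3, ei_add, WW]
    rw [abs_of_pos (by positivity), smul_eq_mul, Complex.real_smul]
    unfold ei
    push_cast
    ring
  · intro x hx
    rw [Poi_zero hN s (Or.inl _), smul_zero]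
    by_contra h
    refine hx ⟨log (x / N), Set.mem_univ _, ?_⟩
    simp only
    rw [exp_log (div_pos (not_le.1 h) hN0)]
    field_simp

lemma Poi_summable {N : ℕ} (hN : 1 ≤ N) (s : ℤ) :
    Summable fun m : ℤ => (N : ℂ) * kap s (m * N) := by
  have hN1 : (1 : ℝ) ≤ N := by exact_mod_cast hN
  obtain ⟨C, hC, h⟩ := kap_decay 2
  refine Summable.mul_left _ (Summable.of_norm_bounded_eventually
    (g := fun m : ℤ => C * (1 + |(s : ℝ)|) ^ 2 * (1 / (m : ℝ) ^ 2))
    ((summable_one_div_int_pow.2 one_lt_two).mul_left _) ?_)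
  filter_upwards [(Set.finite_singleton (0 : ℤ)).compl_mem_cofinite] with m hm
  have h1 : (m : ℝ) ≠ 0 := by exact_mod_cast hm
  have h2 : 0 < |(m : ℝ)| := abs_pos.2 h1
  refine (h s _ (mul_ne_zero h1 (by linarith))).trans ?_
  rw [mul_assoc, mul_one_div, ← sq_abs (m : ℝ), ← div_pow]
  refine mul_le_mul_of_nonneg_left (pow_le_pow_left₀ (by positivity) ?_ 2) hC.le
  refine div_le_div_of_nonneg_left (by positivity) h2 ?_
  rw [abs_mul, Nat.abs_cast]
  exact le_mul_of_one_le_right h2.le hN1

/-- Poisson summation (`Real.tsum_eq_tsum_fourier_of_rpow_decay`, with `b = 2`) for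
`g x = bump (x / N) * ei (s * log (x / N))`, which is continuous (it vanishes for `x ≤ N / 2`) and
has compact support. Its Fourier transform at `ξ` is `N * kap s (ξ N)`, by `x = N exp θ`
(`integral_comp_smul_deriv_Ioi`, `integral_image_eq_integral_abs_deriv_smul`, or an interval
integral). Summability from `kap_decay 2`. -/
theorem poisson {N : ℕ} (hN : 1 ≤ N) (s : ℤ) :
    HasSum (fun m : ℤ => (N : ℂ) * kap s (m * N)) (kfull N s) := by
  have hs := Poi_summable hN s
  have h1 := Real.tsum_eq_tsum_fourier_of_rpow_decay_of_summable (Poi_cont N s) one_lt_two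
    (Asymptotics.IsBigO.of_bound 0 (by
      filter_upwards [(isCompact_Icc (a := (0 : ℝ)) (b := 3 * N)).compl_mem_cocompact] with x hx
      rw [Poi_zero hN s, norm_zero, zero_mul]
      by_contra hc
      push Not at hc
      exact hx ⟨hc.1.le, hc.2.le⟩))
    (by simpa only [Poi_fourier hN] using hs) 0
  simp only [Poi_fourier hN, zero_add, QuotientAddGroup.mk_zero, fourier_eval_zero, mul_one] at h1
  have h2 : ∑' n : ℤ, Poi_g N s n = kfull N s := by
    rw [tsum_eq_sum (s := (Icc 1 (3 * N)).image (Nat.cast : ℕ → ℤ)),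
      sum_image fun a _ b _ hab => Nat.cast_injective hab]
    · exact sum_congr rfl fun n _ => by rw [Poi_g_eq, Int.cast_natCast]
    · intro n hn
      refine Poi_zero hN s ?_
      by_contra hc
      push Not at hc
      have a1 : 0 < n := by exact_mod_cast hc.1
      have a2 : n < 3 * N := by exact_mod_cast hc.2
      exact hn (mem_image.2 ⟨n.toNat, mem_Icc.2 ⟨by omega, by omega⟩, by omega⟩)
  rw [← h2, h1]
  exact hs.hasSum

end Pool.Agent.Lib.MP_ecd12e_nt.GM
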