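import Pool.Agent.Lib.MP_ecd12e_nt.GM.Jtwo

/-! Fourier expansion of the second factor. -/

namespace Pool.Agent.Lib.MP_ecd12e_nt.GM

open Finset Real MeasureTheory
open Pool.Agent.Lib.MP_ecd12e_nt.Bar
open scoped ContDiff ComplexConjugate

theorem Qexp_sum {ι : Type*} (s : Finset ι) (F : ι → ℝ → ℝ → ℂ)
    (hF : ∀ i, Continuous (Function.uncurry (F i))) (p q p' q' : ℝ) :
    ∫ a in p..q, ∫ c in p'..q', ∑ i ∈ s, F i a c =
      ∑ i ∈ s, ∫ a in p..q, ∫ c in p'..q', F i a c := by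
  rw [← intervalIntegral.integral_finsetSum fun i _ =>
    (intervalIntegral.continuous_parametric_intervalIntegral_of_continuous' (hF i) p'
      q').intervalIntegrable p q]
  refine intervalIntegral.integral_congr fun a _ => ?_
  exact intervalIntegral.integral_finsetSum fun i _ =>
    ((hF i).comp (Continuous.prodMk_right a)).intervalIntegrable p' q'

theorem Qexp_tp1 (μ : ℕ) (I : Finset ℤ) (u : ℤ → ℂ) (θ : ℝ) :
    tp I (Zb μ (fun _ => 1) * u) θ = ∑ n ∈ blk μ, tp I u (θ + log n) := by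
  simp only [tp, Zb, Pi.mul_apply, sum_mul]
  rw [sum_comm]
  refine sum_congr rfl fun n _ => sum_congr rfl fun t _ => ?_
  rw [mul_add, ei_add]
  ring

theorem Qexp_tp2 (μ : ℕ) (I : Finset ℤ) (u : ℤ → ℂ) (θ : ℝ) :
    tp I ((fun β => conj (Zb μ (fun _ => 1) β)) * u) θ = ∑ n ∈ blk μ, tp I u (θ - log n) := by
  simp only [tp, Zb, Pi.mul_apply, map_sum, sum_mul]
  rw [sum_comm]
  refine sum_congr rfl fun n _ => sum_congr rfl fun t _ => ?_
  rw [mul_sub, sub_eq_add_neg, ei_add, one_mul, conj_ei]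
  ring

theorem Qexp_pt (μ1 μ2 μ3 : ℕ) (γ : ℕ → ℂ) {H H' : ℕ} (hH : 2 * H ≤ H')
    {ρ2 ρ3 : ℤ → ℂ} (h2 : ∀ t, t ∉ box H → ρ2 t = 0) (h3 : ∀ t, t ∉ box H → ρ3 t = 0)
    (a c : ℝ) :
    ((∑ n1 ∈ blk μ1, ∑ n3 ∈ blk μ3, ‖∑ n ∈ blk μ2, γ n * (tp (box H) ρ2 (-a - log n + log n1) *
      tp (box H) ρ3 (c - log n3 + log n))‖ ^ 2 : ℝ) : ℂ) =
      ∑ x ∈ blk μ2 ×ˢ blk μ2, γ x.1 * conj (γ x.2) *
        (tp (box H') (Zb μ1 (fun _ => 1) * cor (box H) ρ2 (-log x.1) (-log x.2)) (-a) *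
          tp (box H') ((fun β => conj (Zb μ3 (fun _ => 1) β)) *
            cor (box H) ρ3 (log x.1) (log x.2)) c) := by
  simp only [Qexp_tp1, Qexp_tp2, ← tp_mul_conj h2 hH, ← tp_mul_conj h3 hH, sum_mul_sum]
  simp only [mul_sum]
  rw [Complex.ofReal_sum, sum_comm (s := blk μ2 ×ˢ blk μ2)]
  refine sum_congr rfl fun n1 _ => ?_
  rw [Complex.ofReal_sum, sum_comm (s := blk μ2 ×ˢ blk μ2)]
  refine sum_congr rfl fun n3 _ => ?_
  rw [Complex.ofReal_pow, ← Complex.mul_conj', map_sum, sum_mul_sum, sum_product]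
  refine sum_congr rfl fun n _ => sum_congr rfl fun n' _ => ?_
  rw [map_mul, map_mul, show -a - log n + log n1 = -a + log n1 + -log n by ring,
    show -a - log n' + log n1 = -a + log n1 + -log n' by ring]
  ring

/-- Expand the square; `tp_mul_conj` at `θ = -a + log n1` with shifts `-log n`, `-log n'`, and at
`θ = c - log n3` with shifts `log n`, `log n'`; sum over `n1`, `n3`; `BJ_Jk`. -/
theorem QQ_eq (N : ℕ) (e1 e2 e3 : ℤ) (μ1 μ2 μ3 : ℕ) (γ : ℕ → ℂ) {H H' : ℕ} (hH : 2 * H ≤ H')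
    {ρ2 ρ3 : ℤ → ℂ} (h2 : ∀ t, t ∉ box H → ρ2 t = 0) (h3 : ∀ t, t ∉ box H → ρ3 t = 0) :
    (QQ N e1 e2 e3 μ1 μ2 μ3 γ (tp (box H) ρ2) (tp (box H) ρ3) : ℂ)
      = ∑ n ∈ blk μ2, ∑ n' ∈ blk μ2, γ n * conj (γ n') *
        BJ (Jk N e1 e2 e3 μ1 μ2 μ3) (box H') (box H')
          (Zb μ1 (fun _ => 1) * cor (box H) ρ2 (-log n) (-log n'))
          ((fun β => conj (Zb μ3 (fun _ => 1) β)) * cor (box H) ρ3 (log n) (log n')) := by
  rw [← sum_product' (blk μ2) (blk μ2) fun n n' : ℕ => γ n * conj (γ n') *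
    BJ (Jk N e1 e2 e3 μ1 μ2 μ3) (box H') (box H')
      (Zb μ1 (fun _ => 1) * cor (box H) ρ2 (-log n) (-log n'))
      ((fun β => conj (Zb μ3 (fun _ => 1) β)) * cor (box H) ρ3 (log n) (log n'))]
  simp only [BJ_Jk, ← intervalIntegral.integral_const_mul]
  rw [← Qexp_sum _ _ fun x => by unfold pl; fun_prop, QQ, ← intervalIntegral.integral_ofReal]
  refine intervalIntegral.integral_congr fun a _ => ?_
  rw [← intervalIntegral.integral_ofReal]
  refine intervalIntegral.integral_congr fun c _ => ?_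
  rw [Complex.ofReal_mul, Qexp_pt μ1 μ2 μ3 γ hH h2 h3, mul_sum]
  exact sum_congr rfl fun x _ => by ring

end Pool.Agent.Lib.MP_ecd12e_nt.GM
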