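import Pool.Agent.Lib.MP_ecd12e_nt.GM.Qexp
import Pool.Agent.Lib.MP_ecd12e_nt.GM.High
import Pool.Agent.Lib.MP_ecd12e_nt.GM.Low
import Pool.Agent.Lib.MP_ecd12e_nt.GM.Jone
import Pool.Agent.Lib.MP_ecd12e_nt.GM.KL

/-! The second factor. -/

namespace Pool.Agent.Lib.MP_ecd12e_nt.GM

open Finset Real MeasureTheory
open Pool.Agent.Lib.MP_ecd12e_nt.Bar
open scoped ContDiff ComplexConjugate

theorem Qle_card (μ : ℕ) : (blk μ).card = μ := by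
  rw [blk, Nat.card_Ico]
  omega

theorem Qle_Zb (μ : ℕ) (x : ℤ) : ‖Zb μ (fun _ => 1) x‖ ≤ μ := by
  refine (_root_.norm_sum_le _ _).trans_eq ?_
  simp [norm_ei, Qle_card]

theorem Qle_sq2_mul (I : Finset ℤ) {w : ℤ → ℂ} {m : ℝ} (hm : 0 ≤ m) (hw : ∀ x, ‖w x‖ ≤ m)
    (u : ℤ → ℂ) : √(sq2 I (w * u)) ≤ m * √(sq2 I u) := by
  rw [← sqrt_sq hm, ← sqrt_mul (sq_nonneg m)]
  refine sqrt_le_sqrt ?_
  rw [sq2, sq2, mul_sum]
  refine sum_le_sum fun t _ => ?_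
  rw [Pi.mul_apply, norm_mul, mul_pow]
  gcongr
  exact hw t

theorem Qle_pairs (μ : ℕ) {γ : ℕ → ℂ} (hγ : ∀ n, ‖γ n‖ ≤ 1) {F : ℕ → ℕ → ℂ} {B : ℝ}
    (hF : ∀ n n', ‖F n n'‖ ≤ B) :
    ‖∑ n ∈ blk μ, ∑ n' ∈ blk μ, γ n * conj (γ n') * F n n'‖ ≤ (μ : ℝ) ^ 2 * B := by
  calc _ ≤ ∑ n ∈ blk μ, ∑ n' ∈ blk μ, B := by
        refine (_root_.norm_sum_le _ _).trans (sum_le_sum fun n _ =>
          (_root_.norm_sum_le _ _).trans (sum_le_sum fun n' _ => ?_))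
        rw [norm_mul, norm_mul, Complex.norm_conj]
        exact (mul_le_of_le_one_left (norm_nonneg _)
          (mul_le_one₀ (hγ n) (norm_nonneg _) (hγ n'))).trans (hF n n')
    _ = _ := by
        simp only [sum_const, Qle_card, nsmul_eq_mul]
        ring

theorem Qle_dyad {a b : ℕ} (ha : 1 ≤ a) (hab : a ≤ b) : ∃ i, b ≤ 2 ^ i * a ∧ 2 ^ i * a ≤ 2 * b := by
  have h : ∃ i, b ≤ 2 ^ i * a := ⟨b, Nat.lt_two_pow_self.le.trans (Nat.le_mul_of_pos_right _ ha)⟩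
  refine ⟨Nat.find h, Nat.find_spec h, ?_⟩
  rcases e : Nat.find h with _ | i
  · omega
  · have := Nat.find_min h (m := i) (by omega)
    rw [pow_succ, mul_right_comm]
    omega

theorem Qle_cor {T H' : ℕ} {ρ : ℤ → ℂ} (hρ : ∀ t, t ∉ box (4 * T) → ρ t = 0) (hH : 8 * T ≤ H')
    {A s : ℝ} (hs0 : 0 ≤ s) (hA : sq2 (box (4 * T)) ρ ≤ A)
    (hs : ∀ θ, ‖tp (box (4 * T)) ρ θ‖ ≤ s * √A) (x x' : ℝ) :
    √(sq2 (box H') (cor (box (4 * T)) ρ x x')) ≤ s * A := by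
  have hA0 := (sq2_nonneg _ _).trans hA
  refine sqrt_le_iff.2 ⟨by positivity, (sq2_cor hρ (by omega) hs x x').trans ?_⟩
  rw [mul_pow, sq_sqrt hA0, mul_pow, mul_assoc, sq A]
  gcongr

theorem Qle_swap (J : ℤ → ℤ → ℂ) (I : Finset ℤ) (K : Finset ℕ) (c : ℕ → ℕ → ℂ) (w w' : ℤ → ℂ)
    (u v : ℕ → ℕ → ℤ → ℂ) :
    ∑ n ∈ K, ∑ n' ∈ K, c n n' * BJ J I I (w * u n n') (w' * v n n') =
      ∑ α ∈ I, ∑ β ∈ I, w α * w' β * J α β * ∑ n ∈ K, ∑ n' ∈ K, c n n' * (u n n' α * v n n' β) := by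
  simp only [BJ, mul_sum, Pi.mul_apply]
  rw [sum_congr rfl fun n _ => sum_comm, sum_comm]
  refine sum_congr rfl fun α _ => ?_
  rw [sum_congr rfl fun n _ => sum_comm, sum_comm]
  refine sum_congr rfl fun β _ => sum_congr rfl fun n _ => sum_congr rfl fun n' _ => ?_
  ring

/-- Let `J0 = C / (N √(μ1 μ3))` with `C` the larger of the constants of `Jk_two`, `Jk_one`, and
`H0 = min μ1 μ3`. By `sq2_cor` the sequences `cor` have norms `≤ z² A` and `≤ z⁶ A`.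
If `H0 ≤ z^20`: `QQ_eq` with `H' = 8 T`, `Jk_two` and `‖Zb μ‖ ≤ μ` give
`μ2² μ1 μ3 J0 z⁸ A² ≤ z^(60 + 30 + 8) J0 A²`. Otherwise take `i` with `8 T ≤ 2^i H0 ≤ 16 T` and
`H' = 2^i H0`. The part `box H0 × box H0`: `low`, `sum_Zb_one` twice, `‖Jk‖ ≤ J0` (`Jk_two` on
singletons). The rest: `high` with `P = M / μ2`, and `μ2² √P ≤ M²`. -/
theorem QQ_le : ∃ C : ℝ, 0 < C ∧ ∀ (N T M : ℕ) (L z A : ℝ) (e1 e2 e3 : ℤ) (μ1 μ2 μ3 : ℕ),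
    Par N T M L z → Blk M e1 e2 e3 μ1 μ2 μ3 → ∀ γ : ℕ → ℂ, (∀ n, ‖γ n‖ ≤ 1) →
    ∀ ρ2 ρ3 : ℤ → ℂ, (∀ t, t ∉ box (4 * T) → ρ2 t = 0) → (∀ t, t ∉ box (4 * T) → ρ3 t = 0) →
    sq2 (box (4 * T)) ρ2 ≤ A → sq2 (box (4 * T)) ρ3 ≤ A →
    (∀ θ, ‖tp (box (4 * T)) ρ2 θ‖ ≤ z ^ 2 * √A) → (∀ θ, ‖tp (box (4 * T)) ρ3 θ‖ ≤ z ^ 6 * √A) →
    (∀ t, ‖ρ3 t‖ ≤ √A / z ^ 6) →
      QQ N e1 e2 e3 μ1 μ2 μ3 γ (tp (box (4 * T)) ρ2) (tp (box (4 * T)) ρ3)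
        ≤ C * (L ^ 9 * z ^ 118 * A ^ 2 / (N * √(μ1 * μ3))) := by
  obtain ⟨C2, hC2, h2⟩ := Jk_two
  obtain ⟨C1, hC1, h1⟩ := Jk_one
  obtain ⟨Ch, hCh, hh⟩ := high
  obtain ⟨Cl, hCl, hl⟩ := low
  refine ⟨(C1 + C2) * (1 + Ch + 40000 * Cl), by positivity, ?_⟩
  intro N T M L z A e1 e2 e3 μ1 μ2 μ3 hP hB γ hγ ρ2 ρ3 s2 s3 a2 a3 t2 t3 r3
  have hA0 := (sq2_nonneg _ _).trans a2
  have hN := hP.lg.hN
  have hL := hP.lg.one_le
  have hz := hP.hz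
  have hμ2 := hB.pos
  have hμ1 : 1 ≤ μ1 := hμ2.trans hB.le1
  have hμ3 : 1 ≤ μ3 := hμ2.trans hB.le3
  have ht1 := hB.top1
  have ht3 := hB.top3
  have hle1 := hB.le1
  have hMN := hP.hMN
  have hNT := hP.hNT
  have hD : 0 < N * √((μ1 : ℝ) * μ3) := by positivity
  obtain ⟨J0, hJ0⟩ : ∃ J0 : ℝ, J0 = (C1 + C2) / (N * √((μ1 : ℝ) * μ3)) := ⟨_, rfl⟩
  have hJ00 : 0 ≤ J0 := by rw [hJ0]; positivity
  have hJ2 : ∀ (I I' : Finset ℤ) (u v : ℤ → ℂ), ‖BJ (Jk N e1 e2 e3 μ1 μ2 μ3) I I' u v‖ ≤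
      J0 * (√(sq2 I u) * √(sq2 I' v)) := fun I I' u v => by
    refine (h2 N M e1 e2 e3 μ1 μ2 μ3 hN hB I I' u v).trans ?_
    rw [hJ0]
    gcongr
    linarith
  have hM1 : (μ1 : ℝ) ≤ z ^ 30 := by rw [hP.hzM]; exact_mod_cast (by omega : μ1 ≤ M)
  have hM3 : (μ3 : ℝ) ≤ z ^ 30 := by rw [hP.hzM]; exact_mod_cast (by omega : μ3 ≤ M)
  have hM2 : (μ2 : ℝ) ≤ z ^ 30 := by rw [hP.hzM]; exact_mod_cast (by omega : μ2 ≤ M)
  have hL9 : 1 ≤ L ^ 9 := one_le_pow₀ hL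
  have hfin : ∀ K : ℝ, K ≤ 1 + Ch + 40000 * Cl → K * (J0 * (L ^ 9 * z ^ 118 * A ^ 2)) ≤
      (C1 + C2) * (1 + Ch + 40000 * Cl) *
        (L ^ 9 * z ^ 118 * A ^ 2 / (N * √((μ1 : ℝ) * μ3))) := fun K hK => by
    calc _ ≤ (1 + Ch + 40000 * Cl) * (J0 * (L ^ 9 * z ^ 118 * A ^ 2)) := by gcongr
      _ = _ := by rw [hJ0]; ring
  refine (le_abs_self _).trans ?_
  rw [← Real.norm_eq_abs, ← Complex.norm_real]
  rcases le_or_gt ((min μ1 μ3 : ℕ) : ℝ) (z ^ 20) with hH | hH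
  · rw [QQ_eq N e1 e2 e3 μ1 μ2 μ3 γ (H' := 8 * T) (by omega) s2 s3]
    refine (Qle_pairs μ2 hγ (B := J0 * (μ1 * (z ^ 2 * A) * (μ3 * (z ^ 6 * A))))
      fun n n' => (hJ2 _ _ _ _).trans ?_).trans (le_trans ?_ (hfin 1 (by linarith)))
    · refine mul_le_mul_of_nonneg_left (mul_le_mul ?_ ?_ (sqrt_nonneg _) (by positivity)) hJ00
      · exact (Qle_sq2_mul _ (Nat.cast_nonneg _) (Qle_Zb μ1) _).trans (mul_le_mul_of_nonneg_left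
          (Qle_cor s2 le_rfl (by positivity) a2 t2 _ _) (Nat.cast_nonneg _))
      · exact (Qle_sq2_mul _ (Nat.cast_nonneg _)
          (fun x => by rw [Complex.norm_conj]; exact Qle_Zb μ3 x) _).trans
          (mul_le_mul_of_nonneg_left (Qle_cor s3 le_rfl (by positivity) a3 t3 _ _)
            (Nat.cast_nonneg _))
    · have b1 : (μ2 : ℝ) ≤ z ^ 20 :=
        le_trans (by exact_mod_cast le_min hB.le1 hB.le3) hH
      have b2 : (μ1 : ℝ) * μ3 ≤ z ^ 30 * z ^ 30 := by gcongr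
      calc _ = J0 * ((μ2 : ℝ) ^ 2 * (μ1 * μ3) * z ^ 8 * A ^ 2) := by ring
        _ ≤ J0 * ((z ^ 20) ^ 2 * (z ^ 30 * z ^ 30) * z ^ 8 * A ^ 2) := by gcongr
        _ = J0 * (1 * z ^ 108 * A ^ 2) := by ring
        _ ≤ J0 * (L ^ 9 * z ^ 118 * A ^ 2) := by
          gcongr
          norm_num
        _ = _ := by ring
  · obtain ⟨H0, hH0⟩ : ∃ H0, H0 = min μ1 μ3 := ⟨_, rfl⟩
    rw [← hH0] at hH
    obtain ⟨i, hi1, hi2⟩ := Qle_dyad (a := H0) (b := 8 * T) (by omega) (by omega)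
    have hμ2' : (0 : ℝ) < μ2 := by exact_mod_cast hμ2
    have hP1 : 1 ≤ (M : ℝ) / μ2 := by
      rw [one_le_div hμ2', ← hP.hzM]
      exact hM2
    have hhi := hh N T M μ1 μ3 H0 i L z J0 (M / μ2) hP hμ1 ht1 hμ3 ht3 hH.le (by omega) hJ00 hP1
      (Jk N e1 e2 e3 μ1 μ2 μ3) hJ2 (fun H hH1 hH2 α β hαβ => by
        refine (h1 N M e1 e2 e3 μ1 μ2 μ3 hN hB H α β (by omega)
          ((Nat.mul_le_mul_right M hH2).trans ?_) hαβ).trans ?_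
        · rw [mul_assoc]
          exact Nat.mul_le_mul_left 8 hP.hTM
        · rw [hJ0, div_div]
          gcongr
          linarith)
    rw [QQ_eq N e1 e2 e3 μ1 μ2 μ3 γ (H' := 2 ^ i * H0) (by omega) s2 s3]
    have c1 := Qle_pairs μ2 hγ (B := Ch * (L ^ 4 * J0 * √((M : ℝ) / μ2) * z ^ 50) *
      (z ^ 2 * A * (z ^ 6 * A))) fun n n' => (hhi (cor (box (4 * T)) ρ2 (-log n) (-log n'))
        (cor (box (4 * T)) ρ3 (log n) (log n'))).trans (mul_le_mul_of_nonneg_left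
          (mul_le_mul (Qle_cor s2 hi1 (by positivity) a2 t2 _ _)
            (Qle_cor s3 hi1 (by positivity) a3 t3 _ _) (sqrt_nonneg _) (by positivity))
          (by positivity))
    simp only [mul_sub, sum_sub_distrib] at c1
    have c2 : ‖∑ n ∈ blk μ2, ∑ n' ∈ blk μ2, γ n * conj (γ n') *
        BJ (Jk N e1 e2 e3 μ1 μ2 μ3) (box H0) (box H0)
          (Zb μ1 (fun _ => 1) * cor (box (4 * T)) ρ2 (-log n) (-log n'))
          ((fun β => conj (Zb μ3 (fun _ => 1) β)) * cor (box (4 * T)) ρ3 (log n) (log n'))‖ ≤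
        200 * L * μ1 * (200 * L * μ3) * (J0 * (Cl * (L ^ 7 * z ^ 58 * A ^ 2))) := by
      rw [Qle_swap]
      have d1 := sum_Zb_one hP.lg hμ1 (by omega) (H := H0) (by omega)
      have d3 := sum_Zb_one hP.lg hμ3 (by omega) (H := H0) (by omega)
      refine le_trans ?_ (mul_le_mul_of_nonneg_right (mul_le_mul d1 d3
        (sum_nonneg fun _ _ => norm_nonneg _) (by positivity)) (by positivity))
      rw [sum_mul_sum, sum_mul]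
      refine (_root_.norm_sum_le _ _).trans (sum_le_sum fun α _ => ?_)
      rw [sum_mul]
      refine (_root_.norm_sum_le _ _).trans (sum_le_sum fun β _ => ?_)
      have d4 : ‖Jk N e1 e2 e3 μ1 μ2 μ3 α β‖ ≤ J0 := by
        simpa [BJ, sq2] using hJ2 {α} {β} (fun _ => 1) fun _ => 1
      have d5 := hl N T M μ2 L z A hP hμ2 (by omega) γ hγ ρ2 ρ3 s2 s3 a2 a3 r3 α β
      rw [norm_mul, norm_mul, norm_mul, Complex.norm_conj, mul_assoc]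
      gcongr
    refine ((norm_le_norm_sub_add _ _).trans (add_le_add c1 c2)).trans
      (le_trans ?_ (hfin (Ch + 40000 * Cl) (by linarith)))
    have b1 : (μ2 : ℝ) ^ 2 * √((M : ℝ) / μ2) ≤ z ^ 30 * z ^ 30 := by
      calc _ ≤ (μ2 : ℝ) ^ 2 * (M / μ2) := by
            gcongr
            exact sqrt_le_iff.2 ⟨by positivity, by nlinarith⟩
        _ = μ2 * z ^ 30 := by rw [hP.hzM]; field_simp
        _ ≤ _ := by gcongr
    have b2 : (μ1 : ℝ) * μ3 ≤ z ^ 30 * z ^ 30 := by gcongr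
    have b3 : L ^ 4 ≤ L ^ 9 := pow_le_pow_right₀ hL (by norm_num)
    calc _ = Ch * (J0 * (L ^ 4 * ((μ2 : ℝ) ^ 2 * √((M : ℝ) / μ2) * z ^ 58) * A ^ 2)) +
          40000 * Cl * (J0 * (L ^ 9 * (μ1 * μ3 * z ^ 58) * A ^ 2)) := by ring
      _ ≤ Ch * (J0 * (L ^ 9 * (z ^ 30 * z ^ 30 * z ^ 58) * A ^ 2)) +
          40000 * Cl * (J0 * (L ^ 9 * (z ^ 30 * z ^ 30 * z ^ 58) * A ^ 2)) := by gcongr
      _ = _ := by ring

end Pool.Agent.Lib.MP_ecd12e_nt.GM
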