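import Pool.Agent.Lib.MP_ecd12e_nt.GM.Defs

/-! Integration by parts in the radial variable. -/

namespace Pool.Agent.Lib.MP_ecd12e_nt.GM

open Finset Real MeasureTheory
open Pool.Agent.Lib.MP_ecd12e_nt.Bar
open scoped ContDiff ComplexConjugate

lemma Rad_deriv {Φ Φ1 Φ2 : ℝ → ℂ} (h0 : ∀ σ, HasDerivAt Φ (Φ1 σ) σ)
    (h1 : ∀ σ, HasDerivAt Φ1 (Φ2 σ) σ) (y σ : ℝ) :
    HasDerivAt (fun σ => ((exp (-σ) : ℂ) * (exp (-σ) : ℂ) * (Φ1 σ - Φ σ) +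
        Complex.I * (2 * π * y : ℝ) * (exp (-σ) : ℂ) * Φ σ) * ei (-(2 * π * exp σ * y)))
      ((exp (-σ) : ℂ) ^ 2 * (Φ2 σ - 3 * Φ1 σ + 2 * Φ σ) * ei (-(2 * π * exp σ * y)) +
        ((2 * π * y : ℝ) : ℂ) ^ 2 * (Φ σ * ei (-(2 * π * exp σ * y)))) σ := by
  have hu : HasDerivAt (fun σ : ℝ => (exp (-σ) : ℂ)) (-(exp (-σ) : ℂ)) σ := by
    have h := ((hasDerivAt_neg σ).exp).ofReal_comp
    convert h using 1
    push_cast
    ring
  have he := hasDerivAt_ei ((((hasDerivAt_exp σ).const_mul (2 * π)).mul_const y).neg)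
  have hue : (exp (-σ) : ℂ) * (exp σ : ℂ) = 1 := by
    rw [← Complex.ofReal_mul, ← exp_add, neg_add_cancel, exp_zero, Complex.ofReal_one]
  have h := (((hu.mul hu).mul ((h1 σ).sub (h0 σ))).add
    ((hu.const_mul (Complex.I * (2 * π * y : ℝ))).mul (h0 σ))).mul he
  refine h.congr_deriv ?_
  simp only [Pi.mul_apply, Pi.sub_apply, Pi.add_apply, Pi.neg_apply, Complex.ofReal_neg,
    Complex.ofReal_mul]
  generalize ((exp (-σ) : ℝ) : ℂ) = u at hue ⊢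
  generalize ((exp σ : ℝ) : ℂ) = v at hue ⊢
  generalize ei (-(2 * π * exp σ * y)) = e
  have hI := Complex.I_mul_I
  linear_combination
    (-Complex.I * ((2 : ℝ) * π * y) * u * (Φ1 σ - Φ σ) * e +
      ((2 : ℝ) * π * y) ^ 2 * Φ σ * e) * hue - ((2 : ℝ) * π * y) ^ 2 * u * v * Φ σ * e * hI

/-- With `D Φ = (exp (-σ) Φ)'` one has `2 π i y ∫ Φ e = ∫ (D Φ) e` for
`e = ei (-(2 π exp σ y))`, and `D (D Φ) = exp (-2 σ) (Φ'' - 3 Φ' + 2 Φ)`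
(`integral_eq_zero_of_hasDerivAt_of_integrable`, or interval integrals). -/
theorem rad {Φ Φ1 Φ2 : ℝ → ℂ} (h0 : ∀ σ, HasDerivAt Φ (Φ1 σ) σ) (h1 : ∀ σ, HasDerivAt Φ1 (Φ2 σ) σ)
    (h2 : Continuous Φ2) (hc : HasCompactSupport Φ) {lam : ℝ} (hl : 0 ≤ lam)
    (hs : ∀ σ, exp σ * 3 < lam → Φ σ = 0 ∧ Φ1 σ = 0 ∧ Φ2 σ = 0) (y : ℝ) :
    ‖∫ σ, Φ σ * ei (-(2 * π * exp σ * y))‖
      ≤ ps (lam * y) * ∫ σ, (3 * ‖Φ σ‖ + 3 * ‖Φ1 σ‖ + 3 * ‖Φ2 σ‖) := by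
  have c0 : Continuous Φ := continuous_iff_continuousAt.2 fun σ => (h0 σ).continuousAt
  have c1 : Continuous Φ1 := continuous_iff_continuousAt.2 fun σ => (h1 σ).continuousAt
  have k1 : HasCompactSupport Φ1 := by
    have h : Φ1 = deriv Φ := funext fun σ => (h0 σ).deriv.symm
    rw [h]
    exact hc.deriv
  have k2 : HasCompactSupport Φ2 := by
    have h : Φ2 = deriv Φ1 := funext fun σ => (h1 σ).deriv.symm
    rw [h]
    exact k1.deriv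
  obtain ⟨K, hK, hK0⟩ : ∃ K : Set ℝ, IsCompact K ∧ ∀ σ ∉ K, Φ σ = 0 ∧ Φ1 σ = 0 ∧ Φ2 σ = 0 :=
    ⟨tsupport Φ ∪ (tsupport Φ1 ∪ tsupport Φ2), hc.isCompact.union (k1.isCompact.union k2.isCompact),
      fun σ hσ => ⟨image_eq_zero_of_notMem_tsupport fun h => hσ (Or.inl h),
        image_eq_zero_of_notMem_tsupport fun h => hσ (Or.inr (Or.inl h)),
        image_eq_zero_of_notMem_tsupport fun h => hσ (Or.inr (Or.inr h))⟩⟩
  have i0 : Integrable fun σ => Φ σ * ei (-(2 * π * exp σ * y)) :=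
    Continuous.integrable_of_hasCompactSupport (by fun_prop)
      (HasCompactSupport.intro hK fun σ hσ => by simp [hK0 σ hσ])
  have i1 : Integrable fun σ : ℝ =>
      (exp (-σ) : ℂ) ^ 2 * (Φ2 σ - 3 * Φ1 σ + 2 * Φ σ) * ei (-(2 * π * exp σ * y)) :=
    Continuous.integrable_of_hasCompactSupport (by fun_prop)
      (HasCompactSupport.intro hK fun σ hσ => by simp [hK0 σ hσ])
  have h3 := integral_eq_zero_of_hasDerivAt_of_integrable (Rad_deriv h0 h1 y)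
    (i1.add (i0.const_mul _)) (Continuous.integrable_of_hasCompactSupport (by fun_prop)
      (HasCompactSupport.intro hK fun σ hσ => by simp [hK0 σ hσ]))
  rw [integral_add i1 (i0.const_mul _), integral_const_mul] at h3
  have n0 : Integrable fun σ => ‖Φ σ‖ := (c0.integrable_of_hasCompactSupport hc).norm
  have n1 : Integrable fun σ => ‖Φ1 σ‖ := (c1.integrable_of_hasCompactSupport k1).norm
  have n2 : Integrable fun σ => ‖Φ2 σ‖ := (h2.integrable_of_hasCompactSupport k2).norm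
  have n3 : Integrable fun σ => 2 * ‖Φ σ‖ + 3 * ‖Φ1 σ‖ + 3 * ‖Φ2 σ‖ :=
    ((n0.const_mul 2).add (n1.const_mul 3)).add (n2.const_mul 3)
  have h4 : ‖∫ σ, Φ σ * ei (-(2 * π * exp σ * y))‖ ≤ ∫ σ, ‖Φ σ‖ :=
    norm_integral_le_of_norm_le n0 (.of_forall fun σ => by rw [norm_mul, norm_ei, mul_one])
  have h5 : ‖∫ σ : ℝ, ((lam / 3 : ℝ) : ℂ) ^ 2 *
      ((exp (-σ) : ℂ) ^ 2 * (Φ2 σ - 3 * Φ1 σ + 2 * Φ σ) * ei (-(2 * π * exp σ * y)))‖ ≤
      ∫ σ, (2 * ‖Φ σ‖ + 3 * ‖Φ1 σ‖ + 3 * ‖Φ2 σ‖) := by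
    refine norm_integral_le_of_norm_le n3 (.of_forall fun σ => ?_)
    rcases lt_or_ge (exp σ * 3) lam with h | h
    · simp [hs σ h]
    · have a1 : lam / 3 * exp (-σ) ≤ 1 := by
        rw [exp_neg, ← div_eq_mul_inv, div_le_one (exp_pos σ)]
        linarith
      have a2 : (lam / 3 * exp (-σ)) ^ 2 ≤ 1 := pow_le_one₀ (by positivity) a1
      have a3 : ‖Φ2 σ - 3 * Φ1 σ + 2 * Φ σ‖ ≤ 2 * ‖Φ σ‖ + 3 * ‖Φ1 σ‖ + 3 * ‖Φ2 σ‖ := by
        have b1 := norm_add_le (Φ2 σ - 3 * Φ1 σ) (2 * Φ σ)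
        have b2 := norm_sub_le (Φ2 σ) (3 * Φ1 σ)
        rw [norm_mul, Complex.norm_ofNat] at b1 b2
        linarith [norm_nonneg (Φ2 σ)]
      rw [← mul_assoc, ← mul_assoc, ← mul_pow, ← Complex.ofReal_mul, norm_mul, norm_ei, mul_one,
        norm_mul, norm_pow, Complex.norm_real, Real.norm_eq_abs, sq_abs]
      exact (mul_le_of_le_one_left (norm_nonneg _) a2).trans a3
  rw [integral_const_mul, eq_neg_of_add_eq_zero_left h3, norm_mul, norm_neg, norm_mul, norm_pow,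
    norm_pow, Complex.norm_real, Complex.norm_real, Real.norm_eq_abs, Real.norm_eq_abs, sq_abs,
    sq_abs] at h5
  have h6 : ∫ σ, (3 * ‖Φ σ‖ + 3 * ‖Φ1 σ‖ + 3 * ‖Φ2 σ‖) =
      (∫ σ, ‖Φ σ‖) + ∫ σ, (2 * ‖Φ σ‖ + 3 * ‖Φ1 σ‖ + 3 * ‖Φ2 σ‖) := by
    rw [← integral_add n0 n3]
    congr 1
    funext σ
    ring
  rw [h6, ps, one_div, ← div_eq_inv_mul, le_div_iff₀ (by positivity)]
  have h7 : (lam * y) ^ 2 ≤ (lam / 3) ^ 2 * (2 * π * y) ^ 2 := by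
    have a1 : 1 ≤ (2 * π / 3) ^ 2 := one_le_pow₀ (by linarith [pi_gt_three])
    have a2 := mul_le_mul_of_nonneg_left a1 (sq_nonneg (lam * y))
    linarith
  have h8 := mul_le_mul_of_nonneg_left h7 (norm_nonneg (∫ σ, Φ σ * ei (-(2 * π * exp σ * y))))
  linarith

end Pool.Agent.Lib.MP_ecd12e_nt.GM
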