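import Pool.Agent.Lib.MP_ecd12e_nt.GM.Rad

/-! The radial integrals. -/

namespace Pool.Agent.Lib.MP_ecd12e_nt.GM

open Finset Real MeasureTheory
open Pool.Agent.Lib.MP_ecd12e_nt.Bar
open scoped ContDiff ComplexConjugate

/-- a sum of products of three translates of derivatives of the weight -/
noncomputable def S3w {ι : Type} (s : Finset ι) (c : ι → ℂ) (p q r : ι → ℝ) (j1 j2 j3 : ℕ)
    (σ : ℝ) : ℂ :=
  ∑ i ∈ s, c i * ((Wd j1 (σ + p i) * Wd j2 (σ + q i) * Wd j3 (σ + r i) : ℝ) : ℂ)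

theorem Rad3_shift (j : ℕ) (a σ : ℝ) :
    HasDerivAt (fun σ => Wd j (σ + a)) (Wd (j + 1) (σ + a)) σ :=
  (hasDerivAt_Wd j (σ + a)).comp_add_const σ a

theorem Rad3_deriv {ι : Type} (s : Finset ι) (c : ι → ℂ) (p q r : ι → ℝ) (j1 j2 j3 : ℕ) (σ : ℝ) :
    HasDerivAt (S3w s c p q r j1 j2 j3) (S3w s c p q r (j1 + 1) j2 j3 σ +
      S3w s c p q r j1 (j2 + 1) j3 σ + S3w s c p q r j1 j2 (j3 + 1) σ) σ := by
  unfold S3w
  rw [← sum_add_distrib, ← sum_add_distrib]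
  refine HasDerivAt.fun_sum fun i _ => ?_
  have h := ((((Rad3_shift j1 (p i) σ).fun_mul (Rad3_shift j2 (q i) σ)).fun_mul
    (Rad3_shift j3 (r i) σ)).ofReal_comp).const_mul (c i)
  refine h.congr_deriv ?_
  push_cast
  ring

theorem Rad3_zero {ι : Type} (s : Finset ι) (c : ι → ℂ) (p q r : ι → ℝ) (j1 j2 j3 : ℕ) {σ : ℝ}
    (h : ∀ i ∈ s, σ + q i ≤ -(3 / 4) ∨ 1 ≤ σ + q i) : S3w s c p q r j1 j2 j3 σ = 0 :=
  sum_eq_zero fun i hi => by simp [Wd_eq_zero j2 (h i hi)]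

theorem Rad3_compact {ι : Type} (s : Finset ι) (c : ι → ℂ) (p q r : ι → ℝ) (j1 j2 j3 : ℕ) :
    HasCompactSupport (S3w s c p q r j1 j2 j3) := by
  refine HasCompactSupport.intro
    (isCompact_Icc (a := -(∑ i ∈ s, |q i| + 1)) (b := ∑ i ∈ s, |q i| + 1)) fun σ hσ =>
    Rad3_zero s c p q r j1 j2 j3 fun i hi => ?_
  have h := abs_le.1 (single_le_sum (f := fun i => |q i|) (fun i _ => abs_nonneg _) hi)
  rw [Set.mem_Icc, not_and_or, not_le, not_le] at hσ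
  exact hσ.imp (fun h' => by linarith [h.2]) fun h' => by linarith [h.1]

theorem Rad3_exp {σ q : ℝ} (h : exp σ * 3 < exp (-q)) : σ + q ≤ -(3 / 4) := by
  have h1 : exp (σ + 1) < exp (-q) := by
    rw [exp_add]
    nlinarith [exp_one_lt_d9, exp_pos σ]
  have := exp_lt_exp.1 h1
  linarith

/-- Leibniz rule: the derivative of `S3w j1 j2 j3` is the sum of the three functions with one index
raised. If `σ + q i > -3/4` then `3 exp σ ≥ exp (-q i) ≥ lam`. -/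
theorem rad3 {ι : Type} (s : Finset ι) (c : ι → ℂ) (p q r : ι → ℝ) {lam : ℝ} (hl : 0 ≤ lam)
    (hq : ∀ i ∈ s, lam ≤ exp (-q i)) (y : ℝ) :
    ‖∫ σ, S3w s c p q r 0 0 0 σ * ei (-(2 * π * exp σ * y))‖
      ≤ 6 * ps (lam * y) *
        ∑ j1 ∈ range 3, ∑ j2 ∈ range 3, ∑ j3 ∈ range 3, ∫ σ, ‖S3w s c p q r j1 j2 j3 σ‖ := by
  set S := S3w s c p q r with hS
  have hd := Rad3_deriv s c p q r
  rw [← hS] at hd
  have hc : ∀ j1 j2 j3, Continuous (S j1 j2 j3) := fun j1 j2 j3 =>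
    continuous_iff_continuousAt.2 fun σ => (hd j1 j2 j3 σ).continuousAt
  have hi : ∀ j1 j2 j3, Integrable fun σ => ‖S j1 j2 j3 σ‖ := fun j1 j2 j3 =>
    ((hc j1 j2 j3).integrable_of_hasCompactSupport (Rad3_compact s c p q r j1 j2 j3)).norm
  have hz : ∀ j1 j2 j3 σ, exp σ * 3 < lam → S j1 j2 j3 σ = 0 := fun j1 j2 j3 σ h =>
    Rad3_zero s c p q r j1 j2 j3 fun i hi => Or.inl (Rad3_exp (h.trans_le (hq i hi)))
  have h := rad (Φ := S 0 0 0) (Φ1 := fun σ => S 1 0 0 σ + S 0 1 0 σ + S 0 0 1 σ)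
    (Φ2 := fun σ => (S 2 0 0 σ + S 1 1 0 σ + S 1 0 1 σ) + (S 1 1 0 σ + S 0 2 0 σ + S 0 1 1 σ) +
      (S 1 0 1 σ + S 0 1 1 σ + S 0 0 2 σ)) (hd 0 0 0)
    (fun σ => ((hd 1 0 0 σ).add (hd 0 1 0 σ)).add (hd 0 0 1 σ)) (by fun_prop)
    (Rad3_compact s c p q r 0 0 0) hl (fun σ h => by simp [hz _ _ _ σ h]) y
  refine h.trans ?_
  rw [mul_comm 6, mul_assoc]
  refine mul_le_mul_of_nonneg_left ?_ (ps_pos _).le
  have i2 : ∀ j1 j2, Integrable fun σ => ∑ j3 ∈ range 3, ‖S j1 j2 j3 σ‖ := fun j1 j2 =>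
    integrable_finsetSum _ fun j3 _ => hi j1 j2 j3
  have i1 : ∀ j1, Integrable fun σ => ∑ j2 ∈ range 3, ∑ j3 ∈ range 3, ‖S j1 j2 j3 σ‖ := fun j1 =>
    integrable_finsetSum _ fun j2 _ => i2 j1 j2
  simp_rw [← integral_finsetSum _ fun j3 _ => hi _ _ j3,
    ← integral_finsetSum _ fun j2 _ => i2 _ j2]
  rw [← integral_finsetSum _ fun j1 _ => i1 j1, ← integral_const_mul]
  refine integral_mono_of_nonneg (Filter.Eventually.of_forall fun σ => by positivity)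
    ((integrable_finsetSum _ fun j1 _ => i1 j1).const_mul 6)
    (Filter.Eventually.of_forall fun σ => ?_)
  have a1 := norm_add₃_le (a := S 1 0 0 σ) (b := S 0 1 0 σ) (c := S 0 0 1 σ)
  have a2 := norm_add₃_le (a := S 2 0 0 σ + S 1 1 0 σ + S 1 0 1 σ)
    (b := S 1 1 0 σ + S 0 2 0 σ + S 0 1 1 σ) (c := S 1 0 1 σ + S 0 1 1 σ + S 0 0 2 σ)
  have a3 := norm_add₃_le (a := S 2 0 0 σ) (b := S 1 1 0 σ) (c := S 1 0 1 σ)
  have a4 := norm_add₃_le (a := S 1 1 0 σ) (b := S 0 2 0 σ) (c := S 0 1 1 σ)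
  have a5 := norm_add₃_le (a := S 1 0 1 σ) (b := S 0 1 1 σ) (c := S 0 0 2 σ)
  have a6 : 0 ≤ ‖S 0 1 2 σ‖ + ‖S 0 2 1 σ‖ + ‖S 0 2 2 σ‖ + ‖S 1 0 2 σ‖ + ‖S 1 1 1 σ‖ +
      ‖S 1 1 2 σ‖ + ‖S 1 2 0 σ‖ + ‖S 1 2 1 σ‖ + ‖S 1 2 2 σ‖ + ‖S 2 0 1 σ‖ + ‖S 2 0 2 σ‖ +
      ‖S 2 1 0 σ‖ + ‖S 2 1 1 σ‖ + ‖S 2 1 2 σ‖ + ‖S 2 2 0 σ‖ + ‖S 2 2 1 σ‖ + ‖S 2 2 2 σ‖ := by
    positivity
  have a7 : 0 ≤ ‖S 0 0 0 σ‖ + ‖S 1 0 0 σ‖ + ‖S 0 1 0 σ‖ + ‖S 0 0 1 σ‖ + ‖S 2 0 0 σ‖ +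
      ‖S 0 2 0 σ‖ + ‖S 0 0 2 σ‖ := by positivity
  simp only [sum_range_succ, sum_range_zero]
  linarith

theorem Rad3_supp {x : ℝ} (h : WW x ≠ 0) : -(3 / 4) < x ∧ x < 1 := by
  by_contra hc
  rw [not_and_or, not_lt, not_lt] at hc
  exact h (Wd_zero ▸ Wd_eq_zero 0 hc)

theorem Rad3_gen : ∃ I : ℝ, 0 < I ∧ ∀ (g0 g1 g2 : ℝ → ℝ) (K : ℝ),
    (∀ σ, HasDerivAt g0 (g1 σ) σ) → (∀ σ, HasDerivAt g1 (g2 σ) σ) → Continuous g2 →
    (∀ σ, |g0 σ| ≤ K) → (∀ σ, |g1 σ| ≤ K) → (∀ σ, |g2 σ| ≤ K) → ∀ y : ℝ,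
      ‖∫ σ, ((WW σ * g0 σ : ℝ) : ℂ) * ei (-(2 * π * exp σ * y))‖ ≤ I * K * ps y := by
  have hi : ∀ j, Integrable fun σ => |Wd j σ| := fun j =>
    ((continuous_Wd j).integrable_of_hasCompactSupport (compact_Wd j)).abs
  have hI : 0 ≤ ∫ σ, (|Wd 0 σ| + |Wd 1 σ| + |Wd 2 σ|) := integral_nonneg fun σ => by positivity
  refine ⟨9 * (∫ σ, (|Wd 0 σ| + |Wd 1 σ| + |Wd 2 σ|)) + 1, by positivity,
    fun g0 g1 g2 K h0 h1 h2 b0 b1 b2 y => ?_⟩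
  have hK : 0 ≤ K := (abs_nonneg _).trans (b0 0)
  have c0 : Continuous g0 := continuous_iff_continuousAt.2 fun σ => (h0 σ).continuousAt
  have c1 : Continuous g1 := continuous_iff_continuousAt.2 fun σ => (h1 σ).continuousAt
  have h := rad (Φ := fun σ => ((Wd 0 σ * g0 σ : ℝ) : ℂ))
    (Φ1 := fun σ => ((Wd 1 σ * g0 σ + Wd 0 σ * g1 σ : ℝ) : ℂ))
    (Φ2 := fun σ => ((Wd 2 σ * g0 σ + Wd 1 σ * g1 σ + (Wd 1 σ * g1 σ + Wd 0 σ * g2 σ) : ℝ) : ℂ))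
    (fun σ => ((hasDerivAt_Wd 0 σ).fun_mul (h0 σ)).ofReal_comp)
    (fun σ => (((hasDerivAt_Wd 1 σ).fun_mul (h0 σ)).fun_add
      ((hasDerivAt_Wd 0 σ).fun_mul (h1 σ))).ofReal_comp) (by fun_prop)
    (HasCompactSupport.intro (isCompact_Icc (a := -(3 / 4)) (b := 1)) fun σ hσ => by
      rw [Set.mem_Icc, not_and_or, not_le, not_le] at hσ
      simp [Wd_eq_zero 0 (hσ.imp le_of_lt le_of_lt)]) zero_le_one (fun σ h => by
      have h' : σ + 0 ≤ -(3 / 4) := Rad3_exp (by simpa using h)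
      rw [add_zero] at h'
      simp [Wd_eq_zero _ (Or.inl h')]) y
  rw [one_mul] at h
  rw [← Wd_zero]
  refine h.trans ?_
  rw [mul_comm (ps y)]
  refine mul_le_mul_of_nonneg_right ?_ (ps_pos y).le
  refine le_trans ?_ (mul_le_mul_of_nonneg_right (le_add_of_nonneg_right zero_le_one) hK)
  rw [mul_right_comm, ← integral_const_mul]
  refine integral_mono_of_nonneg (Filter.Eventually.of_forall fun σ => by positivity)
    ((((hi 0).add (hi 1)).add (hi 2)).const_mul _) (Filter.Eventually.of_forall fun σ => ?_)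
  have m : ∀ (j : ℕ) (x : ℝ), |x| ≤ K → |Wd j σ * x| ≤ K * |Wd j σ| := fun j x hx => by
    rw [abs_mul, mul_comm]
    exact mul_le_mul_of_nonneg_right hx (abs_nonneg _)
  have a1 := abs_add_le (Wd 1 σ * g0 σ) (Wd 0 σ * g1 σ)
  have a2 := abs_add_le (Wd 2 σ * g0 σ + Wd 1 σ * g1 σ) (Wd 1 σ * g1 σ + Wd 0 σ * g2 σ)
  have a3 := abs_add_le (Wd 2 σ * g0 σ) (Wd 1 σ * g1 σ)
  have a4 := abs_add_le (Wd 1 σ * g1 σ) (Wd 0 σ * g2 σ)
  have a5 : 0 ≤ K * |Wd 2 σ| := by positivity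
  simp only [Complex.norm_real, norm_eq_abs]
  linarith [m 0 _ (b0 σ), m 0 _ (b1 σ), m 0 _ (b2 σ), m 1 _ (b0 σ), m 1 _ (b1 σ), m 2 _ (b0 σ)]

/-- `rad3` with one term and `lam = 1`; the integrand vanishes unless `|a|, |c|, |a - c| ≤ 7/4`. -/
theorem Psi_le : ∃ C : ℝ, 0 < C ∧ ∀ ξ1 ξ2 ξ3 a c : ℝ, ‖Psi ξ1 ξ2 ξ3 a c‖
    ≤ C * (chi (a - c) * chi (-a) * chi c * ps (ξ1 * exp a + ξ2 + ξ3 * exp c)) := by
  obtain ⟨K, hK, hb⟩ := exists_Wd_le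
  obtain ⟨I, hI, hg⟩ := Rad3_gen
  refine ⟨I * (4 * K ^ 2), by positivity, fun ξ1 ξ2 ξ3 a c => ?_⟩
  by_cases h : |a - c| ≤ 7 / 4 ∧ |a| ≤ 7 / 4 ∧ |c| ≤ 7 / 4
  · rw [chi_neg, chi_eq_one h.1, chi_eq_one h.2.1, chi_eq_one h.2.2]
    have hm : ∀ i ≤ 2, ∀ j ≤ 2, ∀ x y, |Wd i x * Wd j y| ≤ K ^ 2 := fun i hi j hj x y => by
      rw [abs_mul, sq]
      exact mul_le_mul (hb i hi x) (hb j hj y) (abs_nonneg _) (by linarith)
    have h2 : 0 ≤ K ^ 2 := by positivity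
    have key := hg (fun σ => Wd 0 (σ + a) * Wd 0 (σ + c))
      (fun σ => Wd 1 (σ + a) * Wd 0 (σ + c) + Wd 0 (σ + a) * Wd 1 (σ + c))
      (fun σ => (Wd 2 (σ + a) * Wd 0 (σ + c) + Wd 1 (σ + a) * Wd 1 (σ + c)) +
        (Wd 1 (σ + a) * Wd 1 (σ + c) + Wd 0 (σ + a) * Wd 2 (σ + c))) (4 * K ^ 2)
      (fun σ => (Rad3_shift 0 a σ).fun_mul (Rad3_shift 0 c σ))
      (fun σ => ((Rad3_shift 1 a σ).fun_mul (Rad3_shift 0 c σ)).fun_add
        ((Rad3_shift 0 a σ).fun_mul (Rad3_shift 1 c σ))) (by fun_prop)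
      (fun σ => by linarith [hm 0 (by norm_num) 0 (by norm_num) (σ + a) (σ + c)])
      (fun σ => (abs_add_le _ _).trans (by
        linarith [hm 1 (by norm_num) 0 (by norm_num) (σ + a) (σ + c),
          hm 0 (by norm_num) 1 (by norm_num) (σ + a) (σ + c)]))
      (fun σ => ((abs_add_le _ _).trans (add_le_add (abs_add_le _ _) (abs_add_le _ _))).trans (by
        linarith [hm 2 (by norm_num) 0 (by norm_num) (σ + a) (σ + c),
          hm 1 (by norm_num) 1 (by norm_num) (σ + a) (σ + c),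
          hm 0 (by norm_num) 2 (by norm_num) (σ + a) (σ + c)]))
      (ξ1 * exp a + ξ2 + ξ3 * exp c)
    simp only [Wd_zero, ← mul_assoc, mul_comm (WW _) (WW (_ + a))] at key
    simpa only [Psi, one_mul, mul_assoc] using key
  · have e : Psi ξ1 ξ2 ξ3 a c = 0 := by
      refine integral_eq_zero_of_ae (Filter.Eventually.of_forall fun σ => ?_)
      have : WW (σ + a) * WW σ * WW (σ + c) = 0 := by
        by_contra hc
        obtain ⟨hc, h3⟩ := mul_ne_zero_iff.1 hc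
        obtain ⟨h1, h2⟩ := mul_ne_zero_iff.1 hc
        obtain ⟨a1, a2⟩ := Rad3_supp h1
        obtain ⟨a3, a4⟩ := Rad3_supp h2
        obtain ⟨a5, a6⟩ := Rad3_supp h3
        exact h ⟨abs_le.2 ⟨by linarith, by linarith⟩, abs_le.2 ⟨by linarith, by linarith⟩,
          abs_le.2 ⟨by linarith, by linarith⟩⟩
      simp only [this, Complex.ofReal_zero, zero_mul, Pi.zero_apply]
    rw [e, norm_zero]
    have := chi_nonneg (a - c)
    have := chi_nonneg (-a)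
    have := chi_nonneg c
    have := ps_pos (ξ1 * exp a + ξ2 + ξ3 * exp c)
    positivity

theorem Psi2_le : ∃ C : ℝ, 0 < C ∧ ∀ y a : ℝ, ‖Psi2 y a‖ ≤ C * (chi a * ps y) := by
  obtain ⟨K, hK, hb⟩ := exists_Wd_le
  obtain ⟨I, hI, hg⟩ := Rad3_gen
  refine ⟨I * K, by positivity, fun y a => ?_⟩
  by_cases h : |a| ≤ 7 / 4
  · rw [chi_eq_one h, one_mul]
    have key := hg (fun σ => Wd 0 (σ + a)) (fun σ => Wd 1 (σ + a)) (fun σ => Wd 2 (σ + a)) K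
      (Rad3_shift 0 a) (Rad3_shift 1 a) (by fun_prop) (fun σ => hb 0 (by norm_num) _)
      (fun σ => hb 1 (by norm_num) _) (fun σ => hb 2 (by norm_num) _) y
    simpa only [Psi2, Wd_zero] using key
  · have e : Psi2 y a = 0 := by
      refine integral_eq_zero_of_ae (Filter.Eventually.of_forall fun σ => ?_)
      have : WW σ * WW (σ + a) = 0 := by
        by_contra hc
        obtain ⟨h1, h2⟩ := mul_ne_zero_iff.1 hc
        obtain ⟨a1, a2⟩ := Rad3_supp h1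
        obtain ⟨a3, a4⟩ := Rad3_supp h2
        exact h (abs_le.2 ⟨by linarith, by linarith⟩)
      simp only [this, Complex.ofReal_zero, zero_mul, Pi.zero_apply]
    rw [e, norm_zero]
    have := chi_nonneg a
    have := ps_pos y
    positivity

end Pool.Agent.Lib.MP_ecd12e_nt.GM
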