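import Pool.Agent.Lib.MP_ecd12e_nt.GM.Fin

/-! The estimate for well spaced real points. -/

namespace Pool.Agent.Lib.MP_ecd12e_nt.GM

open Finset Real MeasureTheory
open Pool.Agent.Lib.MP_ecd12e_nt.Bar
open scoped ContDiff ComplexConjugate

/-- the coefficients of the `j`-th derivative -/
noncomputable def Real_b (N : ℕ) (b : ℕ → ℂ) (j n : ℕ) : ℂ :=
  if n ∈ Icc N (2 * N) then b n * ((log ((n : ℝ) / N) : ℝ) * Complex.I) ^ j else 0

lemma Real_log {N n : ℕ} (hN : 1 ≤ N) (hn : n ∈ Icc N (2 * N)) : |log ((n : ℝ) / N)| ≤ 1 := by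
  have h := mem_Icc.1 hn
  have hN' : (0 : ℝ) < N := by exact_mod_cast hN
  have h1 : (1 : ℝ) ≤ n / N := by
    rw [le_div_iff₀ hN', one_mul]
    exact_mod_cast h.1
  have h2 : (n : ℝ) / N ≤ 2 := by
    rw [div_le_iff₀ hN']
    exact_mod_cast h.2
  rw [abs_of_nonneg (log_nonneg h1)]
  linarith [log_le_sub_one_of_pos (x := (n : ℝ) / N) (by linarith)]

lemma Real_b_le {N : ℕ} (hN : 1 ≤ N) {b : ℕ → ℂ} (hb : ∀ n, ‖b n‖ ≤ 1) (j n : ℕ) :
    ‖Real_b N b j n‖ ≤ 1 := by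
  unfold Real_b
  split_ifs with h
  · rw [norm_mul, norm_pow, norm_mul, Complex.norm_I, mul_one, Complex.norm_real, Real.norm_eq_abs]
    exact mul_le_one₀ (hb n) (by positivity) (pow_le_one₀ (abs_nonneg _) (Real_log hN h))
  · simp

lemma Real_hasSum (N : ℕ) (b : ℕ → ℂ) (k : ℤ) (s : ℝ) :
    HasSum (fun j : ℕ => ((s ^ j / j.factorial : ℝ) : ℂ) * DD N (Real_b N b j) k)
      (∑ n ∈ Icc N (2 * N), b n * ei ((k + s) * log ((n : ℝ) / N))) := by
  have h : ∀ n ∈ Icc N (2 * N), HasSum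
      (fun j : ℕ => ((s ^ j / j.factorial : ℝ) : ℂ) *
        (Real_b N b j n * ei (k * log ((n : ℝ) / N))))
      (b n * ei ((k + s) * log ((n : ℝ) / N))) := by
    intro n hn
    have h1 := NormedSpace.expSeries_div_hasSum_exp
      ((s : ℂ) * ((log ((n : ℝ) / N) : ℝ) * Complex.I))
    rw [← Complex.exp_eq_exp_ℂ] at h1
    have h2 := h1.mul_left (b n * ei (k * log ((n : ℝ) / N)))
    have e1 : (fun j : ℕ => ((s ^ j / j.factorial : ℝ) : ℂ) *
        (Real_b N b j n * ei (k * log ((n : ℝ) / N)))) = fun j : ℕ =>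
        b n * ei (k * log ((n : ℝ) / N)) *
          (((s : ℂ) * ((log ((n : ℝ) / N) : ℝ) * Complex.I)) ^ j / j.factorial) := by
      funext j
      rw [Real_b, if_pos hn, mul_pow (s : ℂ)]
      push_cast
      ring
    have e2 : b n * ei ((k + s) * log ((n : ℝ) / N)) = b n * ei (k * log ((n : ℝ) / N)) *
        Complex.exp ((s : ℂ) * ((log ((n : ℝ) / N) : ℝ) * Complex.I)) := by
      rw [add_mul, ei_add, mul_assoc]
      congr 2
      unfold ei
      congr 1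
      push_cast
      ring
    rw [e1, e2]
    exact h2
  have h3 := hasSum_sum h
  convert h3 using 2 with j
  rw [DD, mul_sum]

lemma Real_norm {N : ℕ} (hN : 1 ≤ N) (b : ℕ → ℂ) (t : ℝ) :
    ‖∑ n ∈ Icc N (2 * N), b n * ei (t * log ((n : ℝ) / N))‖ =
    ‖∑ n ∈ Icc N (2 * N), b n * Complex.exp (((t * log (n : ℝ) : ℝ) : ℂ) * Complex.I)‖ := by
  have hN' : (0 : ℝ) < N := by exact_mod_cast hN
  have h : ∑ n ∈ Icc N (2 * N), b n * Complex.exp (((t * log (n : ℝ) : ℝ) : ℂ) * Complex.I)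
      = ei (t * log N) * ∑ n ∈ Icc N (2 * N), b n * ei (t * log ((n : ℝ) / N)) := by
    rw [mul_sum]
    refine sum_congr rfl fun n hn => ?_
    have h1 : (0 : ℝ) < n := hN'.trans_le (by exact_mod_cast (mem_Icc.1 hn).1)
    rw [log_div h1.ne' hN'.ne', mul_left_comm, ← ei_add]
    congr 1
    show ei _ = _
    congr 1
    ring
  rw [h, norm_mul, norm_ei, one_mul]

/-- some derivative is large at the integer part -/
lemma Real_exists {N : ℕ} (b : ℕ → ℂ) {t V : ℝ} (hV : 0 < V)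
    (h : V ≤ ‖∑ n ∈ Icc N (2 * N), b n * ei (t * log ((n : ℝ) / N))‖) :
    ∃ j : ℕ, V / (4 * (2 ^ j / j.factorial)) < ‖DD N (Real_b N b j) ⌊t⌋‖ := by
  by_contra hc
  push Not at hc
  have h1 := Real_hasSum N b ⌊t⌋ (Int.fract t)
  rw [Int.floor_add_fract] at h1
  have h2 : HasSum (fun j : ℕ => V / 4 * (1 / 2) ^ j) (V / 4 * 2) :=
    hasSum_geometric_two.mul_left _
  have h3 := h1.norm_le_of_bounded h2 fun j => by
    have hf : (0 : ℝ) < j.factorial := by exact_mod_cast j.factorial_pos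
    have h4 : Int.fract t ^ j ≤ 1 := pow_le_one₀ (Int.fract_nonneg t) (Int.fract_lt_one t).le
    have h5 : 0 ≤ Int.fract t ^ j := pow_nonneg (Int.fract_nonneg t) j
    rw [norm_mul, Complex.norm_real, Real.norm_eq_abs, abs_of_nonneg (by positivity)]
    calc _ ≤ 1 / (j.factorial : ℝ) * (V / (4 * (2 ^ j / j.factorial))) := by
          gcongr
          exact hc j
      _ = _ := by
          rw [one_div_pow]
          field_simp
  linarith

theorem large_values_real : ∀ ε : ℝ, 0 < ε → ∃ C : ℝ, ∀ N : ℕ, 1 ≤ N → ∀ T V : ℝ, (N : ℝ) ≤ T →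
    0 < V → ∀ b : ℕ → ℂ, (∀ n, ‖b n‖ ≤ 1) → ∀ W : Finset ℝ,
      (∀ t ∈ W, ∀ t' ∈ W, t ≠ t' → 1 ≤ |t - t'|) →
      (∀ t ∈ W, 0 ≤ t ∧ t ≤ T ∧ V ≤ ‖∑ n ∈ Icc N (2 * N),
        b n * Complex.exp (((t * log (n : ℝ) : ℝ) : ℂ) * Complex.I)‖) →
        (W.card : ℝ) ≤ C * (N : ℝ) ^ ε * (N ^ 2 / V ^ 2
          + √(min T ((N : ℝ) ^ (88 / 73 : ℝ))) * N ^ 3 / V ^ 4
          + T * (N : ℝ) ^ (175 / 73 : ℝ) / V ^ 4) := by
  intro ε hε
  obtain ⟨C, hC⟩ := large_values ε hε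
  refine ⟨max C 0 * (4 * exp 2) ^ 4, fun N hN T V hT hV b hb W hsep hW => ?_⟩
  have hN' : (0 : ℝ) < N := by exact_mod_cast hN
  have hT0 : 0 ≤ T := hN'.le.trans hT
  set q : ℕ → ℝ := fun j => 4 * (2 ^ j / j.factorial) with hq
  have hq0 : ∀ j, 0 < q j := fun j => by
    have hf : (0 : ℝ) < j.factorial := by exact_mod_cast j.factorial_pos
    simp only [hq]
    positivity
  have hqs : ∀ s : Finset ℕ, ∑ j ∈ s, q j ≤ 4 * exp 2 := fun s => by
    have h1 := Real.sum_le_exp_of_nonneg (x := 2) (by norm_num) (s.sup id + 1)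
    calc ∑ j ∈ s, q j ≤ ∑ j ∈ range (s.sup id + 1), q j :=
          sum_le_sum_of_subset_of_nonneg (fun j hj => mem_range.2
            (Nat.lt_succ_of_le (le_sup (f := id) hj))) fun j _ _ => (hq0 j).le
      _ ≤ _ := by
          simp only [hq]
          rw [← mul_sum]
          linarith
  have hq1 : ∀ j, q j ≤ 4 * exp 2 := fun j => by simpa using hqs {j}
  have hQ : (1 : ℝ) ≤ 4 * exp 2 := by linarith [one_le_exp (x := 2) (by norm_num)]
  have hex : ∀ t : ℝ, ∃ j : ℕ, t ∈ W → V / q j < ‖DD N (Real_b N b j) ⌊t⌋‖ := fun t => by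
    by_cases ht : t ∈ W
    · obtain ⟨j, hj⟩ := Real_exists b hV ((hW t ht).2.2.trans (Real_norm hN b t).ge)
      exact ⟨j, fun _ => hj⟩
    · exact ⟨0, fun h => absurd h ht⟩
  choose J hJ using hex
  set X1 : ℝ := N ^ 2 / V ^ 2 with hX1
  set X2 : ℝ := √(min T ((N : ℝ) ^ (88 / 73 : ℝ))) * N ^ 3 / V ^ 4 with hX2
  set X3 : ℝ := T * (N : ℝ) ^ (175 / 73 : ℝ) / V ^ 4 with hX3
  have p1 : 0 ≤ X1 := by positivity
  have p2 : 0 ≤ X2 := by positivity
  have p3 : 0 ≤ X3 := by positivity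
  have hfib : ∀ j : ℕ, ((W.filter fun t => J t = j).card : ℝ)
      ≤ q j * (max C 0 * (4 * exp 2) ^ 3 * (N : ℝ) ^ ε * (X1 + X2 + X3)) := fun j => by
    have h1 : ((W.filter fun t => J t = j).image fun t => ⌊t⌋).card
        = (W.filter fun t => J t = j).card := card_image_of_injOn fun t ht t' ht' h => by
      by_contra hne
      have h2 := hsep t (mem_filter.1 ht).1 t' (mem_filter.1 ht').1 hne
      linarith [Int.abs_sub_lt_one_of_floor_eq_floor h]
    have h2 := hC N hN T (V / q j) hT (div_pos hV (hq0 j)) _ (Real_b_le hN hb j)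
      ((W.filter fun t => J t = j).image fun t => ⌊t⌋) fun k hk => by
        obtain ⟨t, ht, rfl⟩ := mem_image.1 hk
        obtain ⟨ht1, ht2⟩ := mem_filter.1 ht
        refine ⟨by exact_mod_cast Int.floor_nonneg.2 (hW t ht1).1,
          (Int.floor_le t).trans (hW t ht1).2.1, ?_⟩
        rw [← ht2]
        exact hJ t ht1
    rw [h1] at h2
    refine h2.trans ?_
    have e1 : (N : ℝ) ^ 2 / (V / q j) ^ 2 = q j ^ 2 * X1 := by
      rw [hX1]; field_simp
    have e2 : √(min T ((N : ℝ) ^ (88 / 73 : ℝ))) * N ^ 3 / (V / q j) ^ 4 = q j ^ 4 * X2 := by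
      rw [hX2]; field_simp
    have e3 : T * (N : ℝ) ^ (175 / 73 : ℝ) / (V / q j) ^ 4 = q j ^ 4 * X3 := by
      rw [hX3]; field_simp
    rw [e1, e2, e3]
    have a0 := hq0 j
    have a3 : q j ^ 3 ≤ (4 * exp 2) ^ 3 := pow_le_pow_left₀ a0.le (hq1 j) 3
    have a1 : q j ≤ (4 * exp 2) ^ 3 := (hq1 j).trans (le_self_pow₀ hQ (by norm_num))
    have a4 : q j ^ 2 * X1 + q j ^ 4 * X2 + q j ^ 4 * X3
        ≤ q j * (4 * exp 2) ^ 3 * (X1 + X2 + X3) := by
      have b1 : q j ^ 2 ≤ q j * (4 * exp 2) ^ 3 := by nlinarith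
      have b2 : q j ^ 4 ≤ q j * (4 * exp 2) ^ 3 := by nlinarith
      nlinarith [mul_le_mul_of_nonneg_right b1 p1, mul_le_mul_of_nonneg_right b2 p2,
        mul_le_mul_of_nonneg_right b2 p3]
    calc C * (N : ℝ) ^ ε * (q j ^ 2 * X1 + q j ^ 4 * X2 + q j ^ 4 * X3)
        ≤ max C 0 * (N : ℝ) ^ ε * (q j * (4 * exp 2) ^ 3 * (X1 + X2 + X3)) := by
          gcongr
          exact le_max_left _ _
      _ = _ := by ring
  rw [card_eq_sum_card_image J W]
  push_cast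
  calc _ ≤ ∑ j ∈ W.image J, q j * (max C 0 * (4 * exp 2) ^ 3 * (N : ℝ) ^ ε * (X1 + X2 + X3)) :=
        sum_le_sum fun j _ => hfib j
    _ = (∑ j ∈ W.image J, q j) * _ := (sum_mul _ _ _).symm
    _ ≤ (4 * exp 2) * (max C 0 * (4 * exp 2) ^ 3 * (N : ℝ) ^ ε * (X1 + X2 + X3)) := by
        gcongr
        exact hqs _
    _ = _ := by ring

end Pool.Agent.Lib.MP_ecd12e_nt.GM
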