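import Pool.Agent.Lib.MP_ecd12e_nt.GM.Kap3

/-! Integral representation of the trilinear form. -/

namespace Pool.Agent.Lib.MP_ecd12e_nt.GM

open Finset Real MeasureTheory
open Pool.Agent.Lib.MP_ecd12e_nt.Bar
open scoped ContDiff ComplexConjugate

lemma Rep_swap1 {A B C X : Type*} (a : Finset A) (b : Finset B) (c : Finset C) (x : Finset X)
    (f : A → B → C → X → ℂ) :
    ∑ i ∈ a, ∑ j ∈ b, ∑ k ∈ c, ∑ l ∈ x, f i j k l = ∑ l ∈ x, ∑ i ∈ a, ∑ j ∈ b, ∑ k ∈ c, f i j k l :=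
  (sum_congr rfl fun _ _ => (sum_congr rfl fun _ _ => sum_comm).trans sum_comm).trans sum_comm

lemma Rep_swap3 {A X Y Z : Type*} (a b c : Finset A) (x : Finset X) (y : Finset Y) (z : Finset Z)
    (f : A → A → A → X → Y → Z → ℂ) :
    ∑ i ∈ a, ∑ j ∈ b, ∑ k ∈ c, ∑ l ∈ x, ∑ m ∈ y, ∑ n ∈ z, f i j k l m n =
      ∑ l ∈ x, ∑ m ∈ y, ∑ n ∈ z, ∑ i ∈ a, ∑ j ∈ b, ∑ k ∈ c, f i j k l m n :=
  (Rep_swap1 _ _ _ _ _).trans (sum_congr rfl fun _ _ => (Rep_swap1 _ _ _ _ _).trans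
    (sum_congr rfl fun _ _ => Rep_swap1 _ _ _ _ _))

lemma Rep_mul3 {X Y Z : Type*} (x : Finset X) (y : Finset Y) (z : Finset Z) (r : ℂ) (f : X → ℂ)
    (g : Y → ℂ) (h : Z → ℂ) : r * ((∑ l ∈ x, f l) * (∑ m ∈ y, g m) * ∑ n ∈ z, h n) =
      ∑ l ∈ x, ∑ m ∈ y, ∑ n ∈ z, r * (f l * g m * h n) := by
  rw [sum_mul_sum, sum_mul, mul_sum]
  refine sum_congr rfl fun l _ => ?_
  rw [sum_mul_sum, mul_sum]
  exact sum_congr rfl fun m _ => mul_sum _ _ _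

lemma Rep_mem_MM {M : ℕ} {m : ℤ} : m ∈ MM M ↔ m ≠ 0 ∧ -(M : ℤ) < m ∧ m < M := by
  simp only [MM, mem_erase, mem_Ioo]

lemma Rep_mem_pos {μ : ℕ} {m : ℤ} : m ∈ sb 1 μ ↔ (μ : ℤ) ≤ m ∧ m < 2 * μ := by
  simp only [sb, blk, mem_image, mem_Ico]
  exact ⟨fun ⟨n, h1, h2⟩ => by omega, fun h => ⟨m.toNat, by omega, by omega⟩⟩

lemma Rep_mem_neg {μ : ℕ} {m : ℤ} : m ∈ sb (-1) μ ↔ (μ : ℤ) ≤ -m ∧ -m < 2 * μ := by
  simp only [sb, blk, mem_image, mem_Ico]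
  exact ⟨fun ⟨n, h1, h2⟩ => by omega, fun h => ⟨(-m).toNat, by omega, by omega⟩⟩

lemma Rep_double (N : ℕ) {μ : ℕ} (hμ : 1 ≤ μ) (s : ℤ) :
    kB N (MM (2 * μ)) s = kB N (MM μ) s + (kB N (sb 1 μ) s + kB N (sb (-1) μ) s) := by
  have h : MM (2 * μ) = MM μ ∪ (sb 1 μ ∪ sb (-1) μ) := by
    ext m
    simp only [mem_union, Rep_mem_MM, Rep_mem_pos, Rep_mem_neg]
    omega
  unfold kB
  rw [h, sum_union, sum_union]
  · refine disjoint_left.2 fun m h1 h2 => ?_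
    rw [Rep_mem_pos] at h1
    rw [Rep_mem_neg] at h2
    omega
  · refine disjoint_left.2 fun m h1 h2 => ?_
    simp only [mem_union, Rep_mem_MM, Rep_mem_pos, Rep_mem_neg] at h1 h2
    omega

lemma Rep_int {E : Type*} [NormedAddCommGroup E] {G : ℝ × ℝ → E} (hG : Continuous G)
    (h0 : ∀ z : ℝ × ℝ, 2 ≤ |z.1| ∨ 2 ≤ |z.2| → G z = 0) : Integrable G := by
  refine hG.integrable_of_hasCompactSupport (HasCompactSupport.intro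
    ((isCompact_Icc (a := (-2 : ℝ)) (b := 2)).prod (isCompact_Icc (a := (-2 : ℝ)) (b := 2)))
    fun z hz => h0 z ?_)
  by_contra hc
  push Not at hc
  exact hz ⟨abs_le.1 hc.1.le, abs_le.1 hc.2.le⟩

theorem tri_cyc (N : ℕ) (S B1 B2 B3 : Finset ℤ) (ρ1 ρ2 ρ3 : ℤ → ℂ) :
    tri N S B1 B2 B3 ρ1 ρ2 ρ3 = tri N S B2 B3 B1 ρ2 ρ3 ρ1 := by
  unfold tri
  rw [sum_comm]
  refine sum_congr rfl fun t2 _ => ?_
  rw [sum_comm]
  exact sum_congr rfl fun t3 _ => sum_congr rfl fun t1 _ => by ring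

theorem tri_add2 (N : ℕ) (S B1 B2 B3 : Finset ℤ) (ρ1 ρ2 ρ2' ρ3 : ℤ → ℂ) :
    tri N S B1 B2 B3 ρ1 (ρ2 + ρ2') ρ3
      = tri N S B1 B2 B3 ρ1 ρ2 ρ3 + tri N S B1 B2 B3 ρ1 ρ2' ρ3 := by
  simp only [tri, ← sum_add_distrib, Pi.add_apply]
  exact sum_congr rfl fun _ _ => sum_congr rfl fun _ _ => sum_congr rfl fun _ _ => by ring

theorem tri_add3 (N : ℕ) (S B1 B2 B3 : Finset ℤ) (ρ1 ρ2 ρ3 ρ3' : ℤ → ℂ) :
    tri N S B1 B2 B3 ρ1 ρ2 (ρ3 + ρ3')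
      = tri N S B1 B2 B3 ρ1 ρ2 ρ3 + tri N S B1 B2 B3 ρ1 ρ2 ρ3' := by
  simp only [tri, ← sum_add_distrib, Pi.add_apply]
  exact sum_congr rfl fun _ _ => sum_congr rfl fun _ _ => sum_congr rfl fun _ _ => by ring

/-- `MM (2 ^ J)` is the disjoint union of the signed dyadic blocks. -/
theorem kB_MM (N J : ℕ) (s : ℤ) :
    kB N (MM (2 ^ J)) s = ∑ p ∈ range J ×ˢ ({1, -1} : Finset ℤ), kB N (sb p.2 (2 ^ p.1)) s := by
  rw [sum_product]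
  induction J with
  | zero =>
    have h : MM (2 ^ 0) = ∅ := by
      ext m
      simp only [Rep_mem_MM, notMem_empty, iff_false]
      omega
    rw [h]
    simp [kB]
  | succ J ih =>
    rw [sum_range_succ, ← ih, pow_succ', Rep_double N Nat.one_le_two_pow,
      sum_pair (by norm_num)]

theorem tri_MM (N J : ℕ) (S : Finset ℤ) (ρ1 ρ2 ρ3 : ℤ → ℂ) :
    tri N S (MM (2 ^ J)) (MM (2 ^ J)) (MM (2 ^ J)) ρ1 ρ2 ρ3
      = ∑ p1 ∈ range J ×ˢ ({1, -1} : Finset ℤ), ∑ p2 ∈ range J ×ˢ ({1, -1} : Finset ℤ),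
        ∑ p3 ∈ range J ×ˢ ({1, -1} : Finset ℤ),
          tri N S (sb p1.2 (2 ^ p1.1)) (sb p2.2 (2 ^ p2.1)) (sb p3.2 (2 ^ p3.1)) ρ1 ρ2 ρ3 := by
  unfold tri
  rw [← Rep_swap3]
  simp only [kB_MM, Rep_mul3]

theorem sb_subset {e : ℤ} (he : Sg e) {μ M : ℕ} (h1 : 1 ≤ μ) (h2 : 2 * μ ≤ M) :
    sb e μ ⊆ MM M := by
  intro m hm
  rw [Rep_mem_MM]
  rcases he with rfl | rfl
  · rw [Rep_mem_pos] at hm
    omega
  · rw [Rep_mem_neg] at hm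
    omega

/-- continuous, and of compact support by `Psi_le` -/
theorem integrable_Psi {F : ℝ × ℝ → ℂ} (hF : Continuous F) (ξ1 ξ2 ξ3 : ℝ) :
    Integrable fun z : ℝ × ℝ => F z * Psi ξ1 ξ2 ξ3 z.1 z.2 := by
  obtain ⟨C, -, h⟩ := Psi_le
  refine Rep_int (hF.mul (continuous_Psi ξ1 ξ2 ξ3)) fun z hz => ?_
  have h1 := h ξ1 ξ2 ξ3 z.1 z.2
  have h2 : chi (z.1 - z.2) * chi (-z.1) * chi z.2 = 0 := by
    rcases hz with hz | hz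
    · rw [chi_neg, chi_eq_zero hz, mul_zero, zero_mul]
    · rw [chi_eq_zero hz, mul_zero]
  rw [h2, zero_mul, mul_zero] at h1
  rw [norm_le_zero_iff.1 h1, mul_zero]

/-- `kap_three` with `α = t1 - t2`, `β = t2 - t3`, `γ = t3 - t1`. -/
theorem tri_eq (N : ℕ) (S B1 B2 B3 : Finset ℤ) (ρ1 ρ2 ρ3 : ℤ → ℂ) :
    tri N S B1 B2 B3 ρ1 ρ2 ρ3 = ∑ m1 ∈ B1, ∑ m2 ∈ B2, ∑ m3 ∈ B3, ∫ z : ℝ × ℝ,
      tp S ρ1 (z.1 - z.2) * tp S ρ2 (-z.1) * tp S ρ3 z.2 *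
        Psi (m1 * N) (m2 * N) (m3 * N) z.1 z.2 := by
  unfold tri kB
  simp only [Rep_mul3]
  rw [Rep_swap3]
  refine sum_congr rfl fun m1 _ => sum_congr rfl fun m2 _ => sum_congr rfl fun m3 _ => ?_
  have hi : ∀ t1 t2 t3 : ℤ, Integrable fun z : ℝ × ℝ => (ρ1 t1 * ρ2 t2 * ρ3 t3 *
      ei (((t1 - t2 : ℤ) : ℝ) * z.1 + ((t3 - t1 : ℤ) : ℝ) * z.2)) *
      Psi (m1 * N) (m2 * N) (m3 * N) z.1 z.2 := fun t1 t2 t3 => integrable_Psi (by fun_prop) _ _ _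
  have h1 : ∀ z : ℝ × ℝ, tp S ρ1 (z.1 - z.2) * tp S ρ2 (-z.1) * tp S ρ3 z.2 *
      Psi (m1 * N) (m2 * N) (m3 * N) z.1 z.2 = ∑ t1 ∈ S, ∑ t2 ∈ S, ∑ t3 ∈ S,
      (ρ1 t1 * ρ2 t2 * ρ3 t3 * ei (((t1 - t2 : ℤ) : ℝ) * z.1 + ((t3 - t1 : ℤ) : ℝ) * z.2)) *
      Psi (m1 * N) (m2 * N) (m3 * N) z.1 z.2 := by
    intro z
    unfold tp
    rw [mul_comm, Rep_mul3]
    refine sum_congr rfl fun t1 _ => sum_congr rfl fun t2 _ => sum_congr rfl fun t3 _ => ?_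
    have h2 : ((t1 - t2 : ℤ) : ℝ) * z.1 + ((t3 - t1 : ℤ) : ℝ) * z.2 =
        t1 * (z.1 - z.2) + t2 * -z.1 + t3 * z.2 := by
      push_cast
      ring
    rw [h2, ei_add, ei_add]
    ring
  simp only [h1]
  rw [integral_finsetSum _ fun t1 _ => integrable_finsetSum _ fun t2 _ =>
    integrable_finsetSum _ fun t3 _ => hi t1 t2 t3]
  refine sum_congr rfl fun t1 _ => ?_
  rw [integral_finsetSum _ fun t2 _ => integrable_finsetSum _ fun t3 _ => hi t1 t2 t3]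
  refine sum_congr rfl fun t2 _ => ?_
  rw [integral_finsetSum _ fun t3 _ => hi t1 t2 t3]
  refine sum_congr rfl fun t3 _ => ?_
  rw [kap_three (by push_cast; ring), ← integral_const_mul]
  simp only [mul_assoc]

/-- `tri_eq` and `Psi_le`. -/
theorem tri_le_abs : ∃ C : ℝ, 0 < C ∧ ∀ (N M : ℕ) (S B1 B2 B3 : Finset ℤ) (ρ1 ρ2 ρ3 : ℤ → ℂ),
    B1 ⊆ MM M → B2 ⊆ MM M → B3 ⊆ MM M → ‖tri N S B1 B2 B3 ρ1 ρ2 ρ3‖ ≤ C * ∫ z : ℝ × ℝ,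
      ab S ρ1 (z.1 - z.2) * ab S ρ2 (-z.1) * ab S ρ3 z.2 * Xi N (MM M) (MM M) (MM M) z := by
  obtain ⟨C, hC, h⟩ := Psi_le
  refine ⟨C, hC, fun N M S B1 B2 B3 ρ1 ρ2 ρ3 h1 h2 h3 => ?_⟩
  obtain ⟨G, hG⟩ : ∃ G : ℤ → ℤ → ℤ → ℝ × ℝ → ℝ, G = fun (m1 m2 m3 : ℤ) (z : ℝ × ℝ) =>
      ab S ρ1 (z.1 - z.2) * ab S ρ2 (-z.1) * ab S ρ3 z.2 *
        ps (N * (m1 * exp z.1 + m2 + m3 * exp z.2)) := ⟨_, rfl⟩
  have hi : ∀ m1 m2 m3, Integrable (G m1 m2 m3) := by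
    intro m1 m2 m3
    have c1 := (nice_ab S ρ1).cont
    have c2 := (nice_ab S ρ2).cont
    have c3 := (nice_ab S ρ3).cont
    rw [hG]
    refine Rep_int (by fun_prop) fun z hz => ?_
    beta_reduce
    rcases hz with hz | hz
    · rw [(nice_ab S ρ2).supp _ (by rwa [abs_neg]), mul_zero, zero_mul, zero_mul]
    · rw [(nice_ab S ρ3).supp _ hz, mul_zero, zero_mul]
  have h0 : ∀ m1 m2 m3, 0 ≤ ∫ z, G m1 m2 m3 z := fun m1 m2 m3 => integral_nonneg fun z => by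
    rw [hG]
    exact mul_nonneg (mul_nonneg (mul_nonneg ((nice_ab S ρ1).nonneg _) ((nice_ab S ρ2).nonneg _))
      ((nice_ab S ρ3).nonneg _)) (ps_pos _).le
  have h4 : ∫ z : ℝ × ℝ, ab S ρ1 (z.1 - z.2) * ab S ρ2 (-z.1) * ab S ρ3 z.2 *
      Xi N (MM M) (MM M) (MM M) z =
      ∑ m1 ∈ MM M, ∑ m2 ∈ MM M, ∑ m3 ∈ MM M, ∫ z, G m1 m2 m3 z := by
    have h5 : ∀ z : ℝ × ℝ, ab S ρ1 (z.1 - z.2) * ab S ρ2 (-z.1) * ab S ρ3 z.2 *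
        Xi N (MM M) (MM M) (MM M) z = ∑ m1 ∈ MM M, ∑ m2 ∈ MM M, ∑ m3 ∈ MM M, G m1 m2 m3 z := by
      intro z
      simp only [Xi, mul_sum, hG]
    simp only [h5]
    rw [integral_finsetSum _ fun t1 _ => integrable_finsetSum _ fun t2 _ =>
      integrable_finsetSum _ fun t3 _ => hi t1 t2 t3]
    refine sum_congr rfl fun t1 _ => ?_
    rw [integral_finsetSum _ fun t2 _ => integrable_finsetSum _ fun t3 _ => hi t1 t2 t3]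
    exact sum_congr rfl fun t2 _ => integral_finsetSum _ fun t3 _ => hi t1 t2 t3
  have h6 : ‖tri N S B1 B2 B3 ρ1 ρ2 ρ3‖ ≤
      ∑ m1 ∈ B1, ∑ m2 ∈ B2, ∑ m3 ∈ B3, C * ∫ z, G m1 m2 m3 z := by
    rw [tri_eq]
    refine norm_sum_le_of_le _ fun m1 _ => norm_sum_le_of_le _ fun m2 _ =>
      norm_sum_le_of_le _ fun m3 _ => ?_
    rw [← integral_const_mul]
    refine norm_integral_le_of_norm_le ((hi m1 m2 m3).const_mul C)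
      (Filter.Eventually.of_forall fun z => ?_)
    have a1 := mul_le_mul_of_nonneg_left (h (m1 * N) (m2 * N) (m3 * N) z.1 z.2)
      (show 0 ≤ ‖tp S ρ1 (z.1 - z.2)‖ * ‖tp S ρ2 (-z.1)‖ * ‖tp S ρ3 z.2‖ by positivity)
    have a2 : (m1 : ℝ) * N * exp z.1 + m2 * N + m3 * N * exp z.2 =
        N * (m1 * exp z.1 + m2 + m3 * exp z.2) := by ring
    rw [a2] at a1
    rw [norm_mul, norm_mul, norm_mul, hG]
    refine a1.trans_eq ?_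
    unfold ab
    ring
  rw [h4]
  simp only [← mul_sum] at h6
  refine h6.trans (mul_le_mul_of_nonneg_left ?_ hC.le)
  refine (sum_le_sum fun m1 _ => ?_).trans (sum_le_sum_of_subset_of_nonneg h1 fun m1 _ _ =>
    sum_nonneg fun m2 _ => sum_nonneg fun m3 _ => h0 m1 m2 m3)
  refine (sum_le_sum fun m2 _ => ?_).trans (sum_le_sum_of_subset_of_nonneg h2 fun m2 _ _ =>
    sum_nonneg fun m3 _ => h0 m1 m2 m3)
  exact sum_le_sum_of_subset_of_nonneg h3 fun m3 _ _ => h0 m1 m2 m3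

end Pool.Agent.Lib.MP_ecd12e_nt.GM
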