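import Pool.Agent.Lib.MP_ecd12e_nt.GM.Rep

/-! Rescaling the lines. -/

namespace Pool.Agent.Lib.MP_ecd12e_nt.GM

open Finset Real MeasureTheory
open Pool.Agent.Lib.MP_ecd12e_nt.Bar
open scoped ContDiff ComplexConjugate

lemma Resc0_aux1 (N : ℕ) (e1 e2 e3 : ℤ) {n1 n2 n3 : ℕ} (h1 : 1 ≤ n1) (h2 : 1 ≤ n2) (h3 : 1 ≤ n3)
    (a c : ℝ) :
    Psi (((e1 * (n1 : ℤ) : ℤ) : ℝ) * N) (((e2 * (n2 : ℤ) : ℤ) : ℝ) * N)
      (((e3 * (n3 : ℤ) : ℤ) : ℝ) * N) (a + (-log n1 + log n2)) (c + (-log n3 + log n2))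
      = ∫ σ, ((Wd 0 (σ + (a - log n1)) * Wd 0 (σ + -log n2) * Wd 0 (σ + (c - log n3)) : ℝ) : ℂ) *
        ei (-(2 * π * exp σ * (N * (e1 * exp a + e2 + e3 * exp c)))) := by
  have p1 : (0 : ℝ) < n1 := by exact_mod_cast h1
  have p2 : (0 : ℝ) < n2 := by exact_mod_cast h2
  have p3 : (0 : ℝ) < n3 := by exact_mod_cast h3
  unfold Psi
  rw [← integral_add_right_eq_self _ (-log (n2 : ℝ))]
  refine integral_congr_ae (Filter.Eventually.of_forall fun σ => ?_)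
  have e1' : σ + -log (n2 : ℝ) + (a + (-log n1 + log n2)) = σ + (a - log n1) := by ring
  have e3' : σ + -log (n2 : ℝ) + (c + (-log n3 + log n2)) = σ + (c - log n3) := by ring
  have e4 : -(2 * π * exp (σ + -log (n2 : ℝ)) *
      ((((e1 * (n1 : ℤ) : ℤ) : ℝ) * N) * exp (a + (-log n1 + log n2)) +
        (((e2 * (n2 : ℤ) : ℤ) : ℝ) * N) +
        (((e3 * (n3 : ℤ) : ℤ) : ℝ) * N) * exp (c + (-log n3 + log n2))))
      = -(2 * π * exp σ * (N * (e1 * exp a + e2 + e3 * exp c))) := by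
    simp only [exp_add, exp_neg, exp_log p1, exp_log p2, exp_log p3]
    push_cast
    field_simp
  simp only [Wd_zero]
  rw [e1', e3', e4]

lemma Resc0_aux2 (c : ℂ) (p q r y : ℝ) :
    Integrable fun σ : ℝ => c * ((Wd 0 (σ + p) * Wd 0 (σ + q) * Wd 0 (σ + r) : ℝ) : ℂ) *
      ei (-(2 * π * exp σ * y)) := by
  refine Continuous.integrable_of_hasCompactSupport (by fun_prop) ?_
  refine HasCompactSupport.intro (isCompact_Icc (a := -(3 / 4) - q) (b := 1 - q)) fun σ hσ => ?_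
  have h : Wd 0 (σ + q) = 0 := by
    refine Wd_eq_zero 0 ?_
    by_contra hc
    push Not at hc
    exact hσ ⟨by linarith [hc.1], by linarith [hc.2]⟩
  rw [h]
  simp

lemma Resc0_aux3 {e : ℤ} (he : Sg e) (μ : ℕ) (f : ℤ → ℂ) :
    ∑ m ∈ sb e μ, f m = ∑ n ∈ blk μ, f (e * n) := by
  unfold sb
  refine sum_image fun x _ y _ hxy => ?_
  have h0 : e ≠ 0 := by rcases he with h | h <;> simp [h]
  exact_mod_cast mul_left_cancel₀ h0 hxy

/-- In `tri_eq` write `m_i = e_i n_i`, translate `z ↦ (z.1 - log n1 + log n2, z.2 - log n3 + log n2)`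
(`integral_add_right_eq_self` on `ℝ × ℝ`) and `σ ↦ σ - log n2` in `Psi`; take the finite sum
inside both integrals. -/
theorem tri_resc (N : ℕ) (S : Finset ℤ) {M : ℕ} {e1 e2 e3 : ℤ} {μ1 μ2 μ3 : ℕ}
    (h : Blk M e1 e2 e3 μ1 μ2 μ3) (ρ1 ρ2 ρ3 : ℤ → ℂ) :
    tri N S (sb e1 μ1) (sb e2 μ2) (sb e3 μ3) ρ1 ρ2 ρ3 = ∫ z : ℝ × ℝ, ∫ σ,
      S3w (blk μ1 ×ˢ blk μ2 ×ˢ blk μ3)
        (fun n => tp S ρ1 (z.1 - z.2 - log n.1 + log n.2.2) *
          (tp S ρ2 (-z.1 - log n.2.1 + log n.1) * tp S ρ3 (z.2 - log n.2.2 + log n.2.1)))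
        (fun n => z.1 - log n.1) (fun n => -log n.2.1) (fun n => z.2 - log n.2.2) 0 0 0 σ *
        ei (-(2 * π * exp σ * (N * (e1 * exp z.1 + e2 + e3 * exp z.2)))) := by
  have hμ1 : 1 ≤ μ1 := h.pos.trans h.le1
  have hμ3 : 1 ≤ μ3 := h.pos.trans h.le3
  have hb : ∀ {μ n : ℕ}, 1 ≤ μ → n ∈ blk μ → 1 ≤ n := fun hμ hn =>
    hμ.trans (mem_Ico.1 hn).1
  set F : ℝ × ℝ → ℂ := fun z => tp S ρ1 (z.1 - z.2) * tp S ρ2 (-z.1) * tp S ρ3 z.2 with hF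
  have hFc : Continuous F := by rw [hF]; fun_prop
  set G : ℕ × ℕ × ℕ → ℝ × ℝ → ℂ := fun n z => F z *
    Psi (((e1 * (n.1 : ℤ) : ℤ) : ℝ) * N) (((e2 * (n.2.1 : ℤ) : ℤ) : ℝ) * N)
      (((e3 * (n.2.2 : ℤ) : ℤ) : ℝ) * N) z.1 z.2 with hG
  set v : ℕ × ℕ × ℕ → ℝ × ℝ := fun n => (-log n.1 + log n.2.1, -log n.2.2 + log n.2.1) with hv
  have hGi : ∀ n, Integrable (G n) := fun n => integrable_Psi hFc _ _ _
  have h1 : tri N S (sb e1 μ1) (sb e2 μ2) (sb e3 μ3) ρ1 ρ2 ρ3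
      = ∑ n ∈ blk μ1 ×ˢ blk μ2 ×ˢ blk μ3, ∫ z, G n (z + v n) := by
    rw [tri_eq, Resc0_aux3 h.s1, sum_product]
    refine sum_congr rfl fun n1 _ => ?_
    rw [Resc0_aux3 h.s2, sum_product]
    refine sum_congr rfl fun n2 _ => ?_
    rw [Resc0_aux3 h.s3]
    refine sum_congr rfl fun n3 _ => ?_
    rw [integral_add_right_eq_self (G (n1, n2, n3))]
  rw [h1, ← integral_finsetSum _ fun n _ => (hGi n).comp_add_right (v n)]
  refine integral_congr_ae (Filter.Eventually.of_forall fun z => ?_)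
  simp only [S3w, sum_mul]
  rw [integral_finsetSum _ fun n _ => Resc0_aux2 _ _ _ _ _]
  refine sum_congr rfl fun n hn => ?_
  obtain ⟨hn1, hn23⟩ := mem_product.1 hn
  obtain ⟨hn2, hn3⟩ := mem_product.1 hn23
  simp only [hG, hF, hv, Prod.fst_add, Prod.snd_add]
  rw [Resc0_aux1 N e1 e2 e3 (hb hμ1 hn1) (hb h.pos hn2) (hb hμ3 hn3), ← integral_const_mul]
  refine integral_congr_ae (Filter.Eventually.of_forall fun σ => ?_)
  have e1' : z.1 + (-log (n.1 : ℝ) + log n.2.1) - (z.2 + (-log n.2.2 + log n.2.1))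
      = z.1 - z.2 - log n.1 + log n.2.2 := by ring
  have e2' : -(z.1 + (-log (n.1 : ℝ) + log n.2.1)) = -z.1 - log n.2.1 + log n.1 := by ring
  have e3' : z.2 + (-log (n.2.2 : ℝ) + log n.2.1) = z.2 - log n.2.2 + log n.2.1 := by ring
  simp only []
  rw [e1', e2', e3']
  ring

end Pool.Agent.Lib.MP_ecd12e_nt.GM
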