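import Pool.Agent.Lib.MP_ecd12e_nt.GM.Tail

/-! Quadratic forms of the kernels. -/

namespace Pool.Agent.Lib.MP_ecd12e_nt.GM

open Finset Real MeasureTheory
open Pool.Agent.Lib.MP_ecd12e_nt.Bar
open scoped ContDiff ComplexConjugate

/-- the quadratic form of a Toeplitz kernel -/
noncomputable def qf (S : Finset ℤ) (k : ℤ → ℂ) (η : ℤ → ℂ) : ℂ :=
  ∑ t ∈ S, ∑ t' ∈ S, η t * conj (η t') * k (t - t')

theorem Rest_sq (S : Finset ℤ) (η : ℤ → ℂ) (θ : ℝ) : ((‖tp S η θ‖ ^ 2 : ℝ) : ℂ) =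
    ∑ t ∈ S, ∑ t' ∈ S, η t * conj (η t') * ei (((t - t' : ℤ) : ℝ) * θ) := by
  rw [← Complex.normSq_eq_norm_sq, ← Complex.mul_conj, tp, map_sum, sum_mul_sum]
  refine sum_congr rfl fun t _ => sum_congr rfl fun t' _ => ?_
  rw [map_mul, conj_ei, mul_mul_mul_comm, ← ei_add]
  congr 2
  push_cast
  ring

theorem qf_kfull (N : ℕ) (S : Finset ℤ) (η : ℤ → ℂ) : qf S (kfull N) η
    = ((∑ n ∈ Icc 1 (3 * N), bump ((n : ℝ) / N) * ‖tp S η (log ((n : ℝ) / N))‖ ^ 2 : ℝ) : ℂ) := by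
  simp only [qf, kfull, Complex.ofReal_sum, Complex.ofReal_mul, Rest_sq, mul_sum]
  rw [sum_comm]
  refine (sum_congr rfl fun t _ => sum_comm).trans (sum_comm.trans ?_)
  refine sum_congr rfl fun n _ => sum_comm.trans ?_
  exact sum_congr rfl fun t _ => sum_congr rfl fun t' _ => by ring

theorem qf_kfull_nonneg (N : ℕ) (S : Finset ℤ) (η : ℤ → ℂ) : 0 ≤ (qf S (kfull N) η).re := by
  rw [qf_kfull, Complex.ofReal_re]
  exact sum_nonneg fun n _ => mul_nonneg bump.nonneg (sq_nonneg _)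

/-- Cauchy-Schwarz in `n`; `N + 1 ≤ 2 N` terms, `bump = 1` on `[1, 2]`. -/
theorem dual_ineq {N : ℕ} (hN : 1 ≤ N) {b : ℕ → ℂ} (hb : ∀ n, ‖b n‖ ≤ 1) (S : Finset ℤ)
    (η : ℤ → ℂ) : ‖∑ t ∈ S, η t * DD N b t‖ ^ 2 ≤ 2 * N * (qf S (kfull N) η).re := by
  have hN0 : (0 : ℝ) < N := by exact_mod_cast hN
  have e : ∑ t ∈ S, η t * DD N b t = ∑ n ∈ Icc N (2 * N), b n * tp S η (log ((n : ℝ) / N)) := by
    simp only [DD, tp, mul_sum]
    rw [sum_comm]
    exact sum_congr rfl fun n _ => sum_congr rfl fun t _ => by ring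
  have h1 : ‖∑ t ∈ S, η t * DD N b t‖ ≤ ∑ n ∈ Icc N (2 * N), ‖tp S η (log ((n : ℝ) / N))‖ := by
    rw [e]
    refine norm_sum_le_of_le _ fun n _ => ?_
    rw [norm_mul]
    exact mul_le_of_le_one_left (norm_nonneg _) (hb n)
  refine (pow_le_pow_left₀ (norm_nonneg _) h1 2).trans (sq_sum_le_card_mul_sum_sq.trans ?_)
  rw [qf_kfull, Complex.ofReal_re]
  refine mul_le_mul ?_ ?_ (sum_nonneg fun _ _ => sq_nonneg _) (by positivity)
  · rw [Nat.card_Icc]
    exact_mod_cast (by omega : 2 * N + 1 - N ≤ 2 * N)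
  · refine le_trans (le_of_eq (sum_congr rfl fun n hn => ?_)) (sum_le_sum_of_subset_of_nonneg
      (Icc_subset_Icc hN (by omega)) fun n _ _ => mul_nonneg bump.nonneg (sq_nonneg _))
    rw [mem_Icc] at hn
    rw [bump_one, one_mul]
    · rw [le_div_iff₀ hN0, one_mul]
      exact_mod_cast hn.1
    · rw [div_le_iff₀ hN0]
      exact_mod_cast hn.2

theorem Rest_WW (θ : ℝ) : WW θ ≤ 3 * chi θ ^ 2 := by
  by_cases h : θ < -(7 / 10) ∨ 19 / 20 < θ
  · rw [WW_zero h]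
    positivity
  · push Not at h
    rw [chi_eq_one (abs_le.2 ⟨by linarith, by linarith⟩), WW]
    have h1 : exp θ ≤ exp 1 := exp_le_exp.2 (by linarith)
    have h2 := mul_le_of_le_one_left (exp_pos θ).le (bump.le_one (x := exp θ))
    linarith [exp_one_lt_d9]

theorem Rest_int {g : ℝ → ℂ} (hg : Continuous g) : Integrable fun θ => (WW θ : ℂ) * g θ := by
  have h : HasCompactSupport fun θ => (WW θ : ℂ) :=
    (Wd_zero ▸ compact_Wd 0 : HasCompactSupport WW).comp_left Complex.ofReal_zero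
  exact Continuous.integrable_of_hasCompactSupport (by fun_prop) h.mul_right

/-- The form of `kap s 0` is `∫ WW ‖tp S η‖ ^ 2 ≤ 3 * 2 π * sq2 S η` (`WW ≤ 3 chi ^ 2`,
`int_ab_sq`). -/
theorem qf_zero (S : Finset ℤ) (η : ℤ → ℂ) :
    ‖qf S (fun s => kap s 0) η‖ ≤ 20 * sq2 S η := by
  have e : qf S (fun s => kap s 0) η = ((∫ θ, WW θ * ‖tp S η θ‖ ^ 2 : ℝ) : ℂ) := by
    have hi : ∀ t t' : ℤ, Integrable fun θ : ℝ =>
        (WW θ : ℂ) * (η t * conj (η t') * ei (((t - t' : ℤ) : ℝ) * θ)) :=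
      fun t t' => Rest_int (by fun_prop)
    rw [← integral_complex_ofReal]
    simp only [Complex.ofReal_mul, Rest_sq, mul_sum]
    rw [integral_finsetSum _ fun t _ => integrable_finsetSum _ fun t' _ => hi t t']
    refine sum_congr rfl fun t _ => ?_
    rw [integral_finsetSum _ fun t' _ => hi t t']
    refine sum_congr rfl fun t' _ => ?_
    beta_reduce
    rw [kap, ← integral_const_mul]
    refine integral_congr_ae (ae_of_all _ fun θ => ?_)
    simp only [mul_zero, zero_mul, sub_zero]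
    ring
  have h1 : ∫ θ, WW θ * ‖tp S η θ‖ ^ 2 ≤ ∫ θ, 3 * ab S η θ ^ 2 := by
    refine integral_mono_of_nonneg (ae_of_all _ fun θ => mul_nonneg (WW_nonneg θ) (sq_nonneg _))
      (((nice_ab S η).pow two_ne_zero).integrable.const_mul 3) (ae_of_all _ fun θ => ?_)
    beta_reduce
    rw [ab, mul_pow, ← mul_assoc]
    exact mul_le_mul_of_nonneg_right (Rest_WW θ) (sq_nonneg _)
  rw [integral_const_mul] at h1
  rw [e, Complex.norm_real, Real.norm_of_nonneg
    (integral_nonneg fun θ => mul_nonneg (WW_nonneg θ) (sq_nonneg _))]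
  have h2 := int_ab_sq S η
  have h3 := mul_le_mul_of_nonneg_right pi_lt_d2.le (sq2_nonneg S η)
  have h4 := sq2_nonneg S η
  linarith

theorem Rest_qf_le (S : Finset ℤ) (k η : ℤ → ℂ) {c : ℝ} (hc : 0 ≤ c)
    (h : ∀ t ∈ S, ∀ t' ∈ S, ‖k (t - t')‖ ≤ c) : ‖qf S k η‖ ≤ c * (S.card * sq2 S η) := by
  have h1 : ‖qf S k η‖ ≤ c * (∑ t ∈ S, ‖η t‖) ^ 2 := by
    rw [sq, sum_mul_sum, mul_sum]
    refine norm_sum_le_of_le _ fun t ht => ?_
    rw [mul_sum]
    refine norm_sum_le_of_le _ fun t' ht' => ?_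
    rw [norm_mul, norm_mul, Complex.norm_conj, mul_comm]
    exact mul_le_mul_of_nonneg_right (h t ht t' ht') (by positivity)
  exact h1.trans (mul_le_mul_of_nonneg_left sq_sum_le_card_mul_sum_sq hc)

/-- `qf_zero`, `tail`, and `(∑ ‖η‖) ^ 2 ≤ (8 T + 1) * sq2`. -/
theorem krest (B : ℕ) : ∃ C : ℝ, 0 < C ∧ ∀ (N T M : ℕ) (L : ℝ), 1 ≤ N → 1 ≤ L → (N : ℝ) ≤ L ^ B →
    N ≤ T → T ≤ N ^ 3 → T * L ≤ M * N → ∀ S : Finset ℤ, S ⊆ box (4 * T) → ∀ η : ℤ → ℂ,
      ‖qf S (kfull N) η - N * qf S (kB N (MM M)) η‖ ≤ C * N * sq2 S η := by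
  obtain ⟨C, hC, h⟩ := tail B
  refine ⟨20 + 9 * C, by positivity, fun N T M L hN hL hB hNT hTN hTL S hS η => ?_⟩
  have hN0 : (0 : ℝ) < N := by exact_mod_cast hN
  have hT1 : (1 : ℝ) ≤ T := by exact_mod_cast hN.trans hNT
  have e : qf S (kfull N) η - N * qf S (kB N (MM M)) η = N * qf S (fun s => kap s 0) η +
      qf S (fun s => kfull N s - N * kap s 0 - N * kB N (MM M) s) η := by
    simp only [qf, mul_sum, ← sum_sub_distrib, ← sum_add_distrib]
    exact sum_congr rfl fun t _ => sum_congr rfl fun t' _ => by ring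
  have h1 := Rest_qf_le S (fun s => kfull N s - N * kap s 0 - N * kB N (MM M) s) η
    (c := C * T / N ^ 5) (by positivity) fun t ht t' ht' => h N T M L hN hL hB hNT hTL _ (by
      have a := mem_Icc.1 (hS ht)
      have b := mem_Icc.1 (hS ht')
      push_cast at a b
      rw [abs_le]
      omega)
  have h2 : (S.card : ℝ) ≤ 9 * T := by
    have a := card_le_card hS
    rw [box, Int.card_Icc] at a
    have b : S.card ≤ 9 * T := by omega
    exact_mod_cast b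
  have h3 : C * T / N ^ 5 * (S.card * sq2 S η) ≤ 9 * C * N * sq2 S η := by
    have a : (T : ℝ) ≤ N ^ 3 := by exact_mod_cast hTN
    have b := sq2_nonneg S η
    rw [← mul_assoc]
    refine mul_le_mul_of_nonneg_right ?_ b
    calc C * T / N ^ 5 * S.card ≤ C * N ^ 3 / N ^ 5 * (9 * N ^ 3) := by
          gcongr
          linarith
      _ = 9 * C * N := by field_simp
  have h4 := mul_le_mul_of_nonneg_left (qf_zero S η) hN0.le
  rw [e]
  refine (norm_add_le _ _).trans ?_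
  rw [norm_mul, Complex.norm_natCast]
  linarith

end Pool.Agent.Lib.MP_ecd12e_nt.GM
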