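import Pool.Agent.Lib.MP_ecd12e_nt.GM.Pair

/-! The trilinear bound with absolute values. -/

namespace Pool.Agent.Lib.MP_ecd12e_nt.GM

open Finset Real MeasureTheory
open Pool.Agent.Lib.MP_ecd12e_nt.Bar
open scoped ContDiff ComplexConjugate

theorem Tri_geo {a b c : ℝ} (hc : 0 ≤ c) (h1 : c ≤ a) (h2 : c ≤ b) : c ≤ √a * √b := by
  rw [← Real.sqrt_mul (hc.trans h1)]
  exact Real.le_sqrt_of_sq_le (by rw [sq]; exact mul_le_mul h1 h2 hc (hc.trans h1))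

theorem Tri_geo3 {a b c : ℝ} (hc : 0 ≤ c) (h1 : c ≤ a) (h2 : c ≤ b) :
    a * b * c ≤ (a * √a) * (b * √b) := by
  have h := mul_le_mul_of_nonneg_left (Tri_geo hc h1 h2) (mul_nonneg (hc.trans h1) (hc.trans h2))
  linarith

theorem Tri_min {x y : ℝ} (hy : 0 < y) (h : y ≤ x) : min (x * √x) (x ^ 2 / √y) = x * √x := by
  have hx : 0 ≤ x := hy.le.trans h
  refine min_eq_left ?_
  rw [le_div_iff₀ (Real.sqrt_pos.2 hy), mul_assoc, sq]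
  refine mul_le_mul_of_nonneg_left ?_ hx
  exact (mul_le_mul_of_nonneg_left (Real.sqrt_le_sqrt h) (Real.sqrt_nonneg x)).trans_eq
    (Real.mul_self_sqrt hx)

theorem Tri_low {a b c y : ℝ} (ha : 0 ≤ a) (hb : 0 ≤ b) (h1 : c ≤ b) (h2 : c ≤ y) :
    a * b * c ≤ a * min (b ^ 2) (b * y) := by
  rw [mul_assoc]
  refine mul_le_mul_of_nonneg_left (le_min ?_ (mul_le_mul_of_nonneg_left h2 hb)) ha
  rw [sq]
  exact mul_le_mul_of_nonneg_left h1 hb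

/-- Consider which of the three numbers is the smallest. -/
theorem three_le {x1 x2 x3 y : ℝ} (h1 : 0 ≤ x1) (h2 : 0 ≤ x2) (h3 : 0 ≤ x3) (hy : 0 < y) :
    x1 * x2 * x3 ≤ (x1 * √x1) * (x2 * √x2) + (x1 * √x1) * (x3 * √x3)
      + x1 * min (x2 ^ 2) (x2 * y) + x1 * min (x3 ^ 2) (x3 * y)
      + min (x2 * √x2) (x2 ^ 2 / √y) * (x3 * √x3)
      + (x2 * √x2) * min (x3 * √x3) (x3 ^ 2 / √y) := by
  have t1 : 0 ≤ (x1 * √x1) * (x2 * √x2) := by positivity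
  have t2 : 0 ≤ (x1 * √x1) * (x3 * √x3) := by positivity
  have t3 : 0 ≤ x1 * min (x2 ^ 2) (x2 * y) := by positivity
  have t4 : 0 ≤ x1 * min (x3 ^ 2) (x3 * y) := by positivity
  have t5 : 0 ≤ min (x2 * √x2) (x2 ^ 2 / √y) * (x3 * √x3) := by positivity
  have t6 : 0 ≤ (x2 * √x2) * min (x3 * √x3) (x3 ^ 2 / √y) := by positivity
  rcases le_total x3 x2 with h | h
  · rcases le_total x3 y with h' | h'
    · linarith [Tri_low h1 h2 h h']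
    · rcases le_total x3 x1 with h'' | h''
      · linarith [Tri_geo3 h3 h'' h]
      · have k := Tri_geo3 h1 (h''.trans h) h''
        rw [Tri_min hy h'] at t6 ⊢
        linarith
  · rcases le_total x2 y with h' | h'
    · linarith [Tri_low h1 h3 h h']
    · rcases le_total x2 x1 with h'' | h''
      · linarith [Tri_geo3 h2 h'' h]
      · have k := Tri_geo3 h1 h'' (h''.trans h)
        rw [Tri_min hy h'] at t5 ⊢
        linarith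

theorem Tri_nice1 {x : ℝ → ℝ} (h : Nice x) : Nice fun θ => x θ * √(x θ) :=
  ⟨h.cont.mul h.cont.sqrt, fun θ => mul_nonneg (h.nonneg θ) (Real.sqrt_nonneg _),
    fun θ hθ => by rw [h.supp θ hθ, zero_mul]⟩

theorem Tri_nice2 {x : ℝ → ℝ} (h : Nice x) {y : ℝ} (hy : 0 < y) :
    Nice fun θ => min (x θ ^ 2) (x θ * y) :=
  ⟨(h.cont.pow 2).min (h.cont.mul continuous_const),
    fun θ => le_min (sq_nonneg _) (mul_nonneg (h.nonneg θ) hy.le),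
    fun θ hθ => by simp [h.supp θ hθ]⟩

theorem Tri_nice3 {x : ℝ → ℝ} (h : Nice x) (y : ℝ) :
    Nice fun θ => min (x θ * √(x θ)) (x θ ^ 2 / √y) :=
  ⟨(Tri_nice1 h).cont.min ((h.cont.pow 2).div_const _),
    fun θ => le_min ((Tri_nice1 h).nonneg θ) (by positivity),
    fun θ hθ => by simp [h.supp θ hθ]⟩

theorem Tri_bb {N M : ℕ} {L : ℝ} (hL : 0 ≤ L) {f g : ℝ → ℝ} (hg : Nice g)
    {a b p q U V : ℝ} (ha : 0 ≤ a) (hp : 0 ≤ p) (hq : 0 ≤ q) (h1 : ∫ θ, f θ ≤ a)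
    (h2 : ∫ θ, g θ ≤ b) (h3 : ∫ θ, f θ ^ 2 ≤ p ^ 2) (h4 : ∫ θ, g θ ^ 2 ≤ q ^ 2) (hU : a * b ≤ U)
    (hV : p * q ≤ V) : bb N M L f g ≤ 1 / N * (M ^ 2 * U + L * M * V) := by
  have k1 : (∫ θ, f θ) * ∫ θ, g θ ≤ U :=
    (mul_le_mul h1 h2 (integral_nonneg hg.nonneg) ha).trans hU
  have k2 : √(∫ θ, f θ ^ 2) * √(∫ θ, g θ ^ 2) ≤ V :=
    (mul_le_mul (Real.sqrt_le_iff.2 ⟨hp, h3⟩) (Real.sqrt_le_iff.2 ⟨hq, h4⟩) (Real.sqrt_nonneg _)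
      hp).trans hV
  unfold bb
  gcongr

theorem Tri_i1 {x : ℝ → ℝ} (h : Nice x) {s a b : ℝ} (hs : 0 < s) (ha : ∫ θ, x θ ≤ a)
    (hb : ∫ θ, x θ ^ 2 ≤ b) : ∫ θ, x θ * √(x θ) ≤ (s * a + b / s) / 2 := by
  have i1 := h.integrable.const_mul (s / 2)
  have i2 := (h.pow two_ne_zero).integrable.const_mul (1 / (2 * s))
  have h1 : ∫ θ, x θ * √(x θ) ≤ ∫ θ, (s / 2 * x θ + 1 / (2 * s) * x θ ^ 2) := by
    refine integral_mono (Tri_nice1 h).integrable (i1.add i2) fun θ => ?_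
    have h2 := Real.mul_self_sqrt (h.nonneg θ)
    have h3 : s / 2 * x θ + 1 / (2 * s) * x θ ^ 2 - x θ * √(x θ) =
        1 / (2 * s) * (s * √(x θ) - x θ) ^ 2 := by
      have h4 : (s * √(x θ) - x θ) ^ 2 =
          s ^ 2 * (√(x θ) * √(x θ)) - 2 * s * (x θ * √(x θ)) + x θ ^ 2 := by ring
      rw [h4, h2]
      field_simp
      ring
    have h5 : 0 ≤ 1 / (2 * s) * (s * √(x θ) - x θ) ^ 2 := by positivity
    change x θ * √(x θ) ≤ s / 2 * x θ + 1 / (2 * s) * x θ ^ 2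
    linarith
  rw [integral_add i1 i2, integral_const_mul, integral_const_mul] at h1
  have h6 : (s * a + b / s) / 2 = s / 2 * a + 1 / (2 * s) * b := by field_simp
  rw [h6]
  refine h1.trans ?_
  gcongr

theorem Tri_sq {x : ℝ} (h : 0 ≤ x) : (x * √x) ^ 2 = x ^ 3 := by
  rw [mul_pow, Real.sq_sqrt h]
  ring

theorem Tri_i2 {x : ℝ → ℝ} (h : Nice x) {E : ℝ} (hE : ∫ θ, x θ ^ 3 ≤ E) :
    ∫ θ, (x θ * √(x θ)) ^ 2 ≤ √E ^ 2 := by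
  simp only [fun θ => Tri_sq (h.nonneg θ)]
  exact hE.trans (Real.sq_sqrt ((integral_nonneg (h.pow three_ne_zero).nonneg).trans hE)).ge

theorem Tri_i3 {x : ℝ → ℝ} (h : Nice x) {y A : ℝ} (hy : 0 < y) (hA : ∫ θ, x θ ^ 2 ≤ A) :
    ∫ θ, min (x θ ^ 2) (x θ * y) ≤ A :=
  (integral_mono (Tri_nice2 h hy).integrable (h.pow two_ne_zero).integrable
    fun _ => min_le_left _ _).trans hA

theorem Tri_i4 {x : ℝ → ℝ} (h : Nice x) {y A : ℝ} (hy : 0 < y) (hA : ∫ θ, x θ ^ 2 ≤ A) :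
    ∫ θ, min (x θ ^ 2) (x θ * y) ^ 2 ≤ y ^ 2 * A := by
  have h1 : ∫ θ, min (x θ ^ 2) (x θ * y) ^ 2 ≤ ∫ θ, y ^ 2 * x θ ^ 2 := by
    refine integral_mono ((Tri_nice2 h hy).pow two_ne_zero).integrable
      ((h.pow two_ne_zero).integrable.const_mul _) fun θ => ?_
    exact (pow_le_pow_left₀ ((Tri_nice2 h hy).nonneg θ) (min_le_right _ _) 2).trans_eq (by ring)
  rw [integral_const_mul] at h1
  exact h1.trans (mul_le_mul_of_nonneg_left hA (sq_nonneg y))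

theorem Tri_i5 {x : ℝ → ℝ} (h : Nice x) (y : ℝ) {A : ℝ} (hA : ∫ θ, x θ ^ 2 ≤ A) :
    ∫ θ, min (x θ * √(x θ)) (x θ ^ 2 / √y) ≤ A / √y := by
  have h1 : ∫ θ, min (x θ * √(x θ)) (x θ ^ 2 / √y) ≤ ∫ θ, x θ ^ 2 / √y :=
    integral_mono (Tri_nice3 h y).integrable ((h.pow two_ne_zero).integrable.div_const _)
      fun _ => min_le_right _ _
  rw [integral_div] at h1
  exact h1.trans (div_le_div_of_nonneg_right hA (Real.sqrt_nonneg y))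

theorem Tri_i6 {x : ℝ → ℝ} (h : Nice x) (y : ℝ) {E : ℝ} (hE : ∫ θ, x θ ^ 3 ≤ E) :
    ∫ θ, min (x θ * √(x θ)) (x θ ^ 2 / √y) ^ 2 ≤ √E ^ 2 :=
  (integral_mono ((Tri_nice3 h y).pow two_ne_zero).integrable
    ((Tri_nice1 h).pow two_ne_zero).integrable fun θ =>
      pow_le_pow_left₀ ((Tri_nice3 h y).nonneg θ) (min_le_left _ _) 2).trans (Tri_i2 h hE)

/-- `three_le` with `y = √A / δ`. Norms: `∫ x √x ≤ √(∫ x) √(∫ x²)` (for instance from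
`x √x ≤ (s x + x² / s) / 2`), `∫ x ≤ 2 √A` (`Nice.int_le`), `∫ (x √x)² = ∫ x³`,
`∫ min (x²) (x y) ≤ A`, `∫ (min (x²) (x y))² ≤ y² A`, `∫ min (x √x) (x² / √y) ≤ A / √y`.
It is convenient to put `A = r ^ 4`, `δ = d ^ 2`. The left integrand is nonnegative, so
`integral_mono_of_nonneg` needs no integrability of it. -/
theorem tri_abs {C : ℝ} (hC : 0 ≤ C) {N M : ℕ} {L : ℝ} (hL : 0 ≤ L) {Ξ u v w : ℝ × ℝ → ℝ}
    (hΞ : ∀ z, 0 ≤ Ξ z) (huv : PairB C N M L Ξ u v) (huw : PairB C N M L Ξ u w)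
    (hvw : PairB C N M L Ξ v w) {x1 x2 x3 : ℝ → ℝ} (h1 : Nice x1) (h2 : Nice x2) (h3 : Nice x3)
    {A E δ : ℝ} (hA : 0 < A) (hδ : 0 < δ) (hδ2 : δ ≤ 2) (a1 : ∫ θ, x1 θ ^ 2 ≤ A)
    (a2 : ∫ θ, x2 θ ^ 2 ≤ A) (a3 : ∫ θ, x3 θ ^ 2 ≤ A) (e1 : ∫ θ, x1 θ ^ 3 ≤ E)
    (e2 : ∫ θ, x2 θ ^ 3 ≤ E) (e3 : ∫ θ, x3 θ ^ 3 ≤ E) (hs : ∫ θ, x1 θ ≤ δ * √A) :
    ∫ z, x1 (u z) * x2 (v z) * x3 (w z) * Ξ z
      ≤ 12 * C / N * (M ^ 2 * (A * √A) * √δ + L * M * (E + A * √A / δ)) := by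
  obtain ⟨r, hr, rfl⟩ : ∃ r : ℝ, 0 < r ∧ A = (r ^ 2) ^ 2 :=
    ⟨√(√A), by positivity, by rw [Real.sq_sqrt (Real.sqrt_nonneg A), Real.sq_sqrt hA.le]⟩
  obtain ⟨d, hd, rfl⟩ : ∃ d : ℝ, 0 < d ∧ δ = d ^ 2 := ⟨√δ, by positivity, (Real.sq_sqrt hδ.le).symm⟩
  have b2 := h2.int_le a2
  have b3 := h3.int_le a3
  rw [Real.sqrt_sq (sq_nonneg r)] at hs b2 b3 ⊢
  rw [Real.sqrt_sq hd.le]
  have hE : 0 ≤ E := (integral_nonneg (h1.pow three_ne_zero).nonneg).trans e1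
  have hd2 : d ≤ 3 / 2 := by nlinarith only [hδ2]
  obtain ⟨y, hy⟩ : ∃ y : ℝ, y = (r / d) ^ 2 := ⟨_, rfl⟩
  have hy0 : 0 < y := by rw [hy]; positivity
  have hy1 : √y = r / d := by rw [hy, Real.sqrt_sq (by positivity)]
  have c1 : ∫ θ, x1 θ * √(x1 θ) ≤ d * r ^ 3 :=
    (Tri_i1 h1 (s := r / d) (by positivity) hs a1).trans_eq (by field_simp; ring)
  have c2 : ∫ θ, x2 θ * √(x2 θ) ≤ 3 / 2 * r ^ 3 :=
    (Tri_i1 h2 hr b2 a2).trans_eq (by field_simp; ring)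
  have c3 : ∫ θ, x3 θ * √(x3 θ) ≤ 3 / 2 * r ^ 3 :=
    (Tri_i1 h3 hr b3 a3).trans_eq (by field_simp; ring)
  have c5 : ∫ θ, min (x2 θ * √(x2 θ)) (x2 θ ^ 2 / √y) ≤ d * r ^ 3 :=
    (Tri_i5 h2 y a2).trans_eq (by rw [hy1]; field_simp)
  have c6 : ∫ θ, min (x3 θ * √(x3 θ)) (x3 θ ^ 2 / √y) ≤ d * r ^ 3 :=
    (Tri_i5 h3 y a3).trans_eq (by rw [hy1]; field_simp)
  have c7 := (Tri_i4 h2 hy0 a2).trans_eq (mul_pow y (r ^ 2) 2).symm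
  have c8 := (Tri_i4 h3 hy0 a3).trans_eq (mul_pow y (r ^ 2) 2).symm
  obtain ⟨U, hU⟩ : ∃ U : ℝ, U = 3 / 2 * ((r ^ 2) ^ 2 * r ^ 2 * d) := ⟨_, rfl⟩
  obtain ⟨V, hV⟩ : ∃ V : ℝ, V = E + (r ^ 2) ^ 2 * r ^ 2 / d ^ 2 := ⟨_, rfl⟩
  have u1 : d * r ^ 3 * (3 / 2 * r ^ 3) ≤ U := le_of_eq (by rw [hU]; ring)
  have u2 : 3 / 2 * r ^ 3 * (d * r ^ 3) ≤ U := le_of_eq (by rw [hU]; ring)
  have u3 : d ^ 2 * r ^ 2 * (r ^ 2) ^ 2 ≤ U := by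
    have := mul_le_mul_of_nonneg_right hd2 (show 0 ≤ (r ^ 2) ^ 2 * r ^ 2 * d by positivity)
    rw [hU]
    linarith
  have v1 : √E * √E ≤ V := by
    rw [Real.mul_self_sqrt hE, hV]
    exact le_add_of_nonneg_right (by positivity)
  have v2 : r ^ 2 * (y * r ^ 2) ≤ V := by
    have : r ^ 2 * (y * r ^ 2) = (r ^ 2) ^ 2 * r ^ 2 / d ^ 2 := by rw [hy]; field_simp
    rw [this, hV]
    linarith
  have hsE := Real.sqrt_nonneg E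
  have p1 : 0 ≤ d * r ^ 3 := by positivity
  have p2 : 0 ≤ d ^ 2 * r ^ 2 := by positivity
  have p3 : 0 ≤ y * r ^ 2 := by positivity
  obtain ⟨i1, j1⟩ := huv _ _ (Tri_nice1 h1) (Tri_nice1 h2)
  obtain ⟨i2, j2⟩ := huw _ _ (Tri_nice1 h1) (Tri_nice1 h3)
  obtain ⟨i3, j3⟩ := huv _ _ h1 (Tri_nice2 h2 hy0)
  obtain ⟨i4, j4⟩ := huw _ _ h1 (Tri_nice2 h3 hy0)
  obtain ⟨i5, j5⟩ := hvw _ _ (Tri_nice3 h2 y) (Tri_nice1 h3)
  obtain ⟨i6, j6⟩ := hvw _ _ (Tri_nice1 h2) (Tri_nice3 h3 y)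
  have k1 := j1.trans (mul_le_mul_of_nonneg_left (Tri_bb hL (Tri_nice1 h2) p1 hsE hsE c1 c2
    (Tri_i2 h1 e1) (Tri_i2 h2 e2) u1 v1) hC)
  have k2 := j2.trans (mul_le_mul_of_nonneg_left (Tri_bb hL (Tri_nice1 h3) p1 hsE hsE c1 c3
    (Tri_i2 h1 e1) (Tri_i2 h3 e3) u1 v1) hC)
  have k3 := j3.trans (mul_le_mul_of_nonneg_left (Tri_bb hL (Tri_nice2 h2 hy0) p2 (sq_nonneg r) p3
    hs (Tri_i3 h2 hy0 a2) a1 c7 u3 v2) hC)
  have k4 := j4.trans (mul_le_mul_of_nonneg_left (Tri_bb hL (Tri_nice2 h3 hy0) p2 (sq_nonneg r) p3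
    hs (Tri_i3 h3 hy0 a3) a1 c8 u3 v2) hC)
  have k5 := j5.trans (mul_le_mul_of_nonneg_left (Tri_bb hL (Tri_nice1 h3) p1 hsE hsE c5 c3
    (Tri_i6 h2 y e2) (Tri_i2 h3 e3) u1 v1) hC)
  have k6 := j6.trans (mul_le_mul_of_nonneg_left (Tri_bb hL (Tri_nice3 h3 y) (by positivity) hsE hsE
    c2 c6 (Tri_i2 h2 e2) (Tri_i6 h3 y e3) u2 v1) hC)
  have k := integral_mono_of_nonneg (f := fun z => x1 (u z) * x2 (v z) * x3 (w z) * Ξ z)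
    (Filter.Eventually.of_forall fun z => mul_nonneg (mul_nonneg (mul_nonneg (h1.nonneg _)
      (h2.nonneg _)) (h3.nonneg _)) (hΞ z))
    (((((i1.add i2).add i3).add i4).add i5).add i6)
    (Filter.Eventually.of_forall fun z => by
      have h := mul_le_mul_of_nonneg_right
        (three_le (h1.nonneg (u z)) (h2.nonneg (v z)) (h3.nonneg (w z)) hy0) (hΞ z)
      simp only [Pi.add_apply]
      linarith)
  rw [integral_add' ((((i1.add i2).add i3).add i4).add i5) i6,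
    integral_add' (((i1.add i2).add i3).add i4) i5, integral_add' ((i1.add i2).add i3) i4,
    integral_add' (i1.add i2) i3, integral_add' i1 i2] at k
  have hV0 : 0 ≤ V := by rw [hV]; positivity
  have hW : 0 ≤ (r ^ 2) ^ 2 * r ^ 2 * d := by positivity
  have m1 : 0 ≤ C * (1 / N * (M ^ 2 * ((r ^ 2) ^ 2 * r ^ 2 * d))) := by positivity
  have m2 : 0 ≤ C * (1 / N * (L * M * V)) := by positivity
  have m3 : 12 * C / N * (M ^ 2 * ((r ^ 2) ^ 2 * r ^ 2) * d + L * M * V) =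
      12 * (C * (1 / N * (M ^ 2 * ((r ^ 2) ^ 2 * r ^ 2 * d)))) + 12 * (C * (1 / N * (L * M * V))) := by
    ring
  have m4 : C * (1 / N * (M ^ 2 * U + L * M * V)) =
      3 / 2 * (C * (1 / N * (M ^ 2 * ((r ^ 2) ^ 2 * r ^ 2 * d)))) + C * (1 / N * (L * M * V)) := by
    rw [hU]
    ring
  rw [← hV, m3]
  rw [m4] at k1 k2 k3 k4 k5 k6
  linarith only [k, k1, k2, k3, k4, k5, k6, m1, m2]

/-- `pair`, `PairB.symm` and `tri_abs` with the small function in the first slot. -/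
theorem tri_Xi : ∃ C : ℝ, 0 < C ∧ ∀ (N M : ℕ) (L : ℝ), Lg N L → M ≤ N →
    ∀ x1 x2 x3 : ℝ → ℝ, Nice x1 → Nice x2 → Nice x3 → ∀ A E δ : ℝ, 0 < A → 0 < δ → δ ≤ 2 →
      ∫ θ, x1 θ ^ 2 ≤ A → ∫ θ, x2 θ ^ 2 ≤ A → ∫ θ, x3 θ ^ 2 ≤ A → ∫ θ, x1 θ ^ 3 ≤ E →
      ∫ θ, x2 θ ^ 3 ≤ E → ∫ θ, x3 θ ^ 3 ≤ E →
      (∫ θ, x1 θ ≤ δ * √A ∨ ∫ θ, x2 θ ≤ δ * √A ∨ ∫ θ, x3 θ ≤ δ * √A) →
      ∫ z : ℝ × ℝ, x1 (z.1 - z.2) * x2 (-z.1) * x3 z.2 * Xi N (MM M) (MM M) (MM M) z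
        ≤ C / N * (M ^ 2 * (A * √A) * √δ + L * M * (E + A * √A / δ)) := by
  obtain ⟨C, hC, h⟩ := pair
  refine ⟨12 * C, by positivity, fun N M L hL hM x1 x2 x3 h1 h2 h3 A E δ hA hδ hδ2 a1 a2 a3 e1 e2
    e3 hs => ?_⟩
  obtain ⟨p12, p13, p23⟩ := h N M L hL hM
  have hL0 : 0 ≤ L := zero_le_one.trans hL.one_le
  have hΞ : ∀ z, 0 ≤ Xi N (MM M) (MM M) (MM M) z := fun z =>
    sum_nonneg fun _ _ => sum_nonneg fun _ _ => sum_nonneg fun _ _ => (ps_pos _).le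
  rcases hs with hs | hs | hs
  · exact tri_abs hC.le hL0 hΞ p12 p13 p23 h1 h2 h3 hA hδ hδ2 a1 a2 a3 e1 e2 e3 hs
  · refine le_trans (le_of_eq ?_)
      (tri_abs hC.le hL0 hΞ p12.symm p23 p13 h2 h1 h3 hA hδ hδ2 a2 a1 a3 e2 e1 e3 hs)
    exact integral_congr_ae (Filter.Eventually.of_forall fun z => by ring)
  · refine le_trans (le_of_eq ?_)
      (tri_abs hC.le hL0 hΞ p13.symm p23.symm p12 h3 h1 h2 hA hδ hδ2 a3 a1 a2 e3 e1 e2 hs)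
    exact integral_congr_ae (Filter.Eventually.of_forall fun z => by ring)

end Pool.Agent.Lib.MP_ecd12e_nt.GM
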