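import Pool.Agent.Lib.MP_ecd12e_nt.GM.Fej

/-! Truncation of a trigonometric polynomial. -/

namespace Pool.Agent.Lib.MP_ecd12e_nt.GM

open Finset Real MeasureTheory
open Pool.Agent.Lib.MP_ecd12e_nt.Bar
open scoped ContDiff ComplexConjugate

/-- the de la Vallée Poussin weights -/
noncomputable def VP_v (T : ℕ) (t : ℤ) : ℝ :=
  2 * max 0 (1 - |(t : ℝ)| / ((4 * T : ℕ) : ℝ)) - max 0 (1 - |(t : ℝ)| / ((2 * T : ℕ) : ℝ))

/-- Fourier coefficients -/
noncomputable def VP_c (h : ℝ → ℂ) (t : ℤ) : ℂ :=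
  ((1 / (2 * π) : ℝ) : ℂ) * ∫ y in (0:ℝ)..2 * π, h y * ei (-(t * y))

lemma VP_v_aux {T : ℕ} (hT : 1 ≤ T) (t : ℤ) :
    VP_v T t = 2 * max 0 (1 - (|(t : ℝ)| / (4 * T))) - max 0 (1 - 2 * (|(t : ℝ)| / (4 * T))) := by
  have h : (0:ℝ) < T := by exact_mod_cast hT
  unfold VP_v
  push_cast
  congr 3
  field_simp
  ring

lemma VP_v_abs {T : ℕ} (hT : 1 ≤ T) (t : ℤ) : |VP_v T t| ≤ 1 := by
  rw [VP_v_aux hT]
  have h : (0:ℝ) < T := by exact_mod_cast hT
  have hx : 0 ≤ |(t : ℝ)| / (4 * T) := by positivity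
  generalize |(t : ℝ)| / (4 * T) = x at hx
  rw [abs_le]
  constructor <;> rcases le_total 0 (1 - x) with h1 | h1 <;>
    rcases le_total 0 (1 - 2 * x) with h2 | h2 <;>
    simp only [max_eq_left, max_eq_right, h1, h2] <;> linarith

lemma VP_v_one {T : ℕ} (hT : 1 ≤ T) {t : ℤ} (ht : t ∈ box (2 * T)) : VP_v T t = 1 := by
  rw [VP_v_aux hT]
  have h : (0:ℝ) < T := by exact_mod_cast hT
  have h1 : |(t : ℝ)| ≤ 2 * T := by
    rw [box, mem_Icc, ← abs_le] at ht
    exact_mod_cast ht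
  have hx : |(t : ℝ)| / (4 * T) ≤ 1 / 2 := by
    rw [div_le_iff₀ (by positivity)]
    linarith
  rw [max_eq_right (by linarith), max_eq_right (by linarith)]
  ring

lemma VP_v_zero {T : ℕ} (hT : 1 ≤ T) {t : ℤ} (ht : t ∉ box (4 * T)) : VP_v T t = 0 := by
  rw [VP_v_aux hT]
  have h : (0:ℝ) < T := by exact_mod_cast hT
  have h1 : 4 * (T : ℝ) ≤ |(t : ℝ)| := by
    rw [box, mem_Icc, ← abs_le, not_le] at ht
    exact_mod_cast ht.le
  have hx : 1 ≤ |(t : ℝ)| / (4 * T) := by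
    rw [le_div_iff₀ (by positivity)]
    linarith
  rw [max_eq_left (by linarith), max_eq_left (by linarith)]
  ring

lemma VP_conv {T : ℕ} (hT : 1 ≤ T) {h : ℝ → ℂ} (hc : Continuous h) (θ : ℝ) :
    tp (box (4 * T)) (fun t => (VP_v T t : ℂ) * VP_c h t) θ
      = ((1 / (2 * π) : ℝ) : ℂ) * ∫ y in (0:ℝ)..2 * π,
          h y * ((2 * fj (4 * T) (θ - y) - fj (2 * T) (θ - y) : ℝ) : ℂ) := by
  have hk : ∀ x : ℝ, ((2 * fj (4 * T) x - fj (2 * T) x : ℝ) : ℂ)
      = ∑ t ∈ box (4 * T), (VP_v T t : ℂ) * ei (t * x) := by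
    intro x
    rw [Complex.ofReal_sub, Complex.ofReal_mul, fj_eq (K := 4 * T) (H := 4 * T) (by omega) le_rfl,
      fj_eq (K := 2 * T) (H := 4 * T) (by omega) (by omega), mul_sum, ← sum_sub_distrib]
    refine sum_congr rfl fun t _ => ?_
    rw [VP_v, Complex.ofReal_sub, Complex.ofReal_mul]
    ring
  simp_rw [hk, mul_sum]
  rw [intervalIntegral.integral_finsetSum fun t _ =>
    Continuous.intervalIntegrable (by fun_prop) _ _, tp, mul_sum]
  refine sum_congr rfl fun t _ => ?_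
  have : ∀ y : ℝ, h y * ((VP_v T t : ℂ) * ei (t * (θ - y)))
      = ((VP_v T t : ℂ) * ei (t * θ)) * (h y * ei (-(t * y))) := by
    intro y
    rw [show (t : ℝ) * (θ - y) = t * θ + -(t * y) by ring, ei_add]
    ring
  simp_rw [this]
  rw [intervalIntegral.integral_const_mul, VP_c]
  ring

lemma VP_bound {T : ℕ} (hT : 1 ≤ T) {h : ℝ → ℂ} (hc : Continuous h) (θ : ℝ) :
    ‖tp (box (4 * T)) (fun t => (VP_v T t : ℂ) * VP_c h t) θ‖
      ≤ 1 / (2 * π) * ∫ y in (0:ℝ)..2 * π,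
          ‖h y‖ * (2 * fj (4 * T) (θ - y) + fj (2 * T) (θ - y)) := by
  rw [VP_conv hT hc, norm_mul, Complex.norm_real, Real.norm_of_nonneg (by positivity)]
  refine mul_le_mul_of_nonneg_left ?_ (by positivity)
  refine intervalIntegral.norm_integral_le_of_norm_le (by positivity)
    (Filter.Eventually.of_forall fun y _ => ?_) (Continuous.intervalIntegrable (by fun_prop) _ _)
  rw [norm_mul, Complex.norm_real, Real.norm_eq_abs]
  refine mul_le_mul_of_nonneg_left ?_ (norm_nonneg _)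
  have h1 := fj_nonneg (4 * T) (θ - y)
  have h2 := fj_nonneg (2 * T) (θ - y)
  rw [abs_le]
  constructor <;> linarith

lemma VP_int1 {T : ℕ} (hT : 1 ≤ T) (θ : ℝ) :
    ∫ y in (0:ℝ)..2 * π, (2 * fj (4 * T) (θ - y) + fj (2 * T) (θ - y)) = 3 * (2 * π) := by
  rw [intervalIntegral.integral_add (Continuous.intervalIntegrable (by fun_prop) _ _)
    (Continuous.intervalIntegrable (by fun_prop) _ _), intervalIntegral.integral_const_mul,
    fj_int (by omega), fj_int (by omega)]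
  ring

lemma VP_int2 {T : ℕ} (hT : 1 ≤ T) (y : ℝ) :
    ∫ θ in (-π)..π, (2 * fj (4 * T) (θ - y) + fj (2 * T) (θ - y)) = 3 * (2 * π) := by
  have h1 := VP_int1 hT (π - y)
  rw [intervalIntegral.integral_comp_sub_left (fun x => 2 * fj (4 * T) x + fj (2 * T) x)] at h1
  rw [intervalIntegral.integral_comp_sub_right (fun x => 2 * fj (4 * T) x + fj (2 * T) x), ← h1]
  congr 1 <;> ring

lemma VP_sup {T : ℕ} (hT : 1 ≤ T) {h : ℝ → ℂ} (hc : Continuous h) {lam : ℝ}
    (hl : ∀ y, ‖h y‖ ≤ lam) (θ : ℝ) :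
    ‖tp (box (4 * T)) (fun t => (VP_v T t : ℂ) * VP_c h t) θ‖ ≤ 3 * lam := by
  refine (VP_bound hT hc θ).trans ?_
  have h1 : ∫ y in (0:ℝ)..2 * π, ‖h y‖ * (2 * fj (4 * T) (θ - y) + fj (2 * T) (θ - y))
      ≤ ∫ y in (0:ℝ)..2 * π, lam * (2 * fj (4 * T) (θ - y) + fj (2 * T) (θ - y)) := by
    refine intervalIntegral.integral_mono_on (by positivity)
      (Continuous.intervalIntegrable (by fun_prop) _ _)
      (Continuous.intervalIntegrable (by fun_prop) _ _) fun y _ => ?_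
    have h1 := fj_nonneg (4 * T) (θ - y)
    have h2 := fj_nonneg (2 * T) (θ - y)
    exact mul_le_mul_of_nonneg_right (hl y) (by positivity)
  rw [intervalIntegral.integral_const_mul, VP_int1 hT] at h1
  refine (mul_le_mul_of_nonneg_left h1 (by positivity)).trans (le_of_eq ?_)
  field_simp

lemma VP_L1 {T : ℕ} (hT : 1 ≤ T) {h : ℝ → ℂ} (hc : Continuous h) :
    ∫ θ, ab (box (4 * T)) (fun t => (VP_v T t : ℂ) * VP_c h t) θ
      ≤ 3 * ∫ y in (0:ℝ)..2 * π, ‖h y‖ := by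
  have hπ := pi_gt_three
  set P := tp (box (4 * T)) (fun t => (VP_v T t : ℂ) * VP_c h t) with hP
  have hN := nice_ab (box (4 * T)) (fun t => (VP_v T t : ℂ) * VP_c h t)
  have hF : Continuous fun z : ℝ × ℝ =>
      ‖h z.2‖ * (2 * fj (4 * T) (z.1 - z.2) + fj (2 * T) (z.1 - z.2)) := by fun_prop
  rw [← intervalIntegral.integral_eq_integral_of_support_subset (a := -π) (b := π) (by
    intro θ hθ
    have : |θ| < 2 := by
      by_contra hc
      exact hθ (hN.supp θ (not_lt.1 hc))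
    rw [abs_lt] at this
    exact ⟨by linarith, by linarith⟩)]
  calc _ ≤ ∫ θ in (-π)..π, 1 / (2 * π) * ∫ y in (0:ℝ)..2 * π,
          ‖h y‖ * (2 * fj (4 * T) (θ - y) + fj (2 * T) (θ - y)) := by
        refine intervalIntegral.integral_mono_on (by linarith) (hN.cont.intervalIntegrable _ _)
          (Continuous.intervalIntegrable (continuous_const.mul
            (intervalIntegral.continuous_parametric_intervalIntegral_of_continuous' hF _ _)) _ _)
          fun θ _ => ?_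
        refine le_trans ?_ (VP_bound hT hc θ)
        rw [ab]
        exact mul_le_of_le_one_left (norm_nonneg _) (chi_le_one _)
    _ = 3 * ∫ y in (0:ℝ)..2 * π, ‖h y‖ := by
        rw [intervalIntegral.integral_const_mul, intervalIntegral_intervalIntegral_swap]
        · simp_rw [intervalIntegral.integral_const_mul, VP_int2 hT]
          rw [intervalIntegral.integral_mul_const]
          field_simp
        · exact (hF.continuousOn.integrableOn_compact
            (isCompact_uIcc.prod isCompact_uIcc)).mono_set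
            (Set.prod_mono Set.uIoc_subset_uIcc Set.uIoc_subset_uIcc)

lemma VP_sq {T : ℕ} (hT : 1 ≤ T) {h : ℝ → ℂ} (hc : Continuous h) (S : Finset ℤ) {A : ℝ}
    (hA : ∫ y in (0:ℝ)..2 * π, ‖h y‖ ^ 2 ≤ 2 * π * A) :
    sq2 S (fun t => (VP_v T t : ℂ) * VP_c h t) ≤ A := by
  have h1 := bessel hc S
  calc _ ≤ ∑ t ∈ S, (1 / (2 * π)) ^ 2 * ‖∫ y in (0:ℝ)..2 * π, h y * ei (-(t * y))‖ ^ 2 := by
        refine sum_le_sum fun t _ => ?_
        rw [← mul_pow]
        refine pow_le_pow_left₀ (norm_nonneg _) ?_ 2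
        rw [norm_mul, Complex.norm_real, Real.norm_eq_abs, VP_c, norm_mul, Complex.norm_real,
          Real.norm_of_nonneg (by positivity)]
        exact mul_le_of_le_one_left (by positivity) (VP_v_abs hT t)
    _ ≤ (1 / (2 * π)) ^ 2 * (2 * π * (2 * π * A)) := by
        rw [← mul_sum]
        exact mul_le_mul_of_nonneg_left
          (h1.trans (mul_le_mul_of_nonneg_left hA (by positivity))) (by positivity)
    _ = A := by field_simp

lemma VP_c_le (h : ℝ → ℂ) (t : ℤ) :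
    ‖VP_c h t‖ ≤ 1 / (2 * π) * ∫ y in (0:ℝ)..2 * π, ‖h y‖ := by
  rw [VP_c, norm_mul, Complex.norm_real, Real.norm_of_nonneg (by positivity)]
  refine mul_le_mul_of_nonneg_left ?_ (by positivity)
  refine (intervalIntegral.norm_integral_le_integral_norm (by positivity)).trans (le_of_eq ?_)
  simp_rw [norm_mul, norm_ei, mul_one]

lemma VP_c_sub {h g : ℝ → ℂ} (hc : Continuous h) (hg : Continuous g) (t : ℤ) :
    VP_c (fun y => h y - g y) t = VP_c h t - VP_c g t := by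
  unfold VP_c
  simp_rw [sub_mul]
  rw [intervalIntegral.integral_sub (Continuous.intervalIntegrable (by fun_prop) _ _)
    (Continuous.intervalIntegrable (by fun_prop) _ _), mul_sub]

lemma VP_c_tp {S : Finset ℤ} {a : ℤ → ℂ} (ha : ∀ t, t ∉ S → a t = 0) (t : ℤ) :
    VP_c (tp S a) t = a t := by
  unfold VP_c tp
  simp_rw [sum_mul]
  rw [intervalIntegral.integral_finsetSum fun u _ =>
    Continuous.intervalIntegrable (by fun_prop) _ _]
  have h1 : ∀ u : ℤ, ∫ y in (0:ℝ)..2 * π, a u * ei (u * y) * ei (-(t * y))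
      = if u = t then a u * ((2 * π : ℝ) : ℂ) else 0 := by
    intro u
    have h2 := int_ei (u - t) 0
    rw [zero_add] at h2
    have h3 : ∀ y : ℝ, a u * ei (u * y) * ei (-(t * y)) = a u * ei (((u - t : ℤ) : ℝ) * y) := by
      intro y
      rw [mul_assoc, ← ei_add]
      congr 2
      push_cast
      ring
    simp_rw [h3]
    rw [intervalIntegral.integral_const_mul, h2]
    simp [sub_eq_zero]
  simp_rw [h1]
  rw [sum_ite_eq']
  have hπ : ((π : ℝ) : ℂ) ≠ 0 := by exact_mod_cast pi_ne_zero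
  split_ifs with ht
  · push_cast
    field_simp
  · rw [ha t ht, mul_zero]

lemma VP_cut {lam : ℝ} (hl : 0 < lam) (z : ℂ) :
    ‖((lam / max lam ‖z‖ : ℝ) : ℂ) * z‖ ≤ lam ∧ ‖((lam / max lam ‖z‖ : ℝ) : ℂ) * z‖ ≤ ‖z‖ ∧
      ‖z - ((lam / max lam ‖z‖ : ℝ) : ℂ) * z‖ ≤ ‖z‖ ∧
      ‖z - ((lam / max lam ‖z‖ : ℝ) : ℂ) * z‖ ≤ ‖z‖ ^ 2 / lam := by
  have h0 := norm_nonneg z
  have h1 : z - ((lam / max lam ‖z‖ : ℝ) : ℂ) * z = ((1 - lam / max lam ‖z‖ : ℝ) : ℂ) * z := by
    push_cast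
    ring
  rcases le_total ‖z‖ lam with h | h
  · rw [max_eq_left h, div_self hl.ne']
    simp only [Complex.ofReal_one, one_mul, sub_self, norm_zero]
    exact ⟨h, le_rfl, h0, by positivity⟩
  · have hz : 0 < ‖z‖ := hl.trans_le h
    have h2 : lam / ‖z‖ ≤ 1 := (div_le_one hz).2 h
    have h3 : 0 ≤ lam / ‖z‖ := by positivity
    rw [h1, max_eq_right h, norm_mul, norm_mul, Complex.norm_real, Complex.norm_real,
      Real.norm_of_nonneg h3, Real.norm_of_nonneg (by linarith), div_mul_cancel₀ _ hz.ne', sub_mul,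
      div_mul_cancel₀ _ hz.ne', one_mul]
    refine ⟨le_rfl, h, by linarith, ?_⟩
    rw [le_div_iff₀ hl]
    nlinarith

/-- Let `R = tp a`, `τ = R * min 1 (lam / ‖R‖)` (continuous: `τ = (lam / max lam ‖R‖) • R`),
`v t = 2 max 0 (1 - |t| / (4 T)) - max 0 (1 - |t| / (2 T)) ∈ [0, 1]`, equal to `1` for
`|t| ≤ 2 T` and to `0` for `|t| ≥ 4 T`; `ρ t = v t * (1 / 2 π) ∫_0^{2π} τ ei (-(t y))`. For continuous
`h`, the polynomial with coefficients `v t * (1 / 2 π) ∫ h ei (-(t y))` is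
`(1 / 2 π) ∫ h y (2 fj (4 T) (θ - y) - fj (2 T) (θ - y)) dy` (`fj_eq`), so its sup norm is at most
`3 sup ‖h‖` and its `L¹` norm over a period at most `3 ∫ ‖h‖` (`fj_int`). Apply this to `h = τ` and
`h = R - τ`, where `‖R - τ‖ ≤ ‖R‖² / lam`; `bessel`, `parseval`, `int_ei`. -/
theorem truncate {T : ℕ} (hT : 1 ≤ T) {a : ℤ → ℂ} (ha : ∀ t, t ∉ box (2 * T) → a t = 0)
    {A s lam : ℝ} (hA : sq2 (box (4 * T)) a ≤ A) (hs : ∀ t, ‖a t‖ ≤ s) (hl : 0 < lam) :
    ∃ ρ : ℤ → ℂ, (∀ t, t ∉ box (4 * T) → ρ t = 0) ∧ sq2 (box (4 * T)) ρ ≤ A ∧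
      (∀ t, ‖ρ t‖ ≤ s + A / lam) ∧ (∀ θ, ‖tp (box (4 * T)) ρ θ‖ ≤ 3 * lam) ∧
      sq2 (box (4 * T)) (a - ρ) ≤ A ∧ ∫ θ, ab (box (4 * T)) (a - ρ) θ ≤ 20 * (A / lam) := by
  have ha4 : ∀ t, t ∉ box (4 * T) → a t = 0 := fun t ht => ha t fun h => ht (by
    simp only [box, mem_Icc] at h ⊢
    omega)
  obtain ⟨R, hR⟩ : ∃ R, R = tp (box (4 * T)) a := ⟨_, rfl⟩
  have hRc : Continuous R := hR ▸ continuous_tp _ _
  obtain ⟨τ, hτ⟩ : ∃ τ : ℝ → ℂ, τ = fun y => ((lam / max lam ‖R y‖ : ℝ) : ℂ) * R y := ⟨_, rfl⟩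
  have hτc : Continuous τ := by
    rw [hτ]
    refine Continuous.mul (Complex.continuous_ofReal.comp
      (continuous_const.div (by fun_prop) fun y => ?_)) hRc
    exact (hl.trans_le (le_max_left _ _)).ne'
  have hcut : ∀ y, ‖τ y‖ ≤ lam ∧ ‖τ y‖ ≤ ‖R y‖ ∧ ‖R y - τ y‖ ≤ ‖R y‖ ∧
      ‖R y - τ y‖ ≤ ‖R y‖ ^ 2 / lam := fun y => by
    rw [hτ]
    exact VP_cut hl (R y)
  have hdc : Continuous fun y => R y - τ y := hRc.sub hτc
  have hR2 : ∫ y in (0:ℝ)..2 * π, ‖R y‖ ^ 2 ≤ 2 * π * A := by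
    have h1 := parseval (box (4 * T)) a 0
    rw [zero_add, ← hR] at h1
    rw [h1]
    exact mul_le_mul_of_nonneg_left hA (by positivity)
  have hsq : ∀ h : ℝ → ℂ, Continuous h → (∀ y, ‖h y‖ ≤ ‖R y‖) →
      ∫ y in (0:ℝ)..2 * π, ‖h y‖ ^ 2 ≤ 2 * π * A := fun h hc hh =>
    le_trans (intervalIntegral.integral_mono_on (by positivity)
      (Continuous.intervalIntegrable (by fun_prop) _ _)
      (Continuous.intervalIntegrable (by fun_prop) _ _)
      fun y _ => pow_le_pow_left₀ (norm_nonneg _) (hh y) 2) hR2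
  have hL : ∫ y in (0:ℝ)..2 * π, ‖R y - τ y‖ ≤ 2 * π * (A / lam) := by
    refine le_trans (intervalIntegral.integral_mono_on (by positivity)
      (Continuous.intervalIntegrable (by fun_prop) _ _)
      (Continuous.intervalIntegrable (by fun_prop) _ _) fun y _ => (hcut y).2.2.2) ?_
    rw [intervalIntegral.integral_div, ← mul_div_assoc]
    exact div_le_div_of_nonneg_right hR2 hl.le
  have hd : (a - fun t => (VP_v T t : ℂ) * VP_c τ t)
      = fun t => (VP_v T t : ℂ) * VP_c (fun y => R y - τ y) t := by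
    funext t
    rw [VP_c_sub hRc hτc, hR, VP_c_tp ha4, Pi.sub_apply, mul_sub]
    congr 1
    by_cases ht : t ∈ box (2 * T)
    · rw [VP_v_one hT ht, Complex.ofReal_one, one_mul]
    · rw [ha t ht, mul_zero]
  have hA0 : 0 ≤ A / lam := div_nonneg ((sq2_nonneg _ _).trans hA) hl.le
  refine ⟨fun t => (VP_v T t : ℂ) * VP_c τ t, fun t ht => ?_,
    VP_sq hT hτc _ (hsq _ hτc fun y => (hcut y).2.1), fun t => ?_,
    VP_sup hT hτc fun y => (hcut y).1, ?_, ?_⟩
  · simp only [VP_v_zero hT ht, Complex.ofReal_zero, zero_mul]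
  · have h1 := congrFun hd t
    simp only [Pi.sub_apply] at h1
    have h2 : ‖a t - (VP_v T t : ℂ) * VP_c τ t‖ ≤ A / lam := by
      rw [h1, norm_mul, Complex.norm_real, Real.norm_eq_abs]
      refine (mul_le_of_le_one_left (norm_nonneg _) (VP_v_abs hT t)).trans
        ((VP_c_le _ t).trans ((mul_le_mul_of_nonneg_left hL (by positivity)).trans (le_of_eq ?_)))
      field_simp
    have h3 := norm_sub_le (a t) (a t - (VP_v T t : ℂ) * VP_c τ t)
    rw [sub_sub_cancel] at h3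
    linarith [hs t]
  · rw [hd]
    exact VP_sq hT hdc _ (hsq _ hdc fun y => (hcut y).2.2.1)
  · rw [hd]
    refine (VP_L1 hT hdc).trans ?_
    have := pi_lt_d2
    nlinarith

end Pool.Agent.Lib.MP_ecd12e_nt.GM
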