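import Pool.Agent.Lib.MP_ecd12e_nt.GM.Flat
import Pool.Agent.Lib.MP_ecd12e_nt.GM.VP
import Pool.Agent.Lib.MP_ecd12e_nt.GM.Tri

/-! The cubic trace on one triple of blocks. -/

namespace Pool.Agent.Lib.MP_ecd12e_nt.GM

open Finset Real MeasureTheory
open Pool.Agent.Lib.MP_ecd12e_nt.Bar
open scoped ContDiff ComplexConjugate

lemma S3a_sq {S : Finset ℤ} {a : ℤ → ℂ} {A : ℝ} (h : sq2 S a ≤ A) :
    ∫ θ, ab S a θ ^ 2 ≤ 7 * A := by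
  refine (int_ab_sq S a).trans ?_
  have h1 := sq2_nonneg S a
  have h2 := pi_lt_d2
  nlinarith

lemma S3a_sqrt {A : ℝ} (k : ℝ) (hk : 0 ≤ k) : √(k ^ 2 * A) = k * √A := by
  rw [Real.sqrt_mul (sq_nonneg k), Real.sqrt_sq hk]

lemma S3a_cube_nonneg (S : Finset ℤ) (a : ℤ → ℂ) : 0 ≤ ∫ θ, ab S a θ ^ 3 :=
  integral_nonneg fun θ => pow_nonneg ((nice_ab S a).nonneg θ) 3

lemma S3a_cube {S : Finset ℤ} {ρ : ℤ → ℂ} {A s : ℝ} (h : sq2 S ρ ≤ A)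
    (hs : ∀ θ, ‖tp S ρ θ‖ ≤ s) : ∫ θ, ab S ρ θ ^ 3 ≤ s * (7 * A) := by
  have hs0 : 0 ≤ s := (norm_nonneg _).trans (hs 0)
  have hn := nice_ab S ρ
  calc ∫ θ, ab S ρ θ ^ 3 ≤ ∫ θ, s * ab S ρ θ ^ 2 := by
        refine integral_mono (hn.pow (by norm_num)).integrable
          ((hn.pow (by norm_num)).integrable.const_mul s) fun θ => ?_
        have h1 : ab S ρ θ ≤ s :=
          (mul_le_of_le_one_left (norm_nonneg _) (chi_le_one θ)).trans (hs θ)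
        change ab S ρ θ ^ 3 ≤ s * ab S ρ θ ^ 2
        rw [pow_succ']
        exact mul_le_mul_of_nonneg_right h1 (sq_nonneg _)
    _ = s * ∫ θ, ab S ρ θ ^ 2 := integral_const_mul _ _
    _ ≤ _ := mul_le_mul_of_nonneg_left (S3a_sq h) hs0

lemma S3a_sub (S : Finset ℤ) (a ρ : ℤ → ℂ) :
    ∫ θ, ab S (a - ρ) θ ^ 3 ≤ 4 * (∫ θ, ab S a θ ^ 3) + 4 * ∫ θ, ab S ρ θ ^ 3 := by
  have i1 := ((nice_ab S a).pow (k := 3) (by norm_num)).integrable.const_mul 4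
  have i2 := ((nice_ab S ρ).pow (k := 3) (by norm_num)).integrable.const_mul 4
  rw [← integral_const_mul, ← integral_const_mul, ← integral_add i1 i2]
  refine integral_mono ((nice_ab S (a - ρ)).pow (by norm_num)).integrable (i1.add i2) fun θ => ?_
  have e : tp S (a - ρ) θ = tp S a θ - tp S ρ θ := by
    simp only [tp, Pi.sub_apply, sub_mul, sum_sub_distrib]
  have h1 : ab S (a - ρ) θ ≤ ab S a θ + ab S ρ θ := by
    unfold ab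
    rw [e, ← mul_add]
    exact mul_le_mul_of_nonneg_left (norm_sub_le _ _) (chi_nonneg θ)
  have hx := (nice_ab S a).nonneg θ
  have hy := (nice_ab S ρ).nonneg θ
  change ab S (a - ρ) θ ^ 3 ≤ 4 * ab S a θ ^ 3 + 4 * ab S ρ θ ^ 3
  refine (pow_le_pow_left₀ ((nice_ab S (a - ρ)).nonneg θ) h1 3).trans ?_
  nlinarith [mul_nonneg (add_nonneg hx hy) (sq_nonneg (ab S a θ - ab S ρ θ))]

lemma S3a_abs : ∃ C : ℝ, 0 < C ∧ ∀ (N T M : ℕ) (L z A E : ℝ) (e1 e2 e3 : ℤ) (μ1 μ2 μ3 : ℕ),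
    Par N T M L z → Blk M e1 e2 e3 μ1 μ2 μ3 → 0 < A → 0 ≤ E → ∀ (S : Finset ℤ)
    (ρ1 ρ2 ρ3 : ℤ → ℂ), sq2 S ρ1 ≤ A → sq2 S ρ2 ≤ A → sq2 S ρ3 ≤ A →
    ∫ θ, ab S ρ1 θ ^ 3 ≤ 4 * E + 100 * z ^ 6 * (A * √A) →
    ∫ θ, ab S ρ2 θ ^ 3 ≤ 4 * E + 100 * z ^ 6 * (A * √A) →
    ∫ θ, ab S ρ3 θ ^ 3 ≤ 4 * E + 100 * z ^ 6 * (A * √A) →
    (∫ θ, ab S ρ2 θ ≤ 20 * √A / z ^ 2 ∨ ∫ θ, ab S ρ3 θ ≤ 20 * √A / z ^ 2) →
      ‖tri N S (sb e1 μ1) (sb e2 μ2) (sb e3 μ3) ρ1 ρ2 ρ3‖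
        ≤ C * (L ^ 5 / N * (z ^ 59 * (A * √A) + M * E)) := by
  obtain ⟨C1, hC1, h1⟩ := tri_le_abs
  obtain ⟨C2, hC2, h2⟩ := tri_Xi
  refine ⟨C1 * C2 * 16100, by positivity, ?_⟩
  intro N T M L z A E e1 e2 e3 μ1 μ2 μ3 hP hB hA hE S ρ1 ρ2 ρ3 a1 a2 a3 c1 c2 c3 hs
  have hz := hP.hz
  have hz0 : 0 < z := by linarith
  have hL := hP.lg.one_le
  have hN : (0 : ℝ) < N := by exact_mod_cast hP.lg.hN
  have hsq : √(400 * A) = 20 * √A := by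
    rw [← S3a_sqrt 20 (by norm_num)]
    norm_num
  have hδ : √(1 / z ^ 2) = 1 / z := by
    rw [← one_div_pow, Real.sqrt_sq (by positivity)]
  have hδ2 : 1 / z ^ 2 ≤ 2 := by
    rw [div_le_iff₀ (by positivity)]
    nlinarith
  have k1 := h1 N M S _ _ _ ρ1 ρ2 ρ3 (sb_subset hB.s1 (hB.pos.trans hB.le1) hB.top1)
    (sb_subset hB.s2 hB.pos ((Nat.mul_le_mul_left 2 hB.le1).trans hB.top1))
    (sb_subset hB.s3 (hB.pos.trans hB.le3) hB.top3)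
  have k2 := h2 N M L hP.lg hP.hMN _ _ _ (nice_ab S ρ1) (nice_ab S ρ2) (nice_ab S ρ3) (400 * A)
    _ (1 / z ^ 2) (by positivity) (by positivity) hδ2 ((S3a_sq a1).trans (by linarith))
    ((S3a_sq a2).trans (by linarith)) ((S3a_sq a3).trans (by linarith)) c1 c2 c3
    (Or.inr (by
      rw [hsq, one_div_mul_eq_div]
      exact hs))
  rw [hsq, hδ] at k2
  refine k1.trans ((mul_le_mul_of_nonneg_left k2 hC1.le).trans ?_)
  rw [← hP.hzM]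
  obtain ⟨B, hB⟩ : ∃ B, B = A * √A := ⟨_, rfl⟩
  have hB0 : 0 ≤ B := by rw [hB]; positivity
  have e : C1 * (C2 / N * ((z ^ 30) ^ 2 * (400 * A * (20 * √A)) * (1 / z) +
      L * z ^ 30 * (4 * E + 100 * z ^ 6 * (A * √A) + 400 * A * (20 * √A) / (1 / z ^ 2)))) =
      C1 * C2 / N * (8000 * (z ^ 59 * B) + 4 * (L * (z ^ 30 * E)) + 100 * (L * (z ^ 36 * B)) +
        8000 * (L * (z ^ 32 * B))) := by
    rw [hB]
    field_simp
    ring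
  have e' : C1 * C2 * 16100 * (L ^ 5 / N * (z ^ 59 * (A * √A) + z ^ 30 * E)) =
      C1 * C2 / N * (16100 * (L ^ 5 * (z ^ 59 * B)) + 16100 * (L ^ 5 * (z ^ 30 * E))) := by
    rw [hB]
    ring
  rw [e, e']
  refine mul_le_mul_of_nonneg_left ?_ (by positivity)
  have l1 : 1 ≤ L ^ 5 := one_le_pow₀ hL
  have l2 : L ≤ L ^ 5 := le_self_pow₀ hL (by norm_num)
  have p1 : z ^ 36 * B ≤ z ^ 59 * B :=
    mul_le_mul_of_nonneg_right (pow_le_pow_right₀ hz (by norm_num)) hB0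
  have p2 : z ^ 32 * B ≤ z ^ 59 * B :=
    mul_le_mul_of_nonneg_right (pow_le_pow_right₀ hz (by norm_num)) hB0
  have q0 : 0 ≤ z ^ 59 * B := by positivity
  have q1 : z ^ 59 * B ≤ L ^ 5 * (z ^ 59 * B) := le_mul_of_one_le_left q0 l1
  have q2 : L * (z ^ 36 * B) ≤ L ^ 5 * (z ^ 59 * B) :=
    mul_le_mul l2 p1 (by positivity) (by positivity)
  have q3 : L * (z ^ 32 * B) ≤ L ^ 5 * (z ^ 59 * B) :=
    mul_le_mul l2 p2 (by positivity) (by positivity)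
  have q4 : L * (z ^ 30 * E) ≤ L ^ 5 * (z ^ 30 * E) :=
    mul_le_mul_of_nonneg_right l2 (by positivity)
  have q5 : 0 ≤ L ^ 5 * (z ^ 30 * E) := by positivity
  linarith

/-- `tri_le_abs`, `tri_Xi` with `2 π A` for `A` and `δ = 2`, `int_ab_sq`, `Nice.int_le`. -/
theorem cubic_plain : ∃ C : ℝ, 0 < C ∧ ∀ (N M : ℕ) (L A E : ℝ) (S : Finset ℤ) (a : ℤ → ℂ),
    Lg N L → M ≤ N → 0 < A → sq2 S a ≤ A → ∫ θ, ab S a θ ^ 3 ≤ E →
      ‖tri N S (MM M) (MM M) (MM M) a a a‖ ≤ C * (L / N * (M ^ 2 * (A * √A) + M * E)) := by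
  obtain ⟨C1, hC1, h1⟩ := tri_le_abs
  obtain ⟨C2, hC2, h2⟩ := tri_Xi
  refine ⟨C1 * C2 * 68, by positivity, ?_⟩
  intro N M L A E S a hLg hM hA ha hE
  have hL := hLg.one_le
  have hN : (0 : ℝ) < N := by exact_mod_cast hLg.hN
  have hE0 : 0 ≤ E := (S3a_cube_nonneg S a).trans hE
  have hsq : √(9 * A) = 3 * √A := by
    rw [← S3a_sqrt 3 (by norm_num)]
    norm_num
  have a1 : ∫ θ, ab S a θ ^ 2 ≤ 9 * A := (S3a_sq ha).trans (by linarith)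
  have k1 := h1 N M S _ _ _ a a a Subset.rfl Subset.rfl Subset.rfl
  have k2 := h2 N M L hLg hM _ _ _ (nice_ab S a) (nice_ab S a) (nice_ab S a) (9 * A) E 2
    (by positivity) two_pos le_rfl a1 a1 a1 hE hE hE (Or.inl ((nice_ab S a).int_le a1))
  rw [hsq] at k2
  refine k1.trans ((mul_le_mul_of_nonneg_left k2 hC1.le).trans ?_)
  obtain ⟨B, hB⟩ : ∃ B, B = A * √A := ⟨_, rfl⟩
  have hB0 : 0 ≤ B := by rw [hB]; positivity
  have e : C1 * (C2 / N * ((M : ℝ) ^ 2 * (9 * A * (3 * √A)) * √2 +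
      L * M * (E + 9 * A * (3 * √A) / 2))) =
      C1 * C2 / N * (27 * (√2 * (M ^ 2 * B)) + L * (M * E) + 27 / 2 * (L * (M * B))) := by
    rw [hB]
    ring
  have e' : C1 * C2 * 68 * (L / N * ((M : ℝ) ^ 2 * (A * √A) + M * E)) =
      C1 * C2 / N * (68 * (L * (M ^ 2 * B)) + 68 * (L * (M * E))) := by
    rw [hB]
    ring
  rw [e, e']
  refine mul_le_mul_of_nonneg_left ?_ (by positivity)
  have s2 : √2 ≤ 2 := Real.sqrt_le_iff.2 ⟨by norm_num, by norm_num⟩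
  have m1 : (M : ℝ) ≤ (M : ℝ) ^ 2 := by exact_mod_cast Nat.le_self_pow two_ne_zero M
  have q0 : 0 ≤ (M : ℝ) ^ 2 * B := by positivity
  have q1 := mul_le_mul_of_nonneg_right s2 q0
  have q2 : (M : ℝ) ^ 2 * B ≤ L * (M ^ 2 * B) := le_mul_of_one_le_left q0 hL
  have q3 : L * (M * B) ≤ L * (M ^ 2 * B) :=
    mul_le_mul_of_nonneg_left (mul_le_mul_of_nonneg_right m1 hB0) (by linarith)
  have q4 : 0 ≤ L * (M * E) := by positivity
  linarith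

/-- `truncate` with `lam = z² √A` and `lam = z⁶ √A` gives `ρ2`, `ρ3`; then
`tri a a a = tri a (a - ρ2) a + tri a ρ2 (a - ρ3) + tri a ρ2 ρ3`. The last term: `flat` with `9 A`.
The first two: `tri_le_abs`, `tri_Xi` with `400 A` for `A`, `δ = 1 / z²`, and
`E' = 4 E + 100 z⁶ A √A` (`‖R - f‖³ ≤ 4 ‖R‖³ + 4 ‖f‖³`, `∫ ab³ ≤ sup * ∫ ab²`); `z^36 ≤ z^59`. -/
theorem cubic_block : ∃ C : ℝ, 0 < C ∧ ∀ (N T M : ℕ) (L z A E : ℝ) (e1 e2 e3 : ℤ) (μ1 μ2 μ3 : ℕ),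
    Par N T M L z → Blk M e1 e2 e3 μ1 μ2 μ3 → 0 < A → ∀ a : ℤ → ℂ,
    (∀ t, t ∉ box (2 * T) → a t = 0) → sq2 (box (4 * T)) a ≤ A → (∀ t, ‖a t‖ ≤ √A / z ^ 6) →
    ∫ θ, ab (box (4 * T)) a θ ^ 3 ≤ E →
      ‖tri N (box (4 * T)) (sb e1 μ1) (sb e2 μ2) (sb e3 μ3) a a a‖
        ≤ C * (L ^ 5 / N * (z ^ 59 * (A * √A) + M * E)) := by
  obtain ⟨C1, hC1, h1⟩ := S3a_abs
  obtain ⟨C2, hC2, h2⟩ := flat
  refine ⟨2 * C1 + 27 * C2, by positivity, ?_⟩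
  intro N T M L z A E e1 e2 e3 μ1 μ2 μ3 hP hB hA a hsupp ha hsup hE
  have hz := hP.hz
  have hz0 : 0 < z := by linarith
  have hL := hP.lg.one_le
  have hN : (0 : ℝ) < N := by exact_mod_cast hP.lg.hN
  have hT : 1 ≤ T := hP.lg.hN.trans hP.hNT
  have hE0 : 0 ≤ E := (S3a_cube_nonneg _ a).trans hE
  have hs : 0 < √A := Real.sqrt_pos.2 hA
  have hdiv : ∀ k : ℕ, A / (z ^ k * √A) = √A / z ^ k := fun k => by
    rw [div_eq_div_iff (by positivity) (by positivity)]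
    have := Real.mul_self_sqrt hA.le
    linear_combination (-z ^ k) * this
  obtain ⟨ρ2, s2, a2, -, t2, a2', i2⟩ :=
    truncate hT hsupp ha hsup (lam := z ^ 2 * √A) (by positivity)
  obtain ⟨ρ3, s3, a3, u3, t3, a3', i3⟩ :=
    truncate hT hsupp ha hsup (lam := z ^ 6 * √A) (by positivity)
  rw [hdiv] at i2 i3 u3
  have z26 : z ^ 2 ≤ z ^ 6 := pow_le_pow_right₀ hz (by norm_num)
  have hsq : √(9 * A) = 3 * √A := by
    rw [← S3a_sqrt 3 (by norm_num)]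
    norm_num
  have hB0 : 0 ≤ z ^ 6 * (A * √A) := by positivity
  have t2' : ∀ θ, ‖tp (box (4 * T)) ρ2 θ‖ ≤ 3 * (z ^ 6 * √A) := fun θ =>
    (t2 θ).trans (by gcongr)
  have c2 := S3a_cube a2 t2'
  have c3 := S3a_cube a3 t3
  have d2 := S3a_sub (box (4 * T)) a ρ2
  have d3 := S3a_sub (box (4 * T)) a ρ3
  have i3' : ∫ θ, ab (box (4 * T)) (a - ρ3) θ ≤ 20 * √A / z ^ 2 := by
    refine i3.trans ?_
    rw [mul_div_assoc]
    gcongr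
  have k1 := h1 N T M L z A E e1 e2 e3 μ1 μ2 μ3 hP hB hA hE0 (box (4 * T)) a (a - ρ2) a ha a2' ha
    (by linarith) (by linarith) (by linarith) (Or.inl (by rw [mul_div_assoc]; exact i2))
  have k2 := h1 N T M L z A E e1 e2 e3 μ1 μ2 μ3 hP hB hA hE0 (box (4 * T)) a ρ2 (a - ρ3) ha a2 a3'
    (by linarith) (by linarith) (by linarith) (Or.inr i3')
  have k3 := h2 N T M L z (9 * A) e1 e2 e3 μ1 μ2 μ3 hP hB (by positivity) a ρ2 ρ3 s2 s3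
    (by linarith) (by linarith) (by linarith)
    (fun θ => by rw [hsq]; linarith [t2 θ]) (fun θ => by rw [hsq]; linarith [t3 θ])
    (fun t => by
      rw [hsq, mul_div_assoc]
      have : 0 ≤ √A / z ^ 6 := by positivity
      linarith [u3 t])
  rw [hsq] at k3
  have e : tri N (box (4 * T)) (sb e1 μ1) (sb e2 μ2) (sb e3 μ3) a a a =
      tri N (box (4 * T)) (sb e1 μ1) (sb e2 μ2) (sb e3 μ3) a (a - ρ2) a +
      (tri N (box (4 * T)) (sb e1 μ1) (sb e2 μ2) (sb e3 μ3) a ρ2 (a - ρ3) +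
        tri N (box (4 * T)) (sb e1 μ1) (sb e2 μ2) (sb e3 μ3) a ρ2 ρ3) := by
    rw [← tri_add3, sub_add_cancel, ← tri_add2, sub_add_cancel]
  rw [e]
  refine (norm_add_le _ _).trans ((add_le_add k1 ((norm_add_le _ _).trans
    (add_le_add k2 k3))).trans ?_)
  have q : 0 ≤ C2 * (L ^ 5 / N * (M * E)) := by positivity
  have e' : C2 * (L ^ 5 * z ^ 59 / N * (9 * A * (3 * √A))) =
      27 * C2 * (L ^ 5 / N * (z ^ 59 * (A * √A) + M * E)) - 27 * (C2 * (L ^ 5 / N * (M * E))) := by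
    ring
  rw [e']
  linarith

end Pool.Agent.Lib.MP_ecd12e_nt.GM
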