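import Pool.Agent.Lib.MP_ecd12e_nt.GM.Itp
import Pool.Agent.Lib.MP_ecd12e_nt.GM.Mom

/-! One dyadic shell of frequencies. -/

namespace Pool.Agent.Lib.MP_ecd12e_nt.GM

open Finset Real MeasureTheory
open Pool.Agent.Lib.MP_ecd12e_nt.Bar
open scoped ContDiff ComplexConjugate

theorem Shell_j {z H : ℝ} (hz : 1 ≤ z) (h1 : z ^ 20 ≤ H) (h2 : H ≤ 8 * z ^ 180) :
    ∃ j : ℕ, 1 ≤ j ∧ j ≤ 6 ∧ (z ^ (10 * j)) ^ 2 ≤ H ∧ H ≤ (3 * z ^ (20 * j)) ^ 2 := by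
  have hm : ∀ a b : ℕ, a ≤ b → z ^ a ≤ z ^ b := fun a b h => pow_le_pow_right₀ hz h
  have hp : ∀ a : ℕ, 0 ≤ z ^ a := fun a => by positivity
  simp only [mul_pow, ← pow_mul]
  by_cases c1 : H ≤ z ^ 40
  · exact ⟨1, le_rfl, by norm_num, by norm_num; linarith, by norm_num; linarith [hp 40]⟩
  by_cases c2 : H ≤ z ^ 80
  · exact ⟨2, by norm_num, by norm_num, by norm_num; linarith, by norm_num; linarith [hp 80]⟩
  by_cases c3 : H ≤ z ^ 120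
  · exact ⟨3, by norm_num, by norm_num, by norm_num; linarith [hm 60 80 (by norm_num)],
      by norm_num; linarith [hp 120]⟩
  exact ⟨6, by norm_num, le_rfl, by norm_num; linarith,
    by norm_num; linarith [hm 180 240 (by norm_num), hp 240]⟩

theorem Shell_n {N : ℕ} {L : ℝ} (h : Lg N L) : ∃ n : ℕ, (N : ℝ) ≤ 2 ^ n ∧ (n : ℝ) + 1 ≤ 3 * L := by
  have hN : (1 : ℝ) ≤ N := by exact_mod_cast h.hN
  have hl : 0 ≤ log (N : ℝ) := log_nonneg hN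
  refine ⟨⌈2 * log (N : ℝ)⌉₊, ?_, ?_⟩
  · have h1 := Nat.le_ceil (2 * log (N : ℝ))
    have h2 : log (N : ℝ) ≤ log ((2 : ℝ) ^ ⌈2 * log (N : ℝ)⌉₊) := by
      rw [log_pow]
      have h3 : (0 : ℝ) ≤ ⌈2 * log (N : ℝ)⌉₊ := Nat.cast_nonneg _
      nlinarith [log_two_gt_d9]
    exact (log_le_log_iff (by linarith) (by positivity)).1 h2
  · have h1 := Nat.ceil_lt_add_one (a := 2 * log (N : ℝ)) (by linarith)
    linarith [h.hlog]

theorem Shell_key {C L z P H J0 : ℝ} {j : ℕ} (hC : 0 < C) (hL : 1 ≤ L) (hz : 1 ≤ z) (hP : 1 ≤ P)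
    (hJ : 0 ≤ J0) (hj : 1 ≤ j) (h1 : (z ^ (10 * j)) ^ 2 ≤ H) (h2 : H ≤ (3 * z ^ (20 * j)) ^ 2) :
    J0 * √(P / H) * (C * (L ^ (j + 1) * ((4 * H + 1) + (z ^ 30) ^ j) * (z ^ 30) ^ j)) ≤
      J0 * ((16 * C + 1) * L ^ 2 * √P * z ^ 50) ^ j := by
  have hz0 : 0 < z := by linarith
  have ha : 1 ≤ z ^ (10 * j) := one_le_pow₀ hz
  have hH1 : 1 ≤ H := le_trans (one_le_pow₀ ha) h1
  have hs1 : z ^ (10 * j) ≤ √H := le_sqrt_of_sq_le h1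
  have hs2 : √H ≤ 3 * z ^ (20 * j) := sqrt_le_iff.2 ⟨by positivity, h2⟩
  have hs0 : 0 < √H := by linarith
  have hsq : √H * √H = H := mul_self_sqrt (by linarith)
  have hsP : 1 ≤ √P := one_le_sqrt.2 hP
  have e30 : (z ^ 30) ^ j = z ^ (20 * j) * z ^ (10 * j) := by
    rw [← pow_mul, ← pow_add]
    congr 1
    ring
  have e50 : (z ^ 50) ^ j = z ^ (20 * j) * (z ^ 30) ^ j := by
    rw [← pow_mul, ← pow_mul, ← pow_add]
    congr 1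
    ring
  have hb : 0 < z ^ (20 * j) := by positivity
  have k1 : (4 * H + 1) + (z ^ 30) ^ j ≤ 16 * z ^ (20 * j) * √H := by
    have k2 : z ^ (20 * j) * z ^ (10 * j) ≤ z ^ (20 * j) * √H :=
      mul_le_mul_of_nonneg_left hs1 hb.le
    have k3 : √H * √H ≤ 3 * z ^ (20 * j) * √H := mul_le_mul_of_nonneg_right hs2 hs0.le
    rw [e30]
    linarith
  have k2 : ((4 * H + 1) + (z ^ 30) ^ j) / √H ≤ 16 * z ^ (20 * j) := by
    rw [div_le_iff₀ hs0]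
    exact k1
  have k3 : 16 * C ≤ (16 * C + 1) ^ j :=
    le_trans (by linarith) (le_self_pow₀ (by linarith) (by omega))
  have k4 : L ^ (j + 1) ≤ (L ^ 2) ^ j := by
    rw [← pow_mul]
    exact pow_le_pow_right₀ hL (by omega)
  have k5 : √P ≤ √P ^ j := le_self_pow₀ hsP (by omega)
  rw [mul_assoc J0]
  refine mul_le_mul_of_nonneg_left ?_ hJ
  rw [sqrt_div (by linarith), mul_pow, mul_pow, mul_pow, e50]
  calc √P / √H * (C * (L ^ (j + 1) * ((4 * H + 1) + (z ^ 30) ^ j) * (z ^ 30) ^ j))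
      = C * L ^ (j + 1) * √P * (((4 * H + 1) + (z ^ 30) ^ j) / √H * (z ^ 30) ^ j) := by
        field_simp
    _ ≤ C * L ^ (j + 1) * √P * (16 * z ^ (20 * j) * (z ^ 30) ^ j) := by gcongr
    _ = 16 * C * L ^ (j + 1) * √P * (z ^ (20 * j) * (z ^ 30) ^ j) := by ring
    _ ≤ (16 * C + 1) ^ j * (L ^ 2) ^ j * √P ^ j * (z ^ (20 * j) * (z ^ 30) ^ j) := by gcongr

/-- Choose `j = 1, 2, 3, 6` according to `H ≤ z^40`, `H ≤ z^80`, `H ≤ z^120`, or larger; then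
`z^(20 j) ≤ H ≤ 8 z^(40 j)` and `(5 H + M^j) / √H ≤ 16 z^(20 j)`. Apply `interp` with
`C1 = J0 √(P / H)`, `C2 = J0`, `Y` from `moment` (`R = 4 H + 1`), `Mx = M`,
`x = (16 C + 1) L² √P z^50`, `n = Nat.clog 2 M ≤ 2 L`. -/
theorem shell : ∃ C : ℝ, 0 < C ∧ ∀ (N T M μ μ' H : ℕ) (L z J0 P : ℝ), Par N T M L z → 1 ≤ μ →
    2 * μ ≤ M → 1 ≤ μ' → 2 * μ' ≤ M → z ^ 20 ≤ H → H ≤ 8 * T → 0 ≤ J0 → 1 ≤ P →
    ∀ (J : ℤ → ℤ → ℂ) (I I' : Finset ℤ), I ⊆ box (2 * H) → I' ⊆ box (2 * H) →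
      (∀ u v : ℤ → ℂ, ‖BJ J I I' u v‖ ≤ J0 * (√(sq2 I u) * √(sq2 I' v))) →
      (∀ α ∈ I, ∀ β ∈ I', ‖J α β‖ ≤ J0 * √(P / H)) → ∀ u v : ℤ → ℂ,
        ‖BJ J I I' (Zb μ (fun _ => 1) * u) ((fun β => conj (Zb μ' (fun _ => 1) β)) * v)‖
          ≤ C * (L ^ 3 * J0 * √P * z ^ 50) * (√(sq2 I u) * √(sq2 I' v)) := by
  obtain ⟨C, hC, hm⟩ := moment
  refine ⟨195 * (16 * C + 1), by positivity, ?_⟩
  intro N T M μ μ' H L z J0 P hp hμ hμM hμ' hμM' hzH hHT hJ hP J I I' hI hI' h2 h1 u v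
  have hL := hp.lg.one_le
  have hz := hp.hz
  have hzM := hp.hzM
  have hM1 : 1 ≤ M := by omega
  have hN1 := hp.lg.hN
  have hH2 : (H : ℝ) ≤ 8 * z ^ 180 := by
    have e : z ^ 180 = (M : ℝ) ^ 6 := by rw [← hzM, ← pow_mul]
    rw [e]
    have h3 : H ≤ 8 * M ^ 6 := hHT.trans (Nat.mul_le_mul_left 8 hp.hT6)
    exact_mod_cast h3
  obtain ⟨j, hj1, hj6, hj2, hj3⟩ := Shell_j hz hzH hH2
  obtain ⟨n, hn1, hn2⟩ := Shell_n hp.lg
  have hR : 4 * H + 1 ≤ 40 * N ^ 2 := by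
    have h3 : T ≤ N ^ 2 := (Nat.le_mul_of_pos_right T hM1).trans hp.hTM
    have h4 : 1 ≤ N ^ 2 := Nat.one_le_pow _ _ hN1
    omega
  have hbox : box (2 * H) ⊆ Ico (-((2 * H : ℕ) : ℤ)) (-((2 * H : ℕ) : ℤ) + (4 * H + 1 : ℕ)) := by
    intro x hx
    rw [box, mem_Icc] at hx
    rw [mem_Ico]
    push_cast at hx ⊢
    omega
  have hone : ∀ n : ℕ, ‖(fun _ : ℕ => (1 : ℂ)) n‖ ≤ 1 := fun _ => by simp
  have hY := hm N M μ j (4 * H + 1) L hp.lg hp.hMN hμ hμM hj1 hj6 (by omega) hR _ hone _ I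
    (hI.trans hbox)
  have hY' := hm N M μ' j (4 * H + 1) L hp.lg hp.hMN hμ' hμM' hj1 hj6 (by omega) hR _ hone _ I'
    (hI'.trans hbox)
  have hsP : 1 ≤ √P := one_le_sqrt.2 hP
  have hMN : (M : ℝ) ≤ N := by exact_mod_cast hp.hMN
  have hx : (M : ℝ) ≤ (16 * C + 1) * L ^ 2 * √P * z ^ 50 := by
    have h3 : z ^ 30 ≤ z ^ 50 := pow_le_pow_right₀ hz (by norm_num)
    have h4 : 1 ≤ (16 * C + 1) * L ^ 2 * √P :=
      one_le_mul_of_one_le_of_one_le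
        (one_le_mul_of_one_le_of_one_le (by linarith) (one_le_pow₀ hL)) hsP
    rw [← hzM]
    exact h3.trans (le_mul_of_one_le_left (by positivity) h4)
  have hk := Shell_key hC hL hz hP hJ hj1 hj2 hj3
  have key := interp (J := J) (I := I) (I' := I') (C1 := J0 * √(P / H)) (C2 := J0)
    (Y := C * (L ^ (j + 1) * (((4 * H + 1 : ℕ) : ℝ) + (M : ℝ) ^ j) * (M : ℝ) ^ j))
    (x := (16 * C + 1) * L ^ 2 * √P * z ^ 50) (Mx := M) (j := j) (n := n) hj1 (by positivity) hJ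
    h2 h1 (w := Zb μ fun _ => 1) (w' := fun β => conj (Zb μ' (fun _ => 1) β))
    (fun α => Zb_le hμM hone α) (fun β => by rw [RCLike.norm_conj]; exact Zb_le hμM' hone β) hY
    (by simpa only [RCLike.norm_conj] using hY') (by exact_mod_cast hM1) hx (hMN.trans hn1)
    (by rw [← hzM]; push_cast; exact hk) u v
  refine key.trans (mul_le_mul_of_nonneg_right ?_ (by positivity))
  have h3 : (1 : ℝ) + 2 ^ j ≤ 65 := by
    have : (2 : ℝ) ^ j ≤ 2 ^ 6 := pow_le_pow_right₀ one_le_two hj6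
    linarith
  calc ((n : ℝ) + 1) * (1 + 2 ^ j) * J0 * ((16 * C + 1) * L ^ 2 * √P * z ^ 50)
      ≤ (3 * L) * 65 * J0 * ((16 * C + 1) * L ^ 2 * √P * z ^ 50) := by gcongr
    _ = 195 * (16 * C + 1) * (L ^ 3 * J0 * √P * z ^ 50) := by ring

end Pool.Agent.Lib.MP_ecd12e_nt.GM
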