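import Pool.Agent.Lib.MP_ecd12e_nt.GM.Four

/-! The bound for short ranges. -/

namespace Pool.Agent.Lib.MP_ecd12e_nt.GM

open Finset Real MeasureTheory
open Pool.Agent.Lib.MP_ecd12e_nt.Bar
open scoped ContDiff ComplexConjugate

theorem Short_box {T : ℕ} {t : ℤ} (h0 : 0 ≤ t) (h1 : t ≤ T) : t ∈ box (4 * T) := by
  rw [box, mem_Icc]
  push_cast
  omega

theorem Short_phi {T : ℕ} (hT : 1 ≤ T) {t : ℤ} (h0 : 0 ≤ t) (h1 : t ≤ T) : 1 / 2 ≤ phi T t := by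
  have h2 : (0 : ℝ) ≤ t := by exact_mod_cast h0
  have h3 : (t : ℝ) ≤ T := by exact_mod_cast h1
  have h4 : (1 : ℝ) ≤ T := by exact_mod_cast hT
  refine le_trans ?_ (le_max_right _ _)
  rw [abs_of_nonneg h2]
  have h5 : (t : ℝ) / (2 * T) ≤ 1 / 2 := by
    rw [div_le_iff₀ (by linarith)]
    linarith
  linarith

/-- `halasz` with `M = ⌈T L / N⌉`. -/
theorem large_high (B : ℕ) : ∃ C L0 : ℝ, 0 < C ∧ ∀ (N T : ℕ) (L V : ℝ), 1 ≤ N → 1 ≤ L → L0 ≤ L →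
    (N : ℝ) ≤ L ^ B → N ≤ T → T ≤ N ^ 3 → 0 < V → L ^ 2 * N * √T ≤ V ^ 2 →
    ∀ b : ℕ → ℂ, (∀ n, ‖b n‖ ≤ 1) → ∀ W : Finset ℤ,
      (∀ t ∈ W, 0 ≤ t ∧ t ≤ T ∧ V < ‖DD N b t‖) → (W.card : ℝ) ≤ C * (N ^ 2 / V ^ 2) := by
  obtain ⟨C, hC, h⟩ := halasz B
  refine ⟨C, 2 * C, hC, ?_⟩
  intro N T L V hN hL hL0 hNL hNT hTN hV hVL b hb W hW
  have hN0 : (0 : ℝ) < N := by exact_mod_cast hN
  have hNT' : (N : ℝ) ≤ T := by exact_mod_cast hNT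
  have hT0 : (0 : ℝ) ≤ T := Nat.cast_nonneg _
  have h1 : (T : ℝ) * L ≤ (⌈(T : ℝ) * L / N⌉₊ : ℕ) * N := (div_le_iff₀ hN0).1 (Nat.le_ceil _)
  have h2 : (N : ℝ) * (⌈(T : ℝ) * L / N⌉₊ : ℕ) ≤ (2 * L) ^ 2 * T := by
    have h3 := (Nat.ceil_lt_add_one (a := (T : ℝ) * L / N) (by positivity)).le
    have h4 : (N : ℝ) * ((T : ℝ) * L / N + 1) = T * L + N := by field_simp
    have h5 := mul_le_mul_of_nonneg_left h3 hN0.le
    have h6 : (T : ℝ) * 1 ≤ T * L := mul_le_mul_of_nonneg_left hL hT0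
    have h7 : (T : ℝ) * L * 1 ≤ T * L * L := mul_le_mul_of_nonneg_left hL (by positivity)
    nlinarith
  have h3 : √((N : ℝ) * (⌈(T : ℝ) * L / N⌉₊ : ℕ)) ≤ 2 * L * √T := by
    refine (sqrt_le_sqrt h2).trans_eq ?_
    rw [sqrt_mul (by positivity), sqrt_sq (by positivity)]
  have h4 : C * (N * √((N : ℝ) * (⌈(T : ℝ) * L / N⌉₊ : ℕ))) ≤ V ^ 2 :=
    calc C * (N * √((N : ℝ) * (⌈(T : ℝ) * L / N⌉₊ : ℕ))) ≤ C * (N * (2 * L * √T)) := by gcongr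
      _ = 2 * C * (L * N * √T) := by ring
      _ ≤ L * (L * N * √T) := by gcongr
      _ = L ^ 2 * N * √T := by ring
      _ ≤ V ^ 2 := hVL
  have h5 := h N T _ L V hN hL hNL hNT hTN h1 hV h4 b hb
  have h6 : W ⊆ (box (4 * T)).filter fun t => V < ‖DD N b t‖ := fun t ht =>
    mem_filter.2 ⟨Short_box (hW t ht).1 (hW t ht).2.1, (hW t ht).2.2⟩
  have h7 : (W.card : ℝ) * V ^ 2 ≤ C * N ^ 2 :=
    calc (W.card : ℝ) * V ^ 2 = ∑ _t ∈ W, V ^ 2 := by rw [sum_const, nsmul_eq_mul]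
      _ ≤ ∑ t ∈ W, ‖DD N b t‖ ^ 2 :=
          sum_le_sum fun t ht => pow_le_pow_left₀ hV.le (hW t ht).2.2.le 2
      _ ≤ _ := (sum_le_sum_of_subset_of_nonneg h6 fun _ _ _ => by positivity).trans h5
  rw [← mul_div_assoc, le_div_iff₀ (by positivity)]
  exact h7

/-- Split `W` at the height `V1 = √(L² N √T)`; `phi ≥ 1 / 2` on `[0, T]`. -/
theorem large_short (B : ℕ) : ∃ C L0 : ℝ, 0 < C ∧ ∀ (N T : ℕ) (L V : ℝ), Lg N L → L0 ≤ L →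
    (N : ℝ) ≤ L ^ B → L ^ 100 ≤ N → N ≤ T → T ^ 73 ≤ N ^ 88 → 0 < V →
    ∀ b : ℕ → ℂ, (∀ n, ‖b n‖ ≤ 1) → ∀ W : Finset ℤ,
      (∀ t ∈ W, 0 ≤ t ∧ t ≤ T ∧ V < ‖DD N b t‖) →
        (W.card : ℝ) ≤ C * (N ^ 2 / V ^ 2 + L ^ 9 * (√T * N ^ 3) / V ^ 4) := by
  obtain ⟨C1, L1, hC1, h1⟩ := large_high B
  obtain ⟨C2, L2, hC2, h2⟩ := fourth_moment B
  refine ⟨C1 + 2 * C2, max L1 L2, by positivity, ?_⟩
  intro N T L V hlg hL0 hNL hLN hNT hT hV b hb W hW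
  have hN := hlg.hN
  have hL := hlg.one_le
  have hTN : T ≤ N ^ 3 := by
    refine (Nat.pow_le_pow_iff_left (n := 73) (by norm_num)).1 (hT.trans ?_)
    rw [← pow_mul]
    exact Nat.pow_le_pow_right hN (by norm_num)
  set V1 : ℝ := √(L ^ 2 * N * √T) with hV1
  have hsq : V1 ^ 2 = L ^ 2 * N * √T := sq_sqrt (by positivity)
  have hV10 : 0 ≤ V1 := sqrt_nonneg _
  have k1 := h1 N T L (max V V1) hN hL ((le_max_left _ _).trans hL0) hNL hNT hTN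
    (lt_max_of_lt_left hV) (hsq ▸ pow_le_pow_left₀ hV10 (le_max_right _ _) 2) b hb
    (W.filter fun t => ¬‖DD N b t‖ ≤ V1) fun t ht => by
      obtain ⟨ht1, ht2⟩ := mem_filter.1 ht
      exact ⟨(hW t ht1).1, (hW t ht1).2.1, max_lt (hW t ht1).2.2 (not_le.1 ht2)⟩
  have k2 : ((W.filter fun t => ¬‖DD N b t‖ ≤ V1).card : ℝ) ≤ C1 * (N ^ 2 / V ^ 2) := by
    refine k1.trans ?_
    gcongr
    exact le_max_left _ _
  have k3 := h2 N T L hlg ((le_max_right _ _).trans hL0) hNL hLN hNT hT b hb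
  have k4 : ((W.filter fun t => ‖DD N b t‖ ≤ V1).card : ℝ) * (V ^ 4 / 2) ≤ AA N T b V1 :=
    calc ((W.filter fun t => ‖DD N b t‖ ≤ V1).card : ℝ) * (V ^ 4 / 2)
        = ∑ _t ∈ W.filter fun t => ‖DD N b t‖ ≤ V1, V ^ 4 / 2 := by rw [sum_const, nsmul_eq_mul]
      _ ≤ ∑ t ∈ W.filter fun t => ‖DD N b t‖ ≤ V1, wa N T b V1 t * ‖DD N b t‖ ^ 2 := by
          refine sum_le_sum fun t ht => ?_
          obtain ⟨ht1, ht2⟩ := mem_filter.1 ht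
          obtain ⟨a0, a1, a2⟩ := hW t ht1
          have a3 := Short_phi (hN.trans hNT) a0 a1
          have a4 : V ^ 4 ≤ ‖DD N b t‖ ^ 4 := pow_le_pow_left₀ hV.le a2.le 4
          rw [wa, if_pos ht2]
          calc V ^ 4 / 2 = 1 / 2 * V ^ 4 := by ring
            _ ≤ phi T t * ‖DD N b t‖ ^ 4 := mul_le_mul a3 a4 (by positivity) (by linarith)
            _ = phi T t * ‖DD N b t‖ ^ 2 * ‖DD N b t‖ ^ 2 := by ring
      _ ≤ AA N T b V1 := sum_le_sum_of_subset_of_nonneg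
          (fun t ht => Short_box (hW t (mem_filter.1 ht).1).1 (hW t (mem_filter.1 ht).1).2.1)
          fun t _ _ => mul_nonneg (wa_nonneg _ _ _ _ _) (by positivity)
  have k5 : ((W.filter fun t => ‖DD N b t‖ ≤ V1).card : ℝ)
      ≤ 2 * C2 * (L ^ 9 * (√T * N ^ 3) / V ^ 4) := by
    rw [← mul_div_assoc, le_div_iff₀ (by positivity)]
    linarith
  have k6 : (W.card : ℝ) = ((W.filter fun t => ‖DD N b t‖ ≤ V1).card : ℝ)
      + ((W.filter fun t => ¬‖DD N b t‖ ≤ V1).card : ℝ) := by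
    rw [← Nat.cast_add, card_filter_add_card_filter_not]
  have k7 : 0 ≤ C1 * (L ^ 9 * (√T * N ^ 3) / V ^ 4) := by positivity
  have k8 : 0 ≤ 2 * C2 * ((N : ℝ) ^ 2 / V ^ 2) := by positivity
  linarith

end Pool.Agent.Lib.MP_ecd12e_nt.GM
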