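import Pool.Agent.Lib.MP_ecd12e_nt.GM.Pars

/-! Sums over separated points. -/

namespace Pool.Agent.Lib.MP_ecd12e_nt.GM

open Finset Real MeasureTheory
open Pool.Agent.Lib.MP_ecd12e_nt.Bar
open scoped ContDiff ComplexConjugate

lemma Spc_aux1 {δ K : ℝ} (hδ : 0 < δ) (hK : 0 < K) (R : ℕ) :
    ∑ m ∈ range (R + 1), K * ps (K * δ * m) ≤ K + 2 / δ * (1 - 1 / (1 + K * δ * R)) := by
  induction R with
  | zero => simp [ps]
  | succ R ih =>
    rw [sum_range_succ]
    have hy : 0 < K * δ := mul_pos hK hδ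
    have hR : (0 : ℝ) ≤ R := Nat.cast_nonneg R
    have h1 : 0 < 1 + K * δ * R := by positivity
    have h2 : 0 < 1 + K * δ * (R + 1) := by positivity
    have key : K * ps (K * δ * ((R + 1 : ℕ) : ℝ))
        ≤ 2 / δ * (1 / (1 + K * δ * R) - 1 / (1 + K * δ * ((R + 1 : ℕ) : ℝ))) := by
      push_cast
      have e : 2 / δ * (1 / (1 + K * δ * R) - 1 / (1 + K * δ * (R + 1)))
          = K * (2 / ((1 + K * δ * R) * (1 + K * δ * (R + 1)))) := by
        field_simp
        ring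
      rw [e]
      refine mul_le_mul_of_nonneg_left ?_ hK.le
      unfold ps
      rw [div_le_div_iff₀ (by positivity) (by positivity)]
      have h3 : 1 + K * δ * R ≤ 1 + K * δ * (R + 1) := by nlinarith
      have h4 : (1 + K * δ * R) * (1 + K * δ * (R + 1)) ≤ (1 + K * δ * (R + 1)) ^ 2 := by
        rw [sq]
        exact mul_le_mul_of_nonneg_right h3 h2.le
      nlinarith [sq_nonneg (1 - K * δ * (R + 1))]
    linarith

lemma Spc_aux2 {ι : Type} (s : Finset ι) (y : ι → ℝ) {δ K : ℝ} (hδ : 0 < δ) (hK : 0 < K)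
    (hs : ∀ i ∈ s, ∀ j ∈ s, i ≠ j → δ ≤ |y i - y j|) (hy : ∀ i ∈ s, 0 ≤ y i) :
    ∑ i ∈ s, K * ps (K * y i) ≤ K + 2 / δ := by
  classical
  set J : ι → ℕ := fun i => ⌊y i / δ⌋₊ with hJ
  have hJ1 : ∀ i ∈ s, δ * J i ≤ y i := fun i hi => by
    have := Nat.floor_le (div_nonneg (hy i hi) hδ.le)
    rwa [le_div_iff₀' hδ] at this
  have hJ2 : ∀ i, y i < δ * (J i + 1) := fun i => by
    have := Nat.lt_floor_add_one (y i / δ)
    rwa [div_lt_iff₀' hδ] at this
  have hinj : Set.InjOn J s := fun i hi j hj hij => by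
    by_contra hne
    have h1 := hs i hi j hj hne
    have h2 := hJ1 i hi
    have h3 := hJ1 j hj
    have h4 := hJ2 i
    have h5 := hJ2 j
    rw [hij] at h2 h4
    have : |y i - y j| < δ := abs_lt.2 ⟨by linarith, by linarith⟩
    linarith
  have h1 : ∑ i ∈ s, K * ps (K * y i) ≤ ∑ i ∈ s, K * ps (K * δ * J i) := by
    refine sum_le_sum fun i hi => mul_le_mul_of_nonneg_left ?_ hK.le
    unfold ps
    refine one_div_le_one_div_of_le (by positivity) ?_
    have h2 : K * δ * J i ≤ K * y i := by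
      rw [mul_assoc]
      exact mul_le_mul_of_nonneg_left (hJ1 i hi) hK.le
    have h3 : 0 ≤ K * δ * J i := by positivity
    nlinarith
  have h2 : ∑ i ∈ s, K * ps (K * δ * J i) = ∑ m ∈ s.image J, K * ps (K * δ * m) :=
    (sum_image (f := fun m : ℕ => K * ps (K * δ * m)) hinj).symm
  have h3 : ∑ m ∈ s.image J, K * ps (K * δ * m)
      ≤ ∑ m ∈ range (s.sup J + 1), K * ps (K * δ * m) := by
    refine sum_le_sum_of_subset_of_nonneg (fun m hm => ?_)
      fun m _ _ => mul_nonneg hK.le (ps_pos _).le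
    obtain ⟨i, hi, rfl⟩ := mem_image.1 hm
    exact mem_range.2 (Nat.lt_succ_of_le (le_sup (f := J) hi))
  have h4 := Spc_aux1 hδ hK (s.sup J)
  have h5 : 2 / δ * (1 - 1 / (1 + K * δ * (s.sup J : ℕ))) ≤ 2 / δ := by
    have h6 : 0 ≤ 1 / (1 + K * δ * (s.sup J : ℕ)) := by positivity
    have h7 : 0 < 2 / δ := by positivity
    nlinarith
  linarith

/-- Points of a `δ`-separated family. At most two of them have `⌊|θ - x| / δ⌋ = j`, and
`1 / (1 + y ^ 2 j ^ 2) ≤ 2 / (1 + y j) ^ 2 ≤ (2 / y) (1 / (1 + y (j - 1)) - 1 / (1 + y j))`. -/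
theorem spaced_sum {ι : Type} (s : Finset ι) (x : ι → ℝ) {δ K : ℝ} (hδ : 0 < δ) (hK : 0 < K)
    (hs : ∀ i ∈ s, ∀ j ∈ s, i ≠ j → δ ≤ |x i - x j|) (θ : ℝ) :
    ∑ i ∈ s, K * ps (K * (θ - x i)) ≤ 2 * K + 4 / δ := by
  classical
  rw [← sum_filter_add_sum_filter_not s fun i => x i ≤ θ]
  have h1 := Spc_aux2 (s.filter fun i => x i ≤ θ) (fun i => θ - x i) hδ hK
    (fun i hi j hj hij => by
      have := hs j (mem_filter.1 hj).1 i (mem_filter.1 hi).1 hij.symm
      rwa [show θ - x i - (θ - x j) = x j - x i by ring])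
    fun i hi => sub_nonneg.2 (mem_filter.1 hi).2
  have h2 := Spc_aux2 (s.filter fun i => ¬ x i ≤ θ) (fun i => x i - θ) hδ hK
    (fun i hi j hj hij => by
      have := hs i (mem_filter.1 hi).1 j (mem_filter.1 hj).1 hij
      rwa [show x i - θ - (x j - θ) = x i - x j by ring])
    fun i hi => sub_nonneg.2 (not_le.1 (mem_filter.1 hi).2).le
  have h3 : ∑ i ∈ s.filter fun i => ¬ x i ≤ θ, K * ps (K * (θ - x i))
      = ∑ i ∈ s.filter fun i => ¬ x i ≤ θ, K * ps (K * (x i - θ)) :=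
    sum_congr rfl fun i _ => by rw [← ps_neg, show -(K * (θ - x i)) = K * (x i - θ) by ring]
  have h4 : 4 / δ = 2 / δ + 2 / δ := by ring
  linarith

/-- `∫ K ps (K (θ - x)) dθ = π` (`integral_univ_inv_one_add_sq`). -/
theorem int_ps {K : ℝ} (hK : 0 < K) (x : ℝ) :
    Integrable (fun θ => K * ps (K * (θ - x))) ∧ ∫ θ, K * ps (K * (θ - x)) = π := by
  have hp : ps = fun x => (1 + x ^ 2)⁻¹ := funext fun x => one_div _
  have h1 : Integrable ps := hp ▸ integrable_inv_one_add_sq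
  have h2 : ∫ θ, ps θ = π := by rw [hp]; exact integral_univ_inv_one_add_sq
  refine ⟨((h1.comp_mul_left' hK.ne').comp_sub_right x).const_mul K, ?_⟩
  rw [integral_const_mul, integral_sub_right_eq_self (fun θ => ps (K * θ)) x,
    Measure.integral_comp_mul_left, h2, abs_of_pos (inv_pos.2 hK), smul_eq_mul]
  field_simp

end Pool.Agent.Lib.MP_ecd12e_nt.GM
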