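import Pool.Agent.Lib.MP_ecd12e_nt.GM.Poi

/-! The tail of the Poisson sum. -/

namespace Pool.Agent.Lib.MP_ecd12e_nt.GM

open Finset Real MeasureTheory
open Pool.Agent.Lib.MP_ecd12e_nt.Bar
open scoped ContDiff ComplexConjugate

theorem Tail_aux {g : ℤ → ℂ} {a : ℂ} (h : HasSum g a) {M : ℕ} (hM : 1 ≤ M) {c : ℝ} (hc : 0 ≤ c)
    (hg : ∀ m : ℤ, (M : ℤ) ≤ |m| → ‖g m‖ ≤ c * ((m : ℝ) ^ 2)⁻¹) :
    ‖a - ∑ m ∈ Ioo (-(M : ℤ)) M, g m‖ ≤ 4 * c / M := by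
  have h1 : HasSum (fun m => if m ∈ Ioo (-(M : ℤ)) M then g m else 0)
      (∑ m ∈ Ioo (-(M : ℤ)) M, g m) := by
    rw [← sum_congr rfl fun m hm => if_pos (t := g m) (e := 0) hm]
    exact hasSum_sum_of_ne_finset_zero fun m hm => if_neg hm
  have h2 := (h.sub h1).nat_add_neg
  have h0 : (0 : ℤ) ∈ Ioo (-(M : ℤ)) M := mem_Ioo.2 (by omega)
  rw [if_pos h0, sub_self, add_zero] at h2
  have h3 : ∀ m : ℤ, ‖g m - if m ∈ Ioo (-(M : ℤ)) M then g m else 0‖ ≤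
      if (M : ℤ) ≤ |m| then c * ((m : ℝ) ^ 2)⁻¹ else 0 := by
    intro m
    by_cases hm : (M : ℤ) ≤ |m|
    · rw [if_pos hm, if_neg fun h4 => not_lt.2 hm (abs_lt.2 (mem_Ioo.1 h4)), sub_zero]
      exact hg m hm
    · rw [if_neg hm, if_pos (mem_Ioo.2 (abs_lt.1 (not_le.1 hm))), sub_self, norm_zero]
  refine le_of_tendsto' h2.tendsto_sum_nat.norm fun n => (_root_.norm_sum_le _ _).trans ?_
  have h4 := sum_Ioo_inv_sq_le (α := ℝ) (M - 1) n
  rw [← Nat.cast_succ, Nat.succ_eq_add_one, Nat.sub_add_cancel hM] at h4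
  refine (sum_le_sum (g := fun i : ℕ => if M ≤ i then 2 * c * ((i : ℝ) ^ 2)⁻¹ else 0)
    fun i _ => ?_).trans ?_
  · refine (norm_add_le _ _).trans ((add_le_add (h3 _) (h3 _)).trans (le_of_eq ?_))
    simp only [abs_neg, Nat.abs_cast, Nat.cast_le, Int.cast_neg, Int.cast_natCast, neg_sq]
    split_ifs <;> ring
  · rw [← sum_filter, ← mul_sum, show (range n).filter (fun i => M ≤ i) = Ioo (M - 1) n from
      Finset.ext fun i => by rw [mem_filter, mem_range, mem_Ioo]; omega]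
    refine (mul_le_mul_of_nonneg_left h4 (by positivity)).trans (le_of_eq ?_)
    ring

/-- `kap_decay (5 B + 2)`; `∑_{|m| ≥ M} |m|^{-k} ≤ 4 M^{1-k}`; `M (T / (N M))^k ≤ (T / N) L^{1-k}`. -/
theorem tail (B : ℕ) : ∃ C : ℝ, 0 < C ∧ ∀ (N T M : ℕ) (L : ℝ), 1 ≤ N → 1 ≤ L → (N : ℝ) ≤ L ^ B →
    N ≤ T → T * L ≤ M * N → ∀ s : ℤ, |s| ≤ 8 * T →
      ‖kfull N s - N * kap s 0 - N * kB N (MM M) s‖ ≤ C * T / N ^ 5 := by
  obtain ⟨C, hC, H⟩ := kap_decay (5 * B + 2)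
  refine ⟨324 * 9 ^ (5 * B) * C, by positivity, fun N T M L hN hL hB hNT hM s hs => ?_⟩
  have hN1 : (1 : ℝ) ≤ N := by exact_mod_cast hN
  have hT1 : (1 : ℝ) ≤ T := by exact_mod_cast hN.trans hNT
  have hN0 : (0 : ℝ) < N := by linarith
  have hL0 : 0 < L := by linarith
  have hTM : (T : ℝ) ≤ M * N := (le_mul_of_one_le_right (by linarith) hL).trans hM
  have hM0 : (0 : ℝ) < M := (mul_pos_iff_of_pos_right hN0).1 (by linarith)
  have hs' : 1 + |(s : ℝ)| ≤ 9 * T := by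
    have h1 : |(s : ℝ)| ≤ 8 * T := by exact_mod_cast hs
    linarith
  have h1 := Tail_aux (poisson hN s) (M := M) (Nat.cast_pos.1 hM0)
    (c := N * C * (9 ^ (5 * B) / N ^ 5) * (9 * T / N) ^ 2) (by positivity) fun m hm => by
      have h2 : (M : ℝ) ≤ |(m : ℝ)| := by exact_mod_cast hm
      have h3 : 0 < |(m : ℝ)| := hM0.trans_le h2
      have h4 := H s (m * N) (mul_ne_zero (abs_pos.1 h3) hN0.ne')
      rw [abs_mul, Nat.abs_cast, pow_add] at h4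
      have h5 : (1 + |(s : ℝ)|) / (|(m : ℝ)| * N) ≤ 9 / L := by
        rw [div_le_div_iff₀ (by positivity) hL0]
        calc (1 + |(s : ℝ)|) * L ≤ 9 * T * L := by gcongr
          _ = 9 * (T * L) := by ring
          _ ≤ 9 * (M * N) := by gcongr
          _ ≤ 9 * (|(m : ℝ)| * N) := by gcongr
      have h6 : ((1 + |(s : ℝ)|) / (|(m : ℝ)| * N)) ^ (5 * B) ≤ 9 ^ (5 * B) / N ^ 5 := by
        refine (pow_le_pow_left₀ (by positivity) h5 _).trans ?_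
        rw [div_pow, pow_mul' L]
        gcongr
      have h7 : ((1 + |(s : ℝ)|) / (|(m : ℝ)| * N)) ^ 2 ≤ (9 * T / N) ^ 2 * ((m : ℝ) ^ 2)⁻¹ := by
        rw [← sq_abs (m : ℝ), ← inv_pow, ← mul_pow, ← div_eq_mul_inv, div_div, mul_comm (N : ℝ)]
        gcongr
      rw [norm_mul, Complex.norm_natCast]
      refine (mul_le_mul_of_nonneg_left (h4.trans (mul_le_mul_of_nonneg_left
        (mul_le_mul h6 h7 (by positivity) (by positivity)) hC.le)) hN0.le).trans (le_of_eq ?_)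
      ring
  have h0 : (0 : ℤ) ∈ Ioo (-(M : ℤ)) M := by
    have h2 : 0 < M := Nat.cast_pos.1 hM0
    exact mem_Ioo.2 (by omega)
  rw [← add_sum_erase _ _ h0, ← mul_sum, Int.cast_zero, zero_mul, ← sub_sub] at h1
  refine h1.trans ?_
  have h2 : 4 * (N * C * (9 ^ (5 * B) / N ^ 5) * (9 * T / N) ^ 2) / M =
      324 * 9 ^ (5 * B) * C * T / N ^ 5 * (T / (M * N)) := by
    field_simp
    norm_num
  rw [h2]
  exact mul_le_of_le_one_right (by positivity) ((div_le_one (by positivity)).2 hTM)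

end Pool.Agent.Lib.MP_ecd12e_nt.GM
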